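import Pool.Agent.LibLin93.Defs
import Pool.Agent.LibCI99.HLDefs

/-!
# Uniform Hardy-Littlewood asymptotics and large gaps: definitions
-/

set_option autoImplicit false

namespace Pool.Agent.LibUHL

open Finset Filter Topology MeasureTheory
open Pool.Agent.LibLin93 (V)
open Pool.Agent.LibCI99 (cnt hlConst dlt vee prim occ goodT)
open scoped ENNReal

/-- **Uniform Hardy-Littlewood law of exponent `d`** for the set `A`: for every `q` and all large
`x`, for all classes `a mod q` and all `H ⊆ [0, x^(1/4)]` with `|H| ≤ (log x)^d`, the number of the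
`n ≤ x`, `n ≡ a (mod q)`, with `n + H ⊆ A` is the Hardy-Littlewood main term up to
`x exp (-(log x)^d)`. -/
def UHL (d : ℝ) (A : Set ℕ) : Prop :=
  ∀ q : ℕ, 0 < q → ∀ᶠ x : ℕ in atTop, ∀ (a : ℕ) (H : Finset ℕ), (∀ h ∈ H, (h : ℝ) ≤ (x : ℝ) ^ (1 / 4 : ℝ)) →
    (#H : ℝ) ≤ Real.log x ^ d →
      |cnt A H q a x - hlConst q a H * ∫ t in (2 : ℝ)..x, 1 / Real.log t ^ #H| ≤
        x * Real.exp (-(Real.log x ^ d))

/-- the limsup of the gaps divided by `f`. -/
noncomputable def gapLim (f : ℕ → ℝ) (B : Set ℕ) : ℝ≥0∞ :=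
  limsup (fun n : ℕ => ENNReal.ofReal
    (((Nat.nth (· ∈ B) (n + 1) : ℝ) - (Nat.nth (· ∈ B) n : ℝ)) / f (Nat.nth (· ∈ B) n))) atTop

/-! ### the model: the scale `j` is `[2^j, 2^(j+1))`, cut into `TB j` blocks of length `NB j` -/

/-- the length of the blocks of the scale `j` -/
def NB (j : ℕ) : ℕ := 2 ^ (j - j / 4)

/-- the number of the blocks of the scale `j` -/
def TB (j : ℕ) : ℕ := 2 ^ (j / 4)

/-- the start of the block `i < TB j` of the scale `j` -/
def u (j i : ℕ) : ℕ := 2 ^ j + i * NB j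

/-- the small primes of the scale `j`, whose class is `0 mod p`, are the primes `≤ wl j` -/
def wl (j : ℕ) : ℕ := Nat.log 2 j

open Classical in
/-- the sifting limit at `n`: the largest `z ≤ n` with `V z ≥ 1 / log n` -/
noncomputable def zz (n : ℕ) : ℕ := Nat.findGreatest (fun z => 1 / Real.log n ≤ V z) n

/-- the primes of the block `(j,i)` with a random class -/
noncomputable def PS (j i : ℕ) : Finset ℕ :=
  (range (zz (u j i))).filter (fun p => p.Prime ∧ wl j < p)

/-- the modulus of the block -/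
noncomputable def QQ (j i : ℕ) : ℕ := ∏ p ∈ PS j i, p

open Classical in
/-- the set of the block `(j,i)` for the random shift `m ∈ [0, QQ j i)` -/
noncomputable def XX (j i m : ℕ) : Finset ℕ :=
  (Ico (u j i) (u j i + NB j)).filter
    (fun n => (∀ p : ℕ, p.Prime → p ≤ wl j → ¬ p ∣ n) ∧ ∀ p ∈ PS j i, ¬ p ∣ n + m)

open Classical in
/-- the number of the tuples in the block, `n < x` -/
noncomputable def Yc (j i m x q a : ℕ) (H : Finset ℕ) : ℝ :=
  #{n ∈ Ico (u j i) (u j i + NB j) | n < x ∧ n ≡ a [MOD q] ∧ ∀ h ∈ H, n + h ∈ XX j i m}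

/-- the probability of the event that a tuple avoids the random classes -/
noncomputable def GP (j i : ℕ) (H : Finset ℕ) : ℝ := ∏ p ∈ PS j i, (1 - (occ H p : ℝ) / p)

open Classical in
/-- the mean of `Yc` -/
noncomputable def Mn (j i x q a : ℕ) (H : Finset ℕ) : ℝ :=
  #{n ∈ Ico (u j i) (u j i + NB j) | n < x ∧ n ≡ a [MOD q] ∧ (∀ h ∈ H, n + h < u j i + NB j) ∧
    ∀ h ∈ H, ∀ p : ℕ, p.Prime → p ≤ wl j → ¬ p ∣ n + h} * GP j i H

/-- the set made of the blocks of the scales `≥ J` with the shifts `m j i` -/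
def AA (J : ℕ) (m : ℕ → ℕ → ℕ) : Set ℕ :=
  {n | ∃ j i : ℕ, J ≤ j ∧ i < TB j ∧ n ∈ XX j i (m j i)}

end Pool.Agent.LibUHL
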