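import Pool.Agent.LibUHL.Defs
import Pool.Agent.LibLin93.A5

/-! Row UH 01: the sifting limit. -/

set_option autoImplicit false

namespace Pool.Agent.LibUHL

open Finset Filter Topology MeasureTheory

open Pool.Agent.LibLin93 (V)

private lemma UH_01_exp_gt : (1 : ℝ) / 2 < Real.exp (-Real.eulerMascheroniConstant) := by
  have h1 : -Real.log 2 < -Real.eulerMascheroniConstant := by
    have := Real.eulerMascheroniConstant_lt_two_thirds
    have := Real.log_two_gt_d9
    linarith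
  calc (1 : ℝ) / 2 = Real.exp (-Real.log 2) := by
        rw [Real.exp_neg, Real.exp_log (by norm_num)]; norm_num
    _ < _ := Real.exp_lt_exp.2 h1

private lemma UH_01_exp_lt : Real.exp (-Real.eulerMascheroniConstant) < 1 := by
  have := Real.one_half_lt_eulerMascheroniConstant
  rw [Real.exp_lt_one_iff]
  linarith

private lemma UH_01_V_succ (z : ℕ) (hz : 2 ≤ z) : V z * (1 - 1 / (z : ℝ)) ≤ V (z + 1) := by
  have hVpos := Pool.Agent.LibLin93.V_pos z
  have hz' : (0 : ℝ) < z := by positivity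
  by_cases hp : z.Prime
  · have : V (z + 1) = V z * (1 - 1 / (z : ℝ)) := by
      unfold V
      rw [Finset.range_add_one, Finset.filter_insert, if_pos hp, Finset.prod_insert (by simp), mul_comm]
    rw [this]
  · have : V (z + 1) = V z := by
      unfold V
      rw [Finset.range_add_one, Finset.filter_insert, if_neg hp]
    rw [this]
    have h1 : (0 : ℝ) ≤ 1 / (z : ℝ) := by positivity
    nlinarith

/-- PROOF. `V z log z → e^(-γ)` (`mertens_V`) and `1/2 < e^(-γ) < 1`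
(`Real.eulerMascheroniConstant_lt_two_thirds`, `Real.one_half_lt_eulerMascheroniConstant`:
`exp (-2/3) > 1/2` because `log 2 > 0.693`). For `z₀ = ⌈√n⌉` (`≤ n`) `V z₀ log n → 2 e^(-γ) > 1`,
so `z₀` satisfies the predicate of `Nat.findGreatest` and `√n ≤ zz n`. The predicate holds at
`zz n` (`Nat.findGreatest_spec`): `1 ≤ V (zz n) log n`. `V n log n → e^(-γ) < 1`, so `zz n < n`.
Then `z = zz n + 1 ≤ n` does not satisfy the predicate: `V (zz n + 1) log n < 1`, and
`V (zz n + 1) ≥ V (zz n) (1 - 1/zz n)` (equal to `V (zz n)` if `zz n` is not prime), so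
`V (zz n) log n < 1/(1 - 1/zz n) ≤ 1 + 2/zz n ≤ 1 + 2/√n`. -/
theorem zz_spec : ∀ᶠ n : ℕ in atTop, √(n : ℝ) ≤ zz n ∧ zz n < n ∧ 1 ≤ V (zz n) * Real.log n ∧
    V (zz n) * Real.log n ≤ 1 + 2 / √(n : ℝ) := by
  classical
  have hM := Pool.Agent.LibLin93.mertens_V
  set g := Real.exp (-Real.eulerMascheroniConstant) with hg
  have hg1 : (1 : ℝ) / 2 < g := UH_01_exp_gt
  have hg2 : g < 1 := UH_01_exp_lt
  -- the ceiling of the square root tends to infinity
  have hceil : Tendsto (fun n : ℕ => ⌈√(n : ℝ)⌉₊) atTop atTop :=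
    (tendsto_nat_ceil_atTop (α := ℝ)).comp
      (Real.tendsto_sqrt_atTop.comp tendsto_natCast_atTop_atTop)
  have hMc : Tendsto (fun n : ℕ => V ⌈√(n : ℝ)⌉₊ * Real.log (⌈√(n : ℝ)⌉₊ : ℕ)) atTop (𝓝 g) :=
    hM.comp hceil
  have hev1 : ∀ᶠ n : ℕ in atTop, V n * Real.log n < 1 := hM.eventually_lt_const hg2
  -- choose a constant between 1/2 and g
  obtain ⟨c, hc1, hc2⟩ := exists_between hg1
  have hev2 : ∀ᶠ n : ℕ in atTop, c < V ⌈√(n : ℝ)⌉₊ * Real.log (⌈√(n : ℝ)⌉₊ : ℕ) :=
    hMc.eventually_const_lt hc2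
  -- log ⌈√n⌉ ≤ 2c · (1/2) log n eventually
  have hlog : ∀ᶠ n : ℕ in atTop, Real.log (⌈√(n : ℝ)⌉₊ : ℕ) ≤ c * Real.log n := by
    have h1 : ∀ᶠ n : ℕ in atTop, Real.log 2 / (c - 1 / 2) ≤ Real.log n :=
      (Real.tendsto_log_atTop.comp tendsto_natCast_atTop_atTop).eventually_ge_atTop _
    filter_upwards [h1, eventually_ge_atTop 1] with n hn hn1
    have hn1' : (1 : ℝ) ≤ n := by exact_mod_cast hn1
    have hs : (1 : ℝ) ≤ √(n : ℝ) := by
      rw [Real.one_le_sqrt]; exact hn1'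
    have hc : (⌈√(n : ℝ)⌉₊ : ℝ) ≤ 2 * √(n : ℝ) := by
      have := Nat.ceil_lt_add_one (Real.sqrt_nonneg (n : ℝ))
      linarith
    have hpos : (0 : ℝ) < (⌈√(n : ℝ)⌉₊ : ℝ) := by
      have : √(n : ℝ) ≤ ⌈√(n : ℝ)⌉₊ := Nat.le_ceil _
      linarith
    have h2 : Real.log (⌈√(n : ℝ)⌉₊ : ℕ) ≤ Real.log 2 + Real.log n / 2 := by
      calc Real.log (⌈√(n : ℝ)⌉₊ : ℕ) ≤ Real.log (2 * √(n : ℝ)) := Real.log_le_log hpos hc
        _ = Real.log 2 + Real.log n / 2 := by
          rw [Real.log_mul (by norm_num) (by positivity), Real.log_sqrt (by positivity)]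
    have h3 : Real.log 2 ≤ (c - 1 / 2) * Real.log n := by
      rw [div_le_iff₀ (by linarith)] at hn
      linarith
    linarith
  filter_upwards [hev1, hev2, hlog, eventually_ge_atTop 16] with n h1 h2 h3 hn
  have hn' : (16 : ℝ) ≤ n := by exact_mod_cast hn
  have hlogpos : 0 < Real.log n := Real.log_pos (by linarith)
  have hs4 : (4 : ℝ) ≤ √(n : ℝ) := by
    rw [Real.le_sqrt (by norm_num) (by positivity)]; norm_num; exact hn
  have hsle : √(n : ℝ) ≤ n / 4 := by
    have hsq : √(n : ℝ) * √(n : ℝ) = n := Real.mul_self_sqrt (by positivity)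
    nlinarith
  have hceil_le : ⌈√(n : ℝ)⌉₊ ≤ n := by
    apply Nat.ceil_le.2
    linarith
  have hVp := Pool.Agent.LibLin93.V_pos ⌈√(n : ℝ)⌉₊
  have hP0 : 1 / Real.log n ≤ V ⌈√(n : ℝ)⌉₊ := by
    rw [div_le_iff₀ hlogpos]
    have hcpos : 0 < c := by linarith
    have h4 : V ⌈√(n : ℝ)⌉₊ * Real.log (⌈√(n : ℝ)⌉₊ : ℕ) ≤ V ⌈√(n : ℝ)⌉₊ * (c * Real.log n) :=
      mul_le_mul_of_nonneg_left h3 hVp.le
    have h5 : c * 1 < c * (V ⌈√(n : ℝ)⌉₊ * Real.log n) := by
      calc c * 1 = c := mul_one c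
        _ < V ⌈√(n : ℝ)⌉₊ * Real.log (⌈√(n : ℝ)⌉₊ : ℕ) := h2
        _ ≤ V ⌈√(n : ℝ)⌉₊ * (c * Real.log n) := h4
        _ = c * (V ⌈√(n : ℝ)⌉₊ * Real.log n) := by ring
    exact (lt_of_mul_lt_mul_left h5 hcpos.le).le
  have hge : ⌈√(n : ℝ)⌉₊ ≤ zz n := by
    unfold zz
    exact Nat.le_findGreatest hceil_le hP0
  have hPz : 1 / Real.log n ≤ V (zz n) := by
    unfold zz
    exact Nat.findGreatest_spec (P := fun z => 1 / Real.log n ≤ V z) hceil_le hP0
  have hPz' : 1 ≤ V (zz n) * Real.log n := by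
    rwa [div_le_iff₀ hlogpos] at hPz
  have hzle : zz n ≤ n := by
    unfold zz
    exact Nat.findGreatest_le n
  have hzlt : zz n < n := by
    rcases lt_or_eq_of_le hzle with h | h
    · exact h
    · exfalso
      rw [h] at hPz'
      linarith
  have hsz : √(n : ℝ) ≤ zz n := by
    calc √(n : ℝ) ≤ (⌈√(n : ℝ)⌉₊ : ℝ) := Nat.le_ceil _
      _ ≤ zz n := by exact_mod_cast hge
  refine ⟨hsz, hzlt, hPz', ?_⟩
  have hnP : ¬ (1 / Real.log n ≤ V (zz n + 1)) := by
    have := Nat.findGreatest_is_greatest (P := fun z => 1 / Real.log n ≤ V z) (n := n)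
      (k := zz n + 1) (by unfold zz; exact Nat.lt_succ_self _) hzlt
    exact this
  have hz4 : (4 : ℝ) ≤ zz n := hs4.trans hsz
  have hz2 : 2 ≤ zz n := by
    have : (2 : ℝ) ≤ zz n := by linarith
    exact_mod_cast this
  have hsucc := UH_01_V_succ (zz n) hz2
  have h6 : V (zz n) * (1 - 1 / (zz n : ℝ)) * Real.log n < 1 := by
    have h7 : V (zz n + 1) * Real.log n < 1 := by
      have := not_le.1 hnP
      rwa [lt_div_iff₀ hlogpos] at this
    have h8 : V (zz n) * (1 - 1 / (zz n : ℝ)) * Real.log n ≤ V (zz n + 1) * Real.log n :=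
      mul_le_mul_of_nonneg_right hsucc hlogpos.le
    linarith
  set z : ℝ := (zz n : ℝ) with hz
  have hzpos : 0 < z := by linarith
  have h9 : V (zz n) * Real.log n ≤ 1 + 2 / z := by
    have hA : V (zz n) * Real.log n * ((z - 1) / z) < 1 := by
      have : (z - 1) / z = 1 - 1 / z := by field_simp
      rw [this]
      calc V (zz n) * Real.log n * (1 - 1 / z) = V (zz n) * (1 - 1 / z) * Real.log n := by ring
        _ < 1 := h6
    have hB : V (zz n) * Real.log n < z / (z - 1) := by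
      rw [lt_div_iff₀ (by linarith)]
      have hC : V (zz n) * Real.log n * ((z - 1) / z) * z < 1 * z :=
        mul_lt_mul_of_pos_right hA hzpos
      have hD : V (zz n) * Real.log n * ((z - 1) / z) * z = V (zz n) * Real.log n * (z - 1) := by
        field_simp
      linarith
    have hE : z / (z - 1) ≤ 1 + 2 / z := by
      rw [div_le_iff₀ (by linarith)]
      have : (1 + 2 / z) * (z - 1) = z + 1 - 2 / z := by field_simp; ring
      rw [this]
      have : 2 / z ≤ 1 := by rw [div_le_one hzpos]; linarith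
      linarith
    linarith
  have h10 : 2 / z ≤ 2 / √(n : ℝ) := by
    apply div_le_div_of_nonneg_left (by norm_num) (by linarith) hsz
  linarith

end Pool.Agent.LibUHL
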