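import Pool.Agent.LibUHL.Defs
import Pool.Agent.LibCI99.HL1

/-! Row UH 02: Chinese remainder theorem, two forms. -/

set_option autoImplicit false

namespace Pool.Agent.LibUHL

open Finset Filter Topology MeasureTheory

open Pool.Agent.LibCI99 (occ)

/-- PROOF. The map `m ↦ (m % Q₁, m % Q₂)` is a bijection from `range (Q₁ * Q₂)` to
`range Q₁ ×ˢ range Q₂` (`Nat.chineseRemainder`, injective by `Nat.modEq_and_modEq_iff_modEq_mul`,
equal cardinalities). -/
theorem crt_sum (Q₁ Q₂ : ℕ) (h1 : 0 < Q₁) (h2 : 0 < Q₂) (h : Nat.Coprime Q₁ Q₂) (f : ℕ → ℕ → ℝ) :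
    ∑ m ∈ range (Q₁ * Q₂), f (m % Q₁) (m % Q₂) = ∑ x ∈ range Q₁, ∑ y ∈ range Q₂, f x y := by
  rw [← Finset.sum_product' (range Q₁) (range Q₂) f]
  refine Finset.sum_bij (fun m _ => (m % Q₁, m % Q₂)) ?_ ?_ ?_ ?_
  · intro m hm
    exact Finset.mem_product.2 ⟨Finset.mem_range.2 (Nat.mod_lt _ h1), Finset.mem_range.2 (Nat.mod_lt _ h2)⟩
  · intro m hm n hn hmn
    simp only [Finset.mem_range, Prod.mk.injEq] at hm hn hmn
    have h3 : m ≡ n [MOD Q₁ * Q₂] := (Nat.modEq_and_modEq_iff_modEq_mul h).1 ⟨hmn.1, hmn.2⟩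
    exact Nat.ModEq.eq_of_lt_of_lt h3 hm hn
  · rintro ⟨x, y⟩ hxy
    simp only [Finset.mem_product, Finset.mem_range] at hxy
    have h3 := (Nat.chineseRemainder h x y).2
    have h4 := Nat.chineseRemainder_lt_mul h x y h1.ne' h2.ne'
    refine ⟨(Nat.chineseRemainder h x y : ℕ), Finset.mem_range.2 h4, ?_⟩
    simp only [Prod.mk.injEq]
    constructor
    · rw [h3.1, Nat.mod_eq_of_lt hxy.1]
    · rw [h3.2, Nat.mod_eq_of_lt hxy.2]
  · intro m hm
    rfl

open Classical in
/-- PROOF. Induction on `s` with `crt_sum` (or a counting form of it): for one prime `p` the number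
of the `r < p` with `p ∤ n + r` for all `n ∈ F` is `p - occ F p`, because the excluded `r` are the
negatives of the classes of `F` mod `p`, and `occ F p = #(F.image (· % p))`. Compare
`LibCI99/HL1.lean` (`hl1_crt`, `hl1_occ`). -/
theorem card_avoid (s : Finset ℕ) (hs : ∀ p ∈ s, p.Prime) (F : Finset ℕ) :
    #{m ∈ range (∏ p ∈ s, p) | ∀ p ∈ s, ∀ n ∈ F, ¬ p ∣ n + m} = ∏ p ∈ s, (p - occ F p) := by
  induction s using Finset.induction_on with
  | empty =>
    simp
  | insert p s hp ih =>
    have hs' : ∀ q ∈ s, q.Prime := fun q hq => hs q (Finset.mem_insert_of_mem hq)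
    have hpp : p.Prime := hs p (Finset.mem_insert_self _ _)
    have ih' := ih hs'
    rw [Finset.prod_insert hp, Finset.prod_insert hp, mul_comm p, mul_comm (p - occ F p), ← ih']
    have hM : 0 < ∏ q ∈ s, q := Finset.prod_pos (fun q hq => (hs' q hq).pos)
    have hc : Nat.Coprime (∏ q ∈ s, q) p := by
      apply Nat.Coprime.prod_left
      intro q hq
      exact (Nat.coprime_primes (hs' q hq) hpp).2 (fun e => hp (e ▸ hq))
    have hocc := Pool.Agent.LibCI99.hl1_occ F p hpp.pos
    have hocc2 : ((Finset.range p).filter (fun m => ∀ n ∈ F, ¬ p ∣ n + m)).card = p - occ F p := by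
      have h7 : ((Finset.range p).filter (fun m => ∀ n ∈ F, ¬ p ∣ n + m)) =
          ((Finset.range p).filter (fun n => ∀ h ∈ F, ¬ p ∣ n + h)) := by
        apply Finset.filter_congr
        intro m hm
        constructor
        · intro h n hn
          rw [add_comm]
          exact h n hn
        · intro h n hn
          rw [add_comm]
          exact h n hn
      rw [h7]
      omega
    have hkey := Pool.Agent.LibCI99.hl1_crt (∏ q ∈ s, q) p hM hpp.pos hc
      (fun m => ∀ q ∈ s, ∀ n ∈ F, ¬ q ∣ n + m) (fun m => ∀ n ∈ F, ¬ p ∣ n + m) ?_ ?_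
    · rw [hocc2] at hkey
      rw [← hkey]
      congr 1
      apply Finset.filter_congr
      intro m hm
      rw [Finset.forall_mem_insert]
      exact and_comm
    · intro m
      constructor
      · intro h q hq n hn hd
        refine h q hq n hn ?_
        have hqM : q ∣ ∏ q ∈ s, q := Finset.dvd_prod_of_mem _ hq
        have : n + m % (∏ q ∈ s, q) ≡ n + m [MOD q] :=
          Nat.ModEq.add_left n ((Nat.mod_modEq m _).of_dvd hqM)
        exact (Nat.ModEq.dvd_iff this dvd_rfl).2 hd
      · intro h q hq n hn hd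
        refine h q hq n hn ?_
        have hqM : q ∣ ∏ q ∈ s, q := Finset.dvd_prod_of_mem _ hq
        have : n + m % (∏ q ∈ s, q) ≡ n + m [MOD q] :=
          Nat.ModEq.add_left n ((Nat.mod_modEq m _).of_dvd hqM)
        exact (Nat.ModEq.dvd_iff this dvd_rfl).1 hd
    · intro m
      constructor
      · intro h n hn hd
        refine h n hn ?_
        have : n + m % p ≡ n + m [MOD p] := Nat.ModEq.add_left n (Nat.mod_modEq m _)
        exact (Nat.ModEq.dvd_iff this dvd_rfl).2 hd
      · intro h n hn hd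
        refine h n hn ?_
        have : n + m % p ≡ n + m [MOD p] := Nat.ModEq.add_left n (Nat.mod_modEq m _)
        exact (Nat.ModEq.dvd_iff this dvd_rfl).1 hd

/-- PROOF. `n + ·` is a bijection of the classes mod `p`. -/
theorem occ_shift (H : Finset ℕ) (n p : ℕ) (hp : 0 < p) : occ (H.image (fun h => n + h)) p = occ H p := by
  unfold occ
  rw [Finset.image_image]
  have h1 : (H.image ((fun h => h % p) ∘ fun h => n + h)) =
      (H.image (fun h => h % p)).image (fun r => (n + r) % p) := by
    rw [Finset.image_image]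
    apply Finset.image_congr
    intro h hh
    simp only [Function.comp]
    rw [Nat.add_mod, Nat.add_mod n (h % p), Nat.mod_mod]
  rw [h1]
  apply Finset.card_image_of_injOn
  intro r hr s hs hrs
  simp only [Finset.coe_image, Set.mem_image, Finset.mem_coe] at hr hs
  obtain ⟨r', _, rfl⟩ := hr
  obtain ⟨s', _, rfl⟩ := hs
  have h3 := Nat.mod_lt r' hp
  have h4 := Nat.mod_lt s' hp
  have h5 : n + r' % p ≡ n + s' % p [MOD p] := hrs
  exact Nat.ModEq.eq_of_lt_of_lt (Nat.ModEq.add_left_cancel' n h5) h3 h4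

end Pool.Agent.LibUHL
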