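import Pool.Agent.LibUHL.U02

/-! Row UH 03: the mean of the number of the tuples in a block. -/

set_option autoImplicit false

namespace Pool.Agent.LibUHL

open Finset Filter Topology MeasureTheory

open Pool.Agent.LibCI99 (occ)

theorem uh03_prime {j i p : ℕ} (hp : p ∈ PS j i) : p.Prime := by
  unfold PS at hp
  exact (Finset.mem_filter.1 hp).2.1

theorem uh03_occ_le (H : Finset ℕ) {p : ℕ} (hp : 0 < p) : occ H p ≤ p := by
  have h := Pool.Agent.LibCI99.hl1_occ H p hp
  omega

theorem uh03_factor (H : Finset ℕ) {p : ℕ} (hp : 0 < p) :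
    0 ≤ 1 - (occ H p : ℝ) / p ∧ 1 - (occ H p : ℝ) / p ≤ 1 := by
  have hp' : (0 : ℝ) < p := by exact_mod_cast hp
  have h1 : (occ H p : ℝ) ≤ p := by exact_mod_cast uh03_occ_le H hp
  have h2 : (occ H p : ℝ) / p ≤ 1 := (div_le_one hp').2 h1
  have h3 : 0 ≤ (occ H p : ℝ) / p := by positivity
  constructor <;> linarith

theorem QQ_pos (j i : ℕ) : 0 < QQ j i := by
  unfold QQ
  exact Finset.prod_pos (fun p hp => (uh03_prime hp).pos)

/-- PROOF. `0 ≤ occ H p ≤ p`. -/
theorem GP_nonneg (j i : ℕ) (H : Finset ℕ) : 0 ≤ GP j i H := by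
  unfold GP
  exact Finset.prod_nonneg (fun p hp => (uh03_factor H (uh03_prime hp).pos).1)

theorem GP_le_one (j i : ℕ) (H : Finset ℕ) : GP j i H ≤ 1 := by
  unfold GP
  exact Finset.prod_le_one (fun p hp => (uh03_factor H (uh03_prime hp).pos).1)
    (fun p hp => (uh03_factor H (uh03_prime hp).pos).2)

theorem Yc_nonneg (j i m x q a : ℕ) (H : Finset ℕ) : 0 ≤ Yc j i m x q a H := by
  unfold Yc
  exact Nat.cast_nonneg _

theorem Yc_le (j i m x q a : ℕ) (H : Finset ℕ) : Yc j i m x q a H ≤ NB j := by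
  unfold Yc
  have h1 := Finset.card_filter_le (Ico (u j i) (u j i + NB j))
    (fun n => n < x ∧ n ≡ a [MOD q] ∧ ∀ h ∈ H, n + h ∈ XX j i m)
  rw [Nat.card_Ico, Nat.add_sub_cancel_left] at h1
  exact_mod_cast h1

/-- PROOF. Exchange the sums over `m` and `n`. For `n` in the block, `n + h ≥ u j i` always, so
`n + h ∈ XX j i m` for all `h ∈ H` iff `n + h < u j i + NB j`, no prime `≤ wl j` divides `n + h`
and no `p ∈ PS j i` divides `n + h + m`, for all `h ∈ H`. The first two conditions do not depend on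
`m`; the number of the `m` with the third one is `∏_{p ∈ PS j i} (p - occ (n + H) p)` by
`card_avoid`, `occ (n + H) p = occ H p` (`occ_shift`), and this is `QQ j i * GP j i H`
(`occ H p ≤ p`, so the natural subtraction is the real one). -/
theorem mean_Yc (j i x q a : ℕ) (H : Finset ℕ) :
    ∑ m ∈ range (QQ j i), Yc j i m x q a H = QQ j i * Mn j i x q a H := by
  classical
  obtain ⟨S, hS⟩ : ∃ S : Finset ℕ, S = {n ∈ Ico (u j i) (u j i + NB j) | n < x ∧ n ≡ a [MOD q] ∧
      (∀ h ∈ H, n + h < u j i + NB j) ∧ ∀ h ∈ H, ∀ p : ℕ, p.Prime → p ≤ wl j → ¬ p ∣ n + h} := ⟨_, rfl⟩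
  obtain ⟨D, hD⟩ : ∃ D : ℕ → ℕ → Prop, ∀ n m, (D n m ↔
      ∀ p ∈ PS j i, ∀ k ∈ H.image (fun h => n + h), ¬ p ∣ k + m) := ⟨_, fun _ _ => Iff.rfl⟩
  have hY : ∀ m, Yc j i m x q a H = ∑ n ∈ S, (if D n m then (1 : ℝ) else 0) := by
    intro m
    unfold Yc
    rw [← Finset.sum_filter, Finset.sum_const, nsmul_eq_mul, mul_one]
    congr 2
    rw [hS, Finset.filter_filter]
    apply Finset.filter_congr
    intro n hn
    rw [Finset.mem_Ico] at hn
    rw [hD]
    constructor
    · rintro ⟨h1, h2, h3⟩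
      refine ⟨⟨h1, h2, ?_, ?_⟩, ?_⟩
      · intro h hh
        have := h3 h hh
        unfold XX at this
        exact (Finset.mem_Ico.1 (Finset.mem_filter.1 this).1).2
      · intro h hh
        have := h3 h hh
        unfold XX at this
        exact (Finset.mem_filter.1 this).2.1
      · intro p hp k hk
        rw [Finset.mem_image] at hk
        obtain ⟨h, hh, rfl⟩ := hk
        have := h3 h hh
        unfold XX at this
        exact (Finset.mem_filter.1 this).2.2 p hp
    · rintro ⟨⟨h1, h2, h3, h4⟩, h5⟩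
      refine ⟨h1, h2, ?_⟩
      intro h hh
      unfold XX
      rw [Finset.mem_filter, Finset.mem_Ico]
      exact ⟨⟨by omega, h3 h hh⟩, h4 h hh, fun p hp => h5 p hp _ (Finset.mem_image_of_mem _ hh)⟩
  have hcount : ∀ n, ∑ m ∈ range (QQ j i), (if D n m then (1 : ℝ) else 0) = QQ j i * GP j i H := by
    intro n
    rw [← Finset.sum_filter, Finset.sum_const, nsmul_eq_mul, mul_one]
    have h1 := card_avoid (PS j i) (fun p hp => uh03_prime hp) (H.image (fun h => n + h))
    have h2 : ((#{m ∈ range (QQ j i) | D n m} : ℕ) : ℝ) =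
        ((∏ p ∈ PS j i, (p - occ (H.image (fun h => n + h)) p) : ℕ) : ℝ) := by
      rw [← h1]
      unfold QQ
      congr 2
      apply Finset.filter_congr
      intro m _
      exact hD n m
    rw [h2]
    unfold QQ GP
    rw [Nat.cast_prod, Nat.cast_prod, ← Finset.prod_mul_distrib]
    apply Finset.prod_congr rfl
    intro p hp
    have hpp := (uh03_prime hp).pos
    rw [occ_shift H n p hpp, Nat.cast_sub (uh03_occ_le H hpp)]
    have hp' : (p : ℝ) ≠ 0 := by exact_mod_cast hpp.ne'
    field_simp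
  have hM : Mn j i x q a H = (#S : ℝ) * GP j i H := by
    unfold Mn
    rw [hS]
  simp_rw [hY]
  rw [Finset.sum_comm, Finset.sum_congr rfl (fun n _ => hcount n), Finset.sum_const, nsmul_eq_mul, hM]
  ring

end Pool.Agent.LibUHL
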