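import Pool.Agent.LibUHL.U02

/-! Row UH 04: the exponential moment over the large primes. -/

set_option autoImplicit false

namespace Pool.Agent.LibUHL

open Finset Filter Topology MeasureTheory

theorem UH04a_exp (x η : ℝ) (hx : 0 ≤ x) (hxη : x ≤ η) (hη1 : η ≤ 1) :
    Real.exp x ≤ 1 + (1 + η) * x := by
  have h1 : |x| ≤ 1 := by rw [abs_of_nonneg hx]; linarith
  have h := Real.abs_exp_sub_one_sub_id_le h1
  have h2 := (abs_le.mp h).2
  nlinarith

theorem UH04a_sum (p : ℕ) (hp : 0 < p) (W : Finset ℕ) :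
    ∑ r ∈ range p, #{v ∈ W | p ∣ v + r} = #W := by
  have h1 : ∑ r ∈ range p, #{v ∈ W | p ∣ v + r} = ∑ v ∈ W, #{r ∈ range p | p ∣ v + r} := by
    simp only [Finset.card_filter]
    exact Finset.sum_comm
  rw [h1]
  have h2 : ∀ v ∈ W, #{r ∈ range p | p ∣ v + r} = 1 := by
    intro v _
    rw [Finset.card_eq_one]
    refine ⟨(p - v % p) % p, ?_⟩
    ext r
    simp only [Finset.mem_filter, Finset.mem_range, Finset.mem_singleton]
    have hvp : v % p < p := Nat.mod_lt _ hp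
    have key : p ∣ v + r ↔ r ≡ p - v % p [MOD p] := by
      have e1 : v % p + (p - v % p) = p := by omega
      have e2 : r ≡ p - v % p [MOD p] ↔ v % p + r ≡ v % p + (p - v % p) [MOD p] :=
        ⟨fun h => Nat.ModEq.add_left _ h, fun h => Nat.ModEq.add_left_cancel' _ h⟩
      rw [e2, e1]
      have e3 : v % p + r ≡ v + r [MOD p] := Nat.ModEq.add_right _ (Nat.mod_modEq v p)
      have e4 : p ≡ 0 [MOD p] := (Nat.modEq_zero_iff_dvd).2 dvd_rfl
      constructor
      · intro h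
        exact (e3.trans ((Nat.modEq_zero_iff_dvd).2 h)).trans e4.symm
      · intro h
        exact (Nat.modEq_zero_iff_dvd).1 ((e3.symm.trans h).trans e4)
    constructor
    · rintro ⟨hr, hd⟩
      have h := key.1 hd
      unfold Nat.ModEq at h
      rw [Nat.mod_eq_of_lt hr] at h
      exact h
    · intro h
      have hr : r < p := by rw [h]; exact Nat.mod_lt _ hp
      refine ⟨hr, key.2 ?_⟩
      unfold Nat.ModEq
      rw [Nat.mod_eq_of_lt hr]
      exact h
  rw [Finset.sum_congr rfl h2]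
  simp

/-- PROOF. Let `k r = #{v ∈ W | p ∣ v + r} ≤ M`; `#{v ∈ W | ¬ p ∣ v + r} = #W - k r` and
`∑_{r < p} k r = #W`. For `0 ≤ x ≤ η ≤ 1`, `exp x ≤ 1 + x + x² ≤ 1 + (1 + η) x`
(`Real.abs_exp_sub_one_sub_id_le`). With `x = μ k r`:
`∑_r exp (-(μ (#W - k r))) = exp (-μ #W) ∑_r exp (μ k r) ≤ exp (-μ #W) (p + (1+η) μ #W) ≤
p exp (-μ #W + (1+η) μ #W / p)`. -/
theorem pot_step (p : ℕ) (hp : 0 < p) (W : Finset ℕ) (M : ℕ) (hM : ∀ r, #{v ∈ W | p ∣ v + r} ≤ M)
    (μ η : ℝ) (hμ : 0 ≤ μ) (hη : 0 < η) (hη1 : η ≤ 1) (h : μ * M ≤ η) :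
    ∑ r ∈ range p, Real.exp (-(μ * (#{v ∈ W | ¬ p ∣ v + r} : ℝ))) ≤
      p * Real.exp (-(μ * (1 - (1 + η) / p) * (#W : ℝ))) := by
  have hp0 : (0 : ℝ) < p := by exact_mod_cast hp
  have hterm : ∀ r ∈ range p, Real.exp (-(μ * (#{v ∈ W | ¬ p ∣ v + r} : ℝ))) ≤
      Real.exp (-(μ * (#W : ℝ))) * (1 + (1 + η) * μ * (#{v ∈ W | p ∣ v + r} : ℝ)) := by
    intro r _
    have hc : #{v ∈ W | p ∣ v + r} + #{v ∈ W | ¬ p ∣ v + r} = #W :=
      Finset.card_filter_add_card_filter_not (fun v : ℕ => p ∣ v + r)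
    have hc' : (#{v ∈ W | ¬ p ∣ v + r} : ℝ) = (#W : ℝ) - (#{v ∈ W | p ∣ v + r} : ℝ) := by
      rw [← hc]; push_cast; ring
    have hk0 : (0 : ℝ) ≤ (#{v ∈ W | p ∣ v + r} : ℝ) := Nat.cast_nonneg _
    have hkM : (#{v ∈ W | p ∣ v + r} : ℝ) ≤ M := by exact_mod_cast hM r
    have hx : 0 ≤ μ * (#{v ∈ W | p ∣ v + r} : ℝ) := mul_nonneg hμ hk0
    have hxη : μ * (#{v ∈ W | p ∣ v + r} : ℝ) ≤ η := (mul_le_mul_of_nonneg_left hkM hμ).trans h
    have he := UH04a_exp _ η hx hxη hη1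
    have hs : Real.exp (-(μ * (#{v ∈ W | ¬ p ∣ v + r} : ℝ))) =
        Real.exp (-(μ * (#W : ℝ))) * Real.exp (μ * (#{v ∈ W | p ∣ v + r} : ℝ)) := by
      rw [← Real.exp_add, hc']
      congr 1
      ring
    rw [hs]
    apply mul_le_mul_of_nonneg_left _ (Real.exp_pos _).le
    calc Real.exp (μ * (#{v ∈ W | p ∣ v + r} : ℝ)) ≤ _ := he
      _ = _ := by ring
  have hsum : (∑ r ∈ range p, (#{v ∈ W | p ∣ v + r} : ℝ)) = (#W : ℝ) := by
    exact_mod_cast UH04a_sum p hp W
  calc ∑ r ∈ range p, Real.exp (-(μ * (#{v ∈ W | ¬ p ∣ v + r} : ℝ)))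
      ≤ ∑ r ∈ range p, Real.exp (-(μ * (#W : ℝ))) *
          (1 + (1 + η) * μ * (#{v ∈ W | p ∣ v + r} : ℝ)) := Finset.sum_le_sum hterm
    _ = Real.exp (-(μ * (#W : ℝ))) * (p + (1 + η) * μ * (#W : ℝ)) := by
        rw [← Finset.mul_sum, Finset.sum_add_distrib, ← Finset.mul_sum, hsum]
        simp
    _ = p * (Real.exp (-(μ * (#W : ℝ))) * ((1 + η) * μ * (#W : ℝ) / p + 1)) := by
        field_simp
        ring
    _ ≤ p * (Real.exp (-(μ * (#W : ℝ))) * Real.exp ((1 + η) * μ * (#W : ℝ) / p)) := by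
        apply mul_le_mul_of_nonneg_left _ hp0.le
        apply mul_le_mul_of_nonneg_left _ (Real.exp_pos _).le
        exact Real.add_one_le_exp _
    _ = p * Real.exp (-(μ * (1 - (1 + η) / p) * (#W : ℝ))) := by
        rw [← Real.exp_add]
        congr 2
        ring

theorem uh04b_count (p c b M r : ℕ) (hM : (b - 1) / p < M) (W : Finset ℕ)
    (hW : W ⊆ Ico c (c + b)) : #{v ∈ W | p ∣ v + r} ≤ M := by
  have h : #{v ∈ W | p ∣ v + r} ≤ #(range M) := by
    apply Finset.card_le_card_of_injOn (fun v => (v - c) / p)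
    · intro v hv
      rw [Finset.mem_coe, Finset.mem_filter] at hv
      have hv1 := Finset.mem_Ico.mp (hW hv.1)
      rw [Finset.mem_coe, Finset.mem_range]
      refine lt_of_le_of_lt (Nat.div_le_div_right ?_) hM
      omega
    · intro v hv v' hv' hvv
      rw [Finset.mem_coe, Finset.mem_filter] at hv hv'
      have hv1 := Finset.mem_Ico.mp (hW hv.1)
      have hv2 := Finset.mem_Ico.mp (hW hv'.1)
      have hmod : v + r ≡ v' + r [MOD p] :=
        ((Nat.modEq_zero_iff_dvd).mpr hv.2).trans ((Nat.modEq_zero_iff_dvd).mpr hv'.2).symm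
      have hmod2 : v ≡ v' [MOD p] := Nat.ModEq.add_right_cancel' r hmod
      have hmod3 : (v - c) ≡ (v' - c) [MOD p] := by
        apply Nat.ModEq.add_right_cancel' c
        rwa [Nat.sub_add_cancel hv1.1, Nat.sub_add_cancel hv2.1]
      have e1 := Nat.div_add_mod (v - c) p
      have e2 := Nat.div_add_mod (v' - c) p
      have e3 : (v - c) % p = (v' - c) % p := hmod3
      simp only at hvv
      rw [hvv, e3] at e1
      have e4 : v - c = v' - c := e1.symm.trans e2
      omega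
  simpa using h

open Classical in
/-- PROOF. Induction on `s`, adding a prime `p` smaller than all primes of `s'`
(`Finset.induction_on_min`), for all `W ⊆ [c, c+b)`. `s = ∅`: the left side is `1` if `W = ∅` and
`0` otherwise. Step: `Q' = ∏_{s'} q`, `μ = η ∏_{q ∈ s'} (1 - (1+η)/q) ≤ η`, `μ ≥ 0`. By `crt_sum`
(for `p` and `Q'`) the left side is `∑_{r < p} #{m' < Q' : ∀ v ∈ W, p ∣ v + r ∨ ∃ q ∈ s', q ∣ v + m'}`,
and the inner number is the left side for `s'` and `{v ∈ W | ¬ p ∣ v + r}`, so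
`≤ Q' exp (-μ #{v ∈ W | ¬ p ∣ v + r})` by induction (the hypotheses for `s'` are those for `s`:
`(s.filter (q < ·)) = (s'.filter (q < ·))` for `q ∈ s'`). Now `pot_step` with `M = 1` if `b ≤ p`,
`M = b / p + 1` if `p < b`: an interval of length `b` has at most `M` elements in one class, and
`μ M ≤ η`: clear for `M = 1`, and for `p < b`, `M ≤ 2 b / p` and the hypothesis `hμ` at `p`
(`s.filter (p < ·) = s'`). -/
theorem potential (s : Finset ℕ) (hs : ∀ p ∈ s, p.Prime) (η : ℝ) (hη : 0 < η) (hη1 : η ≤ 1)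
    (b c : ℕ)
    (hμ : ∀ p ∈ s, p < b →
      (∏ r ∈ s.filter (fun r => p < r), (1 - (1 + η) / (r : ℝ))) * (2 * b / p) ≤ 1)
    (W : Finset ℕ) (hW : W ⊆ Ico c (c + b)) :
    (#{m ∈ range (∏ p ∈ s, p) | ∀ v ∈ W, ∃ p ∈ s, p ∣ v + m} : ℝ) ≤
      (∏ p ∈ s, (p : ℝ)) * Real.exp (-(η * (∏ p ∈ s, (1 - (1 + η) / (p : ℝ))) * (#W : ℝ))) := by
  induction s using Finset.induction_on_min generalizing W with
  | empty =>
    rcases W.eq_empty_or_nonempty with hWe | ⟨v, hv⟩
    · subst hWe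
      simp
    · have h1 : ({m ∈ range (∏ p ∈ (∅ : Finset ℕ), p) | ∀ v ∈ W, ∃ p ∈ (∅ : Finset ℕ), p ∣ v + m}) =
          (∅ : Finset ℕ) := by
        apply Finset.filter_eq_empty_iff.mpr
        intro m _ hm
        obtain ⟨p, hp, _⟩ := hm v hv
        simp at hp
      rw [h1]
      simp only [Finset.card_empty, Nat.cast_zero, Finset.prod_empty, one_mul]
      exact (Real.exp_pos _).le
  | insert p s' hmin ih =>
    have hps' : p ∉ s' := fun h => lt_irrefl _ (hmin p h)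
    have hpp : p.Prime := hs p (Finset.mem_insert_self _ _)
    have hs' : ∀ q ∈ s', q.Prime := fun q hq => hs q (Finset.mem_insert_of_mem hq)
    have hμ' : ∀ q ∈ s', q < b →
        (∏ r ∈ s'.filter (fun r => q < r), (1 - (1 + η) / (r : ℝ))) * (2 * b / q) ≤ 1 := by
      intro q hq hqb
      have := hμ q (Finset.mem_insert_of_mem hq) hqb
      rwa [Finset.filter_insert, if_neg (by have := hmin q hq; omega)] at this
    set Q' : ℕ := ∏ q ∈ s', q with hQ'
    have hQ'0 : 0 < Q' := Finset.prod_pos fun q hq => (hs' q hq).pos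
    have hcop : Nat.Coprime p Q' := by
      rw [hQ']
      apply Nat.Coprime.prod_right
      intro q hq
      rw [Nat.coprime_primes hpp (hs' q hq)]
      have := hmin q hq
      omega
    set μ : ℝ := η * ∏ q ∈ s', (1 - (1 + η) / (q : ℝ)) with hμdef
    have hfac : ∀ q ∈ s', 0 ≤ 1 - (1 + η) / (q : ℝ) ∧ 1 - (1 + η) / (q : ℝ) ≤ 1 := by
      intro q hq
      have h1 : 2 ≤ p := hpp.two_le
      have h2 := hmin q hq
      have h3 : (3 : ℝ) ≤ q := by
        have : 3 ≤ q := by omega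
        exact_mod_cast this
      constructor
      · rw [sub_nonneg, div_le_one (by linarith)]
        linarith
      · have : 0 ≤ (1 + η) / (q : ℝ) := by positivity
        linarith
    have hP0 : 0 ≤ ∏ q ∈ s', (1 - (1 + η) / (q : ℝ)) := Finset.prod_nonneg fun q hq => (hfac q hq).1
    have hP1 : ∏ q ∈ s', (1 - (1 + η) / (q : ℝ)) ≤ 1 :=
      Finset.prod_le_one (fun q hq => (hfac q hq).1) (fun q hq => (hfac q hq).2)
    have hμ0 : 0 ≤ μ := mul_nonneg hη.le hP0
    -- the number M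
    obtain ⟨M, hM1, hM2⟩ : ∃ M : ℕ, (b - 1) / p < M ∧ μ * M ≤ η := by
      by_cases hbp : b ≤ p
      · refine ⟨1, ?_, ?_⟩
        · have hp0 := hpp.pos
          rw [Nat.div_eq_of_lt (by omega)]
          norm_num
        · rw [Nat.cast_one, mul_one, hμdef]
          calc η * ∏ q ∈ s', (1 - (1 + η) / (q : ℝ)) ≤ η * 1 := mul_le_mul_of_nonneg_left hP1 hη.le
            _ = η := mul_one _
      · push Not at hbp
        refine ⟨b / p + 1, ?_, ?_⟩
        · exact Nat.lt_succ_of_le (Nat.div_le_div_right (Nat.sub_le b 1))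
        · have h1 := hμ p (Finset.mem_insert_self _ _) hbp
          have h2 : (insert p s').filter (fun r => p < r) = s' := by
            rw [Finset.filter_insert, if_neg (lt_irrefl _)]
            exact Finset.filter_true_of_mem hmin
          rw [h2] at h1
          have hp0 : (0 : ℝ) < p := by exact_mod_cast hpp.pos
          have h3 : ((b / p + 1 : ℕ) : ℝ) ≤ 2 * b / p := by
            push_cast
            have h4 := @Nat.cast_div_le ℝ _ _ _ b p
            have h5 : (1 : ℝ) ≤ b / p := by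
              rw [le_div_iff₀ hp0, one_mul]
              exact_mod_cast hbp.le
            have h6 : (2 : ℝ) * b / p = b / p + b / p := by ring
            rw [h6]
            linarith
          calc μ * ((b / p + 1 : ℕ) : ℝ) ≤ μ * (2 * b / p) := mul_le_mul_of_nonneg_left h3 hμ0
            _ = η * ((∏ q ∈ s', (1 - (1 + η) / (q : ℝ))) * (2 * b / p)) := by rw [hμdef]; ring
            _ ≤ η * 1 := mul_le_mul_of_nonneg_left h1 hη.le
            _ = η := mul_one _
    have hcount : ∀ r, #{v ∈ W | p ∣ v + r} ≤ M := fun r => uh04b_count p c b M r hM1 W hW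
    have hstep := pot_step p hpp.pos W M hcount μ η hμ0 hη hη1 hM2
    -- the left side
    set F : ℕ → ℕ → ℝ := fun x y =>
      if (∀ v ∈ W, p ∣ v + x ∨ ∃ q ∈ s', q ∣ v + y) then 1 else 0 with hF
    have hL : (#{m ∈ range (∏ q ∈ insert p s', q) | ∀ v ∈ W, ∃ q ∈ insert p s', q ∣ v + m} : ℝ) =
        ∑ x ∈ range p, ∑ y ∈ range Q', F x y := by
      rw [← crt_sum p Q' hpp.pos hQ'0 hcop F, Finset.prod_insert hps', ← hQ',
        Finset.card_filter, Nat.cast_sum]
      apply Finset.sum_congr rfl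
      intro m _
      rw [hF]
      simp only [Nat.cast_ite, Nat.cast_one, Nat.cast_zero]
      congr 1
      apply propext
      apply forall_congr'
      intro v
      apply forall_congr'
      intro _
      have h1 : p ∣ v + m % p ↔ p ∣ v + m := by
        rw [Nat.dvd_iff_mod_eq_zero, Nat.dvd_iff_mod_eq_zero, Nat.add_mod_mod]
      have h2 : ∀ q ∈ s', (q ∣ v + m % Q' ↔ q ∣ v + m) := by
        intro q hq
        have hqQ : q ∣ Q' := Finset.dvd_prod_of_mem _ hq
        have h3 : v + m % Q' ≡ v + m [MOD q] :=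
          Nat.ModEq.add_left v ((Nat.mod_modEq m Q').of_dvd hqQ)
        exact h3.dvd_iff dvd_rfl
      constructor
      · rintro ⟨q, hq, hqv⟩
        rcases Finset.mem_insert.mp hq with rfl | hq'
        · exact Or.inl (h1.mpr hqv)
        · exact Or.inr ⟨q, hq', (h2 q hq').mpr hqv⟩
      · rintro (h | ⟨q, hq, hqv⟩)
        · exact ⟨p, Finset.mem_insert_self _ _, h1.mp h⟩
        · exact ⟨q, Finset.mem_insert_of_mem hq, (h2 q hq).mp hqv⟩
    have hinner : ∀ x ∈ range p, ∑ y ∈ range Q', F x y ≤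
        (Q' : ℝ) * Real.exp (-(μ * (#{v ∈ W | ¬ p ∣ v + x} : ℝ))) := by
      intro x _
      have h1 := ih hs' hμ' (W.filter (fun v => ¬ p ∣ v + x)) ((Finset.filter_subset _ _).trans hW)
      have h2 : ∑ y ∈ range Q', F x y =
          (#{m ∈ range (∏ q ∈ s', q) | ∀ v ∈ W.filter (fun v => ¬ p ∣ v + x),
            ∃ q ∈ s', q ∣ v + m} : ℝ) := by
        rw [← hQ', Finset.card_filter, Nat.cast_sum]
        apply Finset.sum_congr rfl
        intro y _
        rw [hF]
        simp only [Nat.cast_ite, Nat.cast_one, Nat.cast_zero]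
        congr 1
        apply propext
        constructor
        · intro h v hv
          rw [Finset.mem_filter] at hv
          exact (h v hv.1).resolve_left hv.2
        · intro h v hv
          by_cases hpv : p ∣ v + x
          · exact Or.inl hpv
          · exact Or.inr (h v (Finset.mem_filter.mpr ⟨hv, hpv⟩))
      rw [h2]
      refine h1.trans (le_of_eq ?_)
      rw [hQ']
      push_cast
      rfl
    rw [hL, Finset.prod_insert hps', Finset.prod_insert hps']
    calc ∑ x ∈ range p, ∑ y ∈ range Q', F x y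
        ≤ ∑ x ∈ range p, (Q' : ℝ) * Real.exp (-(μ * (#{v ∈ W | ¬ p ∣ v + x} : ℝ))) :=
          Finset.sum_le_sum hinner
      _ = (Q' : ℝ) * ∑ x ∈ range p, Real.exp (-(μ * (#{v ∈ W | ¬ p ∣ v + x} : ℝ))) := by
          rw [Finset.mul_sum]
      _ ≤ (Q' : ℝ) * (p * Real.exp (-(μ * (1 - (1 + η) / p) * (#W : ℝ)))) :=
          mul_le_mul_of_nonneg_left hstep (Nat.cast_nonneg _)
      _ = _ := by
          rw [hQ', hμdef]
          push_cast
          ring_nf

theorem UH04a_one (η t : ℝ) (hη : 0 < η) (hη1 : η ≤ 1) (ht : 0 ≤ t) (h9 : 9 * t ≤ η) :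
    (1 - t) ^ (1 + 2 * η) ≤ 1 - (1 + η) * t := by
  have h1 : 0 ≤ 1 - t := by linarith
  have h2 : (1 - t) ^ (1 + 2 * η) ≤ Real.exp (-((1 + 2 * η) * t)) := by
    have h3 : 1 - t ≤ Real.exp (-t) := by
      have := Real.add_one_le_exp (-t)
      linarith
    calc (1 - t) ^ (1 + 2 * η) ≤ (Real.exp (-t)) ^ (1 + 2 * η) :=
          Real.rpow_le_rpow h1 h3 (by linarith)
      _ = Real.exp (-((1 + 2 * η) * t)) := by
          rw [← Real.exp_mul]; congr 1; ring
  have hy0 : 0 ≤ (1 + 2 * η) * t := by positivity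
  have hy1 : (1 + 2 * η) * t ≤ 1 := by nlinarith
  have habs : |(-((1 + 2 * η) * t))| ≤ 1 := by rw [abs_neg, abs_of_nonneg hy0]; exact hy1
  have h4 := (abs_le.mp (Real.abs_exp_sub_one_sub_id_le habs)).2
  have h5 : ((1 + 2 * η) * t) ^ 2 ≤ η * t := by
    have h6 : (1 + 2 * η) ^ 2 ≤ 9 := by nlinarith
    calc ((1 + 2 * η) * t) ^ 2 = (1 + 2 * η) ^ 2 * t * t := by ring
      _ ≤ 9 * t * t := by gcongr
      _ ≤ η * t := by gcongr
  have h6 : (-((1 + 2 * η) * t)) ^ 2 = ((1 + 2 * η) * t) ^ 2 := by ring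
  rw [h6] at h4
  linarith

/-- PROOF. It suffices that `(1 - 1/p)^(1+2η) ≤ 1 - (1+η)/p` for `p ≥ P`:
`(1 - t)^(1+2η) ≤ exp (-(1+2η) t) ≤ 1 - (1+2η) t + ((1+2η) t)² ≤ 1 - (1+η) t` for `t = 1/p` with
`9 t ≤ η`. -/
theorem prod_rpow (η : ℝ) (hη : 0 < η) (hη1 : η ≤ 1) : ∃ P : ℕ, ∀ s : Finset ℕ,
    (∀ p ∈ s, p.Prime ∧ P ≤ p) →
      (∏ p ∈ s, (1 - 1 / (p : ℝ))) ^ (1 + 2 * η) ≤ ∏ p ∈ s, (1 - (1 + η) / (p : ℝ)) := by
  refine ⟨⌈9 / η⌉₊ + 1, fun s hs => ?_⟩
  have hp : ∀ p ∈ s, 0 ≤ 1 / (p : ℝ) ∧ 9 * (1 / (p : ℝ)) ≤ η := by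
    intro p hps
    have h1 := (hs p hps).2
    have h2 : (9 / η : ℝ) ≤ p := by
      calc (9 / η : ℝ) ≤ (⌈9 / η⌉₊ : ℝ) := Nat.le_ceil _
        _ ≤ p := by exact_mod_cast (by omega : ⌈9 / η⌉₊ ≤ p)
    have hp0 : (0 : ℝ) < p := lt_of_lt_of_le (by positivity) h2
    refine ⟨by positivity, ?_⟩
    rw [mul_one_div, div_le_iff₀ hp0]
    rw [div_le_iff₀ hη] at h2
    linarith
  rw [← Real.finsetProd_rpow s (fun p : ℕ => 1 - 1 / (p : ℝ))]
  · apply Finset.prod_le_prod
    · intro p hps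
      apply Real.rpow_nonneg
      have := (hp p hps).2
      linarith
    · intro p hps
      have h := UH04a_one η (1 / (p : ℝ)) hη hη1 (hp p hps).1 (hp p hps).2
      calc (1 - 1 / (p : ℝ)) ^ (1 + 2 * η) ≤ 1 - (1 + η) * (1 / (p : ℝ)) := h
        _ = 1 - (1 + η) / (p : ℝ) := by ring
  · intro p hps
    have := (hp p hps).2
    have h1 := (hp p hps).1
    linarith

end Pool.Agent.LibUHL
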