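import Pool.Agent.LibUHL.Defs
import Pool.Agent.LibLin93.D2
import Pool.Agent.LibLin93.A5

/-! Row UH 05: the small primes in a cell, by the linear sieve. -/

set_option autoImplicit false

namespace Pool.Agent.LibUHL

open Finset Filter Topology MeasureTheory

open Pool.Agent.LibLin93 (V S)

theorem UH05a_key (p : ℕ) (hp : 0 < p) (x n : ℕ) : p ∣ x + n ↔ n ≡ p - x % p [MOD p] := by
  have hvp : x % p < p := Nat.mod_lt _ hp
  have e1 : x % p + (p - x % p) = p := by omega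
  have e2 : n ≡ p - x % p [MOD p] ↔ x % p + n ≡ x % p + (p - x % p) [MOD p] :=
    ⟨fun h => Nat.ModEq.add_left _ h, fun h => Nat.ModEq.add_left_cancel' _ h⟩
  rw [e2, e1]
  have e3 : x % p + n ≡ x + n [MOD p] := Nat.ModEq.add_right _ (Nat.mod_modEq x p)
  have e4 : p ≡ 0 [MOD p] := (Nat.modEq_zero_iff_dvd).2 dvd_rfl
  constructor
  · intro h
    exact (e3.trans ((Nat.modEq_zero_iff_dvd).2 h)).trans e4.symm
  · intro h
    exact (Nat.modEq_zero_iff_dvd).1 ((e3.symm.trans h).trans e4)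

open Classical in
/-- PROOF. `n = c + n'`, `n' < b`. For `p ≤ w`: `p ∣ c + n'` iff `n' ≡ p - c % p (mod p)`; for
`p > w`: `p ∣ c + n' + m` iff `n' ≡ p - (c + m) % p (mod p)`. Define `a p` by these. -/
theorem card_cell (w z c b m : ℕ) : ∃ a : ℕ → ℕ,
    #{n ∈ Ico c (c + b) | (∀ p : ℕ, p.Prime → p < z → p ≤ w → ¬ p ∣ n) ∧
      ∀ p : ℕ, p.Prime → p < z → w < p → ¬ p ∣ n + m} = S a b z := by
  refine ⟨fun p => if p ≤ w then p - c % p else p - (c + m) % p, ?_⟩
  unfold S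
  symm
  apply Finset.card_bij (fun n _ => c + n)
  · intro n hn
    simp only [Finset.mem_filter, Finset.mem_range] at hn
    simp only [Finset.mem_filter, Finset.mem_Ico]
    refine ⟨⟨by omega, by omega⟩, ?_, ?_⟩
    · intro p hp hpz hpw hd
      apply hn.2 p hp hpz
      rw [if_pos hpw]
      exact (UH05a_key p hp.pos c n).1 hd
    · intro p hp hpz hpw hd
      apply hn.2 p hp hpz
      rw [if_neg (by omega)]
      apply (UH05a_key p hp.pos (c + m) n).1
      have : c + m + n = c + n + m := by omega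
      rw [this]; exact hd
  · intro n _ n' _ h
    omega
  · intro k hk
    simp only [Finset.mem_filter, Finset.mem_Ico] at hk
    refine ⟨k - c, ?_, by omega⟩
    simp only [Finset.mem_filter, Finset.mem_range]
    refine ⟨by omega, ?_⟩
    intro p hp hpz hmod
    by_cases hpw : p ≤ w
    · rw [if_pos hpw] at hmod
      apply hk.2.1 p hp hpz hpw
      have := (UH05a_key p hp.pos c (k - c)).2 hmod
      have e : c + (k - c) = k := by omega
      rwa [e] at this
    · rw [if_neg hpw] at hmod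
      apply hk.2.2 p hp hpz (by omega)
      have := (UH05a_key p hp.pos (c + m) (k - c)).2 hmod
      have e : c + m + (k - c) = k + m := by omega
      rwa [e] at this

open Classical in
/-- PROOF. Let `z = ⌊j^α⌋`, `α = (1 + 3 d)/4` and `b = ⌈j^(1+d)⌉`. For large `j`:
`log b ≥ (1+d) log j ≥ ρ log z` with `ρ = (1+d)/α = 4 (1+d)/(1+3d) > 2` as `d < 1`, and
`log b ≤ 4 log z` because `(1+d)/α < 4`. `linear_lower` and `card_cell` give
`δ b V z ≤ #{...}`, and `V z ≥ c₀ / log z ≥ c₀ / log j` (`V_bounds`). -/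
theorem cell_lower (d : ℝ) (hd0 : 0 < d) (hd1 : d < 1) : ∃ κ : ℝ, 0 < κ ∧ ∀ᶠ j : ℕ in atTop,
    ∀ w c m : ℕ,
      κ * (j : ℝ) ^ (1 + d) / Real.log j ≤
        #{n ∈ Ico c (c + ⌈(j : ℝ) ^ (1 + d)⌉₊) |
          (∀ p : ℕ, p.Prime → p < ⌊(j : ℝ) ^ ((1 + 3 * d) / 4)⌋₊ → p ≤ w → ¬ p ∣ n) ∧
          ∀ p : ℕ, p.Prime → p < ⌊(j : ℝ) ^ ((1 + 3 * d) / 4)⌋₊ → w < p → ¬ p ∣ n + m} := by
  obtain ⟨ρ, hρ⟩ : ∃ ρ, ρ = 4 * (1 + d) / (1 + 3 * d) := ⟨_, rfl⟩
  have hρ2 : 2 < ρ := by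
    rw [hρ, lt_div_iff₀ (by linarith)]
    linarith
  obtain ⟨δ, hδ, Z, hZ⟩ := LibLin93.linear_lower ρ hρ2
  obtain ⟨c₀, C₀, hc₀, -, hV⟩ := LibLin93.V_bounds
  refine ⟨δ * c₀, mul_pos hδ hc₀, ?_⟩
  -- the three conditions on `j`
  have hα : 0 < (1 + 3 * d) / 4 := by linarith
  have h1 : ∀ᶠ j : ℕ in atTop, ((max Z 2 : ℕ) : ℝ) + 1 ≤ (j : ℝ) ^ ((1 + 3 * d) / 4) := by
    have := (tendsto_rpow_atTop hα).comp tendsto_natCast_atTop_atTop
    exact this.eventually_ge_atTop _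
  have h2 : ∀ᶠ j : ℕ in atTop, 5 * Real.log 2 ≤ 2 * d * Real.log j := by
    have : Tendsto (fun j : ℕ => 2 * d * Real.log (j : ℝ)) atTop atTop :=
      (Real.tendsto_log_atTop.comp tendsto_natCast_atTop_atTop).const_mul_atTop (by linarith)
    exact this.eventually_ge_atTop _
  filter_upwards [h1, h2, eventually_ge_atTop 2] with j hj1 hj2 hj3 w c m
  have hj3' : (2 : ℝ) ≤ j := by exact_mod_cast hj3
  have hj0 : (0 : ℝ) < j := by linarith
  have hlj : 0 < Real.log j := Real.log_pos (by linarith)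
  obtain ⟨z, hz⟩ : ∃ z, z = ⌊(j : ℝ) ^ ((1 + 3 * d) / 4)⌋₊ := ⟨_, rfl⟩
  obtain ⟨b, hb⟩ : ∃ b, b = ⌈(j : ℝ) ^ (1 + d)⌉₊ := ⟨_, rfl⟩
  rw [← hz, ← hb]
  obtain ⟨a, ha⟩ := card_cell w z c b m
  rw [ha]
  have hP : (0 : ℝ) < (j : ℝ) ^ ((1 + 3 * d) / 4) := Real.rpow_pos_of_pos hj0 _
  have hB : (1 : ℝ) ≤ (j : ℝ) ^ (1 + d) := Real.one_le_rpow (by linarith) (by linarith)
  have hzle : (z : ℝ) ≤ (j : ℝ) ^ ((1 + 3 * d) / 4) := by
    rw [hz]; exact Nat.floor_le hP.le
  have hzge : (j : ℝ) ^ ((1 + 3 * d) / 4) < z + 1 := by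
    rw [hz]; exact Nat.lt_floor_add_one _
  have hzZ : max Z 2 ≤ z := by
    rw [hz]
    apply Nat.le_floor
    linarith
  have hz2 : 2 ≤ z := le_trans (le_max_right _ _) hzZ
  have hz2' : (2 : ℝ) ≤ z := by exact_mod_cast hz2
  have hbge : (j : ℝ) ^ (1 + d) ≤ b := by rw [hb]; exact Nat.le_ceil _
  have hble : (b : ℝ) ≤ 2 * (j : ℝ) ^ (1 + d) := by
    have : (b : ℝ) < (j : ℝ) ^ (1 + d) + 1 := by
      rw [hb]; exact Nat.ceil_lt_add_one (by linarith)
    linarith
  have hlz : Real.log z ≤ (1 + 3 * d) / 4 * Real.log j := by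
    rw [← Real.log_rpow hj0]
    exact Real.log_le_log (by linarith) hzle
  have hlz0 : 0 < Real.log z := Real.log_pos (by linarith)
  have hlb : (1 + d) * Real.log j ≤ Real.log b := by
    rw [← Real.log_rpow hj0]
    exact Real.log_le_log (by linarith) hbge
  have hlb' : Real.log b ≤ Real.log 2 + (1 + d) * Real.log j := by
    rw [← Real.log_rpow hj0, ← Real.log_mul (by norm_num) (by linarith)]
    exact Real.log_le_log (by linarith) hble
  have hlz' : (1 + 3 * d) / 4 * Real.log j - Real.log 2 ≤ Real.log z := by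
    rw [← Real.log_rpow hj0, ← Real.log_div hP.ne' (by norm_num)]
    apply Real.log_le_log (by positivity)
    linarith
  have hmain := hZ z b (le_trans (le_max_left _ _) hzZ) (by
    have h3 : ρ * Real.log z ≤ ρ * ((1 + 3 * d) / 4 * Real.log j) := by gcongr
    have h4 : ρ * ((1 + 3 * d) / 4 * Real.log j) = (1 + d) * Real.log j := by
      rw [hρ]
      have : (1 + 3 * d) ≠ 0 := by linarith
      field_simp
    linarith) (by linarith) a
  refine le_trans ?_ hmain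
  have hVz := (hV z hz2).1
  have hVl : c₀ / Real.log j ≤ V z := by
    rw [div_le_iff₀ hlj]
    have hV0 := LibLin93.V_pos z
    have h5 : Real.log z ≤ Real.log j := by
      have : (1 + 3 * d) / 4 * Real.log j ≤ 1 * Real.log j := by
        apply mul_le_mul_of_nonneg_right _ hlj.le
        linarith
      linarith
    nlinarith
  have hV0 : 0 ≤ c₀ / Real.log j := by positivity
  calc δ * c₀ * (j : ℝ) ^ (1 + d) / Real.log j = δ * ((j : ℝ) ^ (1 + d) * (c₀ / Real.log j)) := by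
        ring
    _ ≤ δ * (b * V z) := by gcongr

end Pool.Agent.LibUHL
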