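import Pool.Agent.LibUHL.U01
import Pool.Agent.LibUHL.U04
import Pool.Agent.LibUHL.U05

/-! Row UH 06: a cell is empty with small probability. -/

set_option autoImplicit false

namespace Pool.Agent.LibUHL

open Finset Filter Topology MeasureTheory

open Pool.Agent.LibLin93 (V S)

theorem uh06a_V (a z : ℕ) (haz : a ≤ z) :
    V z = V a * ∏ r ∈ (Ico a z).filter Nat.Prime, (1 - 1 / (r : ℝ)) := by
  classical
  unfold Pool.Agent.LibLin93.V
  rw [← Finset.prod_union]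
  · congr 1
    ext p
    simp only [mem_filter, mem_union, mem_range, mem_Ico]
    constructor
    · rintro ⟨h1, h2⟩
      rcases Nat.lt_or_ge p a with h3 | h3
      · exact Or.inl ⟨h3, h2⟩
      · exact Or.inr ⟨⟨h3, h1⟩, h2⟩
    · rintro (⟨h1, h2⟩ | ⟨⟨h1, h3⟩, h2⟩)
      · exact ⟨by omega, h2⟩
      · exact ⟨h3, h2⟩
  · rw [Finset.disjoint_left]
    intro p hp hp'
    simp only [mem_filter, mem_range, mem_Ico] at hp hp'
    omega

theorem uh06a_ev (c d₁ : ℝ) (hc : 0 < c) (h0 : 0 < d₁) (h1 : d₁ < 1) :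
    ∀ᶠ j : ℕ in atTop, 4 ≤ j ∧ 2 ≤ (j : ℝ) ^ ((1 + 3 * d₁) / 4) ∧
      144 * Real.log j ≤ c * (j : ℝ) ^ ((1 - d₁) / 4) := by
  have e1 : ∀ᶠ j : ℕ in atTop, 2 ≤ (j : ℝ) ^ ((1 + 3 * d₁) / 4) := by
    have h2 : Tendsto (fun j : ℕ => (j : ℝ) ^ ((1 + 3 * d₁) / 4)) atTop atTop :=
      (tendsto_rpow_atTop (by linarith)).comp tendsto_natCast_atTop_atTop
    exact h2.eventually_ge_atTop 2
  have e2 : ∀ᶠ j : ℕ in atTop, 144 * Real.log j ≤ c * (j : ℝ) ^ ((1 - d₁) / 4) := by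
    have h2 := (isLittleO_log_rpow_atTop (r := (1 - d₁) / 4) (by linarith)).bound
      (c := c / 144) (by positivity)
    have h3 := tendsto_natCast_atTop_atTop (R := ℝ) |>.eventually h2
    filter_upwards [h3, eventually_ge_atTop 1] with j hj hj1
    have hj1' : (1 : ℝ) ≤ j := by exact_mod_cast hj1
    rw [Real.norm_of_nonneg (Real.log_nonneg hj1'), Real.norm_of_nonneg (by positivity)] at hj
    linarith
  filter_upwards [e1, e2, eventually_ge_atTop 4] with j a b d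
  exact ⟨d, a, b⟩

/-- PROOF (the conditions of `potential` for the primes of the block `≥ z₁ = ⌊j^α⌋`,
`α = (1+3 d₁)/4`, `b = ⌈j^(1+d₁)⌉`). For `p ∈ s`, `p < b`:
`∏_{r ∈ s, r > p} (1 - (1+η)/r) ≤ ∏ (1 - 1/r) = V (zz) / V (p+1)`, where `zz = zz (u j i)`, because
the primes of `s` that are `> p` are all primes in `[p+1, zz)` (if `p + 1 ≤ zz`, true as `p ∈ s`).
`V zz ≤ 2 / log (u j i) ≤ 4 / j` (`zz_spec`, `u j i ≥ 2^j`, `log 2 > 1/2`) and
`1 / V (p+1) ≤ C log (p+1) ≤ C log b ≤ 4 C log j` (`V_bounds`). So the left side of the condition is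
`≤ (16 C log j / j) (2 b / z₁) ≤ C' log j j^(d₁ - α) ≤ 1` for large `j`, as `α > d₁`. -/
theorem pot_cond (d₁ : ℝ) (h0 : 0 < d₁) (h1 : d₁ < 1) (η : ℝ) (hη : 0 < η) (hη1 : η ≤ 1) :
    ∀ᶠ j : ℕ in atTop, ∀ i : ℕ, i < TB j →
      ∀ p ∈ (PS j i).filter (fun p => ⌊(j : ℝ) ^ ((1 + 3 * d₁) / 4)⌋₊ ≤ p),
        p < ⌈(j : ℝ) ^ (1 + d₁)⌉₊ →
        (∏ r ∈ ((PS j i).filter (fun p => ⌊(j : ℝ) ^ ((1 + 3 * d₁) / 4)⌋₊ ≤ p)).filter
          (fun r => p < r), (1 - (1 + η) / (r : ℝ))) * (2 * (⌈(j : ℝ) ^ (1 + d₁)⌉₊ : ℝ) / p) ≤ 1 := by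
  classical
  obtain ⟨c, C, hc, hC, hV⟩ := Pool.Agent.LibLin93.V_bounds
  obtain ⟨N, hN⟩ := eventually_atTop.1 zz_spec
  filter_upwards [uh06a_ev c d₁ hc h0 h1, eventually_ge_atTop N] with j hj hjN i hi p hp hpb
  obtain ⟨hj4, hjα, hjlog⟩ := hj
  set z := zz (u j i) with hz
  set z₁ := ⌊(j : ℝ) ^ ((1 + 3 * d₁) / 4)⌋₊ with hz₁
  set b := ⌈(j : ℝ) ^ (1 + d₁)⌉₊ with hb
  have hjR : (4 : ℝ) ≤ j := by exact_mod_cast hj4
  have hj0 : (0 : ℝ) < j := by linarith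
  -- the point `n = u j i`
  have hun : 2 ^ j ≤ u j i := Nat.le_add_right _ _
  have hunN : N ≤ u j i := hjN.trans ((Nat.lt_two_pow_self (n := j)).le.trans hun)
  obtain ⟨g1, g2, g3, g4⟩ := hN (u j i) hunN
  rw [← hz] at g1 g2 g3 g4
  have hunR : (2 : ℝ) ^ j ≤ u j i := by exact_mod_cast hun
  have hun1 : (1 : ℝ) ≤ u j i := le_trans (one_le_pow₀ (by norm_num)) hunR
  have hsq : (1 : ℝ) ≤ √(u j i : ℝ) := Real.one_le_sqrt.mpr hun1
  have hlogn : (j : ℝ) / 2 ≤ Real.log (u j i) := by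
    have e1 : (j : ℝ) * Real.log 2 ≤ Real.log (u j i) := by
      rw [← Real.log_pow]
      exact Real.log_le_log (by positivity) hunR
    have e2 := Real.log_two_gt_d9
    nlinarith
  have hlogn0 : 0 < Real.log (u j i) := by linarith
  have hVz : V z ≤ 6 / j := by
    have e1 : V z * Real.log (u j i) ≤ 3 := by
      refine g4.trans ?_
      have e2 : 2 / √(u j i : ℝ) ≤ 2 := by
        rw [div_le_iff₀ (by linarith)]
        linarith
      linarith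
    have e3 : V z ≤ 3 / Real.log (u j i) := by rwa [le_div_iff₀ hlogn0]
    refine e3.trans ?_
    rw [div_le_div_iff₀ hlogn0 hj0]
    linarith
  -- the prime `p`
  rw [mem_filter] at hp
  obtain ⟨hpPS, hpz₁⟩ := hp
  have hpPS' : p ∈ (range (zz (u j i))).filter (fun p => p.Prime ∧ wl j < p) := hpPS
  rw [mem_filter, mem_range, ← hz] at hpPS'
  obtain ⟨hpz, hpp, hwp⟩ := hpPS'
  have hp2 : 2 ≤ p := hpp.two_le
  have hp0 : (0 : ℝ) < p := by exact_mod_cast hpp.pos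
  -- the product
  have hprod : ∏ r ∈ ((PS j i).filter (fun p => z₁ ≤ p)).filter (fun r => p < r),
      (1 - (1 + η) / (r : ℝ)) ≤ ∏ r ∈ (Ico (p + 1) z).filter Nat.Prime, (1 - 1 / (r : ℝ)) := by
    have hset : ((PS j i).filter (fun p => z₁ ≤ p)).filter (fun r => p < r) =
        (Ico (p + 1) z).filter Nat.Prime := by
      ext r
      have hPSr : r ∈ PS j i ↔ r ∈ (range (zz (u j i))).filter (fun p => p.Prime ∧ wl j < p) :=
        Iff.rfl
      rw [mem_filter, mem_filter, hPSr, mem_filter, mem_range, mem_filter, mem_Ico, ← hz]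
      constructor
      · rintro ⟨⟨⟨a1, a2, a3⟩, a4⟩, a5⟩
        exact ⟨⟨a5, a1⟩, a2⟩
      · rintro ⟨⟨a1, a2⟩, a3⟩
        exact ⟨⟨⟨a2, a3, by omega⟩, by omega⟩, by omega⟩
    rw [hset]
    refine Finset.prod_le_prod (fun r hr => ?_) fun r hr => ?_
    · have hr2 : (2 : ℝ) ≤ r := by exact_mod_cast (mem_filter.1 hr).2.two_le
      rw [sub_nonneg, div_le_one (by linarith)]
      linarith
    · have hr2 : (2 : ℝ) ≤ r := by exact_mod_cast (mem_filter.1 hr).2.two_le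
      have e1 : 1 / (r : ℝ) ≤ (1 + η) / r := by
        apply div_le_div_of_nonneg_right _ (by linarith)
        linarith
      linarith
  have hVp := hV (p + 1) (by omega)
  have hlogp : 0 < Real.log ((p + 1 : ℕ) : ℝ) := by
    apply Real.log_pos
    push_cast
    linarith
  have hVp0 : 0 < V (p + 1) := by
    by_contra hcon
    push Not at hcon
    have := mul_nonpos_of_nonpos_of_nonneg hcon hlogp.le
    linarith [hVp.1]
  have hVsplit := uh06a_V (p + 1) z hpz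
  generalize hP2 : ∏ r ∈ (Ico (p + 1) z).filter Nat.Prime, (1 - 1 / (r : ℝ)) = P2 at *
  have hP2eq : P2 = V z / V (p + 1) := by
    rw [hVsplit]
    field_simp
  -- bounds for `b`
  have hjd : (1 : ℝ) ≤ (j : ℝ) ^ (1 + d₁) := Real.one_le_rpow (by linarith) (by linarith)
  have hbR : (b : ℝ) ≤ 2 * (j : ℝ) ^ (1 + d₁) := by
    have := (Nat.ceil_lt_add_one (show (0 : ℝ) ≤ (j : ℝ) ^ (1 + d₁) by positivity)).le
    linarith
  have hbj : (b : ℝ) ≤ (j : ℝ) ^ 3 := by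
    have e1 : (j : ℝ) ^ (1 + d₁) ≤ (j : ℝ) ^ (2 : ℝ) :=
      Real.rpow_le_rpow_of_exponent_le (by linarith) (by linarith)
    rw [Real.rpow_two] at e1
    nlinarith
  have hlogb : Real.log ((p + 1 : ℕ) : ℝ) ≤ 3 * Real.log j := by
    have e1 : ((p + 1 : ℕ) : ℝ) ≤ (j : ℝ) ^ 3 := by
      refine le_trans ?_ hbj
      exact_mod_cast hpb
    have e2 := Real.log_le_log (by positivity) e1
    rw [Real.log_pow] at e2
    exact_mod_cast e2
  have hlogj : 0 < Real.log j := Real.log_pos (by linarith)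
  have hPle : P2 ≤ 6 / j * (3 * Real.log j / c) := by
    rw [hP2eq, div_eq_mul_inv]
    apply mul_le_mul hVz _ (inv_nonneg.mpr hVp0.le) (by positivity)
    rw [inv_le_comm₀ hVp0 (by positivity), inv_div]
    rw [div_le_iff₀ (by positivity)]
    refine hVp.1.trans ?_
    exact mul_le_mul_of_nonneg_left hlogb hVp0.le
  -- bounds for `p`
  have hpα : (j : ℝ) ^ ((1 + 3 * d₁) / 4) / 2 ≤ p := by
    have e1 : (j : ℝ) ^ ((1 + 3 * d₁) / 4) < z₁ + 1 := Nat.lt_floor_add_one _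
    have e2 : (z₁ : ℝ) ≤ p := by exact_mod_cast hpz₁
    linarith
  have hbp : 2 * (b : ℝ) / p ≤ 8 * ((j : ℝ) ^ (1 + d₁) / (j : ℝ) ^ ((1 + 3 * d₁) / 4)) := by
    have hα0 : 0 < (j : ℝ) ^ ((1 + 3 * d₁) / 4) := by positivity
    rw [div_le_iff₀ hp0]
    have e1 : 8 * ((j : ℝ) ^ (1 + d₁) / (j : ℝ) ^ ((1 + 3 * d₁) / 4)) * p ≥
        8 * ((j : ℝ) ^ (1 + d₁) / (j : ℝ) ^ ((1 + 3 * d₁) / 4)) *
          ((j : ℝ) ^ ((1 + 3 * d₁) / 4) / 2) := by
      apply mul_le_mul_of_nonneg_left hpα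
      positivity
    have e2 : 8 * ((j : ℝ) ^ (1 + d₁) / (j : ℝ) ^ ((1 + 3 * d₁) / 4)) *
          ((j : ℝ) ^ ((1 + 3 * d₁) / 4) / 2) = 4 * (j : ℝ) ^ (1 + d₁) := by
      field_simp
      ring
    linarith
  have hpow : (j : ℝ) ^ (1 + d₁) / (j : ℝ) ^ ((1 + 3 * d₁) / 4) =
      j / (j : ℝ) ^ ((1 - d₁) / 4) := by
    have e1 := Real.rpow_sub hj0 (1 + d₁) ((1 + 3 * d₁) / 4)
    have e2 := Real.rpow_sub hj0 1 ((1 - d₁) / 4)
    rw [Real.rpow_one] at e2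
    rw [← e1, ← e2]
    congr 1
    ring
  have hδ0 : 0 < (j : ℝ) ^ ((1 - d₁) / 4) := by positivity
  calc (∏ r ∈ ((PS j i).filter (fun p => z₁ ≤ p)).filter (fun r => p < r),
        (1 - (1 + η) / (r : ℝ))) * (2 * (b : ℝ) / p)
      ≤ (6 / j * (3 * Real.log j / c)) *
        (8 * ((j : ℝ) ^ (1 + d₁) / (j : ℝ) ^ ((1 + 3 * d₁) / 4))) := by
        apply mul_le_mul (hprod.trans hPle) hbp (by positivity) (by positivity)
    _ = 144 * Real.log j / (c * (j : ℝ) ^ ((1 - d₁) / 4)) := by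
        rw [hpow]
        field_simp
        ring
    _ ≤ 1 := by
        rw [div_le_one (by positivity)]
        exact hjlog

/-- PROOF. With `s = {p ∈ PS j i | z₁ ≤ p}` (all primes in `[z₁, zz)` for large `j`, as
`wl j < z₁ ≤ zz`) and `prod_rpow`:
`∏_{p ∈ s} (1 - (1+η)/p) ≥ (∏ (1 - 1/p))^(1+2η) = (V zz / V z₁)^(1+2η) ≥ (V zz)^(1+2η) ≥
(1 / log (u j i))^(1+2η) ≥ (1/(2j))^(1+2η)` (`zz_spec`: `1 ≤ V zz log u`; `u j i ≤ 2^(j+1)`). -/
theorem pot_prod (d₁ : ℝ) (h0 : 0 < d₁) (h1 : d₁ < 1) (η : ℝ) (hη : 0 < η) (hη1 : η ≤ 1) :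
    ∀ᶠ j : ℕ in atTop, ∀ i : ℕ, i < TB j →
      (1 / (2 * (j : ℝ))) ^ (1 + 2 * η) ≤
        ∏ p ∈ (PS j i).filter (fun p => ⌊(j : ℝ) ^ ((1 + 3 * d₁) / 4)⌋₊ ≤ p),
          (1 - (1 + η) / (p : ℝ)) := by
  obtain ⟨P, hP⟩ := prod_rpow η hη hη1
  obtain ⟨n0, hn0⟩ := eventually_atTop.1 zz_spec
  have hα : 0 < (1 + 3 * d₁) / 4 := by linarith
  have hz : Tendsto (fun j : ℕ => ⌊(j : ℝ) ^ ((1 + 3 * d₁) / 4)⌋₊) atTop atTop :=
    tendsto_nat_floor_atTop.comp ((tendsto_rpow_atTop hα).comp tendsto_natCast_atTop_atTop)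
  filter_upwards [hz.eventually_ge_atTop P, eventually_ge_atTop (max n0 1)] with j hj1 hj2 i hi
  have hjn0 : n0 ≤ j := le_trans (le_max_left _ _) hj2
  have hj1' : 1 ≤ j := le_trans (le_max_right _ _) hj2
  have hul : 2 ^ j ≤ u j i := Nat.le_add_right _ _
  have hn : n0 ≤ u j i := hjn0.trans ((Nat.lt_two_pow_self).le.trans hul)
  have huu : u j i ≤ 2 ^ (j + 1) := by
    unfold u
    have h2 : i * NB j ≤ TB j * NB j := Nat.mul_le_mul_right _ hi.le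
    have h3 : TB j * NB j = 2 ^ j := by
      unfold TB NB
      rw [← pow_add]
      congr 1
      have := Nat.div_le_self j 4
      omega
    rw [pow_succ]
    omega
  obtain ⟨-, -, hV, -⟩ := hn0 _ hn
  have hupos : (0 : ℝ) < u j i := by
    have : 0 < u j i := lt_of_lt_of_le (by positivity) hul
    exact_mod_cast this
  have hlog : Real.log (u j i) ≤ 2 * j := by
    have h2 : ((u j i : ℕ) : ℝ) ≤ 2 ^ (j + 1) := by exact_mod_cast huu
    have h3 := Real.log_le_log hupos h2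
    rw [Real.log_pow] at h3
    push_cast at h3
    have h4 : Real.log 2 < 1 := by linarith [Real.log_two_lt_d9]
    have h5 : (1 : ℝ) ≤ j := by exact_mod_cast hj1'
    nlinarith
  have hfac : ∀ p ∈ (range (zz (u j i))).filter Nat.Prime,
      0 ≤ (1 - 1 / (p : ℝ)) ∧ (1 - 1 / (p : ℝ)) ≤ 1 := by
    intro p hp
    rw [mem_filter] at hp
    have h2 : (1 : ℝ) < p := by exact_mod_cast hp.2.one_lt
    constructor
    · rw [sub_nonneg, div_le_one (by linarith)]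
      exact h2.le
    · have : 0 ≤ 1 / (p : ℝ) := by positivity
      linarith
  have hV0 : 0 ≤ V (zz (u j i)) := by
    unfold Pool.Agent.LibLin93.V
    exact Finset.prod_nonneg fun p hp => (hfac p hp).1
  have hj0 : (0 : ℝ) < 2 * j := by
    have : (1 : ℝ) ≤ j := by exact_mod_cast hj1'
    linarith
  have h2 : 1 / (2 * (j : ℝ)) ≤ V (zz (u j i)) := by
    rw [div_le_iff₀ hj0]
    calc (1 : ℝ) ≤ V (zz (u j i)) * Real.log (u j i) := hV
      _ ≤ V (zz (u j i)) * (2 * j) := mul_le_mul_of_nonneg_left hlog hV0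
  set s := (PS j i).filter (fun p => ⌊(j : ℝ) ^ ((1 + 3 * d₁) / 4)⌋₊ ≤ p) with hs
  have hsub : s ⊆ (range (zz (u j i))).filter Nat.Prime := by
    intro p hp
    rw [hs, mem_filter] at hp
    have h3 := hp.1
    unfold PS at h3
    rw [mem_filter] at h3
    rw [mem_filter]
    exact ⟨h3.1, h3.2.1⟩
  have h3 : V (zz (u j i)) ≤ ∏ p ∈ s, (1 - 1 / (p : ℝ)) := by
    unfold Pool.Agent.LibLin93.V
    rw [← Finset.prod_sdiff hsub]
    have h4 : ∏ p ∈ ((range (zz (u j i))).filter Nat.Prime) \ s, (1 - 1 / (p : ℝ)) ≤ 1 := by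
      apply Finset.prod_le_one
      · intro p hp
        exact (hfac p (Finset.mem_sdiff.1 hp).1).1
      · intro p hp
        exact (hfac p (Finset.mem_sdiff.1 hp).1).2
    have h5 : 0 ≤ ∏ p ∈ s, (1 - 1 / (p : ℝ)) :=
      Finset.prod_nonneg fun p hp => (hfac p (hsub hp)).1
    exact mul_le_of_le_one_left h5 h4
  have h4 : ∀ p ∈ s, p.Prime ∧ P ≤ p := by
    intro p hp
    refine ⟨(mem_filter.1 (hsub hp)).2, ?_⟩
    rw [hs, mem_filter] at hp
    exact hj1.trans hp.2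
  refine le_trans ?_ (hP s h4)
  exact Real.rpow_le_rpow (by positivity) (h2.trans h3) (by linarith)

theorem uh06c_log (c r : ℝ) (hc : 0 < c) (hr : 0 < r) :
    ∀ᶠ j : ℕ in atTop, Real.log j ≤ c * (j : ℝ) ^ r := by
  have h1 := (isLittleO_log_rpow_atTop hr).def hc
  have h2 := tendsto_natCast_atTop_atTop (R := ℝ) |>.eventually h1
  filter_upwards [h2, eventually_ge_atTop 1] with j hj hj1
  have hj1' : (1 : ℝ) ≤ j := by exact_mod_cast hj1
  rw [Real.norm_eq_abs, Real.norm_eq_abs, abs_of_nonneg (Real.log_nonneg hj1'),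
    abs_of_nonneg (Real.rpow_nonneg (by linarith) _)] at hj
  exact hj

theorem uh06c_wl (α : ℝ) (hα : 0 < α) : ∀ᶠ j : ℕ in atTop, wl j < ⌊(j : ℝ) ^ α⌋₊ := by
  have h1 := uh06c_log (1 / 4) α (by norm_num) hα
  have h2 : ∀ᶠ j : ℕ in atTop, (2 : ℝ) ≤ (j : ℝ) ^ α := by
    have := (tendsto_rpow_atTop hα).comp (tendsto_natCast_atTop_atTop (R := ℝ))
    exact this.eventually (eventually_ge_atTop 2)
  filter_upwards [h1, h2, eventually_ge_atTop 1] with j hj1 hj2 hj3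
  rw [← Nat.succ_le_iff, Nat.le_floor_iff (by linarith)]
  have h3 : (2 : ℕ) ^ (Nat.log 2 j) ≤ j := Nat.pow_log_le_self 2 (by omega)
  have h4 : (2 : ℝ) ^ (Nat.log 2 j) ≤ j := by exact_mod_cast h3
  have h5 : Real.log ((2 : ℝ) ^ (Nat.log 2 j)) ≤ Real.log j := Real.log_le_log (by positivity) h4
  rw [Real.log_pow] at h5
  have h6 : (1 / 2 : ℝ) < Real.log 2 := by
    have := Real.log_two_gt_d9
    linarith
  have h7 : (0 : ℝ) ≤ (Nat.log 2 j : ℝ) := Nat.cast_nonneg _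
  have h8 : (Nat.log 2 j : ℝ) ≤ 2 * Real.log j := by nlinarith
  unfold wl
  push_cast
  linarith

/-- the final growth comparison -/
theorem uh06c_growth (d d₁ κ : ℝ) (h01 : d < d₁) (h1 : d₁ < 1) (h0 : 0 < d) (hκ : 0 < κ) :
    ∀ᶠ j : ℕ in atTop, (j : ℝ) ^ d ≤
      (d₁ - d) / 8 * (1 / (2 * (j : ℝ))) ^ (1 + 2 * ((d₁ - d) / 8)) *
        (κ * (j : ℝ) ^ (1 + d₁) / Real.log j) := by
  set η : ℝ := (d₁ - d) / 8 with hη
  have hη0 : 0 < η := by rw [hη]; linarith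
  have hη1 : η ≤ 1 := by rw [hη]; linarith
  have h2 := uh06c_log (η * κ / 8) (6 * η) (by positivity) (by positivity)
  filter_upwards [h2, eventually_ge_atTop 3] with j hj hj3
  have hj3' : (3 : ℝ) ≤ j := by exact_mod_cast hj3
  have hj0 : (0 : ℝ) < j := by linarith
  have hlog : 0 < Real.log j := Real.log_pos (by linarith)
  have e1 : (1 / (2 * (j : ℝ))) ^ (1 + 2 * η) = (2 : ℝ) ^ (-(1 + 2 * η)) * (j : ℝ) ^ (-(1 + 2 * η)) := by
    rw [one_div, Real.inv_rpow (by positivity), ← Real.rpow_neg (by positivity),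
      Real.mul_rpow (by norm_num) hj0.le]
  have e2 : (1 / 8 : ℝ) ≤ (2 : ℝ) ^ (-(1 + 2 * η)) := by
    have : (1 / 8 : ℝ) = (2 : ℝ) ^ (-(3 : ℝ)) := by
      rw [Real.rpow_neg (by norm_num), show (3 : ℝ) = ((3 : ℕ) : ℝ) by norm_num, Real.rpow_natCast]
      norm_num
    rw [this]
    apply Real.rpow_le_rpow_of_exponent_le (by norm_num)
    linarith
  have e3 : (j : ℝ) ^ (-(1 + 2 * η)) * (j : ℝ) ^ (1 + d₁) = (j : ℝ) ^ d * (j : ℝ) ^ (6 * η) := by
    rw [← Real.rpow_add hj0, ← Real.rpow_add hj0]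
    congr 1
    rw [hη]
    ring
  rw [e1]
  have e4 : η * ((2 : ℝ) ^ (-(1 + 2 * η)) * (j : ℝ) ^ (-(1 + 2 * η))) *
      (κ * (j : ℝ) ^ (1 + d₁) / Real.log j) =
      (2 : ℝ) ^ (-(1 + 2 * η)) * (η * κ * ((j : ℝ) ^ d * (j : ℝ) ^ (6 * η)) / Real.log j) := by
    rw [← e3]
    ring
  rw [e4]
  have hjd : 0 < (j : ℝ) ^ d := Real.rpow_pos_of_pos hj0 _
  have hj6 : 0 < (j : ℝ) ^ (6 * η) := Real.rpow_pos_of_pos hj0 _
  calc (j : ℝ) ^ d = (j : ℝ) ^ d * (Real.log j / Real.log j) := by rw [div_self hlog.ne', mul_one]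
    _ ≤ (j : ℝ) ^ d * ((η * κ / 8 * (j : ℝ) ^ (6 * η)) / Real.log j) := by
        apply mul_le_mul_of_nonneg_left _ hjd.le
        exact div_le_div_of_nonneg_right hj hlog.le
    _ = (1 / 8) * (η * κ * ((j : ℝ) ^ d * (j : ℝ) ^ (6 * η)) / Real.log j) := by ring
    _ ≤ _ := mul_le_mul_of_nonneg_right e2 (by positivity)

open Classical in
/-- THE CELL ESTIMATE. PROOF. `η = (d₁ - d)/8`, `b₀ = ⌈j^(1+d₁)⌉ ≤ b`, `z₁ = ⌊j^((1+3d₁)/4)⌋`,
`s₁ = {p ∈ PS j i | p < z₁}`, `s₂ = {p ∈ PS j i | z₁ ≤ p}`, `Q₁, Q₂` their products,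
`QQ j i = Q₁ Q₂`, coprime. If `XX j i m` is disjoint from `[c, c+b)`, then every `n ∈ [c, c+b₀)` has
a prime factor `≤ wl j` or `p ∣ n + m` for some `p ∈ PS j i`. Put `m₁ = m % Q₁`, `m₂ = m % Q₂`; for
`p ∈ s₁`, `p ∣ n + m` iff `p ∣ n + m₁`, same for `s₂`, `m₂`. Let `W(m₁)` be the set of the
`n ∈ [c, c+b₀)` without prime factors `≤ wl j` and with `p ∤ n + m₁` for all `p ∈ s₁`; for large `j`
(`wl j < z₁ ≤ zz`) this is the set of `cell_lower` (`w = wl j`, `m = m₁`), so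
`#W(m₁) ≥ κ j^(1+d₁) / log j`. The bad `m` satisfy: for all `v ∈ W(m₁)` some `p ∈ s₂` divides
`v + m₂`. By `crt_sum` and `potential` (`pot_cond`) their number is at most
`∑_{m₁ < Q₁} Q₂ exp (-η P #W(m₁)) ≤ QQ exp (-η P κ j^(1+d₁)/log j)`, `P ≥ (2j)^(-1-2η)` by
`pot_prod`; the exponent is at least `η κ 8^(-1) j^(d₁ - 2η) / log j ≥ j^d` for large `j`, since
`d₁ - 2η > d`. -/
theorem bad_cell (d d₁ : ℝ) (h0 : 0 < d) (h01 : d < d₁) (h1 : d₁ < 1) :
    ∀ᶠ j : ℕ in atTop, ∀ i : ℕ, i < TB j → ∀ c b : ℕ, u j i ≤ c → c + b ≤ u j i + NB j →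
      (j : ℝ) ^ (1 + d₁) + 1 ≤ b →
      (#{m ∈ range (QQ j i) | Disjoint (XX j i m) (Ico c (c + b))} : ℝ) ≤
        QQ j i * Real.exp (-((j : ℝ) ^ d)) := by
  set η : ℝ := (d₁ - d) / 8 with hη
  have hη0 : 0 < η := by rw [hη]; linarith
  have hη1 : η ≤ 1 := by rw [hη]; linarith
  have hd₁0 : 0 < d₁ := by linarith
  obtain ⟨κ, hκ, hcell⟩ := cell_lower d₁ hd₁0 h1
  filter_upwards [pot_cond d₁ hd₁0 h1 η hη0 hη1, pot_prod d₁ hd₁0 h1 η hη0 hη1, hcell,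
    uh06c_wl ((1 + 3 * d₁) / 4) (by linarith), uh06c_growth d d₁ κ h01 h1 h0 hκ] with
    j hpc hpp hcl hwl hgr
  intro i hi c b hc hcb hb
  have hpc' := hpc i hi
  have hpp' := hpp i hi
  set z₁ : ℕ := ⌊(j : ℝ) ^ ((1 + 3 * d₁) / 4)⌋₊ with hz₁
  set b₀ : ℕ := ⌈(j : ℝ) ^ (1 + d₁)⌉₊ with hb₀
  have hb₀b : b₀ ≤ b := by
    rw [hb₀, Nat.ceil_le]
    linarith
  set s₁ := (PS j i).filter (fun p => ¬ z₁ ≤ p) with hs₁
  set s₂ := (PS j i).filter (fun p => z₁ ≤ p) with hs₂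
  have hprime : ∀ p ∈ PS j i, p.Prime := fun p hp => (Finset.mem_filter.mp hp).2.1
  have hwlp : ∀ p ∈ PS j i, wl j < p := fun p hp => (Finset.mem_filter.mp hp).2.2
  set Q₁ : ℕ := ∏ p ∈ s₁, p with hQ₁
  set Q₂ : ℕ := ∏ p ∈ s₂, p with hQ₂
  have hQQ : QQ j i = Q₁ * Q₂ := by
    unfold QQ
    rw [hQ₁, hQ₂, hs₁, hs₂, mul_comm]
    exact (Finset.prod_filter_mul_prod_filter_not (PS j i) (fun p => z₁ ≤ p) (fun p => p)).symm
  have hQ₁0 : 0 < Q₁ := Finset.prod_pos fun p hp => (hprime p (Finset.mem_filter.mp hp).1).pos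
  have hQ₂0 : 0 < Q₂ := Finset.prod_pos fun p hp => (hprime p (Finset.mem_filter.mp hp).1).pos
  have hcop : Nat.Coprime Q₁ Q₂ := by
    rw [hQ₁, hQ₂]
    apply Nat.Coprime.prod_left
    intro p hp
    apply Nat.Coprime.prod_right
    intro q hq
    rw [hs₁, Finset.mem_filter] at hp
    rw [hs₂, Finset.mem_filter] at hq
    rw [Nat.coprime_primes (hprime p hp.1) (hprime q hq.1)]
    rintro rfl
    exact hp.2 hq.2
  -- the sets W(x)
  set W : ℕ → Finset ℕ := fun x => (Ico c (c + b₀)).filter (fun n =>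
    (∀ p : ℕ, p.Prime → p < z₁ → p ≤ wl j → ¬ p ∣ n) ∧
      ∀ p : ℕ, p.Prime → p < z₁ → wl j < p → ¬ p ∣ n + x) with hW
  have hWcard : ∀ x, κ * (j : ℝ) ^ (1 + d₁) / Real.log j ≤ (#(W x) : ℝ) := by
    intro x
    have := hcl (wl j) c x
    rw [hW]
    refine this.trans (le_of_eq ?_)
    congr!
  have hWsub : ∀ x, W x ⊆ Ico c (c + b₀) := fun x => Finset.filter_subset _ _
  -- the bad shifts
  have hbad : ∀ m ∈ range (QQ j i), Disjoint (XX j i m) (Ico c (c + b)) →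
      ∀ v ∈ W (m % Q₁), ∃ p ∈ s₂, p ∣ v + m % Q₂ := by
    intro m _ hdis v hv
    rw [hW] at hv
    simp only [Finset.mem_filter, Finset.mem_Ico] at hv
    obtain ⟨⟨hv1, hv2⟩, hv3, hv4⟩ := hv
    have hvI : v ∈ Ico c (c + b) := Finset.mem_Ico.mpr ⟨hv1, by omega⟩
    have hvX : v ∉ XX j i m := fun h => (Finset.disjoint_left.mp hdis) h hvI
    have h3 : ∃ p ∈ PS j i, p ∣ v + m := by
      by_contra hcon
      push Not at hcon
      apply hvX
      unfold XX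
      rw [Finset.mem_filter, Finset.mem_Ico]
      refine ⟨⟨by omega, by omega⟩, ?_, hcon⟩
      intro p hp hpw
      exact hv3 p hp (by omega) hpw
    obtain ⟨p, hp, hpd⟩ := h3
    have hlt : z₁ ≤ p := by
      by_contra hlt
      have hps₁ : p ∈ s₁ := Finset.mem_filter.mpr ⟨hp, hlt⟩
      have hpQ : p ∣ Q₁ := Finset.dvd_prod_of_mem _ hps₁
      have hmod : v + m % Q₁ ≡ v + m [MOD p] :=
        Nat.ModEq.add_left v ((Nat.mod_modEq m Q₁).of_dvd hpQ)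
      exact hv4 p (hprime p hp) (by omega) (hwlp p hp) ((hmod.dvd_iff dvd_rfl).mpr hpd)
    have hps₂ : p ∈ s₂ := Finset.mem_filter.mpr ⟨hp, hlt⟩
    have hpQ : p ∣ Q₂ := Finset.dvd_prod_of_mem _ hps₂
    have hmod : v + m % Q₂ ≡ v + m [MOD p] :=
      Nat.ModEq.add_left v ((Nat.mod_modEq m Q₂).of_dvd hpQ)
    exact ⟨p, hps₂, (hmod.dvd_iff dvd_rfl).mpr hpd⟩
  -- the count
  set F : ℕ → ℕ → ℝ := fun x y => if (∀ v ∈ W x, ∃ p ∈ s₂, p ∣ v + y) then 1 else 0 with hF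
  have hcount : (#{m ∈ range (QQ j i) | Disjoint (XX j i m) (Ico c (c + b))} : ℝ) ≤
      ∑ x ∈ range Q₁, ∑ y ∈ range Q₂, F x y := by
    rw [← crt_sum Q₁ Q₂ hQ₁0 hQ₂0 hcop F, ← hQQ, Finset.card_filter, Nat.cast_sum]
    apply Finset.sum_le_sum
    intro m hm
    rw [hF]
    simp only [Nat.cast_ite, Nat.cast_one, Nat.cast_zero]
    by_cases hdis : Disjoint (XX j i m) (Ico c (c + b))
    · rw [if_pos hdis, if_pos (hbad m hm hdis)]
    · rw [if_neg hdis]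
      split_ifs <;> norm_num
  have hinner : ∀ x ∈ range Q₁, ∑ y ∈ range Q₂, F x y ≤ (Q₂ : ℝ) * Real.exp (-((j : ℝ) ^ d)) := by
    intro x _
    have h1 := potential s₂ (fun p hp => hprime p (Finset.mem_filter.mp hp).1) η hη0 hη1 b₀ c
      hpc' (W x) (hWsub x)
    have h2 : ∑ y ∈ range Q₂, F x y =
        (#{m ∈ range (∏ p ∈ s₂, p) | ∀ v ∈ W x, ∃ p ∈ s₂, p ∣ v + m} : ℝ) := by
      rw [← hQ₂, Finset.card_filter, Nat.cast_sum]
      apply Finset.sum_congr rfl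
      intro y _
      rw [hF]
      simp only [Nat.cast_ite, Nat.cast_one, Nat.cast_zero]
    rw [h2]
    refine h1.trans ?_
    rw [hQ₂]
    push_cast
    apply mul_le_mul_of_nonneg_left _ (Finset.prod_nonneg fun _ _ => Nat.cast_nonneg _)
    apply Real.exp_le_exp.mpr
    apply neg_le_neg
    refine hgr.trans ?_
    have h3 := hWcard x
    have hlog0 : 0 ≤ κ * (j : ℝ) ^ (1 + d₁) / Real.log j :=
      div_nonneg (mul_nonneg hκ.le (Real.rpow_nonneg (Nat.cast_nonneg _) _))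
        (Real.log_natCast_nonneg _)
    have h4 : 0 ≤ (1 / (2 * (j : ℝ))) ^ (1 + 2 * η) := Real.rpow_nonneg (by positivity) _
    apply mul_le_mul _ h3 hlog0
    · exact mul_nonneg hη0.le (h4.trans hpp')
    · exact mul_le_mul_of_nonneg_left hpp' hη0.le
  calc (#{m ∈ range (QQ j i) | Disjoint (XX j i m) (Ico c (c + b))} : ℝ)
      ≤ ∑ x ∈ range Q₁, ∑ y ∈ range Q₂, F x y := hcount
    _ ≤ ∑ x ∈ range Q₁, (Q₂ : ℝ) * Real.exp (-((j : ℝ) ^ d)) := Finset.sum_le_sum hinner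
    _ = QQ j i * Real.exp (-((j : ℝ) ^ d)) := by
        rw [Finset.sum_const, Finset.card_range, nsmul_eq_mul, hQQ]
        push_cast
        ring

end Pool.Agent.LibUHL
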