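import Mathlib

/-! Row UH 07: Hoeffding's inequality, finite form. -/

set_option autoImplicit false

namespace Pool.Agent.LibUHL

open Finset

theorem uh07_conv (l y B : ℝ) (hB : 0 < B) (hy : |y| ≤ B) :
    Real.exp (l * y) ≤ Real.cosh (l * B) + y / B * Real.sinh (l * B) := by
  obtain ⟨h1, h2⟩ := abs_le.mp hy
  have ha : 0 ≤ (1 + y / B) / 2 := by
    have : -1 ≤ y / B := by rw [le_div_iff₀ hB]; linarith
    linarith
  have hb : 0 ≤ (1 - y / B) / 2 := by
    have : y / B ≤ 1 := by rw [div_le_iff₀ hB]; linarith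
    linarith
  have h := convexOn_exp.2 (Set.mem_univ (l * B)) (Set.mem_univ (-(l * B))) ha hb (by ring)
  simp only [smul_eq_mul] at h
  have e1 : (1 + y / B) / 2 * (l * B) + (1 - y / B) / 2 * -(l * B) = l * y := by
    field_simp
    ring
  rw [e1] at h
  rw [Real.cosh_eq, Real.sinh_eq]
  linarith

theorem uh07_mgf (Q : ℕ) (y : ℕ → ℝ) (l B : ℝ) (hB : 0 < B) (hy : ∀ x < Q, |y x| ≤ B)
    (h0 : ∑ x ∈ range Q, y x = 0) :
    ∑ x ∈ range Q, Real.exp (l * y x) ≤ Q * Real.exp (l ^ 2 * B ^ 2 / 2) := by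
  calc ∑ x ∈ range Q, Real.exp (l * y x)
      ≤ ∑ x ∈ range Q, (Real.cosh (l * B) + y x * (Real.sinh (l * B) / B)) := by
        apply Finset.sum_le_sum
        intro x hx
        have := uh07_conv l (y x) B hB (hy x (Finset.mem_range.mp hx))
        calc _ ≤ _ := this
          _ = _ := by ring
    _ = Q * Real.cosh (l * B) := by
        rw [Finset.sum_add_distrib, ← Finset.sum_mul, h0]
        simp
    _ ≤ Q * Real.exp (l ^ 2 * B ^ 2 / 2) := by
        apply mul_le_mul_of_nonneg_left _ (Nat.cast_nonneg _)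
        have := Real.cosh_le_exp_half_sq (l * B)
        rwa [mul_pow] at this

theorem uh07_side (T : ℕ) (Q : Fin T → ℕ) (Y : Fin T → ℕ → ℝ) (B : ℝ) (hB : 0 < B)
    (hY : ∀ i x, x < Q i → |Y i x| ≤ B) (h0 : ∀ i, ∑ x ∈ range (Q i), Y i x = 0) (t : ℝ)
    (ht : 0 ≤ t) (hT : 0 < T) :
    (#{m ∈ Fintype.piFinset (fun i => range (Q i)) | t ≤ ∑ i, Y i (m i)} : ℝ) ≤
      Real.exp (-(t ^ 2 / (2 * T * B ^ 2))) * ∏ i, (Q i : ℝ) := by
  have hT' : (0 : ℝ) < T := by exact_mod_cast hT
  set l : ℝ := t / (T * B ^ 2) with hl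
  have hl0 : 0 ≤ l := by positivity
  calc (#{m ∈ Fintype.piFinset (fun i => range (Q i)) | t ≤ ∑ i, Y i (m i)} : ℝ)
      = ∑ m ∈ (Fintype.piFinset (fun i => range (Q i))).filter (fun m => t ≤ ∑ i, Y i (m i)),
          (1 : ℝ) := by simp
    _ ≤ ∑ m ∈ (Fintype.piFinset (fun i => range (Q i))).filter (fun m => t ≤ ∑ i, Y i (m i)),
          Real.exp (l * (∑ i, Y i (m i) - t)) := by
        apply Finset.sum_le_sum
        intro m hm
        rw [Finset.mem_filter] at hm
        apply Real.one_le_exp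
        exact mul_nonneg hl0 (by linarith [hm.2])
    _ ≤ ∑ m ∈ Fintype.piFinset (fun i => range (Q i)), Real.exp (l * (∑ i, Y i (m i) - t)) := by
        apply Finset.sum_le_sum_of_subset_of_nonneg (Finset.filter_subset _ _)
        intro m _ _
        exact (Real.exp_pos _).le
    _ = Real.exp (-(l * t)) * ∏ i, ∑ x ∈ range (Q i), Real.exp (l * Y i x) := by
        rw [Finset.prod_univ_sum, Finset.mul_sum]
        apply Finset.sum_congr rfl
        intro m _
        rw [← Real.exp_sum, ← Real.exp_add, ← Finset.mul_sum]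
        ring_nf
    _ ≤ Real.exp (-(l * t)) * ∏ i, ((Q i : ℝ) * Real.exp (l ^ 2 * B ^ 2 / 2)) := by
        apply mul_le_mul_of_nonneg_left _ (Real.exp_pos _).le
        apply Finset.prod_le_prod
        · intro i _
          exact Finset.sum_nonneg fun _ _ => (Real.exp_pos _).le
        · intro i _
          exact uh07_mgf (Q i) (Y i) l B hB (hY i) (h0 i)
    _ = Real.exp (-(t ^ 2 / (2 * T * B ^ 2))) * ∏ i, (Q i : ℝ) := by
        rw [Finset.prod_mul_distrib, Finset.prod_const, Finset.card_univ, Fintype.card_fin,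
          ← Real.exp_nat_mul]
        have : Real.exp (-(t ^ 2 / (2 * T * B ^ 2))) =
            Real.exp (-(l * t)) * Real.exp (T * (l ^ 2 * B ^ 2 / 2)) := by
          rw [← Real.exp_add]
          congr 1
          rw [hl]
          field_simp
          ring
        rw [this]
        ring

/-- PROOF. For `λ = t/(T B²)` (if `T = 0` or `t = 0` the claim is trivial: the factor `2 exp 0 = 2`;
for `T = 0` the sum is `0`). For `|y| ≤ B`, convexity: `exp (λ y) ≤ cosh (λ B) + (y/B) sinh (λ B)`,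
so by the mean zero condition `∑_{x < Q i} exp (λ Y i x) ≤ Q i cosh (λ B) ≤ Q i exp (λ² B²/2)`
(`Real.cosh_le_exp_half_sq`). `∑_{m ∈ piFinset} exp (λ ∑ Y) = ∏_i ∑_x exp (λ Y i x)`
(`Finset.prod_univ_sum`), so the number of the `m` with `∑ Y ≥ t` is at most
`exp (-λ t + T λ² B²/2) ∏ Q i = exp (-t²/(2 T B²)) ∏ Q i`. The same for `-Y`. -/
theorem hoeffding (T : ℕ) (Q : Fin T → ℕ) (Y : Fin T → ℕ → ℝ) (B : ℝ) (hB : 0 < B)
    (hY : ∀ i x, x < Q i → |Y i x| ≤ B) (h0 : ∀ i, ∑ x ∈ range (Q i), Y i x = 0) (t : ℝ)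
    (ht : 0 ≤ t) :
    (#{m ∈ Fintype.piFinset (fun i => range (Q i)) | t ≤ |∑ i, Y i (m i)|} : ℝ) ≤
      2 * Real.exp (-(t ^ 2 / (2 * T * B ^ 2))) * ∏ i, (Q i : ℝ) := by
  rcases Nat.eq_zero_or_pos T with hT | hT
  · subst hT
    have h1 : (#{m ∈ Fintype.piFinset (fun i => range (Q i)) | t ≤ |∑ i, Y i (m i)|} : ℝ) ≤ 1 := by
      have h2 : #{m ∈ Fintype.piFinset (fun i => range (Q i)) | t ≤ |∑ i, Y i (m i)|} ≤
          #(Fintype.piFinset (fun i => range (Q i))) := Finset.card_filter_le _ _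
      rw [Fintype.card_piFinset] at h2
      simp only [Finset.univ_eq_empty, Finset.prod_empty] at h2
      exact_mod_cast h2
    refine h1.trans ?_
    simp
  · have h1 := uh07_side T Q Y B hB hY h0 t ht hT
    have h2 := uh07_side T Q (fun i x => - Y i x) B hB (fun i x hx => by rw [abs_neg]; exact hY i x hx)
      (fun i => by rw [Finset.sum_neg_distrib, h0 i, neg_zero]) t ht hT
    have h3 : #{m ∈ Fintype.piFinset (fun i => range (Q i)) | t ≤ |∑ i, Y i (m i)|} ≤
        #{m ∈ Fintype.piFinset (fun i => range (Q i)) | t ≤ ∑ i, Y i (m i)} +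
        #{m ∈ Fintype.piFinset (fun i => range (Q i)) | t ≤ ∑ i, - Y i (m i)} := by
      refine (Finset.card_le_card ?_).trans (Finset.card_union_le _ _)
      intro m hm
      rw [Finset.mem_filter] at hm
      rw [Finset.mem_union, Finset.mem_filter, Finset.mem_filter]
      rcases le_abs.mp hm.2 with h | h
      · exact Or.inl ⟨hm.1, h⟩
      · refine Or.inr ⟨hm.1, ?_⟩
        rwa [Finset.sum_neg_distrib]
    have h4 : (#{m ∈ Fintype.piFinset (fun i => range (Q i)) | t ≤ |∑ i, Y i (m i)|} : ℝ) ≤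
        (#{m ∈ Fintype.piFinset (fun i => range (Q i)) | t ≤ ∑ i, Y i (m i)} : ℝ) +
        (#{m ∈ Fintype.piFinset (fun i => range (Q i)) | t ≤ ∑ i, - Y i (m i)} : ℝ) := by
      exact_mod_cast h3
    linarith

end Pool.Agent.LibUHL
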