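import Pool.Agent.LibUHL.U03
import Pool.Agent.LibUHL.U07

/-! Row UH 08: the choice of the shifts of one scale. -/

set_option autoImplicit false

namespace Pool.Agent.LibUHL

open Finset Filter Topology MeasureTheory

theorem uh08a_growth : ∀ k : ℕ, 14 ≤ k → (8 * k + 8) ^ 2 + 7 * (8 * k + 8) + 5 < 2 ^ k := by
  intro k hk
  induction k, hk using Nat.le_induction with
  | base => norm_num
  | succ k hk ih =>
    have h2 : (2 : ℕ) ^ (k + 1) = 2 * 2 ^ k := by ring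
    rw [h2]
    nlinarith

theorem uh08a_growth2 (j : ℕ) (hj : 120 ≤ j) : j ^ 2 + 7 * j + 5 < 2 ^ (j / 8) := by
  have h1 := uh08a_growth (j / 8) (by omega)
  have h2 : j ≤ 8 * (j / 8) + 8 := by omega
  have h3 : j ^ 2 ≤ (8 * (j / 8) + 8) ^ 2 := Nat.pow_le_pow_left h2 2
  omega

theorem uh08a_cardH (n j : ℕ) (hn : 1 ≤ n) :
    #((range n).powerset.filter (fun H => #H ≤ j)) ≤ (j + 1) * n ^ j := by
  have h1 : (range n).powerset.filter (fun H => #H ≤ j) ⊆
      (range (j + 1)).biUnion (fun k => Finset.powersetCard k (range n)) := by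
    intro H hH
    rw [Finset.mem_filter, Finset.mem_powerset] at hH
    rw [Finset.mem_biUnion]
    exact ⟨#H, Finset.mem_range.mpr (by omega), Finset.mem_powersetCard.mpr ⟨hH.1, rfl⟩⟩
  calc #((range n).powerset.filter (fun H => #H ≤ j))
      ≤ #((range (j + 1)).biUnion (fun k => Finset.powersetCard k (range n))) :=
        Finset.card_le_card h1
    _ ≤ ∑ k ∈ range (j + 1), #(Finset.powersetCard k (range n)) := Finset.card_biUnion_le
    _ ≤ ∑ k ∈ range (j + 1), n ^ j := by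
        apply Finset.sum_le_sum
        intro k hk
        rw [Finset.mem_range] at hk
        rw [Finset.card_powersetCard, Finset.card_range]
        exact (Nat.choose_le_pow n k).trans (Nat.pow_le_pow_right hn (by omega))
    _ = (j + 1) * n ^ j := by rw [Finset.sum_const, Finset.card_range, smul_eq_mul]

theorem uh08a_modeq (n q a : ℕ) : (n ≡ a [MOD q]) = (n ≡ a % q [MOD q]) := by
  unfold Nat.ModEq
  rw [Nat.mod_mod]

theorem uh08a_Yc_mod (j i m x q a : ℕ) (H : Finset ℕ) :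
    Yc j i m x q a H = Yc j i m x q (a % q) H := by
  unfold Yc
  apply congrArg
  apply congrArg
  apply Finset.filter_congr
  intro n _
  rw [uh08a_modeq n q a]

theorem uh08a_Mn_mod (j i x q a : ℕ) (H : Finset ℕ) :
    Mn j i x q a H = Mn j i x q (a % q) H := by
  classical
  unfold Mn
  apply congrArg (fun y : ℝ => y * GP j i H)
  apply congrArg
  apply congrArg
  apply Finset.filter_congr
  intro n _
  rw [uh08a_modeq n q a]

theorem uh08a_Mn_nonneg (j i x q a : ℕ) (H : Finset ℕ) : 0 ≤ Mn j i x q a H :=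
  mul_nonneg (Nat.cast_nonneg _) (GP_nonneg j i H)

theorem uh08a_Mn_le (j i x q a : ℕ) (H : Finset ℕ) : Mn j i x q a H ≤ NB j := by
  classical
  unfold Mn
  have h1 := GP_nonneg j i H
  have h2 := GP_le_one j i H
  refine (mul_le_mul_of_nonneg_left h2 (Nat.cast_nonneg _)).trans ?_
  rw [mul_one]
  have h3 := Finset.card_filter_le (Ico (u j i) (u j i + NB j))
    (fun n => n < x ∧ n ≡ a [MOD q] ∧ (∀ h ∈ H, n + h < u j i + NB j) ∧
      ∀ h ∈ H, ∀ p : ℕ, p.Prime → p ≤ wl j → ¬ p ∣ n + h)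
  rw [Nat.card_Ico, Nat.add_sub_cancel_left] at h3
  exact_mod_cast h3

theorem uh08a_expo (j : ℕ) (hj : 120 ≤ j) :
    (2 : ℝ) ^ (j / 8) ≤ ((2 : ℝ) ^ j / 2 ^ (j / 20)) ^ 2 / (2 * (TB j : ℝ) * (NB j : ℝ) ^ 2) := by
  have hT : (TB j : ℝ) = 2 ^ (j / 4) := by unfold TB; push_cast; rfl
  have hB : (NB j : ℝ) = 2 ^ (j - j / 4) := by unfold NB; push_cast; rfl
  rw [hT, hB, le_div_iff₀ (by positivity), div_pow, le_div_iff₀ (by positivity)]
  have e1 : (2 : ℝ) ^ (j / 8) * (2 * 2 ^ (j / 4) * (2 ^ (j - j / 4)) ^ 2) * (2 ^ (j / 20)) ^ 2 =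
      2 ^ (j / 8 + 1 + j / 4 + (j - j / 4) * 2 + (j / 20) * 2) := by
    rw [pow_add, pow_add, pow_add, pow_add, pow_mul, pow_mul, pow_one]
    ring
  rw [e1, ← pow_mul]
  apply pow_le_pow_right₀ (by norm_num)
  omega

open Classical in
/-- PROOF (the tests). Let `Ω = Fintype.piFinset (fun i : Fin (TB j) => range (QQ j i))`,
`#Ω = ∏ QQ j i`. For fixed `H, q, a, x` apply `hoeffding` with `T = TB j`,
`Y i m = Yc j i m x q a H - Mn j i x q a H` (mean zero by `mean_Yc`, `|Y| ≤ NB j` by `Yc_le` etc.),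
`B = NB j`, `t = 2^j / 2^(j/20)`: the proportion of bad `m ∈ Ω` is at most
`2 exp (-t²/(2 T B²))`, `t²/(2 T B²) = 2^(2j - 2(j/20) - 1 - j/4 - 2 (j - j/4)) ≥
2^(j/4 - 2 (j/20) - 1) ≥ 2^(j/8)` for large `j`. The number of the `H ⊆ [0, 2^(j/3+2)]` with
`#H ≤ j` is at most `(2^(j/3+2) + 2)^j ≤ 2^(j²)`, `q ≤ j`, `a < q` (for general `a` replace `a` by
`a % q`, `Yc` and `Mn` do not change), `x ≤ 2^(j+1)`: in all at most `2^(2 j²)` tests, so the
proportion of the `m` with a failing test is `≤ 2^(2j²+1) exp (-2^(j/8)) < 1/4` for large `j`. -/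
theorem tests_ok : ∀ᶠ j : ℕ in atTop,
    4 * #{m ∈ Fintype.piFinset (fun i : Fin (TB j) => range (QQ j i)) |
      ∃ (H : Finset ℕ) (q a x : ℕ), (∀ h ∈ H, h ≤ 2 ^ (j / 3 + 2)) ∧ #H ≤ j ∧ 0 < q ∧ q ≤ j ∧
        x ≤ 2 ^ (j + 1) ∧
        (2 : ℝ) ^ j / 2 ^ (j / 20) ≤
          |∑ i : Fin (TB j), (Yc j i (m i) x q a H - Mn j i x q a H)|} <
      ∏ i : Fin (TB j), QQ j i := by
  filter_upwards [eventually_ge_atTop 120] with j hj
  set Ω := Fintype.piFinset (fun i : Fin (TB j) => range (QQ j i)) with hΩ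
  set t : ℝ := (2 : ℝ) ^ j / 2 ^ (j / 20) with ht
  have ht0 : 0 ≤ t := by positivity
  have hP0 : (0 : ℝ) < ∏ i : Fin (TB j), (QQ j i : ℝ) :=
    Finset.prod_pos fun i _ => by exact_mod_cast QQ_pos j i
  -- the tests
  set n : ℕ := 2 ^ (j / 3 + 2) + 1 with hn
  set 𝓣 : Finset (Finset ℕ × ℕ × ℕ × ℕ) :=
    ((range n).powerset.filter (fun H => #H ≤ j)) ×ˢ range (j + 1) ×ˢ range (j + 1) ×ˢ
      range (2 ^ (j + 1) + 1) with h𝓣
  have hsub : Ω.filter (fun m => ∃ (H : Finset ℕ) (q a x : ℕ), (∀ h ∈ H, h ≤ 2 ^ (j / 3 + 2)) ∧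
      #H ≤ j ∧ 0 < q ∧ q ≤ j ∧ x ≤ 2 ^ (j + 1) ∧
        t ≤ |∑ i : Fin (TB j), (Yc j i (m i) x q a H - Mn j i x q a H)|) ⊆
      𝓣.biUnion (fun τ => Ω.filter (fun m => t ≤ |∑ i : Fin (TB j),
        (Yc j i (m i) τ.2.2.2 τ.2.1 τ.2.2.1 τ.1 - Mn j i τ.2.2.2 τ.2.1 τ.2.2.1 τ.1)|)) := by
    intro m hm
    rw [Finset.mem_filter] at hm
    obtain ⟨hmΩ, H, q, a, x, h1, h2, h3, h4, h5, h6⟩ := hm
    rw [Finset.mem_biUnion]
    refine ⟨(H, q, a % q, x), ?_, Finset.mem_filter.mpr ⟨hmΩ, ?_⟩⟩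
    · rw [h𝓣, Finset.mem_product, Finset.mem_product, Finset.mem_product, Finset.mem_filter,
        Finset.mem_powerset]
      refine ⟨⟨fun h hh => Finset.mem_range.mpr ?_, h2⟩, Finset.mem_range.mpr ?_,
        Finset.mem_range.mpr ?_, Finset.mem_range.mpr ?_⟩
      · have := h1 h hh
        omega
      · show q < j + 1
        omega
      · have := Nat.mod_lt a h3
        show a % q < j + 1
        omega
      · show x < 2 ^ (j + 1) + 1
        omega
    · refine h6.trans (le_of_eq ?_)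
      congr 1
      apply Finset.sum_congr rfl
      intro i _
      show Yc j i (m i) x q a H - Mn j i x q a H =
        Yc j i (m i) x q (a % q) H - Mn j i x q (a % q) H
      rw [← uh08a_Yc_mod, ← uh08a_Mn_mod]
  -- one test
  have hone : ∀ τ ∈ 𝓣, (#(Ω.filter (fun m => t ≤ |∑ i : Fin (TB j),
        (Yc j i (m i) τ.2.2.2 τ.2.1 τ.2.2.1 τ.1 - Mn j i τ.2.2.2 τ.2.1 τ.2.2.1 τ.1)|)) : ℝ) ≤
      2 * Real.exp (-(2 : ℝ) ^ (j / 8)) * ∏ i : Fin (TB j), (QQ j i : ℝ) := by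
    rintro ⟨H, q, a, x⟩ _
    have hB0 : (0 : ℝ) < NB j := by
      unfold NB
      positivity
    have h1 := hoeffding (TB j) (fun i => QQ j i) (fun i m => Yc j i m x q a H - Mn j i x q a H)
      (NB j) hB0 (by
        intro i y _
        have e1 := Yc_nonneg j i y x q a H
        have e2 := Yc_le j i y x q a H
        have e3 := uh08a_Mn_nonneg j i x q a H
        have e4 := uh08a_Mn_le j i x q a H
        rw [abs_le]
        constructor <;> linarith) (by
        intro i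
        rw [Finset.sum_sub_distrib, mean_Yc, Finset.sum_const, Finset.card_range, nsmul_eq_mul,
          sub_self]) t ht0
    refine h1.trans ?_
    apply mul_le_mul_of_nonneg_right _ hP0.le
    apply mul_le_mul_of_nonneg_left _ (by norm_num)
    apply Real.exp_le_exp.mpr
    apply neg_le_neg
    exact uh08a_expo j hj
  -- the number of the tests
  have hcard : #𝓣 ≤ 2 ^ (j ^ 2 + 7 * j + 2) := by
    have hn1 : 1 ≤ n := by rw [hn]; exact Nat.le_add_left 1 _
    have hn2 : n ≤ 2 ^ (j + 3) := by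
      rw [hn]
      calc 2 ^ (j / 3 + 2) + 1 ≤ 2 ^ (j / 3 + 2) + 2 ^ (j / 3 + 2) := by
            have := Nat.one_le_two_pow (n := j / 3 + 2)
            omega
        _ = 2 ^ (j / 3 + 3) := by ring
        _ ≤ 2 ^ (j + 3) := Nat.pow_le_pow_right (by norm_num) (by omega)
    have h1 := uh08a_cardH n j hn1
    have h2 : n ^ j ≤ 2 ^ ((j + 3) * j) := by
      rw [pow_mul]
      exact Nat.pow_le_pow_left hn2 j
    have h3 : j + 1 ≤ 2 ^ j := Nat.lt_two_pow_self
    have h4 : 2 ^ (j + 1) + 1 ≤ 2 ^ (j + 2) := by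
      have : (2 : ℕ) ^ (j + 2) = 2 ^ (j + 1) + 2 ^ (j + 1) := by ring
      have h5 := Nat.one_le_two_pow (n := j + 1)
      omega
    rw [h𝓣, Finset.card_product, Finset.card_product, Finset.card_product, Finset.card_range,
      Finset.card_range]
    calc #((range n).powerset.filter (fun H => #H ≤ j)) *
          ((j + 1) * ((j + 1) * (2 ^ (j + 1) + 1)))
        ≤ (2 ^ j * 2 ^ ((j + 3) * j)) * (2 ^ j * (2 ^ j * 2 ^ (j + 2))) := by
          apply Nat.mul_le_mul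
          · exact h1.trans (Nat.mul_le_mul h3 h2)
          · exact Nat.mul_le_mul h3 (Nat.mul_le_mul h3 h4)
      _ = 2 ^ (j ^ 2 + 7 * j + 2) := by
          rw [← pow_add, ← pow_add, ← pow_add, ← pow_add]
          congr 1
          ring
  -- the union bound
  have hunion : (#(Ω.filter (fun m => ∃ (H : Finset ℕ) (q a x : ℕ), (∀ h ∈ H, h ≤ 2 ^ (j / 3 + 2)) ∧
      #H ≤ j ∧ 0 < q ∧ q ≤ j ∧ x ≤ 2 ^ (j + 1) ∧
        t ≤ |∑ i : Fin (TB j), (Yc j i (m i) x q a H - Mn j i x q a H)|)) : ℝ) ≤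
      (2 : ℝ) ^ (j ^ 2 + 7 * j + 2) *
        (2 * Real.exp (-(2 : ℝ) ^ (j / 8)) * ∏ i : Fin (TB j), (QQ j i : ℝ)) := by
    have h1 := (Finset.card_le_card hsub).trans Finset.card_biUnion_le
    have h2 : (#(Ω.filter (fun m => ∃ (H : Finset ℕ) (q a x : ℕ),
        (∀ h ∈ H, h ≤ 2 ^ (j / 3 + 2)) ∧
        #H ≤ j ∧ 0 < q ∧ q ≤ j ∧ x ≤ 2 ^ (j + 1) ∧
        t ≤ |∑ i : Fin (TB j), (Yc j i (m i) x q a H - Mn j i x q a H)|)) : ℝ) ≤
        ∑ τ ∈ 𝓣, (#(Ω.filter (fun m => t ≤ |∑ i : Fin (TB j),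
        (Yc j i (m i) τ.2.2.2 τ.2.1 τ.2.2.1 τ.1 - Mn j i τ.2.2.2 τ.2.1 τ.2.2.1 τ.1)|)) : ℝ) := by
      exact_mod_cast h1
    refine h2.trans ((Finset.sum_le_sum hone).trans ?_)
    rw [Finset.sum_const, nsmul_eq_mul]
    apply mul_le_mul_of_nonneg_right _ (by positivity)
    exact_mod_cast hcard
  -- the end
  have hlast : (4 : ℝ) * ((2 : ℝ) ^ (j ^ 2 + 7 * j + 2) * (2 * Real.exp (-(2 : ℝ) ^ (j / 8)))) < 1 := by
    have h1 := uh08a_growth2 j hj
    have h2 : (2 : ℝ) ^ (j ^ 2 + 7 * j + 5) < Real.exp ((2 : ℝ) ^ (j / 8)) := by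
      have h3 : ((j ^ 2 + 7 * j + 5 : ℕ) : ℝ) < (2 : ℝ) ^ (j / 8) := by exact_mod_cast h1
      have h4 : (2 : ℝ) ≤ Real.exp 1 := by
        have := Real.add_one_le_exp (1 : ℝ)
        linarith
      calc (2 : ℝ) ^ (j ^ 2 + 7 * j + 5) ≤ Real.exp 1 ^ (j ^ 2 + 7 * j + 5) :=
            pow_le_pow_left₀ (by norm_num) h4 _
        _ = Real.exp ((j ^ 2 + 7 * j + 5 : ℕ) : ℝ) := by rw [← Real.exp_nat_mul, mul_one]
        _ < _ := Real.exp_lt_exp.mpr h3
    have h5 : (4 : ℝ) * ((2 : ℝ) ^ (j ^ 2 + 7 * j + 2) * (2 * Real.exp (-(2 : ℝ) ^ (j / 8)))) =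
        (2 : ℝ) ^ (j ^ 2 + 7 * j + 5) * Real.exp (-(2 : ℝ) ^ (j / 8)) := by
      have : (2 : ℝ) ^ (j ^ 2 + 7 * j + 5) = (2 : ℝ) ^ (j ^ 2 + 7 * j + 2) * 8 := by
        rw [show j ^ 2 + 7 * j + 5 = (j ^ 2 + 7 * j + 2) + 3 by ring, pow_add]
        norm_num
      rw [this]
      ring
    rw [h5, Real.exp_neg, ← div_eq_mul_inv, div_lt_one (Real.exp_pos _)]
    exact h2
  have hfin : (4 : ℝ) * (#(Ω.filter (fun m => ∃ (H : Finset ℕ) (q a x : ℕ),
      (∀ h ∈ H, h ≤ 2 ^ (j / 3 + 2)) ∧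
      #H ≤ j ∧ 0 < q ∧ q ≤ j ∧ x ≤ 2 ^ (j + 1) ∧
        t ≤ |∑ i : Fin (TB j), (Yc j i (m i) x q a H - Mn j i x q a H)|)) : ℝ) <
      ∏ i : Fin (TB j), (QQ j i : ℝ) := by
    calc _ ≤ (4 : ℝ) * ((2 : ℝ) ^ (j ^ 2 + 7 * j + 2) *
        (2 * Real.exp (-(2 : ℝ) ^ (j / 8)) * ∏ i : Fin (TB j), (QQ j i : ℝ))) :=
          mul_le_mul_of_nonneg_left hunion (by norm_num)
      _ = (4 : ℝ) * ((2 : ℝ) ^ (j ^ 2 + 7 * j + 2) * (2 * Real.exp (-(2 : ℝ) ^ (j / 8)))) *
          ∏ i : Fin (TB j), (QQ j i : ℝ) := by ring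
      _ < 1 * ∏ i : Fin (TB j), (QQ j i : ℝ) := mul_lt_mul_of_pos_right hlast hP0
      _ = _ := one_mul _
  exact_mod_cast hfin

theorem uh08b_mem_block (j b k : ℕ) (hb : 0 < b) (hbd : b ∣ NB j) (hk1 : 2 ^ j / b ≤ k)
    (hk2 : k < 2 ^ (j + 1) / b) :
    ∃ i, i < TB j ∧ u j i ≤ k * b ∧ (k + 1) * b ≤ u j i + NB j := by
  have hNT : TB j * NB j = 2 ^ j := by
    unfold TB NB
    rw [← pow_add]
    congr 1
    omega
  have hNBpos : 0 < NB j := by unfold NB; positivity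
  have hb2 : b ∣ 2 ^ j := by
    rw [← hNT]; exact Dvd.dvd.mul_left hbd _
  have hb3 : b ∣ 2 ^ (j + 1) := by
    rw [pow_succ]; exact Dvd.dvd.mul_right hb2 _
  obtain ⟨e, he⟩ := hb2
  have hdiv : 2 ^ j / b = e := by
    rw [he]; exact Nat.mul_div_cancel_left e hb
  have hdiv2 : 2 ^ (j + 1) / b = 2 * e := by
    rw [pow_succ, he]
    have : b * e * 2 = b * (2 * e) := by ring
    rw [this]; exact Nat.mul_div_cancel_left _ hb
  rw [hdiv] at hk1
  rw [hdiv2] at hk2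
  obtain ⟨f, hf⟩ := hbd
  have hfpos : 0 < f := by
    rcases Nat.eq_zero_or_pos f with h | h
    · rw [h, mul_zero] at hf; omega
    · exact h
  have hef : e = TB j * f := by
    have h1 : b * e = b * (TB j * f) := by
      rw [← he, ← hNT, hf]; ring
    exact Nat.eq_of_mul_eq_mul_left hb h1
  refine ⟨(k - e) / f, ?_, ?_, ?_⟩
  · rw [Nat.div_lt_iff_lt_mul hfpos, ← hef]
    omega
  · unfold u
    rw [he, hf]
    have h1 : (k - e) / f * f ≤ k - e := Nat.div_mul_le_self _ _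
    have h2 : e + (k - e) / f * f ≤ k := by omega
    calc b * e + (k - e) / f * (b * f) = (e + (k - e) / f * f) * b := by ring
      _ ≤ k * b := Nat.mul_le_mul_right _ h2
  · unfold u
    rw [he, hf]
    have h1 : k - e < (k - e) / f * f + f := by
      have := Nat.lt_div_mul_add (a := k - e) hfpos
      exact this
    have h2 : k + 1 ≤ e + (k - e) / f * f + f := by omega
    calc (k + 1) * b ≤ (e + (k - e) / f * f + f) * b := Nat.mul_le_mul_right _ h2
      _ = b * e + (k - e) / f * (b * f) + b * f := by ring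

theorem uh08b_coord (T : ℕ) (Q : Fin T → ℕ) (i0 : Fin T) (P : ℕ → Prop) [DecidablePred P] (π : ℝ)
    (h : (#{m ∈ range (Q i0) | P m} : ℝ) ≤ Q i0 * π) :
    (#{m ∈ Fintype.piFinset (fun i : Fin T => range (Q i)) | P (m i0)} : ℝ) ≤
      (∏ i, (Q i : ℝ)) * π := by
  have heq : (Fintype.piFinset (fun i : Fin T => range (Q i))).filter (fun m => P (m i0)) =
      Fintype.piFinset (Function.update (fun i : Fin T => range (Q i)) i0
        ((range (Q i0)).filter P)) := by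
    ext m
    simp only [mem_filter, Fintype.mem_piFinset]
    constructor
    · rintro ⟨h1, h2⟩ a
      by_cases ha : a = i0
      · subst ha
        rw [Function.update_self]
        exact mem_filter.mpr ⟨h1 a, h2⟩
      · rw [Function.update_of_ne ha]; exact h1 a
    · intro h1
      refine ⟨fun a => ?_, ?_⟩
      · have := h1 a
        by_cases ha : a = i0
        · subst ha
          rw [Function.update_self] at this
          exact (mem_filter.mp this).1
        · rw [Function.update_of_ne ha] at this; exact this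
      · have := h1 i0
        rw [Function.update_self] at this
        exact (mem_filter.mp this).2
  rw [heq, Fintype.card_piFinset]
  have h2 : ∏ i, #(Function.update (fun i : Fin T => range (Q i)) i0
        ((range (Q i0)).filter P) i) =
      #((range (Q i0)).filter P) * ∏ i ∈ Finset.univ.erase i0, Q i := by
    rw [← Finset.mul_prod_erase Finset.univ _ (mem_univ i0)]
    congr 1
    · rw [Function.update_self]
    · refine Finset.prod_congr rfl fun i hi => ?_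
      rw [Function.update_of_ne (ne_of_mem_erase hi), card_range]
  rw [h2, ← Finset.mul_prod_erase Finset.univ (fun i => (Q i : ℝ)) (mem_univ i0)]
  push_cast
  have h3 : (0 : ℝ) ≤ ∏ i ∈ Finset.univ.erase i0, (Q i : ℝ) :=
    Finset.prod_nonneg fun i _ => Nat.cast_nonneg _
  calc (#((range (Q i0)).filter P) : ℝ) * ∏ i ∈ Finset.univ.erase i0, (Q i : ℝ)
      ≤ (Q i0 * π) * ∏ i ∈ Finset.univ.erase i0, (Q i : ℝ) := mul_le_mul_of_nonneg_right h h3
    _ = (Q i0 : ℝ) * (∏ i ∈ Finset.univ.erase i0, (Q i : ℝ)) * π := by ring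

/-- Markov's inequality for a count, in the form needed. -/
theorem uh08b_markov {α : Type*} (S : Finset α) (g : α → ℝ) (hg : ∀ m ∈ S, 0 ≤ g m) (K π N : ℝ)
    (hK : 0 < K) (hπ : 0 ≤ π) (hN : 0 ≤ N) (hsum : ∑ m ∈ S, g m ≤ K * (N * π))
    (B : Finset α) (hB : B ⊆ S) (hBg : ∀ m ∈ B, 4 * K * π < g m) :
    4 * (#B : ℝ) ≤ N := by
  rcases eq_or_lt_of_le hπ with h0 | hpos
  · rw [← h0] at hsum hBg
    have hz : ∑ m ∈ S, g m ≤ 0 := by simpa using hsum
    have hBe : B = ∅ := by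
      by_contra hne
      obtain ⟨m, hm⟩ := Finset.nonempty_of_ne_empty hne
      have h1 := hBg m hm
      have h2 : g m ≤ ∑ m ∈ S, g m := Finset.single_le_sum hg (hB hm)
      have h3 : (0 : ℝ) < g m := by simpa using h1
      linarith
    rw [hBe]
    simpa using hN
  · have h1 : (#B : ℝ) * (4 * K * π) ≤ ∑ m ∈ B, g m := by
      have := Finset.card_nsmul_le_sum B g (4 * K * π) (fun m hm => (hBg m hm).le)
      simpa [nsmul_eq_mul] using this
    have h2 : ∑ m ∈ B, g m ≤ ∑ m ∈ S, g m :=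
      Finset.sum_le_sum_of_subset_of_nonneg hB (fun m hm _ => hg m hm)
    have h3 : (#B : ℝ) * (4 * K * π) ≤ K * (N * π) := h1.trans (h2.trans hsum)
    have h4 : 0 < K * π := mul_pos hK hpos
    have h5 : (4 * (#B : ℝ)) * (K * π) ≤ N * (K * π) := by nlinarith [h3]
    exact le_of_mul_le_mul_right h5 h4

open Classical in
/-- PROOF (the cells). `b` divides `NB j` and `2^j`, and every cell `[k b, (k+1) b)`,
`2^j/b ≤ k < 2^(j+1)/b`, lies in one block `i(k)`. It is called bad for `m ∈ Ω` if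
`XX j i(k) (m i(k))` is disjoint from it. By hypothesis the proportion of the `m` for which the cell
is bad is `≤ π` (the other coordinates are free: `Fintype.card_piFinset`). So the mean of the number
of the bad cells is at most `(2^j/b) π`, and by Markov the proportion of the `m` with more than
`4 (2^j/b) π` bad cells is at most `1/4` (if `π = 0` no cell is bad). Together with `tests_ok` there
is a good `m`. Extend it by `0` to a function on `ℕ`. A cell disjoint from all `XX j i (m i)` is bad.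
NOTE: the threshold in `tests_ok` does not depend on `b`, `π`. -/
theorem scale_exists : ∀ᶠ j : ℕ in atTop, ∀ (b : ℕ) (π : ℝ), 0 < b → b ∣ NB j → 0 ≤ π →
    (∀ i, i < TB j → ∀ k, u j i ≤ k * b → (k + 1) * b ≤ u j i + NB j →
      (#{m ∈ range (QQ j i) | Disjoint (XX j i m) (Ico (k * b) ((k + 1) * b))} : ℝ) ≤
        QQ j i * π) →
    ∃ m : ℕ → ℕ,
      (#{k ∈ Ico (2 ^ j / b) (2 ^ (j + 1) / b) |
        ∀ i, i < TB j → Disjoint (XX j i (m i)) (Ico (k * b) ((k + 1) * b))} : ℝ) ≤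
          4 * (2 ^ j / b) * π ∧
      ∀ (H : Finset ℕ) (q a x : ℕ), (∀ h ∈ H, h ≤ 2 ^ (j / 3 + 2)) → #H ≤ j → 0 < q → q ≤ j →
        x ≤ 2 ^ (j + 1) →
        |∑ i ∈ range (TB j), Yc j i (m i) x q a H - ∑ i ∈ range (TB j), Mn j i x q a H| ≤
          (2 : ℝ) ^ j / 2 ^ (j / 20) := by
  filter_upwards [tests_ok] with j hj
  intro b π hb hbd hπ hcell
  have hNT : TB j * NB j = 2 ^ j := by
    unfold TB NB
    rw [← pow_add]
    congr 1
    omega
  have hb2 : b ∣ 2 ^ j := by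
    rw [← hNT]; exact Dvd.dvd.mul_left hbd _
  obtain ⟨e, he⟩ := hb2
  have hepos : 0 < e := by
    rcases Nat.eq_zero_or_pos e with h | h
    · rw [h, mul_zero] at he
      have : 0 < 2 ^ j := by positivity
      omega
    · exact h
  have hdiv : 2 ^ j / b = e := by
    rw [he]; exact Nat.mul_div_cancel_left e hb
  have hdiv2 : 2 ^ (j + 1) / b = 2 * e := by
    rw [pow_succ, he]
    have : b * e * 2 = b * (2 * e) := by ring
    rw [this]; exact Nat.mul_div_cancel_left _ hb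
  have hdivR : (2 : ℝ) ^ j / b = e := by
    have h1 : ((2 ^ j : ℕ) : ℝ) = (b : ℝ) * e := by rw [he]; push_cast; ring
    have hbR : (b : ℝ) ≠ 0 := by exact_mod_cast hb.ne'
    rw [div_eq_iff hbR]
    have h2 : ((2 ^ j : ℕ) : ℝ) = (2 : ℝ) ^ j := by push_cast; ring
    rw [← h2, h1]; ring
  -- the block of a cell
  have hblk : ∀ k ∈ Ico (2 ^ j / b) (2 ^ (j + 1) / b), ∃ i : Fin (TB j),
      u j i ≤ k * b ∧ (k + 1) * b ≤ u j i + NB j := by
    intro k hk
    rw [mem_Ico] at hk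
    obtain ⟨i, h1, h2, h3⟩ := uh08b_mem_block j b k hb hbd hk.1 hk.2
    exact ⟨⟨i, h1⟩, h2, h3⟩
  set Ω : Finset (Fin (TB j) → ℕ) := Fintype.piFinset (fun i : Fin (TB j) => range (QQ j i))
    with hΩ
  set KK : Finset ℕ := Ico (2 ^ j / b) (2 ^ (j + 1) / b) with hKK
  have hKc : (#KK : ℝ) = e := by
    rw [hKK, Nat.card_Ico, hdiv, hdiv2]
    have : 2 * e - e = e := by omega
    rw [this]
  -- the number of the bad cells of `m`
  set g : (Fin (TB j) → ℕ) → ℝ := fun m => (#{k ∈ KK |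
        ∀ i : Fin (TB j), Disjoint (XX j i (m i)) (Ico (k * b) ((k + 1) * b))} : ℝ) with hg
  have hgnn : ∀ m ∈ Ω, 0 ≤ g m := fun m _ => Nat.cast_nonneg _
  have hsum : ∑ m ∈ Ω, g m ≤ (e : ℝ) * ((∏ i : Fin (TB j), (QQ j i : ℝ)) * π) := by
    have h1 : ∑ m ∈ Ω, g m = ∑ k ∈ KK, (#{m ∈ Ω |
        ∀ i : Fin (TB j), Disjoint (XX j i (m i)) (Ico (k * b) ((k + 1) * b))} : ℝ) := by
      simp only [hg]
      have h2 := Finset.sum_card_bipartiteAbove_eq_sum_card_bipartiteBelow (s := Ω) (t := KK)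
        (fun (m : Fin (TB j) → ℕ) (k : ℕ) =>
          ∀ i : Fin (TB j), Disjoint (XX j i (m i)) (Ico (k * b) ((k + 1) * b)))
      unfold Finset.bipartiteAbove Finset.bipartiteBelow at h2
      exact_mod_cast h2
    rw [h1]
    have h3 : ∀ k ∈ KK, (#{m ∈ Ω |
        ∀ i : Fin (TB j), Disjoint (XX j i (m i)) (Ico (k * b) ((k + 1) * b))} : ℝ) ≤
        (∏ i : Fin (TB j), (QQ j i : ℝ)) * π := by
      intro k hk
      obtain ⟨i0, hi1, hi2⟩ := hblk k hk
      have h4 := uh08b_coord (TB j) (fun i => QQ j i) i0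
        (fun m => Disjoint (XX j i0 m) (Ico (k * b) ((k + 1) * b))) π
        (hcell i0 i0.2 k hi1 hi2)
      refine le_trans ?_ h4
      refine Nat.cast_le.mpr (card_le_card ?_)
      intro m hm
      rw [mem_filter] at hm ⊢
      exact ⟨hm.1, hm.2 i0⟩
    calc ∑ k ∈ KK, (#{m ∈ Ω |
        ∀ i : Fin (TB j), Disjoint (XX j i (m i)) (Ico (k * b) ((k + 1) * b))} : ℝ)
        ≤ ∑ k ∈ KK, (∏ i : Fin (TB j), (QQ j i : ℝ)) * π := Finset.sum_le_sum h3
      _ = (e : ℝ) * ((∏ i : Fin (TB j), (QQ j i : ℝ)) * π) := by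
          rw [Finset.sum_const, nsmul_eq_mul, hKc]
  set N : ℝ := ∏ i : Fin (TB j), (QQ j i : ℝ) with hN
  have hNcard : (#Ω : ℝ) = N := by
    rw [hΩ, Fintype.card_piFinset, hN]
    simp only [card_range]
    push_cast
    rfl
  have hNpos : 0 < N := Finset.prod_pos fun i _ => by exact_mod_cast QQ_pos j i
  set B1 : Finset (Fin (TB j) → ℕ) := Ω.filter (fun m => 4 * (e : ℝ) * π < g m) with hB1
  have hB1c : 4 * (#B1 : ℝ) ≤ N :=
    uh08b_markov Ω g hgnn e π N (by exact_mod_cast hepos) hπ hNpos.le hsum B1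
      (filter_subset _ _) (fun m hm => (mem_filter.mp hm).2)
  set B2 : Finset (Fin (TB j) → ℕ) := Ω.filter (fun m =>
      ∃ (H : Finset ℕ) (q a x : ℕ), (∀ h ∈ H, h ≤ 2 ^ (j / 3 + 2)) ∧ #H ≤ j ∧ 0 < q ∧ q ≤ j ∧
        x ≤ 2 ^ (j + 1) ∧
        (2 : ℝ) ^ j / 2 ^ (j / 20) ≤
          |∑ i : Fin (TB j), (Yc j i (m i) x q a H - Mn j i x q a H)|) with hB2
  have hB2c : 4 * (#B2 : ℝ) < N := by
    have h1 : ((4 * #B2 : ℕ) : ℝ) < ((∏ i : Fin (TB j), QQ j i : ℕ) : ℝ) := Nat.cast_lt.mpr hj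
    push_cast at h1
    exact h1
  -- a good shift
  obtain ⟨m, hmΩ, hm⟩ : ∃ m ∈ Ω, m ∉ B1 ∪ B2 := by
    by_contra hcon
    push Not at hcon
    have h1 : Ω ⊆ B1 ∪ B2 := hcon
    have h2 : (#Ω : ℝ) ≤ #B1 + #B2 := by
      exact_mod_cast (card_le_card h1).trans (card_union_le _ _)
    rw [hNcard] at h2
    linarith
  rw [mem_union, not_or] at hm
  obtain ⟨hm1, hm2⟩ := hm
  have hgm : g m ≤ 4 * (e : ℝ) * π := by
    by_contra hcon
    exact hm1 (mem_filter.mpr ⟨hmΩ, not_le.mp hcon⟩)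
  refine ⟨fun i => if h : i < TB j then m ⟨i, h⟩ else 0, ?_, ?_⟩
  · rw [hdivR]
    refine le_trans ?_ hgm
    simp only [hg]
    refine Nat.cast_le.mpr (card_le_card ?_)
    intro k hk
    rw [mem_filter] at hk ⊢
    refine ⟨hk.1, fun i => ?_⟩
    have h1 := hk.2 i i.2
    simpa using h1
  · intro H q a x hH hHj hq hqj hx
    by_contra hcon
    refine hm2 (mem_filter.mpr ⟨hmΩ, H, q, a, x, hH, hHj, hq, hqj, hx, ?_⟩)
    have h1 : ∑ i ∈ range (TB j), Yc j i (if h : i < TB j then m ⟨i, h⟩ else 0) x q a H -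
        ∑ i ∈ range (TB j), Mn j i x q a H =
        ∑ i : Fin (TB j), (Yc j i (m i) x q a H - Mn j i x q a H) := by
      rw [← Finset.sum_sub_distrib, ← Fin.sum_univ_eq_sum_range (fun i =>
        Yc j i (if h : i < TB j then m ⟨i, h⟩ else 0) x q a H - Mn j i x q a H) (TB j)]
      refine Finset.sum_congr rfl fun i _ => ?_
      simp
    rw [← h1]
    exact (not_le.mp hcon).le

end Pool.Agent.LibUHL
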