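import Pool.Agent.LibUHL.U01
import Pool.Agent.LibUHL.U03
import Pool.Agent.LibCI99.HL1
import Pool.Agent.LibCI99.HL2
import Pool.Agent.LibCI99.HL3

/-! Row UH 09: the singular series and the local densities of a block. -/

set_option autoImplicit false

namespace Pool.Agent.LibUHL

open Finset Filter Topology MeasureTheory

open Pool.Agent.LibLin93 (V)

open Pool.Agent.LibCI99 (cnt hlConst dlt vee prim occ goodT)

theorem V_eq_vee (z : ℕ) (hz : 1 ≤ z) : V z = vee (z - 1) := by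
  unfold Pool.Agent.LibLin93.V Pool.Agent.LibCI99.vee
  rw [Nat.sub_add_cancel hz]

theorem uh09a_loc_nonneg (q a : ℕ) (H : Finset ℕ) (p : ℕ) (hp : p.Prime) :
    0 ≤ (if p ∣ q then (if ∀ h ∈ H, ¬ p ∣ a + h then (1 : ℝ) else 0)
      else 1 - (occ H p : ℝ) / p) := by
  have hp0 : (0 : ℝ) < p := by exact_mod_cast hp.pos
  have h1 : (occ H p : ℝ) ≤ p := by exact_mod_cast Pool.Agent.LibCI99.occ_le H hp.pos
  split_ifs
  · exact zero_le_one
  · exact le_rfl
  · rw [sub_nonneg, div_le_one hp0]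
    exact h1

theorem uh09a_loc_le (q a : ℕ) (H : Finset ℕ) (p : ℕ) :
    (if p ∣ q then (if ∀ h ∈ H, ¬ p ∣ a + h then (1 : ℝ) else 0)
      else 1 - (occ H p : ℝ) / p) ≤ 1 := by
  split_ifs
  · exact le_rfl
  · exact zero_le_one
  · have : (0 : ℝ) ≤ (occ H p : ℝ) / p := by positivity
    linarith

theorem uh09a_prod (s : Finset ℕ) (x : ℕ → ℝ) (h0 : ∀ p ∈ s, 0 ≤ x p) (h1 : ∀ p ∈ s, x p ≤ 1) :
    1 - ∑ p ∈ s, x p ≤ ∏ p ∈ s, (1 - x p) := by
  classical
  induction s using Finset.induction_on with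
  | empty => simp
  | insert p s hp ih =>
    rw [Finset.sum_insert hp, Finset.prod_insert hp]
    have ih' := ih (fun r hr => h0 r (mem_insert_of_mem hr)) (fun r hr => h1 r (mem_insert_of_mem hr))
    have hx0 := h0 p (mem_insert_self p s)
    have hx1 := h1 p (mem_insert_self p s)
    have hs : 0 ≤ ∑ r ∈ s, x r := Finset.sum_nonneg fun r hr => h0 r (mem_insert_of_mem hr)
    have h2 : (1 - x p) * (1 - ∑ r ∈ s, x r) ≤ (1 - x p) * ∏ r ∈ s, (1 - x r) :=
      mul_le_mul_of_nonneg_left ih' (by linarith)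
    nlinarith [mul_nonneg hx0 hs]

theorem uh09a_sum (z : ℕ) (hz : 1 ≤ z) (t : ℕ) (ht : z ≤ t) :
    ∑ n ∈ Icc z t, 1 / (n : ℝ) ^ 2 ≤ 2 / (z : ℝ) - 1 / (t : ℝ) := by
  induction t, ht using Nat.le_induction with
  | base =>
    have hz1 : (1 : ℝ) ≤ z := by exact_mod_cast hz
    have hz0 : (0 : ℝ) < z := by linarith
    rw [Icc_self, sum_singleton]
    have e : 2 / (z : ℝ) - 1 / z = 1 / z := by ring
    rw [e, div_le_div_iff₀ (by positivity) hz0]
    nlinarith
  | succ t ht ih =>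
    rw [Finset.sum_Icc_succ_top (by omega)]
    have ht1 : (1 : ℝ) ≤ t := by exact_mod_cast hz.trans ht
    have ht0 : (0 : ℝ) < t := by linarith
    have h1 : 1 / ((t + 1 : ℕ) : ℝ) ^ 2 ≤ 1 / (t : ℝ) - 1 / ((t + 1 : ℕ) : ℝ) := by
      push_cast
      have e : 1 / (t : ℝ) - 1 / (t + 1) = 1 / (t * (t + 1)) := by field_simp; ring
      rw [e]
      apply one_div_le_one_div_of_le (by positivity)
      nlinarith
    linarith

/-- splitting of the primes `≤ t` -/
theorem uh09a_split (w z t : ℕ) (hw : w < z) (ht : z ≤ t) (f : ℕ → ℝ) :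
    ∏ p ∈ (range (t + 1)).filter Nat.Prime, f p =
      (∏ p ∈ (range (w + 1)).filter Nat.Prime, f p) *
      (∏ p ∈ (range z).filter (fun p => p.Prime ∧ w < p), f p) *
      ∏ p ∈ (Icc z t).filter Nat.Prime, f p := by
  classical
  rw [← Finset.prod_union, ← Finset.prod_union]
  · congr 1
    ext p
    simp only [mem_filter, mem_union, mem_range, mem_Icc]
    constructor
    · rintro ⟨h1, h2⟩
      rcases Nat.lt_or_ge p z with h3 | h3
      · rcases Nat.lt_or_ge w p with h4 | h4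
        · exact Or.inl (Or.inr ⟨h3, h2, h4⟩)
        · exact Or.inl (Or.inl ⟨by omega, h2⟩)
      · exact Or.inr ⟨⟨h3, by omega⟩, h2⟩
    · rintro ((⟨h1, h2⟩ | ⟨h1, h2, h3⟩) | ⟨⟨h1, h3⟩, h2⟩)
      · exact ⟨by omega, h2⟩
      · exact ⟨by omega, h2⟩
      · exact ⟨by omega, h2⟩
  · rw [Finset.disjoint_left]
    intro p hp hp'
    simp only [mem_filter, mem_union, mem_range, mem_Icc] at hp hp'
    rcases hp with ⟨h1, h2⟩ | ⟨h1, h2, h3⟩ <;> omega
  · rw [Finset.disjoint_left]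
    intro p hp hp'
    simp only [mem_filter, mem_range] at hp hp'
    omega

theorem uh09a_split2 (z t : ℕ) (ht : z ≤ t) (f : ℕ → ℝ) :
    ∏ p ∈ (range (t + 1)).filter Nat.Prime, f p =
      (∏ p ∈ (range z).filter Nat.Prime, f p) * ∏ p ∈ (Icc z t).filter Nat.Prime, f p := by
  classical
  rw [← Finset.prod_union]
  · congr 1
    ext p
    simp only [mem_filter, mem_union, mem_range, mem_Icc]
    constructor
    · rintro ⟨h1, h2⟩
      rcases Nat.lt_or_ge p z with h3 | h3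
      · exact Or.inl ⟨h3, h2⟩
      · exact Or.inr ⟨⟨h3, by omega⟩, h2⟩
    · rintro (⟨h1, h2⟩ | ⟨⟨h1, h3⟩, h2⟩)
      · exact ⟨by omega, h2⟩
      · exact ⟨by omega, h2⟩
  · rw [Finset.disjoint_left]
    intro p hp hp'
    simp only [mem_filter, mem_range, mem_Icc] at hp hp'
    omega

theorem uh09a_loc (k p : ℕ) (hp : 2 ≤ p) (hkp : k ≤ p) :
    1 - (k : ℝ) / p ≤ (1 - 1 / (p : ℝ)) ^ k ∧
      (1 - 1 / (p : ℝ)) ^ k * (1 - (k : ℝ) ^ 2 / (p : ℝ) ^ 2) ≤ 1 - (k : ℝ) / p := by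
  have hp2 : (2 : ℝ) ≤ p := by exact_mod_cast hp
  have hp0 : (0 : ℝ) < p := by linarith
  have hkp' : (k : ℝ) ≤ p := by exact_mod_cast hkp
  have hinv : 1 / (p : ℝ) ≤ 1 / 2 := one_div_le_one_div_of_le (by norm_num) hp2
  have hinv0 : 0 ≤ 1 / (p : ℝ) := by positivity
  constructor
  · have h1 := one_add_mul_le_pow (a := -(1 / (p : ℝ))) (by linarith) k
    have e : 1 + (k : ℝ) * -(1 / (p : ℝ)) = 1 - (k : ℝ) / p := by ring
    rw [e] at h1
    exact h1
  · set y : ℝ := (k : ℝ) / p with hy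
    have hy0 : 0 ≤ y := by positivity
    have hy1 : y ≤ 1 := by
      rw [hy, div_le_one hp0]
      exact hkp'
    have h1 : (1 - 1 / (p : ℝ)) ^ k ≤ Real.exp (-y) := by
      have h2 : 1 - 1 / (p : ℝ) ≤ Real.exp (-(1 / (p : ℝ))) := by
        have := Real.add_one_le_exp (-(1 / (p : ℝ)))
        linarith
      calc (1 - 1 / (p : ℝ)) ^ k ≤ Real.exp (-(1 / (p : ℝ))) ^ k :=
            pow_le_pow_left₀ (by linarith) h2 k
        _ = Real.exp (-y) := by
            rw [← Real.exp_nat_mul]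
            congr 1
            rw [hy]
            ring
    have h3 : (1 + y) * Real.exp (-y) ≤ 1 := by
      have h4 := Real.add_one_le_exp y
      have h5 : Real.exp y * Real.exp (-y) = 1 := by rw [← Real.exp_add]; simp
      have h6 := mul_le_mul_of_nonneg_right h4 (Real.exp_pos (-y)).le
      linarith
    have e : (k : ℝ) ^ 2 / (p : ℝ) ^ 2 = y ^ 2 := by rw [hy]; ring
    rw [e]
    have h7 : 0 ≤ 1 - y ^ 2 := by nlinarith
    calc (1 - 1 / (p : ℝ)) ^ k * (1 - y ^ 2) ≤ Real.exp (-y) * (1 - y ^ 2) :=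
          mul_le_mul_of_nonneg_right h1 h7
      _ = (1 - y) * ((1 + y) * Real.exp (-y)) := by ring
      _ ≤ (1 - y) * 1 := mul_le_mul_of_nonneg_left h3 (by linarith)
      _ = 1 - y := mul_one _

theorem uh09a_ratio (z t k : ℕ) (hz1 : 1 ≤ z) (ht : z ≤ t) (hkz : k ≤ z) :
    0 < ∏ p ∈ (Icc z t).filter Nat.Prime, (1 - 1 / (p : ℝ)) ∧
    ∏ p ∈ (Icc z t).filter Nat.Prime, (1 - (k : ℝ) / (p : ℝ)) ≤
      (∏ p ∈ (Icc z t).filter Nat.Prime, (1 - 1 / (p : ℝ))) ^ k ∧
    (∏ p ∈ (Icc z t).filter Nat.Prime, (1 - 1 / (p : ℝ))) ^ k * (1 - 2 * (k : ℝ) ^ 2 / z) ≤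
      ∏ p ∈ (Icc z t).filter Nat.Prime, (1 - (k : ℝ) / (p : ℝ)) := by
  classical
  have hpp : ∀ p ∈ (Icc z t).filter Nat.Prime, p.Prime ∧ z ≤ p ∧ k ≤ p ∧ 2 ≤ p := by
    intro p hp
    rw [mem_filter, mem_Icc] at hp
    exact ⟨hp.2, hp.1.1, hkz.trans hp.1.1, hp.2.two_le⟩
  have hWpos : 0 < ∏ p ∈ (Icc z t).filter Nat.Prime, (1 - 1 / (p : ℝ)) :=
    Finset.prod_pos fun p hp => Pool.Agent.LibCI99.one_sub_inv_pos (hpp p hp).1
  refine ⟨hWpos, ?_, ?_⟩
  · rw [← Finset.prod_pow]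
    refine Finset.prod_le_prod (fun p hp => ?_) fun p hp =>
      (uh09a_loc k p (hpp p hp).2.2.2 (hpp p hp).2.2.1).1
    have hp0 : (0 : ℝ) < p := by exact_mod_cast (hpp p hp).1.pos
    rw [sub_nonneg, div_le_one hp0]
    exact_mod_cast (hpp p hp).2.2.1
  · have h1 : (∏ p ∈ (Icc z t).filter Nat.Prime, (1 - 1 / (p : ℝ))) ^ k *
        ∏ p ∈ (Icc z t).filter Nat.Prime, (1 - (k : ℝ) ^ 2 / (p : ℝ) ^ 2) ≤
        ∏ p ∈ (Icc z t).filter Nat.Prime, (1 - (k : ℝ) / (p : ℝ)) := by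
      rw [← Finset.prod_pow, ← Finset.prod_mul_distrib]
      refine Finset.prod_le_prod (fun p hp => ?_) fun p hp =>
        (uh09a_loc k p (hpp p hp).2.2.2 (hpp p hp).2.2.1).2
      have hp0 : (0 : ℝ) < p := by exact_mod_cast (hpp p hp).1.pos
      have hkp : (k : ℝ) ≤ p := by exact_mod_cast (hpp p hp).2.2.1
      refine mul_nonneg (pow_nonneg (Pool.Agent.LibCI99.one_sub_inv_pos (hpp p hp).1).le k) ?_
      rw [sub_nonneg, div_le_one (by positivity)]
      exact pow_le_pow_left₀ (Nat.cast_nonneg k) hkp 2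
    have h2 : 1 - 2 * (k : ℝ) ^ 2 / z ≤
        ∏ p ∈ (Icc z t).filter Nat.Prime, (1 - (k : ℝ) ^ 2 / (p : ℝ) ^ 2) := by
      refine le_trans ?_ (uh09a_prod _ (fun p => (k : ℝ) ^ 2 / (p : ℝ) ^ 2) ?_ ?_)
      · have h3 : ∑ p ∈ (Icc z t).filter Nat.Prime, (k : ℝ) ^ 2 / (p : ℝ) ^ 2 ≤
            ∑ n ∈ Icc z t, (k : ℝ) ^ 2 / (n : ℝ) ^ 2 :=
          Finset.sum_le_sum_of_subset_of_nonneg (Finset.filter_subset _ _)
            fun n _ _ => by positivity
        have h4 : ∑ n ∈ Icc z t, (k : ℝ) ^ 2 / (n : ℝ) ^ 2 =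
            (k : ℝ) ^ 2 * ∑ n ∈ Icc z t, 1 / (n : ℝ) ^ 2 := by
          rw [Finset.mul_sum]
          refine Finset.sum_congr rfl fun n _ => ?_
          ring
        have h5 := uh09a_sum z hz1 t ht
        have h6 : (0 : ℝ) ≤ 1 / (t : ℝ) := by positivity
        have h7 : (k : ℝ) ^ 2 * ∑ n ∈ Icc z t, 1 / (n : ℝ) ^ 2 ≤ (k : ℝ) ^ 2 * (2 / z) :=
          mul_le_mul_of_nonneg_left (by linarith) (by positivity)
        have e : 2 * (k : ℝ) ^ 2 / z = (k : ℝ) ^ 2 * (2 / z) := by ring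
        rw [e]
        linarith
      · intro p _
        positivity
      · intro p hp
        have hp0 : (0 : ℝ) < p := by exact_mod_cast (hpp p hp).1.pos
        have hkp : (k : ℝ) ≤ p := by exact_mod_cast (hpp p hp).2.2.1
        change (k : ℝ) ^ 2 / (p : ℝ) ^ 2 ≤ 1
        rw [div_le_one (by positivity)]
        exact pow_le_pow_left₀ (Nat.cast_nonneg k) hkp 2
    exact (mul_le_mul_of_nonneg_left h2 (pow_pos hWpos k).le).trans h1

theorem block_const (j i q a : ℕ) (hq : 0 < q) (hqw : q ≤ wl j) (H : Finset ℕ)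
    (hz : wl j < zz (u j i)) (hH : ∀ h ∈ H, h < zz (u j i)) :
    hlConst q a H * V (zz (u j i)) ^ #H ≤ dlt q a H (wl j) * GP j i H ∧
      dlt q a H (wl j) * GP j i H * (1 - 2 * (#H : ℝ) ^ 2 / zz (u j i)) ≤
        hlConst q a H * V (zz (u j i)) ^ #H := by
  classical
  have hPS : PS j i = (range (zz (u j i))).filter (fun p => p.Prime ∧ wl j < p) := rfl
  have hGP : GP j i H = ∏ p ∈ PS j i, (1 - (occ H p : ℝ) / p) := rfl
  rw [hPS] at hGP
  set z := zz (u j i) with hzdef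
  set w := wl j with hw
  set k := #H with hk
  have hz1 : 1 ≤ z := by omega
  have hkz : k ≤ z := by
    have h1 : H ⊆ range z := fun h hh => mem_range.2 (hH h hh)
    have h2 := Finset.card_le_card h1
    rwa [card_range] at h2
  have hzR : (1 : ℝ) ≤ z := by exact_mod_cast hz1
  have hVpos : 0 < V z := by
    rw [V_eq_vee z hz1]
    exact Pool.Agent.LibCI99.vee_pos _
  have hVk : 0 < V z ^ k := pow_pos hVpos k
  have hGP0 : 0 ≤ GP j i H := by
    rw [hGP]
    refine Finset.prod_nonneg fun p hp => ?_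
    have hpp := (mem_filter.1 hp).2.1
    have hp0 : (0 : ℝ) < p := by exact_mod_cast hpp.pos
    have h1 : (occ H p : ℝ) ≤ p := by exact_mod_cast Pool.Agent.LibCI99.occ_le H hpp.pos
    rw [sub_nonneg, div_le_one hp0]
    exact h1
  have hD0 : 0 ≤ dlt q a H w * GP j i H :=
    mul_nonneg (Pool.Agent.LibCI99.dlt_nonneg q a H w) hGP0
  -- the value at `t ≥ z`
  have key : ∀ t, z ≤ t →
      dlt q a H w * GP j i H * (1 - 2 * (k : ℝ) ^ 2 / z) / V z ^ k ≤ dlt q a H t / vee t ^ k ∧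
      dlt q a H t / vee t ^ k ≤ dlt q a H w * GP j i H / V z ^ k := by
    intro t ht
    have hd : dlt q a H t = dlt q a H w * GP j i H *
        ∏ p ∈ (Icc z t).filter Nat.Prime, (1 - (k : ℝ) / (p : ℝ)) := by
      unfold Pool.Agent.LibCI99.dlt
      rw [uh09a_split w z t hz ht, hGP]
      have e1 : ∏ p ∈ (range z).filter (fun p => p.Prime ∧ w < p),
          (if p ∣ q then (if ∀ h ∈ H, ¬ p ∣ a + h then (1 : ℝ) else 0)
            else 1 - (occ H p : ℝ) / p) =
          ∏ p ∈ (range z).filter (fun p => p.Prime ∧ w < p), (1 - (occ H p : ℝ) / p) := by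
        refine Finset.prod_congr rfl fun p hp => ?_
        rw [mem_filter] at hp
        rw [if_neg]
        intro hd
        have := Nat.le_of_dvd hq hd
        omega
      have e2 : ∏ p ∈ (Icc z t).filter Nat.Prime,
          (if p ∣ q then (if ∀ h ∈ H, ¬ p ∣ a + h then (1 : ℝ) else 0)
            else 1 - (occ H p : ℝ) / p) =
          ∏ p ∈ (Icc z t).filter Nat.Prime, (1 - (k : ℝ) / p) := by
        refine Finset.prod_congr rfl fun p hp => ?_
        rw [mem_filter, mem_Icc] at hp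
        rw [if_neg, Pool.Agent.LibCI99.occ_of_gt H p (fun h hh => (hH h hh).trans_le hp.1.1)]
        intro hd
        have := Nat.le_of_dvd hq hd
        omega
      rw [e1, e2]
      ring
    have hv : vee t = V z * ∏ p ∈ (Icc z t).filter Nat.Prime, (1 - 1 / (p : ℝ)) := by
      unfold Pool.Agent.LibCI99.vee Pool.Agent.LibLin93.V
      exact uh09a_split2 z t ht _
    obtain ⟨hWpos, hRle, hRge⟩ := uh09a_ratio z t k hz1 ht hkz
    generalize hR : ∏ p ∈ (Icc z t).filter Nat.Prime, (1 - (k : ℝ) / (p : ℝ)) = R at *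
    generalize hW : ∏ p ∈ (Icc z t).filter Nat.Prime, (1 - 1 / (p : ℝ)) = W at *
    have hWk : 0 < W ^ k := pow_pos hWpos k
    rw [hd, hv, mul_pow]
    constructor
    · rw [div_le_div_iff₀ hVk (mul_pos hVk hWk)]
      have h1 : dlt q a H w * GP j i H * (W ^ k * (1 - 2 * (k : ℝ) ^ 2 / z)) ≤
          dlt q a H w * GP j i H * R := mul_le_mul_of_nonneg_left hRge hD0
      have h2 := mul_le_mul_of_nonneg_right h1 hVk.le
      linarith
    · rw [div_le_div_iff₀ (mul_pos hVk hWk) hVk]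
      have h1 : dlt q a H w * GP j i H * R ≤ dlt q a H w * GP j i H * W ^ k :=
        mul_le_mul_of_nonneg_left hRle hD0
      have h2 := mul_le_mul_of_nonneg_right h1 hVk.le
      linarith
  have hlim := Pool.Agent.LibCI99.tendsto_dlt q a hq H
  rw [← hk] at hlim
  constructor
  · have h1 : hlConst q a H ≤ dlt q a H w * GP j i H / V z ^ k := by
      refine le_of_tendsto hlim ?_
      filter_upwards [eventually_ge_atTop z] with t ht
      exact (key t ht).2
    rwa [le_div_iff₀ hVk] at h1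
  · have h1 : dlt q a H w * GP j i H * (1 - 2 * (k : ℝ) ^ 2 / z) / V z ^ k ≤ hlConst q a H := by
      refine ge_of_tendsto hlim ?_
      filter_upwards [eventually_ge_atTop z] with t ht
      exact (key t ht).1
    rwa [div_le_iff₀ hVk] at h1

theorem hlConst_nonneg (q a : ℕ) (hq : 0 < q) (H : Finset ℕ) : 0 ≤ hlConst q a H := by
  refine ge_of_tendsto' (Pool.Agent.LibCI99.tendsto_dlt q a hq H) fun t => ?_
  exact div_nonneg (Pool.Agent.LibCI99.dlt_nonneg q a H t)
    (pow_nonneg (Pool.Agent.LibCI99.vee_pos t).le _)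

theorem dlt_le_one (q a : ℕ) (hq : 0 < q) (H : Finset ℕ) (t : ℕ) : dlt q a H t ≤ 1 := by
  unfold Pool.Agent.LibCI99.dlt
  have hq1 : (1 : ℝ) ≤ q := by exact_mod_cast hq
  have h1 : 1 / (q : ℝ) ≤ 1 := by
    rw [div_le_one (by linarith)]
    exact hq1
  refine mul_le_one₀ h1 ?_ ?_
  · exact Finset.prod_nonneg fun p hp => uh09a_loc_nonneg q a H p (mem_filter.1 hp).2
  · exact Finset.prod_le_one (fun p hp => uh09a_loc_nonneg q a H p (mem_filter.1 hp).2)
      fun p _ => uh09a_loc_le q a H p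

private theorem U09b_count (P : ℕ → Prop) [DecidablePred P] (M : ℕ)
    (hper : Function.Periodic P M) (n k : ℕ) :
    #((Ico n (n + k * M)).filter P) = k * M.count P := by
  induction k with
  | zero => simp
  | succ k ih =>
    have hu : Ico n (n + (k + 1) * M) = Ico n (n + k * M) ∪ Ico (n + k * M) (n + k * M + M) := by
      rw [Finset.Ico_union_Ico_eq_Ico (by omega) (by omega)]
      congr 1
      ring
    have hd : Disjoint ((Ico n (n + k * M)).filter P)
        ((Ico (n + k * M) (n + k * M + M)).filter P) := by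
      apply Finset.disjoint_filter_filter
      rw [Finset.disjoint_left]
      intro x hx hx'
      simp only [Finset.mem_Ico] at hx hx'
      omega
    rw [hu, Finset.filter_union, Finset.card_union_of_disjoint hd, ih,
      Nat.filter_Ico_card_eq_of_periodic (n + k * M) M P hper]
    ring

private theorem U09b_aux (P : ℕ → Prop) [DecidablePred P] (M : ℕ) (hM : 0 < M)
    (hper : Function.Periodic P M) (δ : ℝ) (hδ0 : 0 ≤ δ) (hδ1 : δ ≤ 1)
    (hc : ((M.count P : ℕ) : ℝ) = M * δ) (A B : ℕ) (hAB : A ≤ B) :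
    |(#((Ico A B).filter P) : ℝ) - ((B : ℝ) - A) * δ| ≤ M := by
  obtain ⟨k, r, hr, hkr⟩ : ∃ k r : ℕ, r < M ∧ B - A = k * M + r :=
    ⟨(B - A) / M, (B - A) % M, Nat.mod_lt _ hM, by rw [mul_comm]; exact (Nat.div_add_mod _ _).symm⟩
  have hB : B = A + k * M + r := by omega
  have hu : Ico A B = Ico A (A + k * M) ∪ Ico (A + k * M) (A + k * M + r) := by
    rw [Finset.Ico_union_Ico_eq_Ico (by omega) (by omega), hB]
  have hd : Disjoint ((Ico A (A + k * M)).filter P)
      ((Ico (A + k * M) (A + k * M + r)).filter P) := by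
    apply Finset.disjoint_filter_filter
    rw [Finset.disjoint_left]
    intro x hx hx'
    simp only [Finset.mem_Ico] at hx hx'
    omega
  rw [hu, Finset.filter_union, Finset.card_union_of_disjoint hd, U09b_count P M hper]
  have h1 : #((Ico (A + k * M) (A + k * M + r)).filter P) ≤ r := by
    refine (Finset.card_filter_le _ _).trans ?_
    rw [Nat.card_Ico]
    omega
  set c := #((Ico (A + k * M) (A + k * M + r)).filter P) with hcdef
  have h2 : (c : ℝ) ≤ r := by exact_mod_cast h1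
  have h3 : (0 : ℝ) ≤ c := Nat.cast_nonneg _
  have h4 : (r : ℝ) ≤ M := by exact_mod_cast hr.le
  have h5 : ((k * M.count P + c : ℕ) : ℝ) - ((B : ℝ) - A) * δ = c - r * δ := by
    rw [hB]
    push_cast
    rw [hc]
    ring
  rw [h5]
  have h6 : 0 ≤ (r : ℝ) * δ := by positivity
  have h7 : (r : ℝ) * δ ≤ r := mul_le_of_le_one_right (Nat.cast_nonneg _) hδ1
  rw [abs_le]
  constructor <;> linarith

open Classical in
/-- PROOF. `card_good` (LibCI99/HL1.lean): in every interval of length a multiple of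
`M = q * prim w` there are exactly (length) `* dlt q a H w` good `n` (`goodT q a H w n` iff
`n ≡ a (mod q)` and no prime `≤ w` divides an `n + h`, `h ∈ H`; `Nat.Coprime (n+h) (prim w)`). Cut
`[A, B)` into `(B - A) / M` pieces of length `M` and a rest of length `< M`. -/
theorem card_goodw (q a : ℕ) (hq : 0 < q) (H : Finset ℕ) (w A B : ℕ) (hAB : A ≤ B) :
    |(#{n ∈ Ico A B | n ≡ a [MOD q] ∧ ∀ h ∈ H, ∀ p : ℕ, p.Prime → p ≤ w → ¬ p ∣ n + h} : ℝ) -
      (B - A) * dlt q a H w| ≤ q * prim w := by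
  have hprim : prim w = ∏ p ∈ (range (w + 1)).filter Nat.Prime, p := rfl
  have hprim0 : 0 < prim w := Pool.Agent.LibCI99.prim_pos w
  have hgood : ∀ n, goodT q a H w n ↔
      (n ≡ a [MOD q] ∧ ∀ h ∈ H, ∀ p : ℕ, p.Prime → p ≤ w → ¬ p ∣ n + h) := by
    intro n
    unfold goodT
    rw [hprim]
    constructor
    · rintro ⟨h1, h2⟩
      refine ⟨h1, fun h hh p hp hpw => ?_⟩
      have h3 := (Nat.coprime_prod_right_iff.1 (h2 h hh)) p
        (mem_filter.2 ⟨mem_range.2 (by omega), hp⟩)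
      exact (Nat.Prime.coprime_iff_not_dvd hp).1 h3.symm
    · rintro ⟨h1, h2⟩
      refine ⟨h1, fun h hh => ?_⟩
      apply Nat.Coprime.prod_right
      intro p hp
      rw [mem_filter, mem_range] at hp
      exact ((Nat.Prime.coprime_iff_not_dvd hp.2).2 (h2 h hh p hp.2 (by omega))).symm
  have hper : Function.Periodic
      (fun n => n ≡ a [MOD q] ∧ ∀ h ∈ H, ∀ p : ℕ, p.Prime → p ≤ w → ¬ p ∣ n + h)
      (q * prim w) := by
    intro n
    apply propext
    have e1 : (n + q * prim w ≡ a [MOD q]) ↔ (n ≡ a [MOD q]) := by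
      unfold Nat.ModEq
      rw [Nat.add_mul_mod_self_left]
    have e2 : ∀ p : ℕ, p.Prime → p ≤ w → ∀ h, (p ∣ n + q * prim w + h ↔ p ∣ n + h) := by
      intro p hp hpw h
      have hpd : p ∣ q * prim w := by
        apply Dvd.dvd.mul_left
        rw [hprim]
        exact Finset.dvd_prod_of_mem _ (mem_filter.2 ⟨mem_range.2 (by omega), hp⟩)
      rw [show n + q * prim w + h = q * prim w + (n + h) by ring]
      exact Nat.dvd_add_right hpd
    constructor
    · rintro ⟨h1, h2⟩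
      exact ⟨e1.1 h1, fun h hh p hp hpw hd => h2 h hh p hp hpw ((e2 p hp hpw h).2 hd)⟩
    · rintro ⟨h1, h2⟩
      exact ⟨e1.2 h1, fun h hh p hp hpw hd => h2 h hh p hp hpw ((e2 p hp hpw h).1 hd)⟩
  have hM : 0 < q * prim w := Nat.mul_pos hq hprim0
  have hcg := Pool.Agent.LibCI99.card_good q a hq H w 0 (q * prim w) dvd_rfl
  have hc : (((q * prim w).count
      (fun n => n ≡ a [MOD q] ∧ ∀ h ∈ H, ∀ p : ℕ, p.Prime → p ≤ w → ¬ p ∣ n + h) : ℕ) : ℝ)
      = ((q * prim w : ℕ) : ℝ) * dlt q a H w := by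
    rw [← hcg, ← Nat.filter_Ico_card_eq_of_periodic 1 (q * prim w) _ hper]
    congr 2
    ext n
    simp only [mem_filter, mem_Ico, mem_Ioc]
    rw [hgood n]
    constructor
    · rintro ⟨h1, h2⟩
      exact ⟨by omega, h2⟩
    · rintro ⟨h1, h2⟩
      exact ⟨by omega, h2⟩
  have hfin := U09b_aux _ (q * prim w) hM hper (dlt q a H w)
    (Pool.Agent.LibCI99.dlt_nonneg q a H w) (dlt_le_one q a hq H w) hc A B hAB
  push_cast at hfin
  exact hfin

end Pool.Agent.LibUHL
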