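import Pool.Agent.LibUHL.U09

/-! Row UH 10: the main term of one scale. -/

set_option autoImplicit false

namespace Pool.Agent.LibUHL

open Finset Filter Topology MeasureTheory

open Pool.Agent.LibLin93 (V)

open Pool.Agent.LibCI99 (cnt hlConst dlt vee prim occ goodT)

private theorem u10a_growth : ∀ᶠ j : ℕ in atTop, 100 * j ^ 3 ≤ 2 ^ (j / 12) := by
  have h1 : Tendsto (fun n : ℕ => (n : ℝ) ^ 3 / (2 : ℝ) ^ n) atTop (𝓝 0) :=
    tendsto_pow_const_div_const_pow_of_one_lt 3 (by norm_num)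
  have h2 : ∀ᶠ n : ℕ in atTop, (n : ℝ) ^ 3 / (2 : ℝ) ^ n < 1 / 10000000 :=
    h1.eventually (gt_mem_nhds (by norm_num))
  obtain ⟨N, hN⟩ := eventually_atTop.1 h2
  filter_upwards [eventually_ge_atTop (12 * (N + 1) + 12)] with j hj
  have h3 := hN (j / 12) (by omega)
  rw [div_lt_iff₀ (by positivity)] at h3
  have h4 : (j : ℝ) ≤ 24 * ((j / 12 : ℕ) : ℝ) := by
    have : j ≤ 24 * (j / 12) := by omega
    exact_mod_cast this
  have h5 : (j : ℝ) ^ 3 ≤ (24 * ((j / 12 : ℕ) : ℝ)) ^ 3 := pow_le_pow_left₀ (by positivity) h4 3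
  rw [mul_pow] at h5
  have h7 : (0 : ℝ) < 2 ^ (j / 12) := by positivity
  have h6 : (100 : ℝ) * (j : ℝ) ^ 3 ≤ 2 ^ (j / 12) := by
    norm_num at h5 h3
    linarith
  exact_mod_cast h6

private theorem u10a_one_sub_pow_inv (θ : ℝ) (h0 : 0 ≤ θ) (k : ℕ) :
    1 - 1 / (1 + θ) ^ k ≤ k * θ ∧ 0 ≤ 1 - 1 / (1 + θ) ^ k := by
  have h1 : (1 : ℝ) ≤ (1 + θ) ^ k := one_le_pow₀ (by linarith)
  have hpos : 0 < (1 + θ) ^ k := by positivity
  constructor
  · by_cases hk : (k : ℝ) * θ ≤ 1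
    · -- (1 + θ)^k * (1 - kθ) ≤ 1
      have h2 : (1 + θ) ^ k * (1 - k * θ) ≤ 1 := by
        clear h1 hpos
        induction k with
        | zero => simp
        | succ k ih =>
          push_cast at hk ⊢
          have hk' : (k : ℝ) * θ ≤ 1 := by nlinarith
          have ih' := ih hk'
          have hp : 0 ≤ (1 + θ) ^ k := by positivity
          have hkk : (0 : ℝ) ≤ k := by positivity
          have : (1 + θ) * (1 - (k + 1) * θ) ≤ 1 - k * θ := by nlinarith [mul_nonneg hkk (mul_nonneg h0 h0), mul_nonneg h0 h0]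
          calc (1 + θ) ^ (k + 1) * (1 - (k + 1) * θ) = (1 + θ) ^ k * ((1 + θ) * (1 - (k + 1) * θ)) := by ring
            _ ≤ (1 + θ) ^ k * (1 - k * θ) := mul_le_mul_of_nonneg_left this hp
            _ ≤ 1 := ih'
      have h3 : 1 - k * θ ≤ 1 / (1 + θ) ^ k := by
        rw [le_div_iff₀ hpos]; linarith [mul_comm ((1 + θ) ^ k) (1 - k * θ)]
      linarith
    · push Not at hk
      have : 0 ≤ 1 / (1 + θ) ^ k := by positivity
      linarith
  · have : 1 / (1 + θ) ^ k ≤ 1 := by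
      rw [div_le_one hpos]; exact h1
    linarith

open Classical in
private theorem u10a_count (j i q a B : ℕ) (H : Finset ℕ) (D : ℕ) (hH : ∀ h ∈ H, h ≤ D)
    (hB2 : B ≤ u j i + NB j) :
    |(#{n ∈ Ico (u j i) (u j i + NB j) | n < B ∧ n ≡ a [MOD q] ∧ (∀ h ∈ H, n + h < u j i + NB j) ∧
    ∀ h ∈ H, ∀ p : ℕ, p.Prime → p ≤ wl j → ¬ p ∣ n + h} : ℝ) -
      #{n ∈ Ico (u j i) B | n ≡ a [MOD q] ∧ ∀ h ∈ H, ∀ p : ℕ, p.Prime → p ≤ wl j → ¬ p ∣ n + h}| ≤ D := by
  set S1 := {n ∈ Ico (u j i) (u j i + NB j) | n < B ∧ n ≡ a [MOD q] ∧ (∀ h ∈ H, n + h < u j i + NB j) ∧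
    ∀ h ∈ H, ∀ p : ℕ, p.Prime → p ≤ wl j → ¬ p ∣ n + h} with hS1
  set S2 := {n ∈ Ico (u j i) B | n ≡ a [MOD q] ∧ ∀ h ∈ H, ∀ p : ℕ, p.Prime → p ≤ wl j → ¬ p ∣ n + h} with hS2
  have h12 : S1 ⊆ S2 := by
    intro n hn
    simp only [hS1, hS2, Finset.mem_filter, Finset.mem_Ico] at hn ⊢
    exact ⟨⟨hn.1.1, hn.2.1⟩, hn.2.2.1, hn.2.2.2.2⟩
  have h21 : S2 ⊆ S1 ∪ Ico (u j i + NB j - D) (u j i + NB j) := by
    intro n hn
    simp only [hS1, hS2, Finset.mem_union, Finset.mem_filter, Finset.mem_Ico] at hn ⊢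
    by_cases hc : ∀ h ∈ H, n + h < u j i + NB j
    · left
      exact ⟨⟨hn.1.1, by omega⟩, hn.1.2, hn.2.1, hc, hn.2.2⟩
    · right
      push Not at hc
      obtain ⟨h, hh, hc⟩ := hc
      have := hH h hh
      exact ⟨by omega, by omega⟩
  have c1 : #S1 ≤ #S2 := Finset.card_le_card h12
  have c2 : #S2 ≤ #S1 + D := by
    refine (Finset.card_le_card h21).trans ((Finset.card_union_le _ _).trans ?_)
    rw [Nat.card_Ico]
    omega
  have c1' : (#S1 : ℝ) ≤ #S2 := by exact_mod_cast c1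
  have c2' : (#S2 : ℝ) ≤ #S1 + D := by exact_mod_cast c2
  rw [abs_le]
  constructor <;> linarith [Nat.cast_nonneg (α := ℝ) D]

private theorem u10a_e1 (C1 C2 X G g E D : ℝ) (hG0 : 0 ≤ G) (hG1 : G ≤ 1)
    (h1 : |C1 - C2| ≤ D) (h2 : |C2 - X * g| ≤ E) : |C1 * G - G * (X * g)| ≤ E + D := by
  have h3 : C1 * G - G * (X * g) = G * ((C1 - C2) + (C2 - X * g)) := by ring
  rw [h3, abs_mul, abs_of_nonneg hG0]
  have h4 : |(C1 - C2) + (C2 - X * g)| ≤ E + D := by
    refine (abs_add_le _ _).trans ?_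
    linarith
  calc G * |(C1 - C2) + (C2 - X * g)| ≤ 1 * |(C1 - C2) + (C2 - X * g)| :=
        mul_le_mul_of_nonneg_right hG1 (abs_nonneg _)
    _ ≤ _ := by rw [one_mul]; exact h4

/-- PROOF (one block, partial: `A = u j i ≤ B ≤ u j i + NB j`, `k = #H ≤ j`, `D = 2^(j/3+2)`,
`w = wl j`, `z = zz (u j i) ≥ √(u j i) ≥ 2^(j/2)`, so `z > D` for large `j`, `g = dlt q a H w`,
`G = GP j i H`, `c = hlConst q a H`).
(1) `Mn j i B q a H = G * #{n ∈ [A, B) : n ≡ a, no small prime divides n + h, n + h < end}` differs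
from `G (B - A) g` by at most `q * prim w + D` (`card_goodw`; at most `D` of the `n` violate
`n + h < u j i + NB j` for some `h`).
(2) `|g G - c V z ^ k| ≤ 2 k²/z` (`block_const`, `g, G ∈ [0,1]`).
(3) For `t ∈ [A, A + NB j]`: `V z log t = 1 + θ` with `0 ≤ θ ≤ 2/√A + NB j/A ≤ 3 / 2^(j/4)`
(`zz_spec`, `log t - log A ≤ (t - A)/A`, `V z ≤ 1`), so
`|c V z ^ k - c / log t ^ k| = c V z ^ k |1 - (1+θ)^(-k)| ≤ k θ` (`c V z ^ k ≤ g G ≤ 1`).
So `|Mn j i B q a H - c ∫_A^B 1/log^k| ≤ q * prim w + D + NB j (2 k²/z + 3 k / 2^(j/4))`, and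
`q ≤ j`, `prim w ≤ 4^w ≤ j²` (`prim_le`, `w = Nat.log 2 j`). This is `≤ NB j / 2^(j/12) / 2`
for large `j`, uniformly: `NB j = 2^(j - j/4)` beats `2^(j/3+2) + j³`. -/
theorem block_main (q : ℕ) (hq : 0 < q) : ∀ᶠ j : ℕ in atTop, ∀ i, i < TB j →
    ∀ (a : ℕ) (H : Finset ℕ), (∀ h ∈ H, h ≤ 2 ^ (j / 3 + 2)) → #H ≤ j →
      ∀ B, u j i ≤ B → B ≤ u j i + NB j →
        |Mn j i B q a H - hlConst q a H * ∫ t in (u j i : ℝ)..B, 1 / Real.log t ^ #H| ≤
          (NB j : ℝ) / 2 ^ (j / 12) / 2 := by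
  obtain ⟨N0, hN0⟩ := eventually_atTop.1 zz_spec
  filter_upwards [eventually_ge_atTop N0, eventually_ge_atTop (2 ^ q), eventually_ge_atTop 12,
    u10a_growth] with j hj0 hjq hj1 hgr
  intro i hi a H hHD hHj B hB1 hB2
  -- constants
  obtain ⟨e, r, hr, hje⟩ : ∃ e r : ℕ, r < 12 ∧ j = 12 * e + r := ⟨j / 12, j % 12, Nat.mod_lt _ (by norm_num), by omega⟩
  have he : j / 12 = e := by omega
  rw [he] at hgr ⊢
  have hA2 : 2 ^ j ≤ u j i := by unfold u; exact Nat.le_add_right _ _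
  have hjA : j < u j i := lt_of_lt_of_le Nat.lt_two_pow_self hA2
  obtain ⟨hz1, hz2, hz3, hz4⟩ := hN0 (u j i) (by omega)
  set A : ℕ := u j i with hAdef
  set z : ℕ := zz A with hzdef
  set P : ℝ := (2 : ℝ) ^ e with hP
  have hjpos : (1 : ℝ) ≤ j := by exact_mod_cast (by omega : 1 ≤ j)
  have hgrR : 100 * (j : ℝ) ^ 3 ≤ P := by rw [hP]; exact_mod_cast hgr
  have hP100 : (100 : ℝ) ≤ P := by
    have : (1 : ℝ) ≤ (j : ℝ) ^ 3 := one_le_pow₀ hjpos
    linarith
  have hAR : (2 : ℝ) ^ j ≤ A := by exact_mod_cast hA2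
  have hAP : P ^ 12 ≤ A := by
    refine le_trans ?_ hAR
    rw [hP, ← pow_mul]
    exact pow_le_pow_right₀ (by norm_num) (by omega)
  have hsq : P ^ 6 ≤ √(A : ℝ) := by
    apply Real.le_sqrt_of_sq_le
    rw [← pow_mul]; exact hAP
  have hzP : P ^ 6 ≤ (z : ℝ) := hsq.trans hz1
  have hPpos : 0 < P := by positivity
  have hD : ((2 ^ (j / 3 + 2) : ℕ) : ℝ) ≤ 32 * P ^ 4 := by
    have : (2 : ℕ) ^ (j / 3 + 2) ≤ 2 ^ (4 * e + 5) := Nat.pow_le_pow_right (by norm_num) (by omega)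
    have h2 : ((2 ^ (4 * e + 5) : ℕ) : ℝ) = 32 * P ^ 4 := by
      rw [hP, ← pow_mul, mul_comm e 4]; push_cast; rw [pow_add]; ring
    rw [← h2]; exact_mod_cast this
  have hDz : 32 * P ^ 4 < P ^ 6 := by
    have h1 : 32 < P ^ 2 := by nlinarith
    calc 32 * P ^ 4 < P ^ 2 * P ^ 4 := mul_lt_mul_of_pos_right h1 (by positivity)
      _ = P ^ 6 := by ring
  have hHz : ∀ h ∈ H, h < z := by
    intro h hh
    have h1 := hHD h hh
    have h2 : ((2 ^ (j / 3 + 2) : ℕ) : ℝ) < z := lt_of_le_of_lt hD (lt_of_lt_of_le hDz hzP)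
    have h3 : 2 ^ (j / 3 + 2) < z := by exact_mod_cast h2
    omega
  have hwj : wl j < j := by
    unfold wl; exact Nat.log_lt_self 2 (by omega)
  have hjz : (j : ℝ) < z := by
    have h1 : (j : ℝ) ≤ (j : ℝ) ^ 3 := by
      calc (j : ℝ) = (j : ℝ) ^ 1 := (pow_one _).symm
        _ ≤ (j : ℝ) ^ 3 := pow_le_pow_right₀ hjpos (by norm_num)
    have h2 : P ≤ P ^ 6 := by
      calc P = P ^ 1 := (pow_one _).symm
        _ ≤ P ^ 6 := pow_le_pow_right₀ (by linarith) (by norm_num)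
    have h0 : (1 : ℝ) ≤ (j : ℝ) ^ 3 := one_le_pow₀ hjpos
    linarith
  have hwz : wl j < z := by
    have : j < z := by exact_mod_cast hjz
    omega
  have hqw : q ≤ wl j := by
    unfold wl
    exact Nat.le_log_of_pow_le (by norm_num) hjq
  obtain ⟨hbc1, hbc2⟩ := block_const j i q a hq hqw H hwz hHz
  rw [← hAdef, ← hzdef] at hbc1 hbc2
  set g : ℝ := dlt q a H (wl j) with hg
  set G : ℝ := GP j i H with hG
  set c : ℝ := hlConst q a H with hc
  set k : ℕ := #H with hk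
  have hg0 : 0 ≤ g := Pool.Agent.LibCI99.dlt_nonneg q a H _
  have hg1 : g ≤ 1 := dlt_le_one q a hq H _
  have hG0 : 0 ≤ G := GP_nonneg j i H
  have hG1 : G ≤ 1 := GP_le_one j i H
  have hgG0 : 0 ≤ g * G := mul_nonneg hg0 hG0
  have hgG1 : g * G ≤ 1 := mul_le_one₀ hg1 hG0 hG1
  have hc0 : 0 ≤ c := hlConst_nonneg q a hq H
  have hkj : (k : ℝ) ≤ j := by exact_mod_cast hHj
  have hk0 : (0 : ℝ) ≤ k := Nat.cast_nonneg _
  have hz0 : (0 : ℝ) < z := lt_of_lt_of_le (by positivity) hzP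
  -- error 2
  have hE2 : |g * G - c * V z ^ k| ≤ 2 * (k : ℝ) ^ 2 / z := by
    rw [abs_le]
    have h2 : (g * G) * (2 * (k : ℝ) ^ 2 / z) ≤ 1 * (2 * (k : ℝ) ^ 2 / z) :=
      mul_le_mul_of_nonneg_right hgG1 (by positivity)
    have h3 : (0 : ℝ) ≤ 2 * (k : ℝ) ^ 2 / z := by positivity
    constructor
    · linarith
    · nlinarith
  have hcV1 : c * V z ^ k ≤ 1 := hbc1.trans hgG1
  have hVpos : 0 < V z := by
    have hlog : 0 < Real.log A := Real.log_pos (by
      have : (1 : ℝ) < P ^ 12 := one_lt_pow₀ (by linarith) (by norm_num)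
      linarith)
    by_contra hneg
    push Not at hneg
    have : V z * Real.log A ≤ 0 := mul_nonpos_of_nonpos_of_nonneg hneg hlog.le
    linarith
  have hV1 : V z ≤ 1 := by
    unfold Pool.Agent.LibLin93.V
    apply Finset.prod_le_one
    · intro p hp
      have hpp : p.Prime := (Finset.mem_filter.1 hp).2
      have : (1 : ℝ) / p ≤ 1 := by
        rw [div_le_one (by exact_mod_cast hpp.pos)]
        exact_mod_cast hpp.one_lt.le
      linarith
    · intro p hp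
      have : (0 : ℝ) ≤ 1 / p := by positivity
      linarith
  have hcV0 : 0 ≤ c * V z ^ k := by positivity
  have hNA : (NB j : ℝ) / A ≤ 1 / P ^ 3 := by
    rw [div_le_div_iff₀ (lt_of_lt_of_le (by positivity) hAP) (by positivity)]
    have h1 : (NB j : ℝ) * P ^ 3 ≤ 2 ^ j := by
      unfold NB
      push_cast
      rw [hP, ← pow_mul, ← pow_add]
      exact pow_le_pow_right₀ (by norm_num) (by omega)
    linarith
  have hNpos : (0 : ℝ) < NB j := by unfold NB; positivity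
  have hApos : (0 : ℝ) < A := lt_of_lt_of_le (by positivity) hAP
  have h2A : 2 / √(A : ℝ) ≤ 2 / P ^ 3 := by
    apply div_le_div_of_nonneg_left (by norm_num) (by positivity)
    refine le_trans ?_ hsq
    exact pow_le_pow_right₀ (by linarith) (by norm_num)
  set θ0 : ℝ := 3 / P ^ 3 with hθ0
  -- pointwise estimate
  have hpt : ∀ t : ℝ, (A : ℝ) ≤ t → t ≤ B → |c * V z ^ k - c * (1 / Real.log t ^ k)| ≤ k * θ0 := by
    intro t ht1 ht2
    have htA : t ≤ A + NB j := by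
      have : (B : ℝ) ≤ A + NB j := by exact_mod_cast hB2
      linarith
    have htpos : 0 < t := lt_of_lt_of_le hApos ht1
    have hl1 : Real.log A ≤ Real.log t := Real.log_le_log hApos ht1
    have hl2 : Real.log t ≤ Real.log A + NB j / A := by
      have h1 : Real.log t - Real.log A = Real.log (t / A) := (Real.log_div htpos.ne' hApos.ne').symm
      have h2 : Real.log (t / A) ≤ t / A - 1 := Real.log_le_sub_one_of_pos (by positivity)
      have h3 : t / A - 1 ≤ NB j / A := by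
        rw [div_sub_one hApos.ne']
        apply div_le_div_of_nonneg_right _ hApos.le
        linarith
      linarith
    obtain ⟨θ, hθ⟩ : ∃ θ, θ = V z * Real.log t - 1 := ⟨_, rfl⟩
    have hVt : V z * Real.log t = 1 + θ := by rw [hθ]; ring
    have hθpos : 0 ≤ θ := by
      have := mul_le_mul_of_nonneg_left hl1 hVpos.le
      linarith
    have hθle : θ ≤ θ0 := by
      have h1 := mul_le_mul_of_nonneg_left hl2 hVpos.le
      have h2 : V z * (NB j / A) ≤ 1 * (NB j / A) := mul_le_mul_of_nonneg_right hV1 (by positivity)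
      have h3 : θ0 = 2 / P ^ 3 + 1 / P ^ 3 := by rw [hθ0]; ring
      rw [h3]
      linarith
    have hlogt : Real.log t = (1 + θ) / V z := by
      rw [← hVt]; field_simp
    have heq : c * V z ^ k - c * (1 / Real.log t ^ k) = (c * V z ^ k) * (1 - 1 / (1 + θ) ^ k) := by
      rw [hlogt, div_pow, one_div_div]
      ring
    obtain ⟨b1, b2⟩ := u10a_one_sub_pow_inv θ hθpos k
    rw [heq, abs_of_nonneg (mul_nonneg hcV0 b2)]
    calc (c * V z ^ k) * (1 - 1 / (1 + θ) ^ k) ≤ 1 * (1 - 1 / (1 + θ) ^ k) :=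
          mul_le_mul_of_nonneg_right hcV1 b2
      _ ≤ k * θ := by rw [one_mul]; exact b1
      _ ≤ k * θ0 := mul_le_mul_of_nonneg_left hθle hk0
  have hAB : (A : ℝ) ≤ B := by exact_mod_cast hB1
  have hBA : (B : ℝ) - A ≤ NB j := by
    have : (B : ℝ) ≤ A + NB j := by exact_mod_cast hB2
    linarith
  -- the integral
  have hint : IntervalIntegrable (fun t : ℝ => 1 / Real.log t ^ k) volume (A : ℝ) B := by
    apply ContinuousOn.intervalIntegrable
    intro t ht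
    rw [Set.uIcc_of_le hAB] at ht
    have ht1 : 1 < t := by
      have : (1 : ℝ) < P ^ 12 := one_lt_pow₀ (by linarith) (by norm_num)
      linarith [ht.1]
    apply ContinuousAt.continuousWithinAt
    have hlog : Real.log t ^ k ≠ 0 := pow_ne_zero _ (Real.log_pos ht1).ne'
    exact ContinuousAt.div continuousAt_const ((Real.continuousAt_log (by linarith)).pow k) hlog
  have hE3 : |c * V z ^ k * (B - A) - c * ∫ t in (A : ℝ)..B, 1 / Real.log t ^ k| ≤ k * θ0 * (NB j) := by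
    have heq : c * V z ^ k * (B - A) - c * ∫ t in (A : ℝ)..B, 1 / Real.log t ^ k =
        ∫ t in (A : ℝ)..B, (c * V z ^ k - c * (1 / Real.log t ^ k)) := by
      rw [intervalIntegral.integral_sub intervalIntegrable_const (hint.const_mul c),
        intervalIntegral.integral_const, intervalIntegral.integral_const_mul, smul_eq_mul]
      ring
    rw [heq, ← Real.norm_eq_abs]
    refine (intervalIntegral.norm_integral_le_of_norm_le_const (C := k * θ0) ?_).trans ?_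
    · intro t ht
      rw [Set.uIoc_of_le hAB] at ht
      rw [Real.norm_eq_abs]
      exact hpt t ht.1.le ht.2
    · rw [abs_of_nonneg (by linarith)]
      exact mul_le_mul_of_nonneg_left hBA (by positivity)
  -- error 1
  have hE1 : |Mn j i B q a H - G * ((B - A) * g)| ≤ q * prim (wl j) + 2 ^ (j / 3 + 2) := by
    have h1 := u10a_count j i q a B H (2 ^ (j / 3 + 2)) hHD hB2
    have h2 := card_goodw q a hq H (wl j) (u j i) B hB1
    unfold Mn
    rw [← hAdef] at h1 h2 ⊢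
    rw [← hg] at h2
    rw [← hG]
    push_cast at h1
    exact u10a_e1 _ _ _ G g _ _ hG0 hG1 h1 h2
  -- total
  have htot : |Mn j i B q a H - c * ∫ t in (A : ℝ)..B, 1 / Real.log t ^ k| ≤
      (q * prim (wl j) + 2 ^ (j / 3 + 2)) + (2 * (k : ℝ) ^ 2 / z) * NB j + k * θ0 * (NB j) := by
    have h1 : Mn j i B q a H - c * ∫ t in (A : ℝ)..B, 1 / Real.log t ^ k =
        (Mn j i B q a H - G * ((B - A) * g)) + (g * G - c * V z ^ k) * (B - A) +
          (c * V z ^ k * (B - A) - c * ∫ t in (A : ℝ)..B, 1 / Real.log t ^ k) := by ring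
    rw [h1]
    refine (abs_add_le _ _).trans (add_le_add ((abs_add_le _ _).trans (add_le_add hE1 ?_)) hE3)
    rw [abs_mul, abs_of_nonneg (by linarith : (0 : ℝ) ≤ B - A)]
    exact mul_le_mul hE2 hBA (by linarith) (by positivity)
  refine htot.trans ?_
  -- numerical
  have hN9 : P ^ 9 ≤ NB j := by
    unfold NB
    push_cast
    rw [hP, ← pow_mul]
    exact pow_le_pow_right₀ (by norm_num) (by omega)
  have hprim : (q * prim (wl j) : ℝ) ≤ (j : ℝ) ^ 3 := by
    have h1 : prim (wl j) ≤ 4 ^ (wl j) := Pool.Agent.LibCI99.prim_le _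
    have h2 : 2 ^ (wl j) ≤ j := by unfold wl; exact Nat.pow_log_le_self 2 (by omega)
    have h3 : 4 ^ (wl j) ≤ j ^ 2 := by
      calc 4 ^ (wl j) = (2 ^ (wl j)) ^ 2 := by rw [← pow_mul, mul_comm, pow_mul]; norm_num
        _ ≤ j ^ 2 := Nat.pow_le_pow_left h2 2
    have h4 : q ≤ j := by omega
    have h5 : q * prim (wl j) ≤ j * j ^ 2 := Nat.mul_le_mul h4 (h1.trans h3)
    have h6 : q * prim (wl j) ≤ j ^ 3 := by
      calc q * prim (wl j) ≤ j * j ^ 2 := h5
        _ = j ^ 3 := by ring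
    exact_mod_cast h6
  have hk2 : (k : ℝ) ^ 2 ≤ (j : ℝ) ^ 3 := by
    calc (k : ℝ) ^ 2 ≤ (j : ℝ) ^ 2 := pow_le_pow_left₀ hk0 hkj 2
      _ ≤ (j : ℝ) ^ 3 := pow_le_pow_right₀ hjpos (by norm_num)
  have hk1 : (k : ℝ) ≤ (j : ℝ) ^ 3 := by
    calc (k : ℝ) ≤ (j : ℝ) ^ 1 := by rw [pow_one]; exact hkj
      _ ≤ (j : ℝ) ^ 3 := pow_le_pow_right₀ hjpos (by norm_num)
  have hj3 : (j : ℝ) ^ 3 ≤ P / 100 := by linarith
  have hT1 : (q * prim (wl j) : ℝ) ≤ NB j / P / 8 := by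
    have h1 : P ^ 8 ≤ NB j / P := by
      rw [le_div_iff₀ hPpos]; calc P ^ 8 * P = P ^ 9 := by ring
        _ ≤ _ := hN9
    have h2 : P ≤ P ^ 8 := by
      calc P = P ^ 1 := (pow_one _).symm
        _ ≤ P ^ 8 := pow_le_pow_right₀ (by linarith) (by norm_num)
    linarith
  have hT2 : ((2 : ℝ) ^ (j / 3 + 2)) ≤ NB j / P / 8 := by
    have h1 : P ^ 8 ≤ NB j / P := by
      rw [le_div_iff₀ hPpos]; calc P ^ 8 * P = P ^ 9 := by ring
        _ ≤ _ := hN9
    have h2 : 256 * P ^ 4 ≤ P ^ 8 := by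
      have h3 : (256 : ℝ) ≤ P ^ 4 := by
        calc (256 : ℝ) ≤ 100 ^ 4 := by norm_num
          _ ≤ P ^ 4 := pow_le_pow_left₀ (by norm_num) hP100 4
      calc 256 * P ^ 4 ≤ P ^ 4 * P ^ 4 := mul_le_mul_of_nonneg_right h3 (by positivity)
        _ = P ^ 8 := by ring
    have h4 : ((2 : ℝ) ^ (j / 3 + 2)) ≤ 32 * P ^ 4 := by exact_mod_cast hD
    linarith
  have hT3 : (2 * (k : ℝ) ^ 2 / z) * NB j ≤ NB j / P / 8 := by
    have h1 : 2 * (k : ℝ) ^ 2 / z ≤ 1 / P / 8 := by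
      rw [div_div, div_le_div_iff₀ hz0 (by positivity)]
      have h2 : 2 * (k : ℝ) ^ 2 ≤ P := by linarith
      have h3 : 2 * (k : ℝ) ^ 2 * (P * 8) ≤ P * (P * 8) := mul_le_mul_of_nonneg_right h2 (by positivity)
      have h4 : P * (P * 8) ≤ P ^ 6 := by
        have h5 : (8 : ℝ) ≤ P ^ 4 := by
          calc (8 : ℝ) ≤ 100 ^ 4 := by norm_num
            _ ≤ P ^ 4 := pow_le_pow_left₀ (by norm_num) hP100 4
        calc P * (P * 8) = 8 * P ^ 2 := by ring
          _ ≤ P ^ 4 * P ^ 2 := mul_le_mul_of_nonneg_right h5 (by positivity)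
          _ = P ^ 6 := by ring
      linarith
    calc (2 * (k : ℝ) ^ 2 / z) * NB j ≤ (1 / P / 8) * NB j := mul_le_mul_of_nonneg_right h1 hNpos.le
      _ = NB j / P / 8 := by ring
  have hT4 : k * θ0 * (NB j) ≤ NB j / P / 8 := by
    have h1 : k * θ0 ≤ 1 / P / 8 := by
      rw [hθ0, div_div, ← mul_div_assoc, div_le_div_iff₀ (by positivity) (by positivity)]
      have h2 : (k : ℝ) * 3 ≤ P := by linarith
      have h3 : (k : ℝ) * 3 * (P * 8) ≤ P * (P * 8) := mul_le_mul_of_nonneg_right h2 (by positivity)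
      have h4 : P * (P * 8) ≤ P ^ 3 := by
        have h5 : (8 : ℝ) ≤ P := by linarith
        calc P * (P * 8) = 8 * P ^ 2 := by ring
          _ ≤ P * P ^ 2 := mul_le_mul_of_nonneg_right h5 (by positivity)
          _ = P ^ 3 := by ring
      linarith
    calc k * θ0 * (NB j) ≤ (1 / P / 8) * NB j := mul_le_mul_of_nonneg_right h1 hNpos.le
      _ = NB j / P / 8 := by ring
  have : (NB j : ℝ) / P / 2 = NB j / P / 8 + NB j / P / 8 + NB j / P / 8 + NB j / P / 8 := by ring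
  rw [this]
  linarith

private theorem U10b_TN (j : ℕ) : TB j * NB j = 2 ^ j := by
  unfold TB NB
  rw [← pow_add]
  congr 1
  omega

private theorem U10b_u (j i : ℕ) : u j i = 2 ^ j + i * NB j := rfl

private theorem U10b_Mn (j i x q a : ℕ) (H : Finset ℕ) :
    Mn j i x q a H = Mn j i (max (u j i) (min x (u j i + NB j))) q a H := by
  classical
  unfold Mn
  congr 2
  congr 1
  apply Finset.filter_congr
  intro n hn
  rw [mem_Ico] at hn
  have h : n < x ↔ n < max (u j i) (min x (u j i + NB j)) := by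
    rw [lt_max_iff, lt_min_iff]
    omega
  rw [h]

private theorem U10b_sum (f : ℝ → ℝ) (j x : ℕ)
    (hf : ∀ a b : ℕ, 2 ^ j ≤ a → 2 ^ j ≤ b → IntervalIntegrable f volume a b)
    (hx : 2 ^ j ≤ x) (m : ℕ) :
    ∑ i ∈ range m, ∫ t in (u j i : ℝ)..((max (u j i) (min x (u j i + NB j)) : ℕ) : ℝ), f t =
      ∫ t in ((2 ^ j : ℕ) : ℝ)..((min x (u j m) : ℕ) : ℝ), f t := by
  induction m with
  | zero =>
    have h0 : min x (u j 0) = 2 ^ j := by
      rw [U10b_u, Nat.zero_mul, Nat.add_zero]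
      exact min_eq_right hx
    rw [h0, Finset.sum_range_zero, intervalIntegral.integral_same]
  | succ m ih =>
    rw [Finset.sum_range_succ, ih]
    have hs : u j (m + 1) = u j m + NB j := by
      rw [U10b_u, U10b_u]
      ring
    rw [hs]
    have hge : 2 ^ j ≤ u j m := by
      rw [U10b_u]
      exact Nat.le_add_right _ _
    rcases le_total x (u j m) with h | h
    · have e1 : max (u j m) (min x (u j m + NB j)) = u j m :=
        max_eq_left ((min_le_left _ _).trans h)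
      have e2 : min x (u j m) = x := min_eq_left h
      have e3 : min x (u j m + NB j) = x := min_eq_left (h.trans (Nat.le_add_right _ _))
      rw [e1, e2, e3, intervalIntegral.integral_same, add_zero]
    · have e2 : min x (u j m) = u j m := min_eq_right h
      have e4 : u j m ≤ min x (u j m + NB j) := le_min h (Nat.le_add_right _ _)
      have e1 : max (u j m) (min x (u j m + NB j)) = min x (u j m + NB j) :=
        max_eq_right e4
      rw [e1, e2]
      exact intervalIntegral.integral_add_adjacent_intervals (hf _ _ le_rfl hge)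
        (hf _ _ hge (hge.trans e4))

private theorem U10b_int (k j a b : ℕ) (hj : 1 ≤ j) (ha : 2 ^ j ≤ a) (hb : 2 ^ j ≤ b) :
    IntervalIntegrable (fun t : ℝ => 1 / Real.log t ^ k) volume a b := by
  have h2 : (2 : ℕ) ≤ 2 ^ j := by
    calc 2 = 2 ^ 1 := by norm_num
      _ ≤ 2 ^ j := Nat.pow_le_pow_right (by norm_num) hj
  have ha' : (2 : ℝ) ≤ a := by exact_mod_cast h2.trans ha
  have hb' : (2 : ℝ) ≤ b := by exact_mod_cast h2.trans hb
  apply ContinuousOn.intervalIntegrable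
  intro t ht
  have ht2 : (2 : ℝ) ≤ t := by
    have h3 := ht.1
    exact (le_min ha' hb').trans h3
  have ht0 : t ≠ 0 := by linarith
  have hl : 0 < Real.log t := Real.log_pos (by linarith)
  apply ContinuousAt.continuousWithinAt
  exact continuousAt_const.div ((Real.continuousAt_log ht0).pow k) (pow_ne_zero _ hl.ne')

private theorem U10b_lt (j : ℕ) : j < 2 ^ (j / 3 + 2) := by
  have h1 : j / 3 < 2 ^ (j / 3) := Nat.lt_two_pow_self
  rw [pow_add]
  omega

/-- PROOF. For `i < TB j` the block `[u j i, u j i + NB j)`, `u j (i+1) = u j i + NB j`,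
`u j (TB j) = 2^(j+1)`. `Mn j i x q a H` is `Mn j i B q a H` with `B = min x (u j i + NB j)` if
`x ≥ u j i`, and `0` if `x ≤ u j i`. Sum `block_main` over the blocks
(`intervalIntegral.sum_integral_adjacent_intervals`, the function `1/log^k` is continuous on
`[2, ∞)`): error `≤ TB j * NB j / 2^(j/12) / 2 = 2^j / 2^(j/12) / 2 ≤ 2^j / 2^(j/20)`. -/
theorem scale_main (q : ℕ) (hq : 0 < q) : ∀ᶠ j : ℕ in atTop,
    ∀ (a : ℕ) (H : Finset ℕ), (∀ h ∈ H, h ≤ 2 ^ (j / 3 + 2)) → #H ≤ j →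
      ∀ x, 2 ^ j ≤ x → x ≤ 2 ^ (j + 1) →
        |∑ i ∈ range (TB j), Mn j i x q a H -
          hlConst q a H * ∫ t in ((2 ^ j : ℕ) : ℝ)..x, 1 / Real.log t ^ #H| ≤
            (2 : ℝ) ^ j / 2 ^ (j / 20) := by
  filter_upwards [block_main q hq, eventually_ge_atTop 1] with j hb hj1 a H hH hk x hx hx2
  have hint : ∀ a b : ℕ, 2 ^ j ≤ a → 2 ^ j ≤ b →
      IntervalIntegrable (fun t : ℝ => 1 / Real.log t ^ #H) volume a b :=
    fun a b ha hb => U10b_int _ j a b hj1 ha hb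
  have hsum := U10b_sum (fun t : ℝ => 1 / Real.log t ^ #H) j x hint hx (TB j)
  have hend : min x (u j (TB j)) = x := by
    rw [U10b_u, U10b_TN]
    rw [pow_succ] at hx2
    apply min_eq_left
    omega
  rw [hend] at hsum
  rw [← hsum, Finset.mul_sum, ← Finset.sum_sub_distrib]
  refine (Finset.abs_sum_le_sum_abs _ _).trans ?_
  have hone : ∀ i ∈ range (TB j), |Mn j i x q a H -
      hlConst q a H * ∫ t in (u j i : ℝ)..((max (u j i) (min x (u j i + NB j)) : ℕ) : ℝ),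
        1 / Real.log t ^ #H| ≤ (NB j : ℝ) / 2 ^ (j / 12) / 2 := by
    intro i hi
    rw [U10b_Mn j i x q a H]
    exact hb i (mem_range.1 hi) a H hH hk _ (le_max_left _ _)
      (max_le (Nat.le_add_right _ _) (min_le_right _ _))
  refine (Finset.sum_le_sum hone).trans ?_
  rw [Finset.sum_const, card_range, nsmul_eq_mul]
  have hTN : (TB j : ℝ) * (NB j : ℝ) = 2 ^ j := by exact_mod_cast U10b_TN j
  have h1 : (TB j : ℝ) * ((NB j : ℝ) / 2 ^ (j / 12) / 2) = (2 : ℝ) ^ j / 2 ^ (j / 12) / 2 := by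
    rw [← hTN]
    ring
  rw [h1]
  have h2 : (2 : ℝ) ^ (j / 20) ≤ 2 ^ (j / 12) :=
    pow_le_pow_right₀ (by norm_num) (by omega)
  have h3 : (2 : ℝ) ^ j / 2 ^ (j / 12) ≤ (2 : ℝ) ^ j / 2 ^ (j / 20) :=
    div_le_div_of_nonneg_left (by positivity) (by positivity) h2
  have h4 : (0 : ℝ) ≤ (2 : ℝ) ^ j / 2 ^ (j / 12) := by positivity
  linarith

/-- PROOF. `block_const` for `i = 0`, `u j 0 = 2^j`: `c V z ^ k ≤ 1` and `1/V z ≤ log (2^j) ≤ j`
(`zz_spec`). -/
theorem hlConst_le (q : ℕ) (hq : 0 < q) : ∀ᶠ j : ℕ in atTop,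
    ∀ (a : ℕ) (H : Finset ℕ), (∀ h ∈ H, h ≤ 2 ^ (j / 3 + 2)) →
      hlConst q a H ≤ (j : ℝ) ^ #H := by
  have h2p : Tendsto (fun j : ℕ => 2 ^ j) atTop (atTop : Filter ℕ) :=
    tendsto_pow_atTop_atTop_of_one_lt (by norm_num)
  filter_upwards [h2p.eventually zz_spec, eventually_ge_atTop 18,
    eventually_ge_atTop (2 ^ q)] with j hz hj18 hjq a H hH
  obtain ⟨z1, z2, z3, z4⟩ := hz
  have hu0 : u j 0 = 2 ^ j := by
    rw [U10b_u, Nat.zero_mul, Nat.add_zero]
  have hj0 : j ≠ 0 := by omega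
  have hqw : q ≤ wl j := Nat.le_log_of_pow_le (by norm_num) hjq
  have hw : wl j < 2 ^ (j / 3 + 2) := by
    have h1 : wl j ≤ j := Nat.log_le_self 2 j
    exact lt_of_le_of_lt h1 (U10b_lt j)
  have hzz : 2 ^ (j / 2) ≤ zz (2 ^ j) := by
    have h1 : ((2 ^ (j / 2) : ℕ) : ℝ) ≤ √((2 ^ j : ℕ) : ℝ) := by
      apply Real.le_sqrt_of_sq_le
      rw [← Nat.cast_pow, ← pow_mul]
      exact_mod_cast Nat.pow_le_pow_right (by norm_num) (by omega)
    exact_mod_cast h1.trans z1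
  have hlt : 2 ^ (j / 3 + 2) < 2 ^ (j / 2) :=
    Nat.pow_lt_pow_right (by norm_num) (by omega)
  have hbc := (block_const j 0 q a hq hqw H (by rw [hu0]; omega)
    (fun h hh => by rw [hu0]; have := hH h hh; omega)).1
  rw [hu0] at hbc
  have hd0 := Pool.Agent.LibCI99.dlt_nonneg q a H (wl j)
  have hd1 := dlt_le_one q a hq H (wl j)
  have hG0 := GP_nonneg j 0 H
  have hG1 := GP_le_one j 0 H
  have hc0 := hlConst_nonneg q a hq H
  have hle1 : hlConst q a H * V (zz (2 ^ j)) ^ #H ≤ 1 :=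
    hbc.trans (mul_le_one₀ hd1 hG0 hG1)
  have hlog : Real.log ((2 ^ j : ℕ) : ℝ) ≤ j := by
    push_cast
    rw [Real.log_pow]
    have h1 : Real.log 2 ≤ 1 := by
      have := Real.log_two_lt_d9
      linarith
    exact mul_le_of_le_one_right (Nat.cast_nonneg _) h1
  have hlog0 : 0 ≤ Real.log ((2 ^ j : ℕ) : ℝ) := Real.log_natCast_nonneg _
  calc hlConst q a H = hlConst q a H * 1 := (mul_one _).symm
    _ ≤ hlConst q a H * (V (zz (2 ^ j)) * Real.log ((2 ^ j : ℕ) : ℝ)) ^ #H :=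
        mul_le_mul_of_nonneg_left (one_le_pow₀ z3) hc0
    _ = (hlConst q a H * V (zz (2 ^ j)) ^ #H) * Real.log ((2 ^ j : ℕ) : ℝ) ^ #H := by
        rw [mul_pow, mul_assoc]
    _ ≤ 1 * Real.log ((2 ^ j : ℕ) : ℝ) ^ #H :=
        mul_le_mul_of_nonneg_right hle1 (pow_nonneg hlog0 _)
    _ = Real.log ((2 ^ j : ℕ) : ℝ) ^ #H := one_mul _
    _ ≤ (j : ℝ) ^ #H := pow_le_pow_left₀ hlog0 hlog _

end Pool.Agent.LibUHL
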