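import Pool.Agent.LibUHL.U10

/-! Row UH 11: the law of the set made of the blocks. -/

set_option autoImplicit false

namespace Pool.Agent.LibUHL

open Finset Filter Topology MeasureTheory

open Pool.Agent.LibLin93 (V)

open Pool.Agent.LibCI99 (cnt hlConst dlt vee prim occ goodT)

private theorem U11a_TN (j : ℕ) : TB j * NB j = 2 ^ j := by
  unfold TB NB
  rw [← pow_add]
  congr 1
  omega

private theorem U11a_NB_pos (j : ℕ) : 0 < NB j := by
  unfold NB
  positivity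

private theorem U11a_block {j i n : ℕ} (hn : 2 ^ j ≤ n) :
    (n - 2 ^ j) / NB j = i ↔ u j i ≤ n ∧ n < u j i + NB j := by
  have hN := U11a_NB_pos j
  have h1 : u j i = 2 ^ j + i * NB j := rfl
  rw [h1]
  constructor
  · intro h
    subst h
    have h2 := Nat.div_mul_le_self (n - 2 ^ j) (NB j)
    have h3 := Nat.lt_div_mul_add (a := n - 2 ^ j) hN
    omega
  · rintro ⟨h2, h3⟩
    apply le_antisymm
    · apply Nat.le_of_lt_succ
      rw [Nat.div_lt_iff_lt_mul hN, Nat.succ_mul]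
      omega
    · rw [Nat.le_div_iff_mul_le hN]
      omega

private theorem U11a_ge {j i n : ℕ} (h1 : u j i ≤ n) : 2 ^ j ≤ n := by
  have h2 : u j i = 2 ^ j + i * NB j := rfl
  omega

private theorem U11a_lt {j i n : ℕ} (hi : i < TB j) (h2 : n < u j i + NB j) :
    n < 2 ^ (j + 1) := by
  have h3 : u j i = 2 ^ j + i * NB j := rfl
  have h4 : (i + 1) * NB j ≤ TB j * NB j := Nat.mul_le_mul_right _ hi
  rw [U11a_TN, Nat.add_mul, Nat.one_mul] at h4
  rw [pow_succ]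
  omega

private theorem U11a_XX {j i k n : ℕ} (h : n ∈ XX j i k) : u j i ≤ n ∧ n < u j i + NB j := by
  classical
  unfold XX at h
  exact mem_Ico.1 (Finset.mem_filter.1 h).1

/-- PROOF. The blocks `[u j i, u j i + NB j)`, `i < TB j`, are disjoint for different `(j,i)` and
`XX j i m` is contained in its block. -/
theorem mem_AA {J : ℕ} {m : ℕ → ℕ → ℕ} {j i n : ℕ} (hj : J ≤ j) (hi : i < TB j)
    (h1 : u j i ≤ n) (h2 : n < u j i + NB j) : n ∈ AA J m ↔ n ∈ XX j i (m j i) := by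
  constructor
  · rintro ⟨j', i', hj', hi', h⟩
    obtain ⟨g1, g2⟩ := U11a_XX h
    have hjj : j' = j := by
      have e1 := U11a_ge h1
      have e2 := U11a_lt hi h2
      have e3 := U11a_ge g1
      have e4 := U11a_lt hi' g2
      have e5 : j < j' + 1 := (Nat.pow_lt_pow_iff_right (by norm_num : 1 < 2)).1 (lt_of_le_of_lt e1 e4)
      have e6 : j' < j + 1 := (Nat.pow_lt_pow_iff_right (by norm_num : 1 < 2)).1 (lt_of_le_of_lt e3 e2)
      omega
    subst hjj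
    have hii : i' = i := by
      rw [← (U11a_block (U11a_ge h1)).2 ⟨h1, h2⟩, (U11a_block (U11a_ge g1)).2 ⟨g1, g2⟩]
    subst hii
    exact h
  · intro h
    exact ⟨j, i, hj, hi, h⟩

/-- PROOF. Numbers `n ≤ x` of the scale `j` (`2^j ≤ n < 2^(j+1)`), `D = 2^(j/3+2) ≥ max H`: if `n` is
in the block `i` and `n + D < u j i + NB j`, then `n + H ⊆ AA` iff `n + h ∈ XX j i (m j i)` for all
`h ∈ H` (`mem_AA`). The other `n` of the block are at most `D`. And for all `n` in the block,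
`n + H ⊆ XX j i (m j i)` implies `n + H ⊆ AA`. So the two counts differ by at most `TB j * D`. -/
theorem cnt_scale (J : ℕ) (m : ℕ → ℕ → ℕ) (j : ℕ) (hj : J ≤ j) (q a x : ℕ) (H : Finset ℕ)
    (hH : ∀ h ∈ H, h ≤ 2 ^ (j / 3 + 2)) (hx : 2 ^ j ≤ x) (hx2 : x ≤ 2 ^ (j + 1)) :
    open Classical in
    |(#{n ∈ Ico (2 ^ j) x | n ≡ a [MOD q] ∧ ∀ h ∈ H, n + h ∈ AA J m} : ℝ) -
      ∑ i ∈ range (TB j), Yc j i (m j i) x q a H| ≤ TB j * 2 ^ (j / 3 + 2) := by
  classical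
  have hN := U11a_NB_pos j
  have hcard : #{n ∈ Ico (2 ^ j) x | n ≡ a [MOD q] ∧ ∀ h ∈ H, n + h ∈ AA J m}
      = ∑ i ∈ range (TB j), #{n ∈ Ico (u j i) (u j i + NB j) | n < x ∧ n ≡ a [MOD q] ∧
        ∀ h ∈ H, n + h ∈ AA J m} := by
    rw [Finset.card_eq_sum_card_fiberwise (f := fun n => (n - 2 ^ j) / NB j) (t := range (TB j))]
    · apply Finset.sum_congr rfl
      intro i hi
      congr 1
      ext n
      simp only [mem_filter, mem_Ico]
      constructor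
      · rintro ⟨⟨⟨g1, g2⟩, g3, g4⟩, g5⟩
        exact ⟨(U11a_block g1).1 g5, g2, g3, g4⟩
      · rintro ⟨⟨g1, g2⟩, g3, g4, g5⟩
        exact ⟨⟨⟨U11a_ge g1, g3⟩, g4, g5⟩, (U11a_block (U11a_ge g1)).2 ⟨g1, g2⟩⟩
    · intro n hn
      rw [Finset.mem_coe, mem_filter, mem_Ico] at hn
      rw [Finset.mem_coe, mem_range, Nat.div_lt_iff_lt_mul hN, U11a_TN]
      have h3 := hn.1.1
      have h4 := hn.1.2
      rw [pow_succ] at hx2
      omega
  rw [hcard]
  push_cast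
  rw [← Finset.sum_sub_distrib]
  refine (Finset.abs_sum_le_sum_abs _ _).trans ?_
  have hone : ∀ i ∈ range (TB j), |(#{n ∈ Ico (u j i) (u j i + NB j) | n < x ∧ n ≡ a [MOD q] ∧
        ∀ h ∈ H, n + h ∈ AA J m} : ℝ) - Yc j i (m j i) x q a H| ≤ 2 ^ (j / 3 + 2) := by
    intro i hi
    have hi' := mem_range.1 hi
    have hYc : Yc j i (m j i) x q a H = (#{n ∈ Ico (u j i) (u j i + NB j) | n < x ∧
        n ≡ a [MOD q] ∧ ∀ h ∈ H, n + h ∈ XX j i (m j i)} : ℝ) := by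
      unfold Yc
      congr 2
    rw [hYc]
    have hsub : (Ico (u j i) (u j i + NB j)).filter (fun n => n < x ∧
        n ≡ a [MOD q] ∧ ∀ h ∈ H, n + h ∈ XX j i (m j i))
        ⊆ (Ico (u j i) (u j i + NB j)).filter (fun n => n < x ∧ n ≡ a [MOD q] ∧
        ∀ h ∈ H, n + h ∈ AA J m) := by
      intro n hn
      rw [mem_filter] at hn ⊢
      exact ⟨hn.1, hn.2.1, hn.2.2.1, fun h hh => ⟨j, i, hj, hi', hn.2.2.2 h hh⟩⟩
    have hsup : (Ico (u j i) (u j i + NB j)).filter (fun n => n < x ∧ n ≡ a [MOD q] ∧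
        ∀ h ∈ H, n + h ∈ AA J m)
        ⊆ (Ico (u j i) (u j i + NB j)).filter (fun n => n < x ∧
          n ≡ a [MOD q] ∧ ∀ h ∈ H, n + h ∈ XX j i (m j i))
        ∪ Ico (u j i + NB j - 2 ^ (j / 3 + 2)) (u j i + NB j) := by
      intro n hn
      rw [mem_filter, mem_Ico] at hn
      rw [Finset.mem_union]
      by_cases hn2 : u j i + NB j - 2 ^ (j / 3 + 2) ≤ n
      · exact Or.inr (mem_Ico.2 ⟨hn2, hn.1.2⟩)
      · left
        rw [mem_filter, mem_Ico]
        refine ⟨hn.1, hn.2.1, hn.2.2.1, fun h hh => ?_⟩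
        have h3 := hH h hh
        exact (mem_AA hj hi' (by omega) (by omega)).1 (hn.2.2.2 h hh)
    have h1 := Finset.card_le_card hsub
    have h2 := (Finset.card_le_card hsup).trans (Finset.card_union_le _ _)
    rw [Nat.card_Ico] at h2
    have h3 : #{n ∈ Ico (u j i) (u j i + NB j) | n < x ∧ n ≡ a [MOD q] ∧
        ∀ h ∈ H, n + h ∈ AA J m} ≤ #{n ∈ Ico (u j i) (u j i + NB j) | n < x ∧
        n ≡ a [MOD q] ∧ ∀ h ∈ H, n + h ∈ XX j i (m j i)} + 2 ^ (j / 3 + 2) := by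
      have h6 : u j i + NB j - (u j i + NB j - 2 ^ (j / 3 + 2)) ≤ 2 ^ (j / 3 + 2) := by
        generalize 2 ^ (j / 3 + 2) = D
        omega
      exact h2.trans (Nat.add_le_add_left h6 _)
    have h4 : (#{n ∈ Ico (u j i) (u j i + NB j) | n < x ∧ n ≡ a [MOD q] ∧
        ∀ h ∈ H, n + h ∈ AA J m} : ℝ) ≤ (#{n ∈ Ico (u j i) (u j i + NB j) | n < x ∧
        n ≡ a [MOD q] ∧ ∀ h ∈ H, n + h ∈ XX j i (m j i)} : ℝ) + 2 ^ (j / 3 + 2) := by
      exact_mod_cast h3
    have h5 : (#{n ∈ Ico (u j i) (u j i + NB j) | n < x ∧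
        n ≡ a [MOD q] ∧ ∀ h ∈ H, n + h ∈ XX j i (m j i)} : ℝ)
        ≤ (#{n ∈ Ico (u j i) (u j i + NB j) | n < x ∧ n ≡ a [MOD q] ∧
        ∀ h ∈ H, n + h ∈ AA J m} : ℝ) := by
      exact_mod_cast h1
    rw [abs_of_nonneg (by linarith)]
    linarith
  refine (Finset.sum_le_sum hone).trans (le_of_eq ?_)
  rw [Finset.sum_const, card_range, nsmul_eq_mul]

private theorem u11b_int (k : ℕ) (a b : ℝ) (ha : 2 ≤ a) (hb : 2 ≤ b) :
    IntervalIntegrable (fun t : ℝ => 1 / Real.log t ^ k) volume a b := by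
  apply ContinuousOn.intervalIntegrable
  intro t ht
  have ht1 : 2 ≤ t := by
    rcases le_total a b with h | h
    · rw [Set.uIcc_of_le h] at ht; linarith [ht.1]
    · rw [Set.uIcc_of_ge h] at ht; linarith [ht.1]
  apply ContinuousAt.continuousWithinAt
  have hlog : Real.log t ^ k ≠ 0 := pow_ne_zero _ (Real.log_pos (by linarith)).ne'
  exact ContinuousAt.div continuousAt_const ((Real.continuousAt_log (by linarith)).pow k) hlog

private theorem u11b_bound (k : ℕ) (a b : ℝ) (ha : 2 ≤ a) (hab : a ≤ b) :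
    0 ≤ (∫ t in a..b, 1 / Real.log t ^ k) ∧ (∫ t in a..b, 1 / Real.log t ^ k) ≤ 2 ^ k * (b - a) := by
  have hl : ∀ t : ℝ, a ≤ t → (1 / 2 : ℝ) ≤ Real.log t := by
    intro t ht
    have h1 : Real.log 2 ≤ Real.log t := Real.log_le_log (by norm_num) (by linarith)
    have h2 := Real.log_two_gt_d9
    linarith
  constructor
  · apply intervalIntegral.integral_nonneg hab
    intro t ht
    have := hl t ht.1
    positivity
  · have h1 : (∫ t in a..b, 1 / Real.log t ^ k) ≤ ∫ t in a..b, (2 : ℝ) ^ k := by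
      apply intervalIntegral.integral_mono_on hab (u11b_int k a b ha (by linarith)) intervalIntegrable_const
      intro t ht
      have h2 := hl t ht.1
      have h3 : (1 / 2 : ℝ) ^ k ≤ Real.log t ^ k := pow_le_pow_left₀ (by norm_num) h2 k
      calc 1 / Real.log t ^ k ≤ 1 / (1 / 2 : ℝ) ^ k := one_div_le_one_div_of_le (by positivity) h3
        _ = 2 ^ k := by rw [div_pow, one_pow, one_div_one_div]
    rw [intervalIntegral.integral_const, smul_eq_mul] at h1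
    linarith

private theorem u11b_ev (d : ℝ) (hd : d < 1) : ∀ᶠ y : ℝ in atTop, 10 ≤ y ∧ y ^ d ≤ y / 100 ∧
    y ^ d * Real.log (4 * y) ≤ y / 100 ∧ 12 * (2 * y + 1) ≤ Real.exp (y / 100) ∧
    6 ≤ Real.exp (7 * y / 400) := by
  have h1 : ∀ᶠ y : ℝ in atTop, y ^ d ≤ y / 100 := by
    have h0 := (tendsto_rpow_neg_atTop (show 0 < 1 - d by linarith)).eventually
      (ge_mem_nhds (show (0 : ℝ) < 1 / 100 by norm_num))
    filter_upwards [h0, eventually_ge_atTop 1] with y hy hy1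
    have hy0 : 0 < y := by linarith
    calc y ^ d = y ^ (-(1 - d)) * y ^ (1 : ℝ) := by rw [← Real.rpow_add hy0]; congr 1; ring
      _ = y ^ (-(1 - d)) * y := by rw [Real.rpow_one]
      _ ≤ 1 / 100 * y := mul_le_mul_of_nonneg_right hy hy0.le
      _ = y / 100 := by ring
  have h2 : ∀ᶠ y : ℝ in atTop, y ^ d * Real.log (4 * y) ≤ y / 100 := by
    have he : 0 < (1 - d) / 2 := by linarith
    have := (isLittleO_log_rpow_atTop he).bound (show (0 : ℝ) < 1 / 200 by norm_num)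
    filter_upwards [this, eventually_ge_atTop 4] with y hy hy1
    have hy0 : 0 < y := by linarith
    have hlog : 0 ≤ Real.log y := Real.log_nonneg (by linarith)
    rw [Real.norm_of_nonneg hlog, Real.norm_of_nonneg (by positivity)] at hy
    have h3 : Real.log (4 * y) ≤ 2 * Real.log y := by
      rw [Real.log_mul (by norm_num) hy0.ne']
      have := Real.log_le_log (by norm_num) hy1
      linarith
    have h4 : y ^ d * y ^ ((1 - d) / 2) ≤ y := by
      rw [← Real.rpow_add hy0]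
      calc y ^ (d + (1 - d) / 2) ≤ y ^ (1 : ℝ) := Real.rpow_le_rpow_of_exponent_le (by linarith) (by linarith)
        _ = y := Real.rpow_one y
    have h5 : 0 ≤ y ^ d := by positivity
    calc y ^ d * Real.log (4 * y) ≤ y ^ d * (1 / 100 * y ^ ((1 - d) / 2)) :=
          mul_le_mul_of_nonneg_left (by linarith) h5
      _ = 1 / 100 * (y ^ d * y ^ ((1 - d) / 2)) := by ring
      _ ≤ 1 / 100 * y := by linarith
      _ = y / 100 := by ring
  have h3 : ∀ᶠ y : ℝ in atTop, 12 * (2 * y + 1) ≤ Real.exp (y / 100) := by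
    filter_upwards [eventually_ge_atTop 10000000] with y hy
    have h4 := Real.quadratic_le_exp_of_nonneg (show 0 ≤ y / 100 by linarith)
    nlinarith
  have h4 : ∀ᶠ y : ℝ in atTop, 6 ≤ Real.exp (7 * y / 400) := by
    filter_upwards [eventually_ge_atTop 1000] with y hy
    have h5 := Real.add_one_le_exp (7 * y / 400)
    linarith
  filter_upwards [eventually_ge_atTop 10, h1, h2, h3, h4] with y a b c e f
  exact ⟨a, b, c, e, f⟩

private theorem u11b_cons (g : ℕ → ℝ) (c : ℝ) (f : ℝ → ℝ) (hf : ∀ a b : ℝ, 2 ≤ a → 2 ≤ b → IntervalIntegrable f volume a b)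
    (j0 r : ℕ) (hj0 : 1 ≤ j0) (E : ℝ)
    (h : ∀ j, j0 ≤ j → j < r → |∑ n ∈ Ico (2 ^ j) (2 ^ (j + 1)), g n - c * ∫ t in ((2 ^ j : ℕ) : ℝ)..((2 ^ (j + 1) : ℕ) : ℝ), f t| ≤ E)
    (s : ℕ) (hs : j0 ≤ s) (hsr : s ≤ r) :
    |∑ n ∈ Ico (2 ^ j0) (2 ^ s), g n - c * ∫ t in ((2 ^ j0 : ℕ) : ℝ)..((2 ^ s : ℕ) : ℝ), f t| ≤ (s - j0 : ℝ) * E := by
  have h2 : ∀ j, 1 ≤ j → (2 : ℝ) ≤ ((2 ^ j : ℕ) : ℝ) := by
    intro j hj
    have : 2 ^ 1 ≤ 2 ^ j := Nat.pow_le_pow_right (by norm_num) hj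
    exact_mod_cast this
  induction s, hs using Nat.le_induction with
  | base => simp
  | succ s hs ih =>
    have ih' := ih (by omega)
    have h1 := h s hs (by omega)
    have e1 : ∑ n ∈ Ico (2 ^ j0) (2 ^ (s + 1)), g n =
        ∑ n ∈ Ico (2 ^ j0) (2 ^ s), g n + ∑ n ∈ Ico (2 ^ s) (2 ^ (s + 1)), g n :=
      (Finset.sum_Ico_consecutive g (Nat.pow_le_pow_right (by norm_num) hs)
        (Nat.pow_le_pow_right (by norm_num) (by omega))).symm
    have e2 : ∫ t in ((2 ^ j0 : ℕ) : ℝ)..((2 ^ (s + 1) : ℕ) : ℝ), f t =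
        (∫ t in ((2 ^ j0 : ℕ) : ℝ)..((2 ^ s : ℕ) : ℝ), f t) + ∫ t in ((2 ^ s : ℕ) : ℝ)..((2 ^ (s + 1) : ℕ) : ℝ), f t :=
      (intervalIntegral.integral_add_adjacent_intervals (hf _ _ (h2 _ hj0) (h2 _ (by omega)))
        (hf _ _ (h2 _ (by omega)) (h2 _ (by omega)))).symm
    rw [e1, e2]
    have e3 : ∀ a b p q : ℝ, (a + b) - c * (p + q) = (a - c * p) + (b - c * q) := by intros; ring
    rw [e3]
    refine (abs_add_le _ _).trans ?_
    push_cast at ih' h1 ⊢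
    linarith

/-- THE LAW OF `AA`. PROOF. Let `x` be large, `r = Nat.log 2 x`, `j₀ = ⌈3 r/4⌉ = (3 r + 3)/4`,
`k = #H ≤ (log x)^d ≤ j` for all `j ≥ j₀` (as `d < 1`), `h ≤ x^(1/4) ≤ 2^((r+1)/4) ≤ 2^(j/3+2)` for
`j ≥ j₀`. Split the `n ∈ [1, x]` into `n < 2^j₀` (at most `2^j₀` numbers), the scales
`j₀ ≤ j < r` and `[2^r, x+1)`. For the scales use `cnt_scale`, the hypothesis and `scale_main`
(`x' = 2^(j+1)` resp. `x + 1`): the count is `c ∫_{2^j}^{x'} 1/log^k` up to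
`2 * 2^j/2^(j/20) + TB j * 2^(j/3+2) ≤ 4 * 2^j / 2^(j/20)`. Summed over `j ≤ r`: at most
`8 * 2^r * 2^(1 - j₀/20) ≤ x^(1 - 1/40)` for large `x`. The integral: `c ∫_2^{2^j₀} 1/log^k ≤
r^k 2^j₀ / (log 2)^k ≤ 2^j₀ exp ((log x)^d (log r + 1)) ≤ x^(9/10)` (`hlConst_le` at `j = r`), and
`c ∫_x^{x+1} 1/log^k ≤ (r / log x)^k ≤ 2^k`, `≤ x^(1/10)`. The sum of all errors is
`≤ x exp (-(log x)^d)` for large `x`, because `d < 1`. -/
theorem law_AA (J : ℕ) (m : ℕ → ℕ → ℕ)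
    (hm : ∀ j, J ≤ j → ∀ (H : Finset ℕ) (q a x : ℕ), (∀ h ∈ H, h ≤ 2 ^ (j / 3 + 2)) → #H ≤ j →
      0 < q → q ≤ j → x ≤ 2 ^ (j + 1) →
        |∑ i ∈ range (TB j), Yc j i (m j i) x q a H - ∑ i ∈ range (TB j), Mn j i x q a H| ≤
          (2 : ℝ) ^ j / 2 ^ (j / 20))
    (d : ℝ) (hd : d < 1) : UHL d (AA J m) := by
  classical
  intro q hq
  obtain ⟨N1, hN1⟩ := eventually_atTop.1 (scale_main q hq)
  obtain ⟨N2, hN2⟩ := eventually_atTop.1 (hlConst_le q hq)
  have hlogt : Tendsto (fun x : ℕ => Real.log (x : ℝ)) atTop atTop :=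
    Real.tendsto_log_atTop.comp tendsto_natCast_atTop_atTop
  set M : ℕ := 2 * (N1 + N2 + J + q + 10) with hM
  filter_upwards [hlogt.eventually (u11b_ev d hd), eventually_ge_atTop (2 ^ M)] with x hx hxM
  obtain ⟨hy10, hy1, hy2, hy3, hy4⟩ := hx
  intro a H hH hHc
  set y : ℝ := Real.log x with hy
  set k : ℕ := #H with hk
  set r : ℕ := Nat.log 2 x with hr
  set j0 : ℕ := (3 * r + 3) / 4 with hj0
  have hx0 : x ≠ 0 := by
    have : 0 < 2 ^ M := by positivity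
    omega
  have hxR : (0 : ℝ) < x := by exact_mod_cast Nat.pos_of_ne_zero hx0
  have hr1 : 2 ^ r ≤ x := Nat.pow_log_le_self 2 hx0
  have hr2 : x < 2 ^ (r + 1) := Nat.lt_pow_succ_log_self (by norm_num) x
  have hMr : M ≤ r := Nat.le_log_of_pow_le (by norm_num) hxM
  have hr20 : 20 ≤ r := by omega
  have hjj : N1 + N2 + J + q + 6 ≤ j0 := by omega
  have hlog2 := Real.log_two_gt_d9
  have hlog2' := Real.log_two_lt_d9
  -- relation between r and y
  have hry1 : (r : ℝ) * Real.log 2 ≤ y := by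
    have h1 : ((2 : ℝ) ^ r) ≤ x := by exact_mod_cast hr1
    have h2 := Real.log_le_log (by positivity) h1
    rwa [Real.log_pow] at h2
  have hry2 : y ≤ ((r : ℝ) + 1) * Real.log 2 := by
    have h1 : (x : ℝ) ≤ (2 : ℝ) ^ (r + 1) := by exact_mod_cast hr2.le
    have h2 := Real.log_le_log hxR h1
    rw [Real.log_pow] at h2
    push_cast at h2
    exact h2
  have hr0 : (0 : ℝ) ≤ r := Nat.cast_nonneg _
  have hr2y : (r : ℝ) ≤ 2 * y := by nlinarith
  have hyr : y ≤ r + 1 := by nlinarith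
  have hj0R : (3 * (r : ℝ)) / 4 ≤ j0 := by
    have : 3 * r ≤ 4 * j0 := by omega
    have : (3 * (r : ℝ)) ≤ 4 * j0 := by exact_mod_cast this
    linarith
  have hj0R2 : (4 : ℝ) * j0 ≤ 3 * r + 3 := by
    have : 4 * j0 ≤ 3 * r + 3 := by omega
    exact_mod_cast this
  -- k ≤ j for j ≥ j0
  have hkj : k ≤ j0 := by
    have : (k : ℝ) ≤ j0 := by linarith
    exact_mod_cast this
  -- H bound
  have hHb : ∀ j, j0 ≤ j → ∀ h ∈ H, h ≤ 2 ^ (j / 3 + 2) := by
    intro j hj h hh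
    have h1 := hH h hh
    have h2 : (h : ℝ) ^ 4 ≤ x := by
      calc (h : ℝ) ^ 4 ≤ ((x : ℝ) ^ (1 / 4 : ℝ)) ^ 4 := pow_le_pow_left₀ (Nat.cast_nonneg _) h1 4
        _ = x := by
          rw [← Real.rpow_natCast, ← Real.rpow_mul hxR.le]
          norm_num
    have h3 : h ^ 4 ≤ x := by exact_mod_cast h2
    by_contra hcon
    push Not at hcon
    have h4 : (2 ^ (j / 3 + 2)) ^ 4 < h ^ 4 := Nat.pow_lt_pow_left hcon (by norm_num)
    have h5 : 2 ^ (r + 1) ≤ (2 ^ (j / 3 + 2)) ^ 4 := by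
      rw [← pow_mul]
      exact Nat.pow_le_pow_right (by norm_num) (by omega)
    omega
  set c : ℝ := hlConst q a H with hc
  have hc0 : 0 ≤ c := hlConst_nonneg q a hq H
  have hcr : c ≤ (r : ℝ) ^ k := hN2 r (by omega) a H (hHb r (by omega))
  set f : ℝ → ℝ := fun t => 1 / Real.log t ^ k with hf
  set g : ℕ → ℝ := fun n => if n ≡ a [MOD q] ∧ ∀ h ∈ H, n + h ∈ AA J m then (1 : ℝ) else 0 with hg
  set E : ℝ := 3 * (2 ^ r / 2 ^ (j0 / 20)) with hE
  -- one scale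
  have hscale : ∀ j, j0 ≤ j → j ≤ r → ∀ x', 2 ^ j ≤ x' → x' ≤ 2 ^ (j + 1) →
      |∑ n ∈ Ico (2 ^ j) x', g n - c * ∫ t in ((2 ^ j : ℕ) : ℝ)..(x' : ℝ), f t| ≤ E := by
    intro j hj hjr x' hx1 hx2
    have e1 := cnt_scale J m j (by omega) q a x' H (hHb j hj) hx1 hx2
    have e2 := hm j (by omega) H q a x' (hHb j hj) (by omega) hq (by omega) hx2
    have e3 := hN1 j (by omega) a H (hHb j hj) (by omega) x' hx1 hx2
    have e4 : ∑ n ∈ Ico (2 ^ j) x', g n =
        (#{n ∈ Ico (2 ^ j) x' | n ≡ a [MOD q] ∧ ∀ h ∈ H, n + h ∈ AA J m} : ℝ) := by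
      rw [hg, Finset.sum_boole]
    rw [← e4] at e1
    have e5 : ((TB j : ℕ) : ℝ) * 2 ^ (j / 3 + 2) ≤ 2 ^ j / 2 ^ (j / 20) := by
      rw [le_div_iff₀ (by positivity)]
      unfold TB
      push_cast
      rw [← pow_add, ← pow_add]
      exact pow_le_pow_right₀ (by norm_num) (by omega)
    have e6 : (2 : ℝ) ^ j / 2 ^ (j / 20) ≤ 2 ^ r / 2 ^ (j0 / 20) := by
      apply div_le_div₀ (by positivity) (pow_le_pow_right₀ (by norm_num) hjr) (by positivity)
      exact pow_le_pow_right₀ (by norm_num) (by omega)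
    have e7 : ∀ A B C D : ℝ, A - D = (A - B) + (B - C) + (C - D) := by intros; ring
    rw [e7 _ (∑ i ∈ range (TB j), Yc j i (m j i) x' q a H) (∑ i ∈ range (TB j), Mn j i x' q a H) _]
    refine (abs_add_le _ _).trans ((add_le_add (abs_add_le _ _) le_rfl).trans ?_)
    rw [hE]
    linarith
  have hcons := u11b_cons g c f (fun a b ha hb => u11b_int k a b ha hb) j0 r (by omega) E
    (fun j h1 h2 => hscale j h1 h2.le _ (Nat.pow_le_pow_right (by norm_num) (by omega)) le_rfl) r (by omega) le_rfl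
  have hlast := hscale r (by omega) le_rfl (x + 1) (by omega) (by omega)
  -- the count
  have hcnt : cnt (AA J m) H q a x = ∑ n ∈ Ico 1 (2 ^ j0), g n + ∑ n ∈ Ico (2 ^ j0) (2 ^ r), g n +
      ∑ n ∈ Ico (2 ^ r) (x + 1), g n := by
    have h1 : 2 ^ j0 ≤ 2 ^ r := Nat.pow_le_pow_right (by norm_num) (by omega)
    have h2 : 1 ≤ 2 ^ j0 := Nat.one_le_two_pow
    rw [Finset.sum_Ico_consecutive g h2 h1, Finset.sum_Ico_consecutive g (by omega) (by omega)]
    unfold Pool.Agent.LibCI99.cnt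
    rw [hg, Finset.sum_boole]
    have : Finset.Icc 1 x = Finset.Ico 1 (x + 1) := by
      ext n; simp only [Finset.mem_Icc, Finset.mem_Ico]; omega
    rw [this]
  have hpow2 : ∀ j, 1 ≤ j → (2 : ℝ) ≤ ((2 ^ j : ℕ) : ℝ) := by
    intro j hj
    have : 2 ^ 1 ≤ 2 ^ j := Nat.pow_le_pow_right (by norm_num) hj
    exact_mod_cast this
  have hx2R : (2 : ℝ) ≤ x := by
    have := hpow2 r (by omega)
    have h2 : ((2 ^ r : ℕ) : ℝ) ≤ x := by exact_mod_cast hr1
    linarith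
  have hI : (∫ t in (2 : ℝ)..x, f t) = (∫ t in (2 : ℝ)..((2 ^ j0 : ℕ) : ℝ), f t) +
      (∫ t in ((2 ^ j0 : ℕ) : ℝ)..((2 ^ r : ℕ) : ℝ), f t) +
      (∫ t in ((2 ^ r : ℕ) : ℝ)..((x + 1 : ℕ) : ℝ), f t) - ∫ t in (x : ℝ)..((x + 1 : ℕ) : ℝ), f t := by
    have hxx : (2 : ℝ) ≤ ((x + 1 : ℕ) : ℝ) := by push_cast; linarith
    have i1 := intervalIntegral.integral_add_adjacent_intervals (u11b_int k 2 _ le_rfl (hpow2 j0 (by omega)))
        (u11b_int k _ _ (hpow2 j0 (by omega)) (hpow2 r (by omega)))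
    have i2 := intervalIntegral.integral_add_adjacent_intervals (u11b_int k 2 _ le_rfl (hpow2 r (by omega)))
        (u11b_int k _ _ (hpow2 r (by omega)) hxx)
    have i3 := intervalIntegral.integral_add_adjacent_intervals (u11b_int k 2 _ le_rfl hx2R)
        (u11b_int k _ _ hx2R hxx)
    rw [← hf] at i1 i2 i3
    linarith
  obtain ⟨p1, p2⟩ := u11b_bound k 2 ((2 ^ j0 : ℕ) : ℝ) le_rfl (hpow2 j0 (by omega))
  obtain ⟨p3, p4⟩ := u11b_bound k x ((x + 1 : ℕ) : ℝ) hx2R (by push_cast; linarith)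
  rw [← hf] at p1 p2 p3 p4
  have hs1 : 0 ≤ ∑ n ∈ Ico 1 (2 ^ j0), g n := by
    apply Finset.sum_nonneg
    intro n _
    rw [hg]; positivity
  have hs2 : ∑ n ∈ Ico 1 (2 ^ j0), g n ≤ (2 : ℝ) ^ j0 := by
    have h1 : ∑ n ∈ Ico 1 (2 ^ j0), g n ≤ ∑ n ∈ Ico 1 (2 ^ j0), (1 : ℝ) := by
      apply Finset.sum_le_sum
      intro n _
      rw [hg]
      dsimp only
      split_ifs <;> norm_num
    rw [Finset.sum_const, Nat.card_Ico, nsmul_eq_mul, mul_one] at h1
    refine h1.trans ?_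
    have : 2 ^ j0 - 1 ≤ 2 ^ j0 := Nat.sub_le _ _
    exact_mod_cast this
  -- abbreviations
  have hr1' : (1 : ℝ) ≤ r := by exact_mod_cast (by omega : 1 ≤ r)
  have hrk : (0 : ℝ) ≤ (r : ℝ) ^ k := by positivity
  set K : ℝ := (2 * (r : ℝ)) ^ k with hK
  have hKeq : (r : ℝ) ^ k * 2 ^ k = K := by rw [hK, mul_pow]; ring
  have hKle : K ≤ Real.exp (y / 100) := by
    have h2r : (0 : ℝ) < 2 * r := by linarith
    have h1 : K = Real.exp (k * Real.log (2 * r)) := by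
      rw [hK, ← Real.log_pow, Real.exp_log (by positivity)]
    rw [h1]
    apply Real.exp_le_exp.2
    have h3 : 0 ≤ Real.log (2 * r) := Real.log_nonneg (by linarith)
    have h4 : Real.log (2 * r) ≤ Real.log (4 * y) := Real.log_le_log h2r (by linarith)
    calc (k : ℝ) * Real.log (2 * r) ≤ y ^ d * Real.log (4 * y) :=
          mul_le_mul hHc h4 h3 ((Nat.cast_nonneg _).trans hHc)
      _ ≤ y / 100 := hy2
  have hK0 : 0 ≤ K := by positivity
  have b1 : c * (∫ t in (2 : ℝ)..((2 ^ j0 : ℕ) : ℝ), f t) ≤ K * 2 ^ j0 := by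
    have h1 : (∫ t in (2 : ℝ)..((2 ^ j0 : ℕ) : ℝ), f t) ≤ 2 ^ k * 2 ^ j0 := by
      refine p2.trans (mul_le_mul_of_nonneg_left ?_ (by positivity))
      push_cast; linarith
    calc c * (∫ t in (2 : ℝ)..((2 ^ j0 : ℕ) : ℝ), f t) ≤ (r : ℝ) ^ k * (2 ^ k * 2 ^ j0) :=
          mul_le_mul hcr h1 p1 hrk
      _ = K * 2 ^ j0 := by rw [← hKeq]; ring
  have b1' : 0 ≤ c * (∫ t in (2 : ℝ)..((2 ^ j0 : ℕ) : ℝ), f t) := mul_nonneg hc0 p1
  have b2 : c * (∫ t in (x : ℝ)..((x + 1 : ℕ) : ℝ), f t) ≤ K := by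
    have h1 : (∫ t in (x : ℝ)..((x + 1 : ℕ) : ℝ), f t) ≤ 2 ^ k := by
      refine p4.trans ?_
      push_cast
      rw [add_sub_cancel_left, mul_one]
    calc c * (∫ t in (x : ℝ)..((x + 1 : ℕ) : ℝ), f t) ≤ (r : ℝ) ^ k * 2 ^ k :=
          mul_le_mul hcr h1 p3 hrk
      _ = K := hKeq
  have b2' : 0 ≤ c * (∫ t in (x : ℝ)..((x + 1 : ℕ) : ℝ), f t) := mul_nonneg hc0 p3
  -- exponentials
  have c1 : (2 : ℝ) ^ j0 ≤ 2 * Real.exp (3 * y / 4) := by
    have h1 : (2 : ℝ) ^ j0 = Real.exp (j0 * Real.log 2) := by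
      rw [← Real.log_pow, Real.exp_log (by positivity)]
    have h2 : 2 * Real.exp (3 * y / 4) = Real.exp (Real.log 2 + 3 * y / 4) := by
      rw [Real.exp_add, Real.exp_log (by norm_num)]
    rw [h1, h2]
    apply Real.exp_le_exp.2
    nlinarith
  have c2 : (2 : ℝ) ^ r ≤ Real.exp y := by
    have : (2 : ℝ) ^ r ≤ x := by exact_mod_cast hr1
    rw [hy, Real.exp_log hxR]
    exact this
  have c3 : Real.exp (3 * y / 80) ≤ 4 * (2 : ℝ) ^ (j0 / 20) := by
    have h1 : 4 * (2 : ℝ) ^ (j0 / 20) = Real.exp (((j0 / 20 : ℕ) : ℝ) * Real.log 2 + 2 * Real.log 2) := by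
      rw [Real.exp_add, ← Real.log_pow, Real.exp_log (by positivity)]
      have : 2 * Real.log 2 = Real.log 4 := by
        rw [show (4 : ℝ) = 2 ^ 2 by norm_num, Real.log_pow]; norm_num
      rw [this, Real.exp_log (by norm_num)]; ring
    rw [h1]
    apply Real.exp_le_exp.2
    have h2 : 3 * r ≤ 80 * (j0 / 20) + 76 := by omega
    have h3 : 3 * (r : ℝ) ≤ 80 * ((j0 / 20 : ℕ) : ℝ) + 76 := by exact_mod_cast h2
    nlinarith
  have c4 : E ≤ 12 * Real.exp (77 * y / 80) := by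
    have h1 : (2 : ℝ) ^ r / 2 ^ (j0 / 20) ≤ 4 * Real.exp (77 * y / 80) := by
      rw [div_le_iff₀ (by positivity)]
      calc (2 : ℝ) ^ r ≤ Real.exp y := c2
        _ = Real.exp (77 * y / 80) * Real.exp (3 * y / 80) := by rw [← Real.exp_add]; congr 1; ring
        _ ≤ Real.exp (77 * y / 80) * (4 * (2 : ℝ) ^ (j0 / 20)) := mul_le_mul_of_nonneg_left c3 (Real.exp_pos _).le
        _ = 4 * Real.exp (77 * y / 80) * 2 ^ (j0 / 20) := by ring
    rw [hE]; linarith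
  have hEpos : 0 ≤ E := by rw [hE]; positivity
  -- assemble
  have hmain : |cnt (AA J m) H q a x - c * ∫ t in (2 : ℝ)..x, f t| ≤
      2 ^ j0 + K * 2 ^ j0 + K + (r + 1) * E := by
    rw [hcnt, hI]
    have hj0n : (0 : ℝ) ≤ (j0 : ℝ) := Nat.cast_nonneg _
    have hc' : (r - j0 : ℝ) * E ≤ r * E := mul_le_mul_of_nonneg_right (by linarith) hEpos
    have hcons' := abs_le.1 hcons
    have hlast' := abs_le.1 hlast
    rw [abs_le]
    constructor
    · nlinarith [hcons'.1, hlast'.1]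
    · nlinarith [hcons'.2, hlast'.2]
  refine hmain.trans ?_
  have hxy : (x : ℝ) = Real.exp y := by rw [hy, Real.exp_log hxR]
  rw [hxy]
  have z1 : Real.exp (3 * y / 4) ≤ Real.exp (389 * y / 400) := Real.exp_le_exp.2 (by linarith)
  have z2 : K * 2 ^ j0 ≤ 2 * Real.exp (389 * y / 400) := by
    calc K * 2 ^ j0 ≤ Real.exp (y / 100) * (2 * Real.exp (3 * y / 4)) :=
          mul_le_mul hKle c1 (by positivity) (Real.exp_pos _).le
      _ = 2 * Real.exp (y / 100 + 3 * y / 4) := by rw [Real.exp_add]; ring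
      _ ≤ 2 * Real.exp (389 * y / 400) :=
        mul_le_mul_of_nonneg_left (Real.exp_le_exp.2 (by linarith)) (by norm_num)
  have z3 : K ≤ Real.exp (389 * y / 400) := hKle.trans (Real.exp_le_exp.2 (by linarith))
  have z4 : (r + 1) * E ≤ Real.exp (389 * y / 400) := by
    calc ((r : ℝ) + 1) * E ≤ (2 * y + 1) * (12 * Real.exp (77 * y / 80)) :=
          mul_le_mul (by linarith) c4 hEpos (by linarith)
      _ = (12 * (2 * y + 1)) * Real.exp (77 * y / 80) := by ring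
      _ ≤ Real.exp (y / 100) * Real.exp (77 * y / 80) := mul_le_mul_of_nonneg_right hy3 (Real.exp_pos _).le
      _ = Real.exp (389 * y / 400) := by rw [← Real.exp_add]; congr 1; ring
  have z5 : 6 * Real.exp (389 * y / 400) ≤ Real.exp (99 * y / 100) := by
    calc 6 * Real.exp (389 * y / 400) ≤ Real.exp (7 * y / 400) * Real.exp (389 * y / 400) :=
          mul_le_mul_of_nonneg_right hy4 (Real.exp_pos _).le
      _ = Real.exp (99 * y / 100) := by rw [← Real.exp_add]; congr 1; ring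
  have z6 : Real.exp (99 * y / 100) ≤ Real.exp y * Real.exp (-(y ^ d)) := by
    rw [← Real.exp_add]
    exact Real.exp_le_exp.2 (by linarith)
  linarith

end Pool.Agent.LibUHL
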