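import Pool.Agent.LibUHL.Defs

/-! Row UH 12: changing a thin set. -/

set_option autoImplicit false

namespace Pool.Agent.LibUHL

open Finset Filter Topology MeasureTheory

open Pool.Agent.LibLin93 (V)

open Pool.Agent.LibCI99 (cnt hlConst dlt vee prim occ goodT)

/-- PROOF. If `n + H ⊆ A` but not `⊆ B` or vice versa, some `n + h` is in the symmetric difference;
for each `h` the number of the `n ∈ [1,x]` with `n + h` in the symmetric difference is at most its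
number of elements `≤ x + M`, `M ≥ max H`. -/
theorem cnt_modify (A B : Set ℕ) (H : Finset ℕ) (q a x M : ℕ) (hM : ∀ h ∈ H, h ≤ M) :
    open Classical in
    |cnt A H q a x - cnt B H q a x| ≤ #H * (#{n ∈ Icc 1 (x + M) | ¬ (n ∈ A ↔ n ∈ B)} : ℝ) := by
  classical
  obtain ⟨U, hU⟩ : ∃ U : Finset ℕ, U = H.biUnion fun h =>
    (Icc 1 x).filter (fun n => ¬ (n + h ∈ A ↔ n + h ∈ B)) := ⟨_, rfl⟩
  have hUc : (U.card : ℝ) ≤ #H * (#{n ∈ Icc 1 (x + M) | ¬ (n ∈ A ↔ n ∈ B)} : ℝ) := by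
    have h1 : U.card ≤ H.card * #{n ∈ Icc 1 (x + M) | ¬ (n ∈ A ↔ n ∈ B)} := by
      rw [hU]
      refine Finset.card_biUnion_le_card_mul _ _ _ fun h hh => ?_
      refine Finset.card_le_card_of_injOn (fun n => n + h) ?_ ?_
      · intro n hn
        have hn' := Finset.mem_filter.1 (Finset.mem_coe.1 hn)
        have h2 := Finset.mem_Icc.1 hn'.1
        have h3 := hM h hh
        refine Finset.mem_coe.2 (Finset.mem_filter.2 ⟨Finset.mem_Icc.2 ⟨?_, ?_⟩, hn'.2⟩)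
        · show 1 ≤ n + h
          omega
        · show n + h ≤ x + M
          omega
      · intro n _ n' _ hnn
        have : n + h = n' + h := hnn
        omega
    exact_mod_cast h1
  have key : ∀ A' B' : Set ℕ, (∀ n, ¬ (n ∈ A' ↔ n ∈ B') → ¬ (n ∈ A ↔ n ∈ B)) →
      cnt A' H q a x ≤ cnt B' H q a x + U.card := by
    intro A' B' hAB
    unfold cnt
    have h1 : ((Finset.Icc 1 x).filter (fun n => n ≡ a [MOD q] ∧ ∀ h ∈ H, n + h ∈ A')) ⊆
        ((Finset.Icc 1 x).filter (fun n => n ≡ a [MOD q] ∧ ∀ h ∈ H, n + h ∈ B')) ∪ U := by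
      intro n hn
      obtain ⟨h2, h3, h4⟩ := Finset.mem_filter.1 hn
      by_cases hB : ∀ h ∈ H, n + h ∈ B'
      · exact Finset.mem_union_left _ (Finset.mem_filter.2 ⟨h2, h3, hB⟩)
      · push Not at hB
        obtain ⟨h, hh, hnb⟩ := hB
        refine Finset.mem_union_right _ ?_
        rw [hU]
        refine Finset.mem_biUnion.2 ⟨h, hh, Finset.mem_filter.2 ⟨h2, hAB _ fun hc => ?_⟩⟩
        exact hnb (hc.1 (h4 h hh))
    have h5 := (Finset.card_le_card h1).trans (Finset.card_union_le _ _)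
    exact_mod_cast h5
  have k1 := key A B fun n h => h
  have k2 := key B A fun n h hc => h hc.symm
  rw [abs_le]
  constructor
  · linarith
  · linarith

theorem uh12_two_mul {d d' : ℝ} (h : d < d') : ∀ᶠ L : ℝ in atTop, 2 * L ^ d ≤ L ^ d' := by
  have h1 := (tendsto_rpow_atTop (show 0 < d' - d by linarith)).eventually_ge_atTop 2
  filter_upwards [h1, eventually_gt_atTop 0] with L h2 h3
  have h4 : L ^ d' = L ^ (d' - d) * L ^ d := by
    rw [← Real.rpow_add h3]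
    congr 1
    ring
  rw [h4]
  exact mul_le_mul_of_nonneg_right h2 (Real.rpow_nonneg h3.le _)

theorem uh12_pow_exp (d : ℝ) {d' : ℝ} (h : 0 < d') :
    ∀ᶠ L : ℝ in atTop, 2 * L ^ d ≤ Real.exp (L ^ d') := by
  have h1 : ∀ᶠ y : ℝ in atTop, ‖y ^ (d / d')‖ ≤ (1 / 2) * ‖Real.exp y‖ :=
    (isLittleO_rpow_exp_atTop (d / d')).def (by norm_num)
  have h2 := (tendsto_rpow_atTop h).eventually h1
  filter_upwards [h2, eventually_gt_atTop 0] with L h3 h4
  rw [← Real.rpow_mul h4.le, mul_div_cancel₀ _ h.ne', Real.norm_eq_abs, Real.norm_eq_abs,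
    abs_of_nonneg (Real.rpow_nonneg h4.le _), abs_of_pos (Real.exp_pos _)] at h3
  linarith

open Classical in
/-- PROOF. Let `d < c` and `d < d' < c`, `d'' ` between, all `> 0` w.l.o.g. (if `d ≤ 0` use the law
for a positive exponent `d₂ ∈ (0, c)`: `(log x)^d ≤ (log x)^d₂` for `x ≥ 3`, so `UHL d₂ A` implies
`UHL d A`). `M = ⌊x^(1/4)⌋ ≤ x`. By `cnt_modify` and `h` at `2x` for `d'`:
`|cnt A - cnt B| ≤ (log x)^d * 2x exp (-(log (2x))^d') ≤ x exp (-(log x)^d'')`, and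
`hA d''`: the error for `A` is `≤ x exp (-(log x)^d'')`; `2 exp (-(log x)^d'') ≤ exp (-(log x)^d)`
for large `x`. -/
theorem modify (c : ℝ) (hc : 0 < c) (A B : Set ℕ)
    (h : ∀ d < c, ∀ᶠ x : ℕ in atTop,
      (#{n ∈ Icc 1 x | ¬ (n ∈ A ↔ n ∈ B)} : ℝ) ≤ x * Real.exp (-(Real.log x ^ d)))
    (hA : ∀ d < c, UHL d A) : ∀ d < c, UHL d B := by
  intro d hd q hq
  obtain ⟨d₁, hd₁, hd₁c⟩ := exists_between (max_lt hd hc)
  obtain ⟨d₂, hd₂, hd₂c⟩ := exists_between hd₁c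
  have hdd₁ : d < d₁ := (le_max_left _ _).trans_lt hd₁
  have hd₁0 : 0 < d₁ := (le_max_right _ _).trans_lt hd₁
  obtain ⟨N₀, hN₀⟩ := eventually_atTop.1 (h d₂ hd₂c)
  have hlog : Tendsto (fun x : ℕ => Real.log x) atTop atTop :=
    Real.tendsto_log_atTop.comp tendsto_natCast_atTop_atTop
  filter_upwards [hA d₁ hd₁c q hq, hlog.eventually (uh12_two_mul hdd₁),
    hlog.eventually (uh12_two_mul hd₂), hlog.eventually (uh12_pow_exp d hd₁0),
    hlog.eventually ((tendsto_rpow_atTop hd₁0).eventually_ge_atTop 2),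
    hlog.eventually_ge_atTop 1, eventually_ge_atTop N₀, eventually_ge_atTop 1]
    with x e1 e2 e3 e4 e5 e6 e7 e8
  intro a H hH hHc
  obtain ⟨L, hL⟩ : ∃ L, L = Real.log x := ⟨_, rfl⟩
  rw [← hL] at e1 e2 e3 e4 e5 e6 hHc ⊢
  have hx1 : (1 : ℝ) ≤ x := by exact_mod_cast e8
  have hx0 : (0 : ℝ) < x := by linarith
  have hL0 : 0 ≤ L := by linarith
  have hle : L ^ d ≤ L ^ d₁ := Real.rpow_le_rpow_of_exponent_le e6 hdd₁.le
  -- the law for `A`
  have hA1 := e1 a H hH (hHc.trans hle)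
  -- the difference
  obtain ⟨M, hM⟩ : ∃ M : ℕ, M = ⌊(x : ℝ) ^ (1 / 4 : ℝ)⌋₊ := ⟨_, rfl⟩
  have hxr : (0 : ℝ) ≤ (x : ℝ) ^ (1 / 4 : ℝ) := Real.rpow_nonneg hx0.le _
  have hMH : ∀ h ∈ H, h ≤ M := fun h hh => by
    rw [hM]
    exact Nat.le_floor (hH h hh)
  have hMx : (M : ℝ) ≤ x := by
    rw [hM]
    refine (Nat.floor_le hxr).trans ?_
    calc (x : ℝ) ^ (1 / 4 : ℝ) ≤ (x : ℝ) ^ (1 : ℝ) :=
          Real.rpow_le_rpow_of_exponent_le hx1 (by norm_num)
      _ = x := Real.rpow_one _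
  have hdiff := cnt_modify A B H q a x M hMH
  have hN := hN₀ (x + M) (by omega)
  have hcast : ((x + M : ℕ) : ℝ) = x + M := by push_cast; ring
  have hlogle : L ≤ Real.log ((x + M : ℕ) : ℝ) := by
    rw [hL, hcast]
    exact Real.log_le_log hx0 (by linarith [(Nat.cast_nonneg M : (0 : ℝ) ≤ M)])
  have hexp : Real.exp (-(Real.log ((x + M : ℕ) : ℝ) ^ d₂)) ≤ Real.exp (-(L ^ d₂)) := by
    apply Real.exp_le_exp.2
    have : L ^ d₂ ≤ Real.log ((x + M : ℕ) : ℝ) ^ d₂ :=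
      Real.rpow_le_rpow hL0 hlogle (hd₁0.trans hd₂).le
    linarith
  have hD : (#{n ∈ Icc 1 (x + M) | ¬ (n ∈ A ↔ n ∈ B)} : ℝ) ≤ 2 * x * Real.exp (-(L ^ d₂)) := by
    refine hN.trans ?_
    rw [hcast]
    rw [hcast] at hexp
    exact mul_le_mul (by linarith) hexp (Real.exp_pos _).le (by linarith)
  have hmul : (#H : ℝ) * (#{n ∈ Icc 1 (x + M) | ¬ (n ∈ A ↔ n ∈ B)} : ℝ) ≤
      x * Real.exp (-(L ^ d₁)) := by
    calc (#H : ℝ) * (#{n ∈ Icc 1 (x + M) | ¬ (n ∈ A ↔ n ∈ B)} : ℝ)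
        ≤ L ^ d * (2 * x * Real.exp (-(L ^ d₂))) :=
          mul_le_mul hHc hD (Nat.cast_nonneg _) (Real.rpow_nonneg hL0 _)
      _ = x * ((2 * L ^ d) * Real.exp (-(L ^ d₂))) := by ring
      _ ≤ x * (Real.exp (L ^ d₁) * Real.exp (-(2 * L ^ d₁))) := by
          refine mul_le_mul_of_nonneg_left ?_ hx0.le
          refine mul_le_mul e4 (Real.exp_le_exp.2 (by linarith)) (Real.exp_pos _).le
            (Real.exp_pos _).le
      _ = x * Real.exp (-(L ^ d₁)) := by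
          rw [← Real.exp_add]
          congr 2
          ring
  have hfin : 2 * Real.exp (-(L ^ d₁)) ≤ Real.exp (-(L ^ d)) := by
    have h1 : (2 : ℝ) ≤ Real.exp 1 := by
      have := Real.add_one_le_exp (1 : ℝ)
      linarith
    calc 2 * Real.exp (-(L ^ d₁)) ≤ Real.exp 1 * Real.exp (-(L ^ d₁)) :=
          mul_le_mul_of_nonneg_right h1 (Real.exp_pos _).le
      _ = Real.exp (1 - L ^ d₁) := by rw [← Real.exp_add]; congr 1
      _ ≤ Real.exp (-(L ^ d)) := Real.exp_le_exp.2 (by linarith)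
  have habs := abs_sub_abs_le_abs_sub (cnt B H q a x - hlConst q a H * ∫ t in (2 : ℝ)..x,
    1 / Real.log t ^ #H) (cnt A H q a x - hlConst q a H * ∫ t in (2 : ℝ)..x, 1 / Real.log t ^ #H)
  have hsub : (cnt B H q a x - hlConst q a H * ∫ t in (2 : ℝ)..x, 1 / Real.log t ^ #H) -
      (cnt A H q a x - hlConst q a H * ∫ t in (2 : ℝ)..x, 1 / Real.log t ^ #H) =
      -(cnt A H q a x - cnt B H q a x) := by ring
  rw [hsub, abs_neg] at habs
  have hx2 := mul_le_mul_of_nonneg_left hfin hx0.le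
  linarith

end Pool.Agent.LibUHL
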