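import Pool.Agent.LibUHL.U06
import Pool.Agent.LibUHL.U08
import Pool.Agent.LibUHL.U11
import Pool.Agent.LibUHL.U12

/-! Row UH 13: a set with the law and an element in every cell. -/

set_option autoImplicit false

namespace Pool.Agent.LibUHL

open Finset Filter Topology MeasureTheory

open Pool.Agent.LibLin93 (V)

open Pool.Agent.LibCI99 (cnt hlConst dlt vee prim occ goodT)

theorem uh13_lo (p q ε : ℝ) (hpq : p < q) (hε : 0 < ε) :
    ∀ᶠ L : ℝ in atTop, L ^ p ≤ ε * L ^ q := by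
  filter_upwards [(tendsto_rpow_atTop (sub_pos.mpr hpq)).eventually_ge_atTop ε⁻¹,
    eventually_gt_atTop (0 : ℝ)] with L h hL
  have h1 : L ^ q = L ^ p * L ^ (q - p) := by
    rw [← Real.rpow_add hL]; congr 1; ring
  have h2 : 1 ≤ ε * L ^ (q - p) := by
    have := mul_le_mul_of_nonneg_left h hε.le
    rwa [mul_inv_cancel₀ hε.ne'] at this
  have h3 : 0 ≤ L ^ p := Real.rpow_nonneg hL.le _
  rw [h1]
  nlinarith [mul_le_mul_of_nonneg_left h2 h3]

theorem uh13_aux1 (d d' : ℝ) (hd0 : 0 < d') (hd1 : d' < 1) (hdd : d < d') :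
    ∀ᶠ L : ℝ in atTop, 8 * Real.exp (-((L / 3) ^ d')) + Real.exp (-(L / 2)) ≤
      Real.exp (-(L ^ d)) := by
  have h1 : ∀ᶠ L : ℝ in atTop, L ^ d ≤ ((3 : ℝ)⁻¹ ^ d' / 2) * L ^ d' :=
    uh13_lo _ _ _ hdd (by positivity)
  have h2 : ∀ᶠ L : ℝ in atTop, Real.log 16 / ((3 : ℝ)⁻¹ ^ d' / 2) ≤ L ^ d' :=
    (tendsto_rpow_atTop hd0).eventually_ge_atTop _
  have h3 : ∀ᶠ L : ℝ in atTop, L ^ d ≤ (1 / 4) * L ^ (1 : ℝ) :=
    uh13_lo _ _ _ (hdd.trans hd1) (by norm_num)
  have h4 : ∀ᶠ L : ℝ in atTop, 4 * Real.log 2 ≤ L := eventually_ge_atTop _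
  filter_upwards [h1, h2, h3, h4, eventually_gt_atTop (0 : ℝ)] with L h1 h2 h3 h4 hL
  have hLd : 0 ≤ L ^ d := Real.rpow_nonneg hL.le _
  have hLd' : 0 ≤ L ^ d' := Real.rpow_nonneg hL.le _
  rw [Real.rpow_one] at h3
  have hε : 0 < (3 : ℝ)⁻¹ ^ d' / 2 := by positivity
  have h5 : Real.log 16 ≤ L ^ d' * ((3 : ℝ)⁻¹ ^ d' / 2) := by
    rwa [div_le_iff₀ hε] at h2
  have h6 : (L / 3) ^ d' = L ^ d' * (3 : ℝ)⁻¹ ^ d' := by
    rw [div_eq_mul_inv, Real.mul_rpow hL.le (by norm_num)]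
  have h7 : L ^ d + Real.log 16 ≤ (L / 3) ^ d' := by
    rw [h6]; nlinarith
  have h8 : 8 * Real.exp (-((L / 3) ^ d')) ≤ Real.exp (-(L ^ d)) / 2 := by
    have h9 : Real.exp (-((L / 3) ^ d')) ≤ Real.exp (-(L ^ d) - Real.log 16) :=
      Real.exp_le_exp.mpr (by linarith)
    rw [Real.exp_sub, Real.exp_log (by norm_num)] at h9
    linarith
  have h10 : Real.exp (-(L / 2)) ≤ Real.exp (-(L ^ d)) / 2 := by
    have h9 : Real.exp (-(L / 2)) ≤ Real.exp (-(L ^ d) - Real.log 2) :=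
      Real.exp_le_exp.mpr (by linarith)
    rwa [Real.exp_sub, Real.exp_log (by norm_num)] at h9
  linarith

/-- the sum over the scales -/
theorem uh13_aux2 (π : ℕ → ℝ) (N : ℕ → ℝ) (d d' : ℝ) (hd0 : 0 < d') (hd1 : d' < 1) (hdd : d < d')
    (hN1 : ∀ j, N j ≤ 2 ^ j) (J1 : ℕ) (hN2 : ∀ j, J1 ≤ j → N j ≤ 4 * 2 ^ j * π j)
    (hπ : ∀ j : ℕ, J1 ≤ j → π j ≤ Real.exp (-((j : ℝ) ^ d'))) :
    ∀ᶠ x : ℕ in atTop, ∑ j ∈ range (Nat.log 2 x + 1), N j ≤
      x * Real.exp (-(Real.log x ^ d)) := by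
  have hlog : Tendsto (fun x : ℕ => Real.log (x : ℝ)) atTop atTop :=
    Real.tendsto_log_atTop.comp tendsto_natCast_atTop_atTop
  have hrt : Tendsto (fun x : ℕ => Nat.log 2 x) atTop atTop := by
    refine tendsto_atTop.mpr fun B => ?_
    filter_upwards [eventually_ge_atTop (2 ^ B)] with x hx
    exact Nat.le_log_of_pow_le (by norm_num) hx
  filter_upwards [hlog.eventually (uh13_aux1 d d' hd0 hd1 hdd),
    hrt.eventually_ge_atTop (2 * J1), hlog.eventually_ge_atTop 6,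
    eventually_gt_atTop 0] with x h1 h2 h3 hx0
  set r := Nat.log 2 x with hr
  set L := Real.log (x : ℝ) with hL
  have hxR : (0 : ℝ) < x := by exact_mod_cast hx0
  have hrx : 2 ^ r ≤ x := Nat.pow_log_le_self 2 hx0.ne'
  have hrxR : (2 : ℝ) ^ r ≤ x := by exact_mod_cast hrx
  have hxr : x < 2 ^ (r + 1) := Nat.lt_pow_succ_log_self (by norm_num) x
  have hxrR : (x : ℝ) < 2 ^ (r + 1) := by exact_mod_cast hxr
  have hlog2 : 0 < Real.log 2 := Real.log_pos (by norm_num)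
  have hlog2' : Real.log 2 < 0.7 := by
    have := Real.log_two_lt_d9; linarith
  have hLr : L < (r + 1) * 0.7 := by
    have h4 : L < Real.log (2 ^ (r + 1)) := Real.log_lt_log hxR hxrR
    rw [Real.log_pow] at h4
    push_cast at h4
    have h5 : ((r : ℝ) + 1) * Real.log 2 < (r + 1) * 0.7 :=
      mul_lt_mul_of_pos_left hlog2' (by positivity)
    linarith
  have hr2 : L / 3 ≤ ((r / 2 : ℕ) : ℝ) := by
    have h4 : (r : ℝ) ≤ 2 * ((r / 2 : ℕ) : ℝ) + 1 := by
      have : r ≤ 2 * (r / 2) + 1 := by omega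
      exact_mod_cast this
    nlinarith
  have hsplit : ∑ j ∈ range (r + 1), N j = ∑ j ∈ range (r / 2), N j +
      ∑ j ∈ Ico (r / 2) (r + 1), N j := by
    rw [Finset.sum_range_add_sum_Ico _ (by omega : r / 2 ≤ r + 1)]
  have hs1 : ∑ j ∈ range (r / 2), N j ≤ x * Real.exp (-(L / 2)) := by
    have h4 : ∑ j ∈ range (r / 2), N j ≤ ∑ j ∈ range (r / 2), (2 : ℝ) ^ j :=
      Finset.sum_le_sum fun j _ => hN1 j
    have h5 : ∑ j ∈ range (r / 2), (2 : ℝ) ^ j = 2 ^ (r / 2) - 1 := by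
      rw [geom_sum_eq (by norm_num)]; norm_num
    have h6 : ((2 : ℝ) ^ (r / 2)) ^ 2 ≤ x := by
      refine le_trans ?_ hrxR
      rw [← pow_mul]
      exact pow_le_pow_right₀ (by norm_num) (by omega)
    have h7 : (2 : ℝ) ^ (r / 2) ≤ √x := Real.le_sqrt_of_sq_le h6
    have h8 : (x : ℝ) * Real.exp (-(L / 2)) = √x := by
      have h9 : Real.exp (L / 2) = √x := by
        rw [Real.sqrt_eq_rpow, Real.rpow_def_of_pos hxR, ← hL]
        congr 1; ring
      rw [Real.exp_neg, h9]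
      have h10 : √(x : ℝ) ≠ 0 := (Real.sqrt_pos.mpr hxR).ne'
      have h11 : √(x : ℝ) * √x = x := Real.mul_self_sqrt hxR.le
      field_simp
      nlinarith [h11]
    rw [h8]
    linarith
  have hs2 : ∑ j ∈ Ico (r / 2) (r + 1), N j ≤ x * (8 * Real.exp (-((L / 3) ^ d'))) := by
    have h4 : ∀ j ∈ Ico (r / 2) (r + 1), N j ≤ 2 ^ j * (4 * Real.exp (-((L / 3) ^ d'))) := by
      intro j hj
      rw [mem_Ico] at hj
      have hJ : J1 ≤ j := by omega
      have h5 : π j ≤ Real.exp (-((L / 3) ^ d')) := by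
        refine (hπ j hJ).trans (Real.exp_le_exp.mpr (neg_le_neg ?_))
        refine Real.rpow_le_rpow (by linarith) (hr2.trans ?_) hd0.le
        exact_mod_cast hj.1
      calc N j ≤ 4 * 2 ^ j * π j := hN2 j hJ
        _ ≤ 4 * 2 ^ j * Real.exp (-((L / 3) ^ d')) := mul_le_mul_of_nonneg_left h5 (by positivity)
        _ = 2 ^ j * (4 * Real.exp (-((L / 3) ^ d'))) := by ring
    have h6 : ∑ j ∈ Ico (r / 2) (r + 1), (2 : ℝ) ^ j ≤ 2 * x := by
      have h7 : ∑ j ∈ Ico (r / 2) (r + 1), (2 : ℝ) ^ j ≤ ∑ j ∈ range (r + 1), (2 : ℝ) ^ j := by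
        refine Finset.sum_le_sum_of_subset_of_nonneg ?_ (fun _ _ _ => by positivity)
        intro j hj
        rw [mem_Ico] at hj
        exact mem_range.mpr hj.2
      have h8 : ∑ j ∈ range (r + 1), (2 : ℝ) ^ j = 2 ^ (r + 1) - 1 := by
        rw [geom_sum_eq (by norm_num)]; norm_num
      rw [h8, pow_succ] at h7
      linarith
    calc ∑ j ∈ Ico (r / 2) (r + 1), N j
        ≤ ∑ j ∈ Ico (r / 2) (r + 1), 2 ^ j * (4 * Real.exp (-((L / 3) ^ d'))) :=
          Finset.sum_le_sum h4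
      _ = (∑ j ∈ Ico (r / 2) (r + 1), (2 : ℝ) ^ j) * (4 * Real.exp (-((L / 3) ^ d'))) := by
          rw [Finset.sum_mul]
      _ ≤ (2 * x) * (4 * Real.exp (-((L / 3) ^ d'))) :=
          mul_le_mul_of_nonneg_right h6 (by positivity)
      _ = x * (8 * Real.exp (-((L / 3) ^ d'))) := by ring
  calc ∑ j ∈ range (r + 1), N j ≤ x * Real.exp (-(L / 2)) + x * (8 * Real.exp (-((L / 3) ^ d'))) := by
        rw [hsplit]; exact add_le_add hs1 hs2
    _ = x * (8 * Real.exp (-((L / 3) ^ d')) + Real.exp (-(L / 2))) := by ring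
    _ ≤ x * Real.exp (-(L ^ d)) := mul_le_mul_of_nonneg_left h1 hxR.le

open Classical in
/-- the largest proportion of the bad shifts of a cell of the scale `j` -/
theorem uh13_pi (b : ℕ → ℕ) (j : ℕ) : ∃ π : ℝ, 0 ≤ π ∧
    (∀ i, i < TB j → ∀ k, u j i ≤ k * b j → (k + 1) * b j ≤ u j i + NB j → 0 < b j →
      (#{m ∈ range (QQ j i) | Disjoint (XX j i m) (Ico (k * b j) ((k + 1) * b j))} : ℝ) ≤
        QQ j i * π) ∧
    ∀ e : ℝ, 0 ≤ e → (∀ i, i < TB j → ∀ k, u j i ≤ k * b j → (k + 1) * b j ≤ u j i + NB j →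
      (#{m ∈ range (QQ j i) | Disjoint (XX j i m) (Ico (k * b j) ((k + 1) * b j))} : ℝ) ≤
        QQ j i * e) → π ≤ e := by
  have hNT : TB j * NB j = 2 ^ j := by
    unfold TB NB
    rw [← pow_add]
    congr 1
    omega
  have hTB : 0 < TB j := by unfold TB; positivity
  set S : Finset (ℕ × ℕ) := range (TB j) ×ˢ range (2 ^ (j + 1) + 1) with hS
  have hSne : S.Nonempty := ⟨(0, 0), by rw [hS, mem_product]; simp [hTB]⟩
  set F : ℕ × ℕ → ℝ := fun q =>
    if u j q.1 ≤ q.2 * b j ∧ (q.2 + 1) * b j ≤ u j q.1 + NB j then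
      (#{m ∈ range (QQ j q.1) | Disjoint (XX j q.1 m) (Ico (q.2 * b j) ((q.2 + 1) * b j))} : ℝ) /
        QQ j q.1 else 0 with hF
  have hF0 : ∀ q, 0 ≤ F q := by
    intro q
    simp only [hF]
    split_ifs
    · positivity
    · exact le_refl _
  refine ⟨S.sup' hSne F, ?_, ?_, ?_⟩
  · obtain ⟨q, hq⟩ := hSne
    exact (hF0 q).trans (Finset.le_sup' F hq)
  · intro i hi k h1 h2 hb
    have hQ : (0 : ℝ) < QQ j i := by exact_mod_cast QQ_pos j i
    have hmem : (i, k) ∈ S := by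
      rw [hS, mem_product, mem_range, mem_range]
      refine ⟨hi, ?_⟩
      have h3 : u j i + NB j ≤ 2 ^ (j + 1) := by
        unfold u
        have h4 : (i + 1) * NB j ≤ TB j * NB j := Nat.mul_le_mul_right _ hi
        rw [hNT] at h4
        rw [pow_succ]
        nlinarith
      have h5 : k ≤ (k + 1) * b j := by nlinarith
      show k < 2 ^ (j + 1) + 1
      omega
    have h3 : F (i, k) ≤ S.sup' hSne F := Finset.le_sup' F hmem
    have h4 : F (i, k) = (#{m ∈ range (QQ j i) |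
        Disjoint (XX j i m) (Ico (k * b j) ((k + 1) * b j))} : ℝ) / QQ j i := by
      simp only [hF]
      rw [if_pos ⟨h1, h2⟩]
    rw [h4, div_le_iff₀ hQ] at h3
    linarith
  · intro e he h
    refine Finset.sup'_le hSne F fun q hq => ?_
    rw [hS, mem_product, mem_range, mem_range] at hq
    have hQ : (0 : ℝ) < QQ j q.1 := by exact_mod_cast QQ_pos j q.1
    simp only [hF]
    split_ifs with hc
    · rw [div_le_iff₀ hQ]
      have := h q.1 hq.1 q.2 hc.1 hc.2
      linarith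
    · exact he

theorem uh13_rpow (c d : ℝ) (hdc : d < c) (hd : 0 < d) (hc1 : c ≤ 1) (b : ℕ → ℕ)
    (hbc : ∀ d < c, ∀ᶠ j : ℕ in atTop, (j : ℝ) ^ (1 + d) ≤ b j) :
    ∃ d₁, d < d₁ ∧ d₁ < 1 ∧ ∀ᶠ j : ℕ in atTop, (j : ℝ) ^ (1 + d₁) + 1 ≤ b j := by
  refine ⟨(2 * d + c) / 3, by linarith, by linarith, ?_⟩
  set d₁ := (2 * d + c) / 3 with hd1
  set d₂ := (d + 2 * c) / 3 with hd2
  have h12 : d₁ < d₂ := by rw [hd1, hd2]; linarith
  have h1 : ∀ᶠ j : ℕ in atTop, (j : ℝ) ^ (1 + d₂) ≤ b j := hbc d₂ (by rw [hd2]; linarith)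
  have h2 : ∀ᶠ j : ℕ in atTop, (2 : ℝ) ≤ (j : ℝ) ^ (d₂ - d₁) :=
    ((tendsto_rpow_atTop (by linarith : 0 < d₂ - d₁)).comp
      tendsto_natCast_atTop_atTop).eventually_ge_atTop 2
  filter_upwards [h1, h2, eventually_ge_atTop 1] with j h1 h2 hj
  have hjR : (1 : ℝ) ≤ j := by exact_mod_cast hj
  have hj0 : (0 : ℝ) < j := by linarith
  have h3 : (1 : ℝ) ≤ (j : ℝ) ^ (1 + d₁) := Real.one_le_rpow hjR (by rw [hd1]; linarith)
  have h4 : (j : ℝ) ^ (1 + d₂) = (j : ℝ) ^ (1 + d₁) * (j : ℝ) ^ (d₂ - d₁) := by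
    rw [← Real.rpow_add hj0]; congr 1; ring
  rw [h4] at h1
  nlinarith

/-- PROOF. For every `j` let `π j` be the maximum over the blocks `i` and the cells
`[k b, (k+1) b)` in the block of `#{bad m}/QQ j i` (a real number in `[0,1]`; or an `sSup`). By
`bad_cell`, for `0 < d < c` (choose `d₁ ∈ (d, c)`, `d₁ < 1`, and use `j^(1+d₁) + 1 ≤ b j` for large
`j`, from `hbc` with an exponent in `(d₁, c)`): `π j ≤ exp (-(j^d))` for large `j`. Take `J` from
`scale_exists`; for `j ≥ J` take `m j` from it (with `b j`, `π j`), `m j = 0` for `j < J`.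
`law_AA`: `UHL d (AA J m)` for all `d < 1`. Let `F` be the set of the `k b j` with `j ≥ J`,
`2^j/b j ≤ k < 2^(j+1)/b j` and the cell disjoint from all `XX j i (m j i)`, and `A = AA J m ∪ F`.
The number of the elements of `F` in the scale `j` is `≤ 4 2^j π j`, so for `0 < d < d' < c` and
large `x`, `r = Nat.log 2 x`: `#(F ∩ [1,x]) ≤ 4 ∑_{j < r/2} 2^j + 4 ∑_{r/2 ≤ j ≤ r} 2^j exp (-j^d')
≤ 8 √x + 8 x exp (-(r/2 - 1)^d') ≤ x exp (-(log x)^d)`. `modify` gives the law of `A` (for `d ≤ 0`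
the hypothesis of `modify` follows from a positive `d`). Every cell of a scale `j ≥ J` contains an
element of `A` (`AA` or the fill `k b j`). -/
theorem exists_base (c : ℝ) (hc0 : 0 < c) (hc1 : c ≤ 1) (b : ℕ → ℕ)
    (hb : ∀ j, 0 < b j ∧ b j ∣ NB j) (hbc : ∀ d < c, ∀ᶠ j : ℕ in atTop, (j : ℝ) ^ (1 + d) ≤ b j) :
    ∃ A : Set ℕ, (∀ d < c, UHL d A) ∧ ∃ J : ℕ, ∀ j, J ≤ j → ∀ k, 2 ^ j ≤ k * b j →
      (k + 1) * b j ≤ 2 ^ (j + 1) → ∃ n ∈ A, k * b j ≤ n ∧ n < (k + 1) * b j := by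
  classical
  have hNT : ∀ j, TB j * NB j = 2 ^ j := by
    intro j
    unfold TB NB
    rw [← pow_add]
    congr 1
    omega
  choose π hπ0 hπ1 hπ2 using uh13_pi b
  -- the bound of `π`
  have hπb : ∀ d, 0 < d → d < c → ∀ᶠ j : ℕ in atTop, π j ≤ Real.exp (-((j : ℝ) ^ d)) := by
    intro d hd hdc
    obtain ⟨d₁, h1, h2, h3⟩ := uh13_rpow c d hdc hd hc1 b hbc
    filter_upwards [h3, bad_cell d d₁ hd h1 h2] with j h3 h4
    refine hπ2 j _ (Real.exp_pos _).le fun i hi k hk1 hk2 => ?_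
    have h5 : (k + 1) * b j = k * b j + b j := by ring
    rw [h5] at hk2 ⊢
    exact h4 i hi (k * b j) (b j) hk1 hk2 h3
  obtain ⟨J, hJ⟩ := eventually_atTop.mp scale_exists
  have hex : ∀ j, ∃ m : ℕ → ℕ, J ≤ j →
      (#{k ∈ Ico (2 ^ j / b j) (2 ^ (j + 1) / b j) |
        ∀ i, i < TB j → Disjoint (XX j i (m i)) (Ico (k * b j) ((k + 1) * b j))} : ℝ) ≤
          4 * (2 ^ j / b j) * π j ∧
      ∀ (H : Finset ℕ) (q a x : ℕ), (∀ h ∈ H, h ≤ 2 ^ (j / 3 + 2)) → #H ≤ j → 0 < q → q ≤ j →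
        x ≤ 2 ^ (j + 1) →
        |∑ i ∈ range (TB j), Yc j i (m i) x q a H - ∑ i ∈ range (TB j), Mn j i x q a H| ≤
          (2 : ℝ) ^ j / 2 ^ (j / 20) := by
    intro j
    by_cases hj : J ≤ j
    · obtain ⟨m, hm1, hm2⟩ := hJ j hj (b j) (π j) (hb j).1 (hb j).2 (hπ0 j)
        (fun i hi k h1 h2 => hπ1 j i hi k h1 h2 (hb j).1)
      exact ⟨m, fun _ => ⟨hm1, hm2⟩⟩
    · exact ⟨fun _ => 0, fun h => absurd h hj⟩
  choose m hm using hex
  -- the fill
  set F : Set ℕ := {n | ∃ j k : ℕ, J ≤ j ∧ k ∈ Ico (2 ^ j / b j) (2 ^ (j + 1) / b j) ∧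
    n = k * b j ∧ ∀ i, i < TB j → Disjoint (XX j i (m j i)) (Ico (k * b j) ((k + 1) * b j))}
    with hF
  obtain ⟨B, hB⟩ : ∃ B : Set ℕ, ∀ n, n ∈ B ↔ n ∈ AA J m ∨ n ∈ F := ⟨AA J m ∪ F, fun _ => Iff.rfl⟩
  refine ⟨B, ?_, J, ?_⟩
  · refine modify c hc0 (AA J m) B ?_ ?_
    · intro d hdc
      obtain ⟨d', hd1, hd2⟩ : ∃ d', max d 0 < d' ∧ d' < c := exists_between (max_lt hdc hc0)
      have hdd : d < d' := (le_max_left _ _).trans_lt hd1
      have hd0 : 0 < d' := (le_max_right _ _).trans_lt hd1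
      obtain ⟨J1, hJ1⟩ := eventually_atTop.mp (hπb d' hd0 hd2)
      set N : ℕ → ℝ := fun j => if J ≤ j then
        (#{k ∈ Ico (2 ^ j / b j) (2 ^ (j + 1) / b j) |
          ∀ i, i < TB j → Disjoint (XX j i (m j i)) (Ico (k * b j) ((k + 1) * b j))} : ℝ) else 0
        with hN
      have hbR : ∀ j, (1 : ℝ) ≤ b j := fun j => by exact_mod_cast (hb j).1
      have hN1 : ∀ j, N j ≤ 2 ^ j := by
        intro j
        simp only [hN]
        split_ifs with hj
        · have h1 : #{k ∈ Ico (2 ^ j / b j) (2 ^ (j + 1) / b j) |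
              ∀ i, i < TB j → Disjoint (XX j i (m j i)) (Ico (k * b j) ((k + 1) * b j))} ≤
              2 ^ j := by
            refine (card_le_card (filter_subset _ _)).trans ?_
            rw [Nat.card_Ico]
            have hb2 : b j ∣ 2 ^ j := by
              rw [← hNT]; exact Dvd.dvd.mul_left (hb j).2 _
            obtain ⟨e, he⟩ := hb2
            have hdiv : 2 ^ j / b j = e := by
              rw [he]; exact Nat.mul_div_cancel_left e (hb j).1
            have hdiv2 : 2 ^ (j + 1) / b j = 2 * e := by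
              rw [pow_succ, he]
              have : b j * e * 2 = b j * (2 * e) := by ring
              rw [this]; exact Nat.mul_div_cancel_left _ (hb j).1
            rw [hdiv, hdiv2, he]
            have := (hb j).1
            have h3 : e ≤ b j * e := Nat.le_mul_of_pos_left e this
            omega
          exact_mod_cast h1
        · positivity
      have hN2 : ∀ j, J1 ≤ j → N j ≤ 4 * 2 ^ j * π j := by
        intro j _
        simp only [hN]
        split_ifs with hj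
        · refine (hm j hj).1.trans ?_
          have h1 : (2 : ℝ) ^ j / b j ≤ 2 ^ j := div_le_self (by positivity) (hbR j)
          exact mul_le_mul_of_nonneg_right (by linarith) (hπ0 j)
        · exact mul_nonneg (by positivity) (hπ0 j)
      have hmain := uh13_aux2 π N d d' hd0 (by linarith) hdd hN1 J1 hN2 hJ1
      filter_upwards [hmain] with x hx
      refine le_trans ?_ hx
      refine le_trans ((Nat.cast_le (α := ℝ)).mpr (card_le_card
          (t := (range (Nat.log 2 x + 1)).biUnion (fun j => if J ≤ j then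
            ((Ico (2 ^ j / b j) (2 ^ (j + 1) / b j)).filter (fun k =>
              ∀ i, i < TB j → Disjoint (XX j i (m j i)) (Ico (k * b j) ((k + 1) * b j)))).image
                (fun k => k * b j) else ∅)) ?_)) ?_
      · intro n hn
        obtain ⟨hn0, hn3⟩ := Finset.mem_filter.mp hn
        obtain ⟨hn1, hn2⟩ := mem_Icc.mp hn0
        have hnF : n ∈ F := by
          by_contra hcon
          apply hn3
          rw [hB]
          constructor
          · intro h; exact Or.inl h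
          · rintro (h | h)
            · exact h
            · exact absurd h hcon
        obtain ⟨j, k, hj, hk, hnk, hdis⟩ := hnF
        rw [mem_biUnion]
        refine ⟨j, ?_, ?_⟩
        · rw [mem_range]
          have hb2 : b j ∣ 2 ^ j := by
            rw [← hNT]; exact Dvd.dvd.mul_left (hb j).2 _
          have h1 : 2 ^ j ≤ n := by
            rw [mem_Ico] at hk
            rw [hnk]
            calc 2 ^ j = 2 ^ j / b j * b j := (Nat.div_mul_cancel hb2).symm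
              _ ≤ k * b j := Nat.mul_le_mul_right _ hk.1
          have h2 : j ≤ Nat.log 2 x := Nat.le_log_of_pow_le (by norm_num) (h1.trans hn2)
          omega
        · rw [if_pos hj, mem_image]
          exact ⟨k, mem_filter.mpr ⟨hk, hdis⟩, hnk.symm⟩
      refine ((Nat.cast_le (α := ℝ)).mpr card_biUnion_le).trans ?_
      rw [Nat.cast_sum]
      refine Finset.sum_le_sum fun j _ => ?_
      simp only [hN]
      split_ifs with hj
      · exact Nat.cast_le.mpr card_image_le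
      · simp
    · intro d hdc
      exact law_AA J m (fun j hj => (hm j hj).2) d (by linarith)
  · intro j hj k hk1 hk2
    by_cases hdis : ∀ i, i < TB j → Disjoint (XX j i (m j i)) (Ico (k * b j) ((k + 1) * b j))
    · refine ⟨k * b j, (hB _).mpr (Or.inr ⟨j, k, hj, ?_, rfl, hdis⟩), le_refl _, ?_⟩
      · rw [mem_Ico]
        constructor
        · exact Nat.div_le_of_le_mul (by rw [mul_comm]; exact hk1)
        · exact (Nat.le_div_iff_mul_le (hb j).1).mpr hk2
      · have := (hb j).1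
        nlinarith
    · push Not at hdis
      obtain ⟨i, hi, hnd⟩ := hdis
      rw [Finset.not_disjoint_iff] at hnd
      obtain ⟨n, hn1, hn2⟩ := hnd
      rw [mem_Ico] at hn2
      exact ⟨n, (hB _).mpr (Or.inl ⟨j, i, hj, hi, hn1⟩), hn2.1, hn2.2⟩

end Pool.Agent.LibUHL
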