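import Pool.Agent.LibUHL.Defs

/-! Row UH 14: deleting windows. -/

set_option autoImplicit false

namespace Pool.Agent.LibUHL

open Finset Filter Topology MeasureTheory

open scoped ENNReal

/-- the next element -/
private theorem u14_next {B : Set ℕ} [DecidablePred (· ∈ B)] (hB : B.Infinite) (n b : ℕ) (hb : b ∈ B)
    (h : Nat.nth (· ∈ B) n < b) : Nat.nth (· ∈ B) (n + 1) ≤ b := by
  have hB' : ({n | n ∈ B} : Set ℕ).Infinite := hB
  have h1 : Nat.nth (· ∈ B) (Nat.count (· ∈ B) b) = b := Nat.nth_count hb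
  have h2 : n < Nat.count (· ∈ B) b := by
    rw [← h1] at h
    exact (Nat.nth_strictMono hB').lt_iff_lt.1 h
  calc Nat.nth (· ∈ B) (n + 1) ≤ Nat.nth (· ∈ B) (Nat.count (· ∈ B) b) :=
        (Nat.nth_strictMono hB').monotone h2
    _ = b := h1

/-- limsup of the gaps from the behaviour of the elements -/
private theorem u14_limsup {B : Set ℕ} (hB : B.Infinite) (f : ℕ → ℝ) (N : ℕ)
    (hf : ∀ n, N ≤ n → 0 < f n)
    (h1 : ∀ ε : ℝ, 0 < ε → ∀ᶠ b : ℕ in atTop, b ∈ B → ∃ b' ∈ B, b < b' ∧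
      (b' : ℝ) ≤ b + (1 + ε) * f b)
    (h2 : ∀ m : ℕ, ∃ b ∈ B, m ≤ b ∧ ∀ b' ∈ B, b < b' → (b : ℝ) + f b ≤ b') :
    gapLim f B = 1 := by
  classical
  have hB' : ({n | n ∈ B} : Set ℕ).Infinite := hB
  have hmono : StrictMono (Nat.nth (· ∈ B)) := Nat.nth_strictMono hB'
  have htend : Tendsto (Nat.nth (· ∈ B)) atTop atTop := hmono.tendsto_atTop
  unfold gapLim
  apply le_antisymm
  · refine ENNReal.le_of_forall_pos_le_add fun ε hε _ => ?_
    refine Filter.limsup_le_of_le (h := ?_)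
    have h3 := htend.eventually (h1 ε (by exact_mod_cast hε))
    have h4 := htend.eventually (eventually_ge_atTop N)
    filter_upwards [h3, h4] with n h5 h6
    obtain ⟨b', hb', hlt, hle⟩ := h5 (Nat.nth_mem_of_infinite hB' n)
    have h7 := u14_next hB n b' hb' hlt
    have h8 : ((Nat.nth (· ∈ B) (n + 1) : ℕ) : ℝ) ≤ b' := by exact_mod_cast h7
    have h9 := hf _ h6
    have h10 : ((Nat.nth (· ∈ B) (n + 1) : ℝ) - (Nat.nth (· ∈ B) n : ℝ)) / f (Nat.nth (· ∈ B) n)
        ≤ 1 + ε := by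
      rw [div_le_iff₀ h9]
      linarith
    calc ENNReal.ofReal _ ≤ ENNReal.ofReal (1 + (ε : ℝ)) := ENNReal.ofReal_le_ofReal h10
      _ = 1 + ε := by
        rw [ENNReal.ofReal_add (by norm_num) (by positivity), ENNReal.ofReal_one,
          ENNReal.ofReal_coe_nnreal]
  · refine Filter.le_limsup_of_frequently_le ?_
    rw [frequently_atTop]
    intro m
    obtain ⟨b, hb, hbm, hnext⟩ := h2 (max (Nat.nth (· ∈ B) m) N)
    refine ⟨Nat.count (· ∈ B) b, ?_, ?_⟩
    · have h3 : Nat.nth (· ∈ B) (Nat.count (· ∈ B) b) = b := Nat.nth_count hb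
      have h4 : Nat.nth (· ∈ B) m ≤ Nat.nth (· ∈ B) (Nat.count (· ∈ B) b) := by
        rw [h3]
        exact le_trans (le_max_left _ _) hbm
      exact hmono.le_iff_le.1 h4
    · have h3 : Nat.nth (· ∈ B) (Nat.count (· ∈ B) b) = b := Nat.nth_count hb
      rw [h3]
      have h4 : b < Nat.nth (· ∈ B) (Nat.count (· ∈ B) b + 1) := by
        conv_lhs => rw [← h3]
        exact hmono (Nat.lt_succ_self _)
      have h5 := hnext _ (Nat.nth_mem_of_infinite hB' _) h4
      have h6 : 0 < f b := hf b (le_trans (le_max_right _ _) hbm)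
      have h7 : (1 : ℝ) ≤ ((Nat.nth (· ∈ B) (Nat.count (· ∈ B) b + 1) : ℝ) - (b : ℝ)) / f b := by
        rw [le_div_iff₀ h6]
        linarith
      calc (1 : ℝ≥0∞) = ENNReal.ofReal 1 := ENNReal.ofReal_one.symm
        _ ≤ _ := ENNReal.ofReal_le_ofReal h7

/-- growth comparison -/
private theorem u14_growth (C a b : ℝ) (hC : 0 < C) (ha : 0 < a) (hab : a < b) :
    ∀ᶠ L : ℝ in atTop, C * L ≤ Real.exp (L ^ b - L ^ a) := by
  have hb : 0 < b := ha.trans hab
  have h1 := (tendsto_rpow_atTop (show 0 < b - a by linarith)).eventually_ge_atTop 2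
  have h2 := (isLittleO_log_rpow_atTop hb).bound (show (0 : ℝ) < 1 / 4 by norm_num)
  have h3 := (tendsto_rpow_atTop hb).eventually_ge_atTop (4 * Real.log C)
  filter_upwards [h1, h2, h3, eventually_gt_atTop 0] with L g1 g2 g3 g4
  have hLb : 0 < L ^ b := Real.rpow_pos_of_pos g4 b
  have hLa : 0 < L ^ a := Real.rpow_pos_of_pos g4 a
  rw [Real.norm_eq_abs, Real.norm_eq_abs, abs_of_pos hLb] at g2
  have g5 : Real.log L ≤ 1 / 4 * L ^ b := (le_abs_self _).trans g2
  have g6 : 2 * L ^ a ≤ L ^ b := by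
    have : L ^ b = L ^ (b - a) * L ^ a := by
      rw [← Real.rpow_add g4]; ring_nf
    rw [this]
    exact mul_le_mul_of_nonneg_right g1 hLa.le
  have g7 : Real.log (C * L) ≤ L ^ b - L ^ a := by
    rw [Real.log_mul hC.ne' g4.ne']
    linarith
  calc C * L = Real.exp (Real.log (C * L)) := (Real.exp_log (by positivity)).symm
    _ ≤ _ := Real.exp_le_exp.2 g7

/-- `s - s ^ d` is monotone for `s ≥ 1` -/
private theorem u14_mono (d s t : ℝ) (hd1 : d ≤ 1) (hs : 1 ≤ s) (hst : s ≤ t) :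
    s - s ^ d ≤ t - t ^ d := by
  have hs0 : 0 < s := by linarith
  have ht0 : 0 < t := by linarith
  have hr : 1 ≤ t / s := by rwa [le_div_iff₀ hs0, one_mul]
  have h1 : t ^ d = s ^ d * (t / s) ^ d := by
    rw [← Real.mul_rpow hs0.le (by positivity), mul_div_cancel₀ _ hs0.ne']
  have h2 : (t / s) ^ d ≤ t / s := by
    calc (t / s) ^ d ≤ (t / s) ^ (1 : ℝ) := Real.rpow_le_rpow_of_exponent_le hr hd1
      _ = t / s := Real.rpow_one _
  have h3 : s ^ d ≤ s := by
    calc s ^ d ≤ s ^ (1 : ℝ) := Real.rpow_le_rpow_of_exponent_le hs hd1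
      _ = s := Real.rpow_one _
  have h4 : 0 < s ^ d := Real.rpow_pos_of_pos hs0 d
  have h5 : t ^ d - s ^ d ≤ s ^ d * (t / s - 1) := by
    rw [h1]
    nlinarith
  have h6 : s ^ d * (t / s - 1) ≤ s * (t / s - 1) :=
    mul_le_mul_of_nonneg_right h3 (by linarith)
  have h7 : s * (t / s - 1) = t - s := by
    field_simp
  linarith

open Classical in
/-- PROOF. see the board. -/
theorem exists_delete (c : ℝ) (hc : 0 < c) (hc1 : c ≤ 1) (f : ℕ → ℝ)
    (hf : ∀ᶠ n : ℕ in atTop, 1 ≤ f n)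
    (hf2 : ∀ d < c, ∀ᶠ n : ℕ in atTop, f n ≤ n * Real.exp (-(Real.log n ^ d)))
    (g : ℕ → ℝ) (hg : ∀ ε : ℝ, 0 < ε → ∀ᶠ j : ℕ in atTop, ∀ n : ℕ, 2 ^ (j - 1) ≤ n →
      n ≤ 2 ^ (j + 1) → g j ≤ ε * f n)
    (A : Set ℕ) (hA : ∀ᶠ m : ℕ in atTop, ∃ a ∈ A, m < a ∧ (a : ℝ) ≤ m + g (Nat.log 2 m)) :
    ∃ B ⊆ A, B.Infinite ∧ gapLim f B = 1 ∧ ∀ d < c, ∀ᶠ x : ℕ in atTop,
      (#{n ∈ Icc 1 x | n ∈ A ∧ n ∉ B} : ℝ) ≤ x * Real.exp (-(Real.log x ^ d)) := by
  -- thresholds
  obtain ⟨J, hJ⟩ := eventually_atTop.1 (hg 1 one_pos)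
  obtain ⟨N, hN⟩ := eventually_atTop.1 ((hf.and (hf2 0 hc)).and hA)
  set N0 : ℕ := max (max N (2 ^ (J + 1))) 16 with hN0def
  have hNN : N ≤ N0 := le_trans (le_max_left _ _) (le_max_left _ _)
  have h16 : 16 ≤ N0 := le_max_right _ _
  have hlogJ : ∀ n, N0 ≤ n → J ≤ Nat.log 2 n := by
    intro n hn
    have h1 : 2 ^ (J + 1) ≤ n := le_trans (le_trans (le_max_right _ _) (le_max_left _ _)) hn
    have h2 := Nat.le_log_of_pow_le (by norm_num : 1 < 2) h1
    omega
  have hf1 : ∀ n : ℕ, N0 ≤ n → 1 ≤ f n := fun n hn => (hN n (hNN.trans hn)).1.1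
  have hfpos : ∀ n : ℕ, N0 ≤ n → 0 < f n := fun n hn => by
    linarith [hf1 n hn]
  have hfle : ∀ n : ℕ, N0 ≤ n → f n ≤ n := by
    intro n hn
    refine ((hN n (hNN.trans hn)).1.2).trans ?_
    rw [Real.rpow_zero]
    have h1 : Real.exp (-1) ≤ 1 := by
      rw [Real.exp_le_one_iff]; norm_num
    have h2 : (0 : ℝ) ≤ n := Nat.cast_nonneg n
    nlinarith
  -- next elements of A
  have hnextA : ∀ m : ℕ, N0 ≤ m → ∃ a ∈ A, m < a ∧
      (a : ℝ) ≤ m + g (Nat.log 2 m) := fun m hm => (hN m (hNN.trans hm)).2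
  have hg1 : ∀ m n : ℕ, N0 ≤ m → 2 ^ (Nat.log 2 m - 1) ≤ n → n ≤ 2 ^ (Nat.log 2 m + 1) →
      g (Nat.log 2 m) ≤ f n := by
    intro m n hm hn hn'
    have h1 := hJ (Nat.log 2 m) (hlogJ m hm) n hn hn'
    linarith
  have hpl : ∀ m : ℕ, N0 ≤ m → 2 ^ (Nat.log 2 m - 1) ≤ m := by
    intro m hm
    calc 2 ^ (Nat.log 2 m - 1) ≤ 2 ^ Nat.log 2 m := Nat.pow_le_pow_right (by norm_num) (by omega)
      _ ≤ m := Nat.pow_log_le_self 2 (by omega)
  have hpu : ∀ m : ℕ, m ≤ 2 ^ (Nat.log 2 m + 1) := by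
    intro m
    exact (Nat.lt_pow_succ_log_self (by norm_num) m).le
  have hnextA' : ∀ m : ℕ, N0 ≤ m → ∃ a ∈ A, m < a ∧ (a : ℝ) ≤ m + f m := by
    intro m hm
    obtain ⟨a, ha, h1, h2⟩ := hnextA m hm
    refine ⟨a, ha, h1, h2.trans ?_⟩
    have h3 := hg1 m m hm (hpl m hm) (hpu m)
    linarith
  -- the points
  obtain ⟨i0, hi0⟩ : ∃ i0 : ℕ, N0 ≤ 2 ^ 2 ^ i0 :=
    ⟨N0, le_trans Nat.lt_two_pow_self.le (Nat.pow_le_pow_right (by norm_num) Nat.lt_two_pow_self.le)⟩
  have hX : ∀ i, i0 ≤ i → N0 ≤ 2 ^ 2 ^ i := fun i hi =>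
    hi0.trans (Nat.pow_le_pow_right (by norm_num) (Nat.pow_le_pow_right (by norm_num) hi))
  have hxex : ∀ i : ℕ, ∃ a : ℕ, i0 ≤ i → a ∈ A ∧ 2 ^ 2 ^ i < a ∧ a ≤ 2 * 2 ^ 2 ^ i := by
    intro i
    by_cases hi : i0 ≤ i
    · obtain ⟨a, ha, h1, h2⟩ := hnextA' _ (hX i hi)
      refine ⟨a, fun _ => ⟨ha, h1, ?_⟩⟩
      have h3 := hfle _ (hX i hi)
      have h4 : (a : ℝ) ≤ ((2 * 2 ^ 2 ^ i : ℕ) : ℝ) := by
        refine h2.trans ?_
        push_cast at h3 ⊢
        linarith
      exact_mod_cast h4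
    · exact ⟨0, fun h => absurd h hi⟩
  choose X hXp using hxex
  have hXN : ∀ i, i0 ≤ i → N0 ≤ X i := fun i hi => (hX i hi).trans (hXp i hi).2.1.le
  have hsq : ∀ i, i0 ≤ i → 16 * 2 ^ 2 ^ i ≤ 2 ^ 2 ^ (i + 1) := by
    intro i hi
    have h1 := h16.trans (hX i hi)
    calc 16 * 2 ^ 2 ^ i ≤ 2 ^ 2 ^ i * 2 ^ 2 ^ i := Nat.mul_le_mul_right _ h1
      _ = 2 ^ 2 ^ (i + 1) := by rw [← pow_add, pow_succ 2 i, mul_two]
  have hXmono : ∀ i k, i < k → 16 * 2 ^ 2 ^ i ≤ 2 ^ 2 ^ k ∨ i < i0 := by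
    intro i k hik
    by_cases hi : i0 ≤ i
    · left
      exact (hsq i hi).trans (Nat.pow_le_pow_right (by norm_num)
        (Nat.pow_le_pow_right (by norm_num) hik))
    · right; omega
  -- the set
  set B : Set ℕ := {a | a ∈ A ∧ ∀ i, i0 ≤ i → ¬ (X i < a ∧ (a : ℝ) ≤ X i + f (X i))} with hBdef
  -- windows are short
  have hwin : ∀ i, i0 ≤ i → ∀ a : ℕ, (a : ℝ) ≤ X i + f (X i) → a ≤ 4 * 2 ^ 2 ^ i := by
    intro i hi a ha
    have h1 := hfle _ (hXN i hi)
    have h2 : (a : ℝ) ≤ ((2 * X i : ℕ) : ℝ) := by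
      push_cast
      linarith
    have h3 : a ≤ 2 * X i := by exact_mod_cast h2
    have h4 := (hXp i hi).2.2
    omega
  -- a number which is between X i + f (X i) and 16 * 2 ^ 2 ^ i is not in a window
  have hfree : ∀ i, i0 ≤ i → ∀ a : ℕ, (a ≤ X i ∨ (X i : ℝ) + f (X i) < a) → 2 ^ 2 ^ i < a →
      a ≤ 16 * 2 ^ 2 ^ i → ∀ k, i0 ≤ k → ¬ (X k < a ∧ (a : ℝ) ≤ X k + f (X k)) := by
    rintro i hi a h1 h2 h3 k hk ⟨h4, h5⟩
    rcases lt_trichotomy i k with hik | hik | hik
    · have h6 := (hXmono i k hik).resolve_right (by omega)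
      have h7 := (hXp k hk).2.1
      omega
    · subst hik
      rcases h1 with h1 | h1
      · omega
      · exact absurd h5 (not_le.2 h1)
    · have h6 := (hXmono k i hik).resolve_right (by omega)
      have h7 := hwin k hk a h5
      omega
  have hXB : ∀ i, i0 ≤ i → X i ∈ B := by
    intro i hi
    refine ⟨(hXp i hi).1, hfree i hi (X i) (Or.inl le_rfl) (hXp i hi).2.1 ?_⟩
    have := (hXp i hi).2.2
    omega
  have hXge : ∀ i, i0 ≤ i → i ≤ X i := by
    intro i hi
    have h1 : i < 2 ^ i := Nat.lt_two_pow_self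
    have h2 : 2 ^ i < 2 ^ 2 ^ i := Nat.lt_two_pow_self
    have h3 := (hXp i hi).2.1
    omega
  have hBinf : B.Infinite := by
    refine Set.infinite_of_not_bddAbove ?_
    rintro ⟨m, hm⟩
    have h1 := hm (hXB (max i0 (m + 1)) (le_max_left _ _))
    have h2 := hXge (max i0 (m + 1)) (le_max_left _ _)
    have h3 := le_max_right i0 (m + 1)
    omega
  refine ⟨B, fun a ha => ha.1, hBinf, ?_, ?_⟩
  · -- the limsup
    refine u14_limsup hBinf f N0 hfpos ?_ ?_
    · intro ε hε
      obtain ⟨J2, hJ2⟩ := eventually_atTop.1 (hg ε hε)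
      filter_upwards [eventually_ge_atTop (max N0 (2 ^ (J2 + 1)))] with b hb hbB
      have hbN : N0 ≤ b := le_trans (le_max_left _ _) hb
      have hbJ : 2 ^ (J2 + 1) ≤ b := le_trans (le_max_right _ _) hb
      have hfb := hfpos b hbN
      obtain ⟨a, ha, h1, h2⟩ := hnextA' b hbN
      by_cases haB : a ∈ B
      · refine ⟨a, haB, h1, h2.trans ?_⟩
        nlinarith
      · -- `a` is in a window
        have h3 : ∃ i, i0 ≤ i ∧ X i < a ∧ (a : ℝ) ≤ X i + f (X i) := by
          by_contra hc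
          push Not at hc
          exact haB ⟨ha, fun i hi h => absurd h.2 (not_le.2 (hc i hi h.1))⟩
        obtain ⟨i, hi, h4, h5⟩ := h3
        have h6 : b ≤ X i := by
          by_contra hc
          push Not at hc
          refine hbB.2 i hi ⟨hc, le_trans ?_ h5⟩
          exact_mod_cast h1.le
        rcases h6.lt_or_eq with h7 | h7
        · refine ⟨X i, hXB i hi, h7, ?_⟩
          have h8 : (X i : ℝ) ≤ a := by exact_mod_cast h4.le
          nlinarith
        · -- `b = X i`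
          subst h7
          set m : ℕ := ⌊(X i : ℝ) + f (X i)⌋₊ with hm
          have hpos : (0 : ℝ) ≤ (X i : ℝ) + f (X i) := by positivity
          have hm1 : (m : ℝ) ≤ (X i : ℝ) + f (X i) := Nat.floor_le hpos
          have hm2 : (X i : ℝ) + f (X i) < m + 1 := Nat.lt_floor_add_one _
          have hm3 : X i ≤ m := Nat.le_floor (by linarith)
          have hmN : N0 ≤ m := hbN.trans hm3
          obtain ⟨a', ha', h8, h9⟩ := hnextA m hmN
          have hm4 : m ≤ 2 * X i := by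
            have h10 := hfle _ hbN
            have h11 : (m : ℝ) ≤ ((2 * X i : ℕ) : ℝ) := by
              push_cast
              linarith
            exact_mod_cast h11
          have h10 : (X i : ℝ) + f (X i) < a' := by
            have : ((m + 1 : ℕ) : ℝ) ≤ a' := by exact_mod_cast h8
            push_cast at this
            linarith
          -- level
          have hlev : 2 ^ (Nat.log 2 m - 1) ≤ X i := by
            have h11 : 2 ^ Nat.log 2 m ≤ m := Nat.pow_log_le_self 2 (by omega)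
            have h12 : 1 ≤ Nat.log 2 m := by
              have := Nat.le_log_of_pow_le (by norm_num : 1 < 2) (show 2 ^ 1 ≤ m by omega)
              exact this
            have h13 : 2 ^ Nat.log 2 m = 2 * 2 ^ (Nat.log 2 m - 1) := by
              rw [← pow_succ', Nat.sub_add_cancel h12]
            omega
          have hlev2 : X i ≤ 2 ^ (Nat.log 2 m + 1) := hm3.trans (hpu m)
          have h14 : g (Nat.log 2 m) ≤ ε * f (X i) := by
            have h15 : J2 ≤ Nat.log 2 m := by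
              have := Nat.le_log_of_pow_le (by norm_num : 1 < 2) (hbJ.trans hm3)
              omega
            exact hJ2 _ h15 _ hlev hlev2
          have h15 : (a' : ℝ) ≤ X i + (1 + ε) * f (X i) := by
            linarith
          have h16' : (a' : ℝ) ≤ m + f m := by
            have h17 := hg1 m m hmN (hpl m hmN) (hpu m)
            linarith
          have h17 : a' ≤ 2 * m := by
            have h18 := hfle m hmN
            have : (a' : ℝ) ≤ ((2 * m : ℕ) : ℝ) := by
              push_cast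
              linarith
            exact_mod_cast this
          refine ⟨a', ⟨ha', hfree i hi a' (Or.inr h10) ?_ ?_⟩, ?_, h15⟩
          · have := (hXp i hi).2.1
            omega
          · have := (hXp i hi).2.2
            omega
          · omega
    · intro m
      refine ⟨X (max i0 m), hXB _ (le_max_left _ _),
        le_trans (le_max_right i0 m) (hXge _ (le_max_left _ _)), ?_⟩
      intro b' hb' hlt
      by_contra hc
      push Not at hc
      exact hb'.2 _ (le_max_left _ _) ⟨hlt, hc.le⟩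
  · -- the number of the deleted elements
    intro d hd
    have hl2 : 0 < Real.log 2 := Real.log_pos (by norm_num)
    have hBm : ∀ n, n ∈ A → n ∉ B → ∃ i, i0 ≤ i ∧ X i < n ∧ (n : ℝ) ≤ X i + f (X i) := by
      intro n hnA hnB
      by_contra hc
      push Not at hc
      exact hnB ⟨hnA, fun i hi h => absurd h.2 (not_le.2 (hc i hi h.1))⟩
    clear_value B
    set d₀ : ℝ := max d (c / 2) with hd0def
    have hd0pos : 0 < d₀ := lt_of_lt_of_le (by linarith) (le_max_right _ _)
    have hd0c : d₀ < c := max_lt hd (by linarith)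
    have hdd0 : d ≤ d₀ := le_max_left _ _
    set d' : ℝ := (d₀ + c) / 2 with hd'def
    have hd01 : d₀ < d' := by rw [hd'def]; linarith
    have hd'c : d' < c := by rw [hd'def]; linarith
    have hd'1 : d' ≤ 1 := by linarith
    obtain ⟨N1, hN1⟩ := eventually_atTop.1 (hf2 d' hd'c)
    set N2 : ℕ := N1 + 3 with hN2
    have hgr := u14_growth (4 * N2) d₀ d' (by positivity) hd0pos hd01
    have htl : Tendsto (fun x : ℕ => Real.log x) atTop atTop :=
      Real.tendsto_log_atTop.comp tendsto_natCast_atTop_atTop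
    filter_upwards [htl.eventually hgr, htl.eventually_ge_atTop 1, eventually_ge_atTop 3]
      with x hx1 hx2 hx3
    set L : ℝ := Real.log x with hL
    have hxpos : (0 : ℝ) < x := by
      have : 0 < x := by omega
      exact_mod_cast this
    have hexL : Real.exp L = x := Real.exp_log hxpos
    refine (?_ : ∀ S : Finset ℕ, (∀ n ∈ S, (1 ≤ n ∧ n ≤ x) ∧ n ∈ A ∧ n ∉ B) →
      (#S : ℝ) ≤ x * Real.exp (-(L ^ d))) _ (fun n hn => by
        rw [mem_filter, mem_Icc] at hn
        exact hn)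
    intro S hS
    have hsub : S ⊆
        ((range (Nat.log 2 x)).filter (fun i => i0 ≤ i ∧ X i < x)).biUnion
          (fun i => Ioc (X i) (X i + ⌊f (X i)⌋₊)) := by
      intro n hn
      obtain ⟨⟨hn1, hnx⟩, hnA, hnB⟩ := hS n hn
      obtain ⟨i, hi, h4, h5⟩ := hBm n hnA hnB
      rw [mem_biUnion]
      refine ⟨i, ?_, ?_⟩
      · rw [mem_filter, mem_range]
        refine ⟨?_, hi, by omega⟩
        have h6 : 2 ^ 2 ^ i ≤ x := by
          have := (hXp i hi).2.1
          omega
        have h7 := Nat.le_log_of_pow_le (by norm_num : 1 < 2) h6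
        have h8 : i < 2 ^ i := Nat.lt_two_pow_self
        omega
      · rw [mem_Ioc]
        refine ⟨h4, ?_⟩
        have h6 : n - X i ≤ ⌊f (X i)⌋₊ := by
          apply Nat.le_floor
          rw [Nat.cast_sub h4.le]
          linarith
        omega
    have hcard := (card_le_card hsub).trans (card_biUnion_le)
    set E : ℝ := x * Real.exp (-(L ^ d')) with hE
    have hEpos : 0 < E := by positivity
    have hsx : ∀ i ∈ ((range (Nat.log 2 x)).filter (fun i => i0 ≤ i ∧ X i < x)),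
        ((#(Ioc (X i) (X i + ⌊f (X i)⌋₊)) : ℕ) : ℝ) ≤ N2 + E := by
      intro i hi
      rw [mem_filter] at hi
      rw [Nat.card_Ioc, Nat.add_sub_cancel_left]
      have h1 := hXN i hi.2.1
      have h2 : ((⌊f (X i)⌋₊ : ℕ) : ℝ) ≤ f (X i) := Nat.floor_le (hfpos _ h1).le
      refine h2.trans ?_
      by_cases hXs : X i < N2
      · have h3 := hfle _ h1
        have h4 : (X i : ℝ) ≤ N2 := by exact_mod_cast hXs.le
        linarith
      · push Not at hXs
        have h3 := hN1 (X i) (by omega)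
        have h4 : (3 : ℝ) ≤ X i := by
          have : 3 ≤ X i := by omega
          exact_mod_cast this
        have h5 : 1 ≤ Real.log (X i) := by
          rw [Real.le_log_iff_exp_le (by linarith)]
          linarith [Real.exp_one_lt_d9]
        have h6 : Real.log (X i) ≤ L := by
          apply Real.log_le_log (by linarith)
          exact_mod_cast hi.2.2.le
        have h7 := u14_mono d' _ _ hd'1 h5 h6
        have h8 : (X i : ℝ) * Real.exp (-(Real.log (X i) ^ d')) ≤ E := by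
          rw [hE]
          have e1 : (X i : ℝ) = Real.exp (Real.log (X i)) := (Real.exp_log (by linarith)).symm
          calc (X i : ℝ) * Real.exp (-(Real.log (X i) ^ d'))
              = Real.exp (Real.log (X i) - Real.log (X i) ^ d') := by
                rw [sub_eq_add_neg, Real.exp_add, ← e1]
            _ ≤ Real.exp (L - L ^ d') := Real.exp_le_exp.2 h7
            _ = x * Real.exp (-(L ^ d')) := by
                rw [sub_eq_add_neg, Real.exp_add, hexL]
        have h9 : (0 : ℝ) ≤ N2 := Nat.cast_nonneg _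
        linarith
    have h1 : ((#S : ℕ) : ℝ) ≤ Nat.log 2 x * (N2 + E) := by
      calc ((#S : ℕ) : ℝ)
          ≤ ((∑ i ∈ ((range (Nat.log 2 x)).filter (fun i => i0 ≤ i ∧ X i < x)),
            #(Ioc (X i) (X i + ⌊f (X i)⌋₊)) : ℕ) : ℝ) := by exact_mod_cast hcard
        _ = ∑ i ∈ ((range (Nat.log 2 x)).filter (fun i => i0 ≤ i ∧ X i < x)),
            ((#(Ioc (X i) (X i + ⌊f (X i)⌋₊)) : ℕ) : ℝ) := by push_cast; rfl
        _ ≤ ∑ i ∈ ((range (Nat.log 2 x)).filter (fun i => i0 ≤ i ∧ X i < x)), ((N2 : ℝ) + E) :=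
            Finset.sum_le_sum hsx
        _ = (#((range (Nat.log 2 x)).filter (fun i => i0 ≤ i ∧ X i < x)) : ℝ) * (N2 + E) := by
            rw [Finset.sum_const, nsmul_eq_mul]
        _ ≤ Nat.log 2 x * (N2 + E) := by
            refine mul_le_mul_of_nonneg_right ?_ (by positivity)
            have := card_filter_le (range (Nat.log 2 x)) (fun i => i0 ≤ i ∧ X i < x)
            rw [card_range] at this
            exact_mod_cast this
    have hlog : (Nat.log 2 x : ℝ) ≤ 2 * L := by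
      have h1 : 2 ^ Nat.log 2 x ≤ x := Nat.pow_log_le_self 2 (by omega)
      have h2 : ((2 : ℝ)) ^ Nat.log 2 x ≤ x := by exact_mod_cast h1
      have h3 := Real.log_le_log (by positivity) h2
      rw [Real.log_pow] at h3
      have h4 : (1 / 2 : ℝ) < Real.log 2 := by linarith [Real.log_two_gt_d9]
      have h5 : (0 : ℝ) ≤ Nat.log 2 x := Nat.cast_nonneg _
      nlinarith
    -- assemble
    have hL0 : 0 < L := by linarith
    have hN2pos : (1 : ℝ) ≤ N2 := by
      have : 1 ≤ N2 := by omega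
      exact_mod_cast this
    have hE1 : 1 ≤ E := by
      rw [hE, ← hexL, ← Real.exp_add]
      apply Real.one_le_exp
      have : L ^ d' ≤ L := by
        calc L ^ d' ≤ L ^ (1 : ℝ) := Real.rpow_le_rpow_of_exponent_le hx2 hd'1
          _ = L := Real.rpow_one _
      linarith
    have h2 : (N2 : ℝ) + E ≤ 2 * N2 * E := by
      nlinarith
    have h3 : Nat.log 2 x * ((N2 : ℝ) + E) ≤ 4 * N2 * L * E := by
      calc (Nat.log 2 x : ℝ) * ((N2 : ℝ) + E) ≤ (2 * L) * (2 * N2 * E) := by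
            apply mul_le_mul hlog h2 (by positivity) (by positivity)
        _ = 4 * N2 * L * E := by ring
    have h4 : 4 * (N2 : ℝ) * L * E ≤ Real.exp (L ^ d' - L ^ d₀) * E :=
      mul_le_mul_of_nonneg_right hx1 hEpos.le
    have h5 : Real.exp (L ^ d' - L ^ d₀) * E = x * Real.exp (-(L ^ d₀)) := by
      rw [hE, ← hexL, ← Real.exp_add, ← Real.exp_add, ← Real.exp_add]
      congr 1
      ring
    have h6 : L ^ d ≤ L ^ d₀ := Real.rpow_le_rpow_of_exponent_le hx2 hdd0
    have h7 : (x : ℝ) * Real.exp (-(L ^ d₀)) ≤ x * Real.exp (-(L ^ d)) := by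
      apply mul_le_mul_of_nonneg_left _ hxpos.le
      apply Real.exp_le_exp.2
      linarith
    linarith

end Pool.Agent.LibUHL
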