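import Pool.Agent.LibUHL.Defs

/-! Row UH 15: the lengths of the cells. -/

set_option autoImplicit false

namespace Pool.Agent.LibUHL

open Finset Filter Topology MeasureTheory

theorem u15_nat (k : ℕ) (hk : 3 ≤ k) : 16 * (k + 1) ^ 2 ≤ 2 ^ (3 * k) := by
  induction k, hk using Nat.le_induction with
  | base => norm_num
  | succ n hn ih =>
    have h1 : 2 ^ (3 * (n + 1)) = 8 * 2 ^ (3 * n) := by
      rw [show 3 * (n + 1) = 3 + 3 * n by ring, pow_add]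
      norm_num
    rw [h1]
    nlinarith

theorem u15_sq (j : ℕ) (hj : 12 ≤ j) : j ^ 2 ≤ 2 ^ (j - j / 4) := by
  have h1 : 3 ≤ j / 4 := by omega
  have h2 := u15_nat (j / 4) h1
  have h3 : j ≤ 4 * (j / 4 + 1) := by omega
  calc j ^ 2 ≤ (4 * (j / 4 + 1)) ^ 2 := Nat.pow_le_pow_left h3 2
    _ = 16 * (j / 4 + 1) ^ 2 := by ring
    _ ≤ 2 ^ (3 * (j / 4)) := h2
    _ ≤ 2 ^ (j - j / 4) := Nat.pow_le_pow_right (by norm_num) (by omega)

theorem u15_ev1 (e d' : ℝ) (hd : e < d') (he : 0 ≤ e) : ∀ᶠ j : ℕ in atTop,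
    2 * (j : ℝ) ^ (1 + e) + 2 ≤ ((j : ℝ) / 4) ^ (1 + d') / Real.log j := by
  have hδ : 0 < d' - e := by linarith
  have hK : 0 < (4 : ℝ) ^ (1 + d') := Real.rpow_pos_of_pos (by norm_num) _
  have h1 := ((isLittleO_log_rpow_atTop hδ).comp_tendsto (tendsto_natCast_atTop_atTop (R := ℝ)))
  have h2 := (Asymptotics.isLittleO_iff.1 h1) (show 0 < 1 / (4 * (4 : ℝ) ^ (1 + d')) by positivity)
  filter_upwards [h2, eventually_ge_atTop 2] with j hj1 hj2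
  have hj : (2 : ℝ) ≤ j := by exact_mod_cast hj2
  have hj0 : (0 : ℝ) < j := by linarith
  have hlog : 0 < Real.log j := Real.log_pos (by linarith)
  simp only [Function.comp_apply, Real.norm_eq_abs] at hj1
  rw [abs_of_pos hlog, abs_of_pos (Real.rpow_pos_of_pos hj0 _)] at hj1
  rw [le_div_iff₀ hlog, Real.div_rpow hj0.le (by norm_num)]
  have h3 : (1 : ℝ) ≤ (j : ℝ) ^ (1 + e) := Real.one_le_rpow (by linarith) (by linarith)
  have h4 : (j : ℝ) ^ (1 + e) * (j : ℝ) ^ (d' - e) = (j : ℝ) ^ (1 + d') := by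
    rw [← Real.rpow_add hj0]
    ring_nf
  calc (2 * (j : ℝ) ^ (1 + e) + 2) * Real.log j ≤ (4 * (j : ℝ) ^ (1 + e)) * Real.log j :=
        mul_le_mul_of_nonneg_right (by linarith) hlog.le
    _ ≤ (4 * (j : ℝ) ^ (1 + e)) * (1 / (4 * (4 : ℝ) ^ (1 + d')) * (j : ℝ) ^ (d' - e)) :=
        mul_le_mul_of_nonneg_left hj1 (by positivity)
    _ = ((j : ℝ) ^ (1 + e) * (j : ℝ) ^ (d' - e)) / (4 : ℝ) ^ (1 + d') := by
        field_simp
    _ = (j : ℝ) ^ (1 + d') / (4 : ℝ) ^ (1 + d') := by rw [h4]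

theorem u15_ev2 (e : ℝ) (he : e < 1) (he0 : 0 ≤ e) : ∀ᶠ j : ℕ in atTop,
    2 * (j : ℝ) ^ (1 + e) + 2 ≤ (j : ℝ) ^ 2 := by
  have h1 := (tendsto_rpow_atTop (show 0 < 1 - e by linarith)).comp (tendsto_natCast_atTop_atTop (R := ℝ))
  filter_upwards [h1.eventually_ge_atTop 4, eventually_ge_atTop 2] with j hj1 hj2
  have hj : (2 : ℝ) ≤ j := by exact_mod_cast hj2
  have hj0 : (0 : ℝ) < j := by linarith
  simp only [Function.comp_apply] at hj1
  have h3 : (1 : ℝ) ≤ (j : ℝ) ^ (1 + e) := Real.one_le_rpow (by linarith) (by linarith)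
  have h4 : (j : ℝ) ^ (1 + e) * (j : ℝ) ^ (1 - e) = (j : ℝ) ^ 2 := by
    rw [← Real.rpow_add hj0, ← Real.rpow_natCast]
    norm_num
  calc 2 * (j : ℝ) ^ (1 + e) + 2 ≤ (j : ℝ) ^ (1 + e) * 4 := by linarith
    _ ≤ (j : ℝ) ^ (1 + e) * (j : ℝ) ^ (1 - e) := mul_le_mul_of_nonneg_left hj1 (by linarith)
    _ = (j : ℝ) ^ 2 := h4

/-- PROOF. Let `φ j = min_{2^(j-2) ≤ n ≤ 2^(j+2)} f n` (a finite minimum) and
`y j = min (φ j / Real.log j) (j^2)`. Put `β j = min (Nat.log 2 ⌊y j⌋₊) (j - j/4)`,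
`b j = 2^(β j)`; it divides `NB j = 2^(j - j/4)`. For `d < c`, `d < d' < c` and large `j`:
`f n ≥ (log n)^(1+d') ≥ ((j-2) log 2)^(1+d') ≥ (j/4)^(1+d')` for the `n` in question, so
`y j ≥ 2 j^(1+d) + 2` for large `j` (also because `c ≤ 1`, `j^2 ≥ 2 j^(1+d) + 2`), hence
`b j ≥ j^(1+d)` (`2^(Nat.log 2 N) > N/2`; and `2^(j - j/4) ≥ j^2`). Finally
`b j ≤ y j ≤ φ j / log j ≤ ε φ j` for large `j` (as soon as `⌊y j⌋ ≥ 1`, `φ j > 0`). -/
theorem exists_b (c : ℝ) (hc0 : 0 < c) (hc1 : c ≤ 1) (f : ℕ → ℝ)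
    (hf : ∀ d < c, ∀ᶠ n : ℕ in atTop, Real.log n ^ (1 + d) ≤ f n) :
    ∃ b : ℕ → ℕ, (∀ j, 0 < b j ∧ b j ∣ NB j) ∧
      (∀ d < c, ∀ᶠ j : ℕ in atTop, (j : ℝ) ^ (1 + d) ≤ b j) ∧
      ∀ ε : ℝ, 0 < ε → ∀ᶠ j : ℕ in atTop, ∀ n : ℕ, 2 ^ (j - 2) ≤ n → n ≤ 2 ^ (j + 2) →
        (b j : ℝ) ≤ ε * f n := by
  classical
  have hne : ∀ j : ℕ, (Icc (2 ^ (j - 2)) (2 ^ (j + 2))).Nonempty := fun j =>
    Finset.nonempty_Icc.2 (Nat.pow_le_pow_right (by norm_num) (by omega))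
  obtain ⟨φ, hφ⟩ : ∃ φ : ℕ → ℝ, ∀ j, φ j = (Icc (2 ^ (j - 2)) (2 ^ (j + 2))).inf' (hne j) f :=
    ⟨fun j => (Icc (2 ^ (j - 2)) (2 ^ (j + 2))).inf' (hne j) f, fun _ => rfl⟩
  have hφle : ∀ j n : ℕ, 2 ^ (j - 2) ≤ n → n ≤ 2 ^ (j + 2) → φ j ≤ f n := fun j n h1 h2 => by
    rw [hφ]
    exact Finset.inf'_le _ (Finset.mem_Icc.2 ⟨h1, h2⟩)
  obtain ⟨y, hy⟩ : ∃ y : ℕ → ℝ, ∀ j, y j = min (φ j / Real.log j) ((j : ℝ) ^ 2) := ⟨_, fun _ => rfl⟩
  -- the lower bound for `φ`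
  have hφge : ∀ d' : ℝ, 0 ≤ d' → d' < c → ∀ᶠ j : ℕ in atTop, ((j : ℝ) / 4) ^ (1 + d') ≤ φ j := by
    intro d' hd0 hd'
    obtain ⟨N, hN⟩ := eventually_atTop.1 (hf d' hd')
    filter_upwards [eventually_ge_atTop (N + 4)] with j hj
    rw [hφ]
    refine (Finset.le_inf'_iff _ _).2 fun n hn => ?_
    obtain ⟨hn1, hn2⟩ := Finset.mem_Icc.1 hn
    have hjn : j - 2 < 2 ^ (j - 2) := Nat.lt_two_pow_self
    refine le_trans ?_ (hN n (by omega))
    have h4 : (j : ℝ) / 4 ≤ Real.log n := by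
      have h5 : Real.log ((2 : ℝ) ^ (j - 2)) ≤ Real.log n := by
        refine Real.log_le_log (by positivity) ?_
        exact_mod_cast hn1
      rw [Real.log_pow] at h5
      have h6 : ((j - 2 : ℕ) : ℝ) = (j : ℝ) - 2 := by
        rw [Nat.cast_sub (by omega)]
        norm_num
      rw [h6] at h5
      have h7 := Real.log_two_gt_d9
      have h8 : (4 : ℝ) ≤ j := by exact_mod_cast (by omega : 4 ≤ j)
      nlinarith
    exact Real.rpow_le_rpow (by positivity) h4 (by linarith)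
  -- the lower bound for `y`
  have hyge : ∀ e : ℝ, 0 ≤ e → e < c → ∀ᶠ j : ℕ in atTop, 2 * (j : ℝ) ^ (1 + e) + 2 ≤ y j := by
    intro e he0 he
    filter_upwards [hφge ((e + c) / 2) (by linarith) (by linarith),
      u15_ev1 e ((e + c) / 2) (by linarith) he0, u15_ev2 e (by linarith) he0,
      eventually_ge_atTop 2] with j h1 h2 h3 h4
    rw [hy]
    refine le_min ?_ h3
    have hj : (2 : ℝ) ≤ j := by exact_mod_cast h4
    have hlog : 0 < Real.log j := Real.log_pos (by linarith)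
    exact le_trans h2 (div_le_div_of_nonneg_right h1 hlog.le)
  refine ⟨fun j => 2 ^ min (Nat.log 2 ⌊y j⌋₊) (j - j / 4), fun j => ⟨by positivity, ?_⟩, ?_, ?_⟩
  · exact pow_dvd_pow 2 (min_le_right _ _)
  · intro d hd
    have he : max d 0 < c := max_lt hd hc0
    filter_upwards [hyge (max d 0) (le_max_right _ _) he, u15_ev2 (max d 0) (by linarith) (le_max_right _ _),
      eventually_ge_atTop 12] with j h1 h2 h3
    have hj : (12 : ℝ) ≤ j := by exact_mod_cast h3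
    have h4 : (j : ℝ) ^ (1 + d) ≤ (j : ℝ) ^ (1 + max d 0) :=
      Real.rpow_le_rpow_of_exponent_le (by linarith) (by linarith [le_max_left d 0])
    have h5 : (0 : ℝ) ≤ (j : ℝ) ^ (1 + max d 0) := Real.rpow_nonneg (by linarith) _
    refine le_trans h4 ?_
    rcases le_total (Nat.log 2 ⌊y j⌋₊) (j - j / 4) with h6 | h6
    · simp only [min_eq_left h6]
      have h7 : ⌊y j⌋₊ < 2 ^ (Nat.log 2 ⌊y j⌋₊ + 1) := Nat.lt_pow_succ_log_self (by norm_num) _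
      have h8 : (⌊y j⌋₊ : ℝ) < 2 * ((2 ^ Nat.log 2 ⌊y j⌋₊ : ℕ) : ℝ) := by
        rw [pow_succ, mul_comm] at h7
        exact_mod_cast h7
      have h9 : y j < ⌊y j⌋₊ + 1 := Nat.lt_floor_add_one _
      linarith
    · simp only [min_eq_right h6]
      have h7 := u15_sq j h3
      have h8 : ((j : ℝ)) ^ 2 ≤ ((2 ^ (j - j / 4) : ℕ) : ℝ) := by exact_mod_cast h7
      linarith
  · intro ε hε
    have hl := (Real.tendsto_log_atTop).comp (tendsto_natCast_atTop_atTop (R := ℝ))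
    filter_upwards [hyge 0 le_rfl hc0, hl.eventually_ge_atTop (1 / ε), eventually_ge_atTop 2] with j h1 h2 h3 n hn1 hn2
    simp only [Function.comp_apply] at h2
    have hj : (2 : ℝ) ≤ j := by exact_mod_cast h3
    have hlog : 0 < Real.log j := Real.log_pos (by linarith)
    have h5 : (0 : ℝ) ≤ (j : ℝ) ^ (1 + (0 : ℝ)) := Real.rpow_nonneg (by linarith) _
    have hy2 : 2 ≤ y j := by linarith
    have hfl : ⌊y j⌋₊ ≠ 0 := by
      have : 1 ≤ ⌊y j⌋₊ := Nat.le_floor (by push_cast; linarith)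
      omega
    have h6 : ((2 ^ min (Nat.log 2 ⌊y j⌋₊) (j - j / 4) : ℕ) : ℝ) ≤ y j := by
      have h7 : 2 ^ min (Nat.log 2 ⌊y j⌋₊) (j - j / 4) ≤ ⌊y j⌋₊ :=
        le_trans (Nat.pow_le_pow_right (by norm_num) (min_le_left _ _)) (Nat.pow_log_le_self 2 hfl)
      calc ((2 ^ min (Nat.log 2 ⌊y j⌋₊) (j - j / 4) : ℕ) : ℝ) ≤ (⌊y j⌋₊ : ℝ) := by exact_mod_cast h7
        _ ≤ y j := Nat.floor_le (by linarith)
    have h8 : y j ≤ φ j / Real.log j := by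
      rw [hy]
      exact min_le_left _ _
    have hφpos : 0 < φ j := by
      by_contra hcon
      push Not at hcon
      have : φ j / Real.log j ≤ 0 := div_nonpos_of_nonpos_of_nonneg hcon hlog.le
      linarith
    have h9 : φ j / Real.log j ≤ ε * φ j := by
      rw [div_le_iff₀ hlog]
      have h10 : 1 ≤ ε * Real.log j := by
        rw [div_le_iff₀ hε] at h2
        linarith
      nlinarith
    have h11 : ε * φ j ≤ ε * f n := mul_le_mul_of_nonneg_left (hφle j n hn1 hn2) hε.le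
    exact le_trans h6 (le_trans h8 (le_trans h9 h11))

end Pool.Agent.LibUHL
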