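import Pool.Agent.LibUHL.U13
import Pool.Agent.LibUHL.U14
import Pool.Agent.LibUHL.U15

/-! Row UH 16: the theorem. -/

set_option autoImplicit false

namespace Pool.Agent.LibUHL

open Finset Filter Topology MeasureTheory

open scoped ENNReal

theorem uh16a_next (b : ℕ → ℕ) (hb : ∀ j, 0 < b j ∧ b j ∣ NB j) (A : Set ℕ) (J : ℕ)
    (hJ : ∀ j, J ≤ j → ∀ k, 2 ^ j ≤ k * b j → (k + 1) * b j ≤ 2 ^ (j + 1) →
      ∃ n ∈ A, k * b j ≤ n ∧ n < (k + 1) * b j) (m : ℕ) (hm : m ≠ 0) (hmJ : J ≤ Nat.log 2 m) :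
    ∃ a ∈ A, m < a ∧ a ≤ m + (2 * b (Nat.log 2 m) + b (Nat.log 2 m + 1)) := by
  have hdvd : ∀ j, b j ∣ 2 ^ j := fun j => (hb j).2.trans (pow_dvd_pow 2 (Nat.sub_le _ _))
  have h1 : 2 ^ Nat.log 2 m ≤ m := Nat.pow_log_le_self 2 hm
  have h2 : m < 2 ^ (Nat.log 2 m + 1) := Nat.lt_pow_succ_log_self (by norm_num) m
  generalize Nat.log 2 m = j at hmJ h1 h2
  have hbj := (hb j).1
  have hk1 : m < (m / b j + 1) * b j := by
    have := Nat.lt_div_mul_add hbj (a := m)
    rw [add_mul, one_mul]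
    exact this
  have hk2 : (m / b j + 1) * b j ≤ m + b j := by
    rw [add_mul, one_mul]
    exact Nat.add_le_add_right (Nat.div_mul_le_self m (b j)) _
  by_cases hcase : (m / b j + 1 + 1) * b j ≤ 2 ^ (j + 1)
  · obtain ⟨n, hn, hn1, hn2⟩ := hJ j hmJ (m / b j + 1) (by omega) hcase
    refine ⟨n, hn, by omega, ?_⟩
    rw [add_mul _ 1, one_mul] at hn2
    omega
  · have hbj1 := (hb (j + 1)).1
    obtain ⟨N, hN⟩ : b j ∣ 2 ^ (j + 1) := (hdvd j).trans (pow_dvd_pow 2 (Nat.le_succ j))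
    have hkN : m / b j + 1 ≤ N := by
      have : m / b j < N := by
        rw [Nat.div_lt_iff_lt_mul hbj, mul_comm, ← hN]
        exact h2
      omega
    have hkN2 : N ≤ m / b j + 1 := by
      by_contra hcon
      push Not at hcon
      refine hcase ?_
      rw [hN, mul_comm (b j) N]
      exact Nat.mul_le_mul_right _ hcon
    have hkeq : (m / b j + 1) * b j = 2 ^ (j + 1) := by
      rw [le_antisymm hkN hkN2, hN, mul_comm]
    obtain ⟨k', hk'⟩ := hdvd (j + 1)
    have hb2 : b (j + 1) ≤ 2 ^ (j + 1) := Nat.le_of_dvd (by positivity) (hdvd (j + 1))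
    have hk'' : k' * b (j + 1) = 2 ^ (j + 1) := by rw [hk', mul_comm]
    obtain ⟨n, hn, hn1, hn2⟩ := hJ (j + 1) (by omega) k' (le_of_eq hk''.symm) (by
      rw [add_mul, one_mul, hk'', pow_succ 2 (j + 1)]
      omega)
    rw [add_mul, one_mul] at hn2
    refine ⟨n, hn, by omega, by omega⟩

/-- PROOF. `b` from `exists_b`, `A` from `exists_base`. For large `m` and `j = Nat.log 2 m` let
`k = m / b j + 1`; `b j` divides `2^j` and `2^(j+1)` (it divides `NB j`, a power of `2` which divides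
`2^j`). If `(k+1) b j ≤ 2^(j+1)`, there is `a ∈ A` with `k b j ≤ a < (k+1) b j`, so
`m < a ≤ m + 2 b j`. Otherwise `k b j = 2^(j+1)` (as `m < 2^(j+1)`), and the first cell of the scale
`j+1` contains an `a ∈ A` with `m < 2^(j+1) ≤ a < 2^(j+1) + b (j+1) ≤ m + b j + b (j+1)`. So
`g j = 2 b j + b (j+1)` works in `exists_delete` (`hg` from the last property of `b` at `j` and
`j + 1` with `ε/3`; `1 ≤ f n` from `hf` with `d = 0`, `log n ≥ 1`). Let `B` be the set from
`exists_delete`; `n ∈ A ↔ n ∈ B` fails only for `n ∈ A \ B`, so `modify` gives the law for `B`. -/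
theorem every_gap (c : ℝ) (hc0 : 0 < c) (hc1 : c ≤ 1) (f : ℕ → ℝ)
    (hf : ∀ d < c, ∀ᶠ n : ℕ in atTop, Real.log n ^ (1 + d) ≤ f n ∧
      f n ≤ n * Real.exp (-(Real.log n ^ d))) :
    ∃ B : Set ℕ, B.Infinite ∧ (∀ d < c, UHL d B) ∧ gapLim f B = 1 := by
  classical
  obtain ⟨b, hb1, hb2, hb3⟩ := exists_b c hc0 hc1 f (fun d hd => (hf d hd).mono fun n hn => hn.1)
  obtain ⟨A, hA1, J, hJ⟩ := exists_base c hc0 hc1 b hb1 hb2
  have hlog : Tendsto (fun n : ℕ => Real.log n) atTop atTop :=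
    Real.tendsto_log_atTop.comp (tendsto_natCast_atTop_atTop (R := ℝ))
  have hf1 : ∀ᶠ n : ℕ in atTop, 1 ≤ f n := by
    filter_upwards [hf 0 hc0, hlog.eventually_ge_atTop 1] with n h1 h2
    rw [add_zero, Real.rpow_one] at h1
    linarith [h1.1]
  have hg : ∀ ε : ℝ, 0 < ε → ∀ᶠ j : ℕ in atTop, ∀ n : ℕ, 2 ^ (j - 1) ≤ n →
      n ≤ 2 ^ (j + 1) → (2 * (b j : ℝ) + b (j + 1)) ≤ ε * f n := by
    intro ε hε
    filter_upwards [hb3 (ε / 3) (by positivity), (tendsto_add_atTop_nat 1).eventually (hb3 (ε / 3) (by positivity)),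
      eventually_ge_atTop 2] with j h1 h2 h3 n hn1 hn2
    have h4 := h1 n (le_trans (Nat.pow_le_pow_right (by norm_num) (by omega)) hn1)
      (le_trans hn2 (Nat.pow_le_pow_right (by norm_num) (by omega)))
    have h5 := h2 n (by
      rw [show j + 1 - 2 = j - 1 by omega]
      exact hn1) (le_trans hn2 (Nat.pow_le_pow_right (by norm_num) (by omega)))
    linarith
  have htl : Tendsto (fun j : ℕ => Nat.log 2 j) atTop atTop :=
    tendsto_atTop_atTop.2 fun b => ⟨2 ^ b, fun _ ha => Nat.le_log_of_pow_le one_lt_two ha⟩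
  obtain ⟨B, hBA, hBinf, hgap, hcnt⟩ := exists_delete c hc0 hc1 f hf1 (fun d hd => (hf d hd).mono fun n hn => hn.2)
    (fun j => 2 * (b j : ℝ) + b (j + 1)) hg A (by
      filter_upwards [htl.eventually_ge_atTop J, eventually_ge_atTop 1] with m h1 h2
      obtain ⟨a, ha, hma, hle⟩ := uh16a_next b hb1 A J hJ m (by omega) h1
      exact ⟨a, ha, hma, by exact_mod_cast hle⟩)
  refine ⟨B, hBinf, modify c hc0 A B (fun d hd => ?_) hA1, hgap⟩
  filter_upwards [hcnt d hd] with x hx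
  refine le_trans (le_of_eq ?_) hx
  congr 2
  refine Finset.filter_congr fun n _ => ?_
  constructor
  · intro h
    by_cases hA : n ∈ A
    · exact ⟨hA, fun hB => h ⟨fun _ => hB, fun _ => hA⟩⟩
    · exact absurd ⟨fun h' => absurd h' hA, fun hB => hBA hB⟩ h
  · rintro ⟨h1, h2⟩ h
    exact h2 (h.1 h1)

theorem uh16b_log : Tendsto (fun n : ℕ => Real.log n) atTop atTop :=
  Real.tendsto_log_atTop.comp (tendsto_natCast_atTop_atTop (R := ℝ))

theorem uh16b_up (d : ℝ) (hd : d < 1) (C : ℝ) :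
    ∀ᶠ n : ℕ in atTop, C * Real.log n ^ 3 ≤ n * Real.exp (-(Real.log n ^ d)) := by
  have h1 : ∀ᶠ L : ℝ in atTop, C * L ^ 3 ≤ Real.exp L * Real.exp (-(L ^ d)) := by
    have h2 := (tendsto_rpow_atTop (show 0 < 1 - d by linarith)).eventually_ge_atTop 2
    have hhalf : Tendsto (fun L : ℝ => L / 2) atTop atTop :=
      tendsto_id.atTop_div_const (by norm_num)
    have h3 := ((Real.isLittleO_pow_exp_atTop (n := 3)).comp_tendsto hhalf)
    have h4 := (Asymptotics.isLittleO_iff.1 h3) (show 0 < 1 / (8 * (|C| + 1)) by positivity)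
    filter_upwards [h2, h4, eventually_ge_atTop 1] with L hL2 hL4 hL1
    have hL0 : 0 < L := by linarith
    simp only [Function.comp_apply, Real.norm_eq_abs] at hL4
    rw [abs_of_nonneg (by positivity), abs_of_nonneg (Real.exp_pos _).le] at hL4
    have h5 : L ^ d ≤ L / 2 := by
      have h6 : L ^ d * L ^ (1 - d) = L := by
        rw [← Real.rpow_add hL0]
        norm_num
      have h7 : 0 < L ^ d := Real.rpow_pos_of_pos hL0 _
      nlinarith
    have h8 : Real.exp (L / 2) ≤ Real.exp L * Real.exp (-(L ^ d)) := by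
      rw [← Real.exp_add]
      exact Real.exp_le_exp.2 (by linarith)
    refine le_trans ?_ h8
    have h9 : L ^ 3 ≤ 1 / (|C| + 1) * Real.exp (L / 2) := by
      have h10 : (L / 2) ^ 3 = L ^ 3 / 8 := by ring
      rw [h10] at hL4
      have h11 : 1 / (8 * (|C| + 1)) * Real.exp (L / 2) = (1 / (|C| + 1) * Real.exp (L / 2)) / 8 := by
        field_simp
      rw [h11] at hL4
      linarith
    calc C * L ^ 3 ≤ |C| * L ^ 3 := mul_le_mul_of_nonneg_right (le_abs_self _) (by positivity)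
      _ ≤ (|C| + 1) * L ^ 3 := mul_le_mul_of_nonneg_right (by linarith) (by positivity)
      _ ≤ (|C| + 1) * (1 / (|C| + 1) * Real.exp (L / 2)) := mul_le_mul_of_nonneg_left h9 (by positivity)
      _ = Real.exp (L / 2) := by field_simp
  filter_upwards [uh16b_log.eventually h1, eventually_ge_atTop 1] with n hn hn1
  rwa [Real.exp_log (by exact_mod_cast hn1)] at hn

theorem uh16b_low (d : ℝ) (hd : d < 1) (a : ℝ) (ha : 0 < a) :
    ∀ᶠ n : ℕ in atTop, Real.log n ^ (1 + d) ≤ a * Real.log n ^ 2 := by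
  have h2 := ((tendsto_rpow_atTop (show 0 < 1 - d by linarith)).comp uh16b_log).eventually_ge_atTop (1 / a)
  filter_upwards [h2, uh16b_log.eventually_ge_atTop 1] with n h1 h3
  simp only [Function.comp_apply] at h1
  have hL0 : 0 < Real.log n := by linarith
  have h4 : Real.log n ^ (1 + d) * Real.log n ^ (1 - d) = Real.log n ^ 2 := by
    rw [← Real.rpow_add hL0, ← Real.rpow_natCast]
    norm_num
  have h5 : 0 < Real.log n ^ (1 + d) := Real.rpow_pos_of_pos hL0 _
  have h6 : 1 ≤ a * Real.log n ^ (1 - d) := by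
    rw [div_le_iff₀ ha] at h1
    linarith
  calc Real.log n ^ (1 + d) = Real.log n ^ (1 + d) * 1 := (mul_one _).symm
    _ ≤ Real.log n ^ (1 + d) * (a * Real.log n ^ (1 - d)) := mul_le_mul_of_nonneg_left h6 h5.le
    _ = a * (Real.log n ^ (1 + d) * Real.log n ^ (1 - d)) := by ring
    _ = a * Real.log n ^ 2 := by rw [h4]

theorem uh16b_low2 (d : ℝ) (hd : d < 1) :
    ∀ᶠ n : ℕ in atTop, Real.log n ^ (1 + d) ≤ Real.log n ^ 2 / Real.log (Real.log n) := by
  have h1 := ((isLittleO_log_rpow_atTop (show 0 < 1 - d by linarith)).comp_tendsto uh16b_log)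
  have h2 := (Asymptotics.isLittleO_iff.1 h1) one_pos
  filter_upwards [h2, uh16b_log.eventually_ge_atTop 3] with n h3 h4
  have hL0 : 0 < Real.log n := by linarith
  have hLL : 0 < Real.log (Real.log n) := Real.log_pos (by linarith)
  simp only [Function.comp_apply, Real.norm_eq_abs, one_mul] at h3
  rw [abs_of_pos hLL, abs_of_pos (Real.rpow_pos_of_pos hL0 _)] at h3
  have h6 : Real.log n ^ (1 + d) * Real.log n ^ (1 - d) = Real.log n ^ 2 := by
    rw [← Real.rpow_add hL0, ← Real.rpow_natCast]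
    norm_num
  rw [le_div_iff₀ hLL, ← h6]
  exact mul_le_mul_of_nonneg_left h3 (Real.rpow_nonneg hL0.le _)

theorem uh16b_nth {B : Set ℕ} (hB : B.Infinite) :
    Tendsto (fun n : ℕ => Nat.nth (· ∈ B) n) atTop atTop :=
  (Nat.nth_strictMono hB).tendsto_atTop

/-- PROOF. Compare `LibTHL/Cram.lean`, `every_cramer`. `0 < l < ∞`: `f n = l (log n)²` in
`every_gap` with `c = 1` (for `d < 1`: `(log n)^(1+d) ≤ l (log n)²` and
`l (log n)² ≤ n exp (-(log n)^d)` for large `n`); `gapLim` for `(log n)²` is `l` times the one for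
`f`. `l = 0`: `f n = (log n)² / log (log n)`; the quotient by `(log n)²` is the quotient by `f` times
`1 / log log → 0`. `l = ∞`: `f n = (log n)³`. -/
theorem every_cramer (l : ℝ≥0∞) : ∃ A : Set ℕ, A.Infinite ∧ (∀ d : ℝ, d < 1 → UHL d A) ∧
    gapLim (fun n => Real.log n ^ 2) A = l := by
  rcases eq_or_ne l 0 with rfl | hl0
  · -- `l = 0`
    obtain ⟨B, hB1, hB2, hB3⟩ := every_gap 1 one_pos le_rfl
      (fun n => Real.log n ^ 2 / Real.log (Real.log n)) (fun d hd => by
        filter_upwards [uh16b_low2 d hd, uh16b_up d hd 1, uh16b_log.eventually_ge_atTop 3] with n h1 h2 h3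
        refine ⟨h1, le_trans ?_ h2⟩
        have hLL : 1 ≤ Real.log (Real.log n) := by
          rw [Real.le_log_iff_exp_le (by linarith)]
          have := Real.exp_one_lt_d9
          linarith
        rw [one_mul]
        calc Real.log n ^ 2 / Real.log (Real.log n) ≤ Real.log n ^ 2 := div_le_self (by positivity) hLL
          _ ≤ Real.log n ^ 3 := pow_le_pow_right₀ (by linarith) (by norm_num))
    refine ⟨B, hB1, fun d hd => hB2 d hd, ?_⟩
    unfold gapLim at hB3 ⊢
    have hlt := (eventually_lt_of_limsup_lt (f := atTop) (b := (2 : ℝ≥0∞)) (by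
      rw [hB3]
      norm_num) (by isBoundedDefault))
    have hx := uh16b_nth hB1
    have hll : Tendsto (fun n : ℕ => ENNReal.ofReal (2 / Real.log (Real.log (Nat.nth (· ∈ B) n)))) atTop (𝓝 0) := by
      rw [← ENNReal.ofReal_zero]
      refine (ENNReal.continuous_ofReal.tendsto 0).comp ?_
      have h1 : Tendsto (fun n : ℕ => Real.log (Real.log (Nat.nth (· ∈ B) n))) atTop atTop :=
        Real.tendsto_log_atTop.comp (uh16b_log.comp hx)
      exact h1.const_div_atTop 2
    refine Tendsto.limsup_eq (tendsto_of_tendsto_of_tendsto_of_le_of_le' tendsto_const_nhds hll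
      (Eventually.of_forall fun _ => bot_le) ?_)
    filter_upwards [hlt, (uh16b_log.comp hx).eventually_ge_atTop 3] with n h1 h2
    simp only [Function.comp_apply] at h2
    have hL0 : 0 < Real.log (Nat.nth (· ∈ B) n) := by linarith
    have hLL : 0 < Real.log (Real.log (Nat.nth (· ∈ B) n)) := Real.log_pos (by linarith)
    have h3 : ((Nat.nth (· ∈ B) (n + 1) : ℝ) - (Nat.nth (· ∈ B) n : ℝ)) /
        (Real.log (Nat.nth (· ∈ B) n) ^ 2 / Real.log (Real.log (Nat.nth (· ∈ B) n))) ≤ 2 := by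
      by_contra hcon
      push Not at hcon
      have h4 : (2 : ℝ≥0∞) ≤ ENNReal.ofReal (((Nat.nth (· ∈ B) (n + 1) : ℝ) - (Nat.nth (· ∈ B) n : ℝ)) /
          (Real.log (Nat.nth (· ∈ B) n) ^ 2 / Real.log (Real.log (Nat.nth (· ∈ B) n)))) := by
        rw [show (2 : ℝ≥0∞) = ENNReal.ofReal 2 by norm_num]
        exact ENNReal.ofReal_le_ofReal hcon.le
      exact absurd h1 (not_lt.2 h4)
    refine ENNReal.ofReal_le_ofReal ?_
    rw [div_le_iff₀ (by positivity)] at h3 ⊢
    calc ((Nat.nth (· ∈ B) (n + 1) : ℝ) - (Nat.nth (· ∈ B) n : ℝ)) ≤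
        2 * (Real.log (Nat.nth (· ∈ B) n) ^ 2 / Real.log (Real.log (Nat.nth (· ∈ B) n))) := h3
      _ = 2 / Real.log (Real.log (Nat.nth (· ∈ B) n)) * Real.log (Nat.nth (· ∈ B) n) ^ 2 := by ring
  rcases eq_or_ne l ⊤ with rfl | hltop
  · -- `l = ∞`
    obtain ⟨B, hB1, hB2, hB3⟩ := every_gap 1 one_pos le_rfl
      (fun n => Real.log n ^ 3) (fun d hd => by
        filter_upwards [uh16b_low d hd 1 one_pos, uh16b_up d hd 1, uh16b_log.eventually_ge_atTop 3] with n h1 h2 h3
        refine ⟨le_trans h1 ?_, by rwa [one_mul] at h2⟩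
        rw [one_mul]
        exact pow_le_pow_right₀ (by linarith) (by norm_num))
    refine ⟨B, hB1, fun d hd => hB2 d hd, ?_⟩
    unfold gapLim at hB3 ⊢
    have hx := uh16b_nth hB1
    refine ENNReal.eq_top_of_forall_nnreal_le fun r => ?_
    have hfr := frequently_lt_of_lt_limsup (f := atTop) (b := (ENNReal.ofReal (1 / 2))) (by isBoundedDefault) (by
      rw [hB3, ← ENNReal.ofReal_one]
      exact (ENNReal.ofReal_lt_ofReal_iff one_pos).2 (by norm_num) : ENNReal.ofReal (1 / 2) < _)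
    refine le_limsup_of_frequently_le ?_ (by isBoundedDefault)
    refine (hfr.and_eventually ((uh16b_log.comp hx).eventually_ge_atTop (2 * r + 1))).mono ?_
    rintro n ⟨h1, h2⟩
    simp only [Function.comp_apply] at h2
    have hr0 : (0 : ℝ) ≤ r := r.2
    have hL0 : 0 < Real.log (Nat.nth (· ∈ B) n) := by linarith
    have h3 : 1 / 2 < ((Nat.nth (· ∈ B) (n + 1) : ℝ) - (Nat.nth (· ∈ B) n : ℝ)) /
        (Real.log (Nat.nth (· ∈ B) n) ^ 3) := (ENNReal.ofReal_lt_ofReal_iff_of_nonneg (by norm_num)).1 h1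
    rw [← ENNReal.ofReal_coe_nnreal]
    refine ENNReal.ofReal_le_ofReal ?_
    rw [le_div_iff₀ (by positivity)]
    rw [lt_div_iff₀ (by positivity)] at h3
    have h4 : 0 < Real.log (Nat.nth (· ∈ B) n) ^ 2 := by positivity
    calc (r : ℝ) * Real.log (Nat.nth (· ∈ B) n) ^ 2 ≤
        (1 / 2 * Real.log (Nat.nth (· ∈ B) n)) * Real.log (Nat.nth (· ∈ B) n) ^ 2 :=
          mul_le_mul_of_nonneg_right (by linarith) h4.le
      _ = 1 / 2 * Real.log (Nat.nth (· ∈ B) n) ^ 3 := by ring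
      _ ≤ _ := h3.le
  · -- `0 < l < ∞`
    have hlr : 0 < l.toReal := ENNReal.toReal_pos hl0 hltop
    obtain ⟨B, hB1, hB2, hB3⟩ := every_gap 1 one_pos le_rfl
      (fun n => l.toReal * Real.log n ^ 2) (fun d hd => by
        filter_upwards [uh16b_low d hd _ hlr, uh16b_up d hd l.toReal, uh16b_log.eventually_ge_atTop 3] with n h1 h2 h3
        refine ⟨h1, le_trans (mul_le_mul_of_nonneg_left ?_ hlr.le) h2⟩
        exact pow_le_pow_right₀ (by linarith) (by norm_num))
    refine ⟨B, hB1, fun d hd => hB2 d hd, ?_⟩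
    unfold gapLim at hB3 ⊢
    have h1 : ∀ n : ℕ, ENNReal.ofReal (((Nat.nth (· ∈ B) (n + 1) : ℝ) - (Nat.nth (· ∈ B) n : ℝ)) /
        Real.log (Nat.nth (· ∈ B) n) ^ 2) = l * ENNReal.ofReal (((Nat.nth (· ∈ B) (n + 1) : ℝ) -
        (Nat.nth (· ∈ B) n : ℝ)) / (l.toReal * Real.log (Nat.nth (· ∈ B) n) ^ 2)) := fun n => by
      conv_rhs => rw [← ENNReal.ofReal_toReal hltop]
      rw [← ENNReal.ofReal_mul hlr.le, ENNReal.toReal_ofReal hlr.le, ← mul_div_assoc,
        mul_div_mul_left _ _ hlr.ne']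
    rw [funext h1, ENNReal.limsup_const_mul_of_ne_top hltop, hB3, mul_one]

end Pool.Agent.LibUHL
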