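import Pool.Agent.LibUHL.Defs

/-! Row UW 01: the inequalities of Bonferroni. -/

set_option autoImplicit false

namespace Pool.Agent.LibUHL

open Finset Filter Topology MeasureTheory

theorem w01_alt (N k : ℕ) :
    ∑ j ∈ range (k + 1), (-1 : ℝ) ^ j * ((N + 1).choose j : ℝ) = (-1 : ℝ) ^ k * (N.choose k : ℝ) := by
  induction k with
  | zero => simp
  | succ k ih =>
    rw [sum_range_succ, ih, Nat.choose_succ_succ]
    push_cast
    rw [pow_succ]
    ring

/-- PROOF. `∑_{j ≤ k} (-1)^j C(N,j) = (-1)^k C(N-1,k)` for `N ≥ 1`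
(`Int.alternating_sum_range_choose...` or induction on `k` with Pascal), and `k` is odd, and
`0 ≤ C(N-1,k) ≤ C(N,k)`. For `N = 0` the sum is `1` and `C(0,k) = 0` as `k ≥ 1`. -/
theorem bonf (N k : ℕ) (hk : Odd k) :
    (if N = 0 then (1 : ℝ) else 0) - (N.choose k : ℝ) ≤
        ∑ j ∈ range (k + 1), (-1 : ℝ) ^ j * (N.choose j : ℝ) ∧
      ∑ j ∈ range (k + 1), (-1 : ℝ) ^ j * (N.choose j : ℝ) ≤ if N = 0 then 1 else 0 := by
  rcases N with _ | N
  · have h1 : ∑ j ∈ range (k + 1), (-1 : ℝ) ^ j * ((0 : ℕ).choose j : ℝ) = 1 := by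
      rw [sum_range_succ', sum_eq_zero (fun j _ => by simp)]
      simp
    rw [h1]
    have h2 : (0 : ℝ) ≤ ((0 : ℕ).choose k : ℝ) := Nat.cast_nonneg _
    simp only [if_true]
    exact ⟨by linarith, le_rfl⟩
  · rw [w01_alt, hk.neg_one_pow, if_neg (Nat.succ_ne_zero N)]
    have h1 : (N.choose k : ℝ) ≤ ((N + 1).choose k : ℝ) := by
      exact_mod_cast Nat.choose_le_choose k (Nat.le_succ N)
    have h2 : (0 : ℝ) ≤ (N.choose k : ℝ) := Nat.cast_nonneg _
    constructor <;> linarith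

open Classical in
/-- PROOF. The `H ∈ I.powersetCard j` with all elements in `P` are the
`H ∈ (I.filter P).powersetCard j`. -/
theorem count_sub (I : Finset ℕ) (P : ℕ → Prop) (j : ℕ) :
    #{H ∈ I.powersetCard j | ∀ h ∈ H, P h} = (#{h ∈ I | P h}).choose j := by
  rw [← card_powersetCard]
  congr 1
  ext H
  simp only [mem_filter, mem_powersetCard, subset_iff]
  constructor
  · rintro ⟨⟨h1, h2⟩, h3⟩
    exact ⟨fun x hx => ⟨h1 hx, h3 x hx⟩, h2⟩
  · rintro ⟨h1, h2⟩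
    exact ⟨⟨fun x hx => (h1 hx).1, h2⟩, fun x hx => (h1 hx).2⟩

/-- PROOF. `C(y, j)` sets of size `j`, `∑_{j ≤ k} C(y,j) ≤ (y+1)^k` (map `[k] → {0,...,y}` onto the
sets of size `≤ k`; or induction). -/
theorem num_sets (y k : ℕ) :
    (∑ j ∈ range (k + 1), (#((Icc 1 y).powersetCard j) : ℝ)) ≤ (y + 1 : ℝ) ^ k := by
  induction k with
  | zero => simp
  | succ k ih =>
    rw [sum_range_succ]
    have h1 : (#((Icc 1 y).powersetCard (k + 1)) : ℝ) ≤ (y : ℝ) ^ (k + 1) := by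
      rw [card_powersetCard, Nat.card_Icc, Nat.add_sub_cancel]
      exact_mod_cast Nat.choose_le_pow y (k + 1)
    have h2 : (y : ℝ) ^ k ≤ (y + 1 : ℝ) ^ k := pow_le_pow_left₀ (Nat.cast_nonneg y) (by linarith) k
    have h3 : (y : ℝ) ^ (k + 1) ≤ (y : ℝ) * (y + 1 : ℝ) ^ k := by
      rw [pow_succ, mul_comm]
      exact mul_le_mul_of_nonneg_left h2 (Nat.cast_nonneg y)
    calc _ ≤ (y + 1 : ℝ) ^ k + (y : ℝ) * (y + 1 : ℝ) ^ k := add_le_add ih (h1.trans h3)
      _ = (y + 1 : ℝ) ^ (k + 1) := by rw [pow_succ]; ring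

end Pool.Agent.LibUHL
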