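import Pool.Agent.LibUHL.U02
import Pool.Agent.LibLin93.A5

/-! Row UW 02: an interval without survivors has a large probability in the sieve model. -/

set_option autoImplicit false

namespace Pool.Agent.LibUHL

open Finset Filter Topology MeasureTheory

open Pool.Agent.LibLin93 (V)

open Pool.Agent.LibCI99 (occ)

/-- the probability that `H` survives in the sieve with random classes mod all primes `p < z` -/
noncomputable def DD (z : ℕ) (H : Finset ℕ) : ℝ :=
  ∏ p ∈ (range z).filter Nat.Prime, (1 - (occ H p : ℝ) / p)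

lemma uw02a_hit (W : Finset ℕ) : ∀ B : Finset ℕ, (∀ p ∈ B, p.Prime) → #W ≤ #B →
    ∃ r : ℕ, ∀ h ∈ W, ∃ p ∈ B, p ∣ h + r := by
  induction W using Finset.induction_on with
  | empty =>
    intro B _ _
    exact ⟨0, fun h hh => absurd hh (Finset.notMem_empty h)⟩
  | insert a W ha ih =>
    intro B hB hcard
    rw [Finset.card_insert_of_notMem ha] at hcard
    have hBne : B.Nonempty := by
      rw [← Finset.card_pos]
      omega
    obtain ⟨p, hp⟩ := hBne
    have hpp : p.Prime := hB p hp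
    have hB' : ∀ q ∈ B.erase p, q.Prime := fun q hq => hB q (Finset.mem_of_mem_erase hq)
    obtain ⟨r', hr'⟩ := ih (B.erase p) hB' (by rw [Finset.card_erase_of_mem hp]; omega)
    have hcop : Nat.Coprime (∏ q ∈ B.erase p, q) p := by
      apply Nat.Coprime.prod_left
      intro q hq
      exact (Nat.coprime_primes (hB' q hq) hpp).2 (Finset.ne_of_mem_erase hq)
    obtain ⟨r, hr1, hr2⟩ := Nat.chineseRemainder hcop r' ((p - 1) * a)
    refine ⟨r, fun h hh => ?_⟩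
    rw [Finset.mem_insert] at hh
    rcases hh with rfl | hh
    · refine ⟨p, hp, ?_⟩
      have h1 : h + r ≡ h + (p - 1) * h [MOD p] := Nat.ModEq.add_left h hr2
      refine (Nat.ModEq.dvd_iff h1 dvd_rfl).2 ?_
      have h2 : h + (p - 1) * h = p * h := by
        have h3 : 1 ≤ p := hpp.one_lt.le
        calc h + (p - 1) * h = (p - 1 + 1) * h := by ring
          _ = p * h := by rw [Nat.sub_add_cancel h3]
      rw [h2]
      exact Nat.dvd_mul_right p h
    · obtain ⟨q, hq, hqd⟩ := hr' h hh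
      refine ⟨q, Finset.mem_of_mem_erase hq, ?_⟩
      have h1 : r ≡ r' [MOD q] := hr1.of_dvd (Finset.dvd_prod_of_mem _ hq)
      exact (Nat.ModEq.dvd_iff (Nat.ModEq.add_left h h1) dvd_rfl).2 hqd

lemma uw02c_occ_le (H : Finset ℕ) (p : ℕ) (hp : 0 < p) : occ H p ≤ p := by
  unfold occ
  calc (H.image (fun h => h % p)).card ≤ (range p).card := by
        apply Finset.card_le_card
        intro x hx
        obtain ⟨h, _, rfl⟩ := Finset.mem_image.1 hx
        exact Finset.mem_range.2 (Nat.mod_lt _ hp)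
    _ = p := Finset.card_range p

open Classical in
lemma uw02c_DD (z : ℕ) (H : Finset ℕ) :
    (∏ p ∈ (range z).filter Nat.Prime, (p : ℝ)) * DD z H =
      (#{m ∈ range (∏ p ∈ (range z).filter Nat.Prime, p) |
        ∀ p ∈ (range z).filter Nat.Prime, ∀ n ∈ H, ¬ p ∣ n + m} : ℝ) := by
  rw [card_avoid _ (fun p hp => (Finset.mem_filter.1 hp).2) H]
  push_cast
  unfold DD
  rw [← Finset.prod_mul_distrib]
  apply Finset.prod_congr rfl
  intro p hp
  have hpp : 0 < p := (Finset.mem_filter.1 hp).2.pos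
  have hp0 : (p : ℝ) ≠ 0 := by exact_mod_cast hpp.ne'
  rw [Nat.cast_sub (uw02c_occ_le H p hpp)]
  field_simp

open Classical in
/-- PROOF. `s = {p < z prime}`, `s' = s \ B`, `Q' = ∏_{s'} p`, `R = ∏_B p`, `Q = Q' R` coprime. For
`m' < Q'` let `W(m') = {h ∈ [1,y] : p ∤ h + m' for all p ∈ s'}`. The mean of `#W(m')` over `m' < Q'`
is `y ∏_{s'} (1 - 1/p) = y V z / ∏_B (1 - 1/p) ≤ 2 y V z` (`card_avoid` with `F = {h}`,
`occ {h} p = 1`), so by Markov `#W(m') ≤ #B` (`#B ≥ 4 y V z`) for at least half of the `m'` (if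
`y = 0` trivially). For such an `m'` choose an injection `ι : W(m') → B` and, by the Chinese
remainder theorem, an `r < R` with `ι(h) ∣ h + r` for all `h ∈ W(m')`. Then the `m < Q` with
`m ≡ m' (mod Q')`, `m ≡ r (mod R)` is counted on the right. So the right side is `≥ Q'/2`
(different `m'` give different `m`; or `crt_sum`). -/
theorem kill (z y : ℕ) (B : Finset ℕ) (hB : ∀ p ∈ B, p.Prime ∧ p < z)
    (h1 : 1 / 2 ≤ ∏ p ∈ B, (1 - 1 / (p : ℝ))) (h2 : 4 * y * V z ≤ #B) :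
    1 / 2 * (∏ p ∈ (range z).filter Nat.Prime, (p : ℝ)) / ∏ p ∈ B, (p : ℝ) ≤
      #{m ∈ range (∏ p ∈ (range z).filter Nat.Prime, p) |
        ∀ h ∈ Icc 1 y, ∃ p : ℕ, p.Prime ∧ p < z ∧ p ∣ h + m} := by
  set s : Finset ℕ := (range z).filter Nat.Prime with hs
  have hsp : ∀ p ∈ s, p.Prime := fun p hp => (Finset.mem_filter.1 hp).2
  have hsz : ∀ p ∈ s, p < z := fun p hp => Finset.mem_range.1 (Finset.mem_filter.1 hp).1
  have hBs : B ⊆ s := fun p hp => Finset.mem_filter.2 ⟨Finset.mem_range.2 (hB p hp).2, (hB p hp).1⟩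
  set s' : Finset ℕ := s \ B with hs'
  have hs's : ∀ p ∈ s', p ∈ s := fun p hp => (Finset.mem_sdiff.1 hp).1
  set Q' : ℕ := ∏ p ∈ s', p with hQ'
  set R : ℕ := ∏ p ∈ B, p with hR
  have hQ'0 : 0 < Q' := Finset.prod_pos (fun p hp => (hsp p (hs's p hp)).pos)
  have hR0 : 0 < R := Finset.prod_pos (fun p hp => (hB p hp).1.pos)
  have hQR : ∏ p ∈ s, p = Q' * R := (Finset.prod_sdiff hBs).symm
  have hcop : Nat.Coprime Q' R := by
    apply Nat.Coprime.prod_left
    intro p hp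
    apply Nat.Coprime.prod_right
    intro q hq
    refine (Nat.coprime_primes (hsp p (hs's p hp)) (hB q hq).1).2 ?_
    rintro rfl
    exact (Finset.mem_sdiff.1 hp).2 hq
  let W : ℕ → Finset ℕ := fun m => (Icc 1 y).filter (fun h => ∀ p ∈ s', ¬ p ∣ h + m)
  have hmean : (∑ m ∈ range Q', (#(W m) : ℝ)) ≤ (#B : ℝ) / 2 * Q' := by
    have h3 : (∑ m ∈ range Q', (#(W m) : ℝ)) = y * ∏ p ∈ s', ((p : ℝ) - 1) := by
      have h4 : ∀ m ∈ range Q', (#(W m) : ℝ) =
          ∑ h ∈ Icc 1 y, (if ∀ p ∈ s', ¬ p ∣ h + m then (1 : ℝ) else 0) := by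
        intro m _
        simp only [W]
        rw [Finset.card_filter]
        push_cast
        rfl
      rw [Finset.sum_congr rfl h4, Finset.sum_comm]
      have h5 : ∀ h ∈ Icc 1 y, (∑ m ∈ range Q', (if ∀ p ∈ s', ¬ p ∣ h + m then (1 : ℝ) else 0)) =
          ∏ p ∈ s', ((p : ℝ) - 1) := by
        intro h _
        have h6 := card_avoid s' (fun p hp => hsp p (hs's p hp)) {h}
        rw [← hQ', Finset.card_filter] at h6
        have h7 : (∑ m ∈ range Q', (if ∀ p ∈ s', ¬ p ∣ h + m then (1 : ℝ) else 0)) =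
            ((∏ p ∈ s', (p - occ {h} p) : ℕ) : ℝ) := by
          rw [← h6]
          push_cast
          apply Finset.sum_congr rfl
          intro m _
          apply if_congr _ rfl rfl
          constructor
          · intro h8 p hp n hn
            rw [Finset.mem_singleton] at hn
            rw [hn]
            exact h8 p hp
          · intro h8 p hp
            exact h8 p hp h (Finset.mem_singleton_self h)
        rw [h7]
        push_cast
        apply Finset.prod_congr rfl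
        intro p hp
        have hocc : occ {h} p = 1 := by
          unfold occ
          rw [Finset.image_singleton, Finset.card_singleton]
        rw [hocc, Nat.cast_sub (hsp p (hs's p hp)).one_lt.le]
        simp
      rw [Finset.sum_congr rfl h5, Finset.sum_const, Nat.card_Icc, nsmul_eq_mul]
      simp
    rw [h3]
    have h8 : ∏ p ∈ s', ((p : ℝ) - 1) = Q' * ∏ p ∈ s', (1 - 1 / (p : ℝ)) := by
      rw [hQ']
      push_cast
      rw [← Finset.prod_mul_distrib]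
      apply Finset.prod_congr rfl
      intro p hp
      have : (p : ℝ) ≠ 0 := by exact_mod_cast (hsp p (hs's p hp)).pos.ne'
      field_simp
    have h9 : (∏ p ∈ s', (1 - 1 / (p : ℝ))) * ∏ p ∈ B, (1 - 1 / (p : ℝ)) = V z := by
      unfold V
      exact Finset.prod_sdiff hBs
    have h10 : 0 ≤ ∏ p ∈ s', (1 - 1 / (p : ℝ)) := by
      apply Finset.prod_nonneg
      intro p hp
      have h11 : (1 : ℝ) ≤ p := by exact_mod_cast (hsp p (hs's p hp)).one_lt.le
      have h12 : 1 / (p : ℝ) ≤ 1 := by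
        rw [div_le_one (by linarith)]
        exact h11
      linarith
    have h13 : ∏ p ∈ s', (1 - 1 / (p : ℝ)) ≤ 2 * V z := by
      rw [← h9]
      nlinarith
    rw [h8]
    have hy0 : (0 : ℝ) ≤ y := Nat.cast_nonneg y
    have hQ'r : (0 : ℝ) < Q' := by exact_mod_cast hQ'0
    calc (y : ℝ) * (Q' * ∏ p ∈ s', (1 - 1 / (p : ℝ))) = (y * ∏ p ∈ s', (1 - 1 / (p : ℝ))) * Q' := by ring
      _ ≤ (y * (2 * V z)) * Q' := by
          apply mul_le_mul_of_nonneg_right _ hQ'r.le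
          exact mul_le_mul_of_nonneg_left h13 hy0
      _ ≤ (#B : ℝ) / 2 * Q' := by
          apply mul_le_mul_of_nonneg_right _ hQ'r.le
          linarith
  set G : Finset ℕ := (range Q').filter (fun m => #(W m) ≤ #B) with hG
  have hGc : (Q' : ℝ) / 2 ≤ #G := by
    have h3 : #G + #((range Q').filter (fun m => ¬ #(W m) ≤ #B)) = Q' := by
      rw [hG, Finset.card_filter_add_card_filter_not, Finset.card_range]
    have h4 : (#((range Q').filter (fun m => ¬ #(W m) ≤ #B)) : ℝ) * (#B + 1) ≤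
        ∑ m ∈ range Q', (#(W m) : ℝ) := by
      calc (#((range Q').filter (fun m => ¬ #(W m) ≤ #B)) : ℝ) * (#B + 1) =
          ∑ m ∈ (range Q').filter (fun m => ¬ #(W m) ≤ #B), ((#B : ℝ) + 1) := by
            rw [Finset.sum_const, nsmul_eq_mul]
        _ ≤ ∑ m ∈ (range Q').filter (fun m => ¬ #(W m) ≤ #B), (#(W m) : ℝ) := by
            apply Finset.sum_le_sum
            intro m hm
            have h5 := (Finset.mem_filter.1 hm).2
            have h6 : #B + 1 ≤ #(W m) := by omega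
            exact_mod_cast h6
        _ ≤ ∑ m ∈ range Q', (#(W m) : ℝ) :=
            Finset.sum_le_sum_of_subset_of_nonneg (Finset.filter_subset _ _)
              (fun _ _ _ => Nat.cast_nonneg _)
    have h5 : (#G : ℝ) + (#((range Q').filter (fun m => ¬ #(W m) ≤ #B)) : ℝ) = Q' := by
      exact_mod_cast h3
    set c : ℝ := (#((range Q').filter (fun m => ¬ #(W m) ≤ #B)) : ℝ) with hc
    have hb0 : (0 : ℝ) ≤ #B := Nat.cast_nonneg _
    have hq0 : (0 : ℝ) < Q' := by exact_mod_cast hQ'0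
    have h6 : c * (#B + 1) ≤ (#B : ℝ) / 2 * Q' := h4.trans hmean
    have h7 : c ≤ Q' / 2 := by
      by_contra hcon
      push Not at hcon
      nlinarith
    linarith
  have hr : ∀ m : ℕ, ∃ r : ℕ, #(W m) ≤ #B → ∀ h ∈ W m, ∃ p ∈ B, p ∣ h + r := by
    intro m
    by_cases hm : #(W m) ≤ #B
    · obtain ⟨r, hr⟩ := uw02a_hit (W m) B (fun p hp => (hB p hp).1) hm
      exact ⟨r, fun _ => hr⟩
    · exact ⟨0, fun h => absurd h hm⟩
  choose r hr using hr
  let f : ℕ → ℕ := fun m => (Nat.chineseRemainder hcop m (r m) : ℕ)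
  have hf1 : ∀ m, f m ≡ m [MOD Q'] := fun m => (Nat.chineseRemainder hcop m (r m)).2.1
  have hf2 : ∀ m, f m ≡ r m [MOD R] := fun m => (Nat.chineseRemainder hcop m (r m)).2.2
  have hcard : #G ≤ #{m ∈ range (∏ p ∈ s, p) |
        ∀ h ∈ Icc 1 y, ∃ p : ℕ, p.Prime ∧ p < z ∧ p ∣ h + m} := by
    apply Finset.card_le_card_of_injOn f
    · intro m hm
      have hm' : m < Q' ∧ #(W m) ≤ #B := by
        have h3 := Finset.mem_filter.1 (Finset.mem_coe.1 hm)
        exact ⟨Finset.mem_range.1 h3.1, h3.2⟩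
      rw [Finset.mem_coe, Finset.mem_filter, Finset.mem_range, hQR]
      refine ⟨Nat.chineseRemainder_lt_mul hcop m (r m) hQ'0.ne' hR0.ne', ?_⟩
      intro h hh
      by_cases hW : h ∈ W m
      · obtain ⟨p, hp, hpd⟩ := hr m hm'.2 h hW
        refine ⟨p, (hB p hp).1, (hB p hp).2, ?_⟩
        have h4 : f m ≡ r m [MOD p] := (hf2 m).of_dvd (Finset.dvd_prod_of_mem _ hp)
        exact (Nat.ModEq.dvd_iff (Nat.ModEq.add_left h h4) dvd_rfl).2 hpd
      · have h5 : ¬ ∀ p ∈ s', ¬ p ∣ h + m := fun hcon => hW (Finset.mem_filter.2 ⟨hh, hcon⟩)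
        push Not at h5
        obtain ⟨p, hp, hpd⟩ := h5
        refine ⟨p, hsp p (hs's p hp), hsz p (hs's p hp), ?_⟩
        have h4 : f m ≡ m [MOD p] := (hf1 m).of_dvd (Finset.dvd_prod_of_mem _ hp)
        exact (Nat.ModEq.dvd_iff (Nat.ModEq.add_left h h4) dvd_rfl).2 hpd
    · intro m hm n hn hmn
      have hm' := Finset.mem_range.1 (Finset.mem_filter.1 (Finset.mem_coe.1 hm)).1
      have hn' := Finset.mem_range.1 (Finset.mem_filter.1 (Finset.mem_coe.1 hn)).1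
      have h3 : m ≡ n [MOD Q'] := by
        have h4 := (hf1 m).symm
        rw [hmn] at h4
        exact h4.trans (hf1 n)
      exact Nat.ModEq.eq_of_lt_of_lt h3 hm' hn'
  have hQR' : (∏ p ∈ s, (p : ℝ)) = Q' * R := by
    have h3 : ((∏ p ∈ s, p : ℕ) : ℝ) = ((Q' * R : ℕ) : ℝ) := by rw [hQR]
    push_cast at h3
    exact h3
  have hR' : (∏ p ∈ B, (p : ℝ)) = R := by
    rw [hR]
    push_cast
    rfl
  have hR'' : (R : ℝ) ≠ 0 := by exact_mod_cast hR0.ne'
  rw [hQR', hR']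
  calc 1 / 2 * ((Q' : ℝ) * R) / R = Q' / 2 := by
        field_simp
    _ ≤ #G := hGc
    _ ≤ _ := by exact_mod_cast hcard

private theorem w02b_prod (B : Finset ℕ) : 1 - ∑ p ∈ B, 1 / (p : ℝ) ≤ ∏ p ∈ B, (1 - 1 / (p : ℝ)) ∧
    0 ≤ ∏ p ∈ B, (1 - 1 / (p : ℝ)) ∧ ∏ p ∈ B, (1 - 1 / (p : ℝ)) ≤ 1 := by
  induction B using Finset.induction_on with
  | empty => simp
  | insert a B ha ih =>
    obtain ⟨h1, h2, h3⟩ := ih
    rw [Finset.prod_insert ha, Finset.sum_insert ha]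
    obtain ⟨x, hx⟩ : ∃ x : ℝ, x = 1 / (a : ℝ) := ⟨_, rfl⟩
    have hx0 : 0 ≤ x := by rw [hx]; positivity
    have hx1 : x ≤ 1 := by
      rw [hx]
      rcases Nat.eq_zero_or_pos a with h | h
      · rw [h]; norm_num
      · rw [div_le_one (by exact_mod_cast h)]
        exact_mod_cast h
    rw [← hx]
    obtain ⟨P, hP⟩ : ∃ P : ℝ, P = ∏ p ∈ B, (1 - 1 / (p : ℝ)) := ⟨_, rfl⟩
    rw [← hP] at h1 h2 h3 ⊢
    refine ⟨?_, mul_nonneg (by linarith) h2, ?_⟩
    · nlinarith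
    · nlinarith

private theorem w02b_split (w z : ℕ) (h : w ≤ z) :
    V z = V w * ∏ p ∈ (Ico w z).filter Nat.Prime, (1 - 1 / (p : ℝ)) := by
  unfold Pool.Agent.LibLin93.V
  rw [Finset.prod_filter, Finset.prod_filter, Finset.prod_filter,
    Finset.prod_range_mul_prod_Ico _ h]

/-- PROOF. `V (y+1) / V (y^2) → 2` (`V_ratio`), so for large `y`
`∏_{y < p < y²} (1 - 1/p)⁻¹ ≥ 3/2`, hence `∑_{y < p < y²} 1/p ≥ 1/4` (for `p ≥ 3`,
`(1 - 1/p)⁻¹ ≤ exp (3/(2p))`, `log (3/2) > 0.4`), and as every term is `≤ 1/y` there are at least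
`y/4` primes; take `v ≤ y/4` of them. `∏_B (1 - 1/p) ≥ 1 - ∑_B 1/p ≥ 1 - v/y ≥ 1/2`. -/
theorem exists_B : ∀ᶠ y : ℕ in atTop, ∀ v : ℕ, (v : ℝ) ≤ y / 4 → ∃ B : Finset ℕ, #B = v ∧
    (∀ p ∈ B, p.Prime ∧ p < y ^ 2) ∧ 1 / 2 ≤ ∏ p ∈ B, (1 - 1 / (p : ℝ)) := by
  obtain ⟨Z, hZ2, hZ⟩ := Pool.Agent.LibLin93.V_ratio (1 / 10) (by norm_num)
  have hlog : Tendsto (fun z : ℕ => Real.log (z : ℝ)) atTop atTop :=
    Real.tendsto_log_atTop.comp tendsto_natCast_atTop_atTop
  filter_upwards [eventually_ge_atTop Z, hlog.eventually_ge_atTop 10,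
    Real.tendsto_log_nat_add_one_sub_log.eventually_le_const (show (0 : ℝ) < 1 by norm_num)]
    with y hy hl hd v hv
  have hy2 : 2 ≤ y := le_trans hZ2 hy
  have hy0 : (0 : ℝ) < y := by exact_mod_cast (by omega : 0 < y)
  have hwz : y + 1 ≤ y ^ 2 := by nlinarith
  have h1 := hZ (y + 1) (y ^ 2) (by omega) (by omega)
  have h2 := w02b_split (y + 1) (y ^ 2) hwz
  obtain ⟨Q, hQ⟩ : ∃ Q : Finset ℕ, Q = (Ico (y + 1) (y ^ 2)).filter Nat.Prime := ⟨_, rfl⟩
  rw [← hQ] at h2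
  obtain ⟨R, hPi⟩ : ∃ R : ℝ, R = ∏ p ∈ Q, (1 - 1 / (p : ℝ)) := ⟨_, rfl⟩
  rw [← hPi] at h2
  have hVw := Pool.Agent.LibLin93.V_pos (y + 1)
  have hVz := Pool.Agent.LibLin93.V_pos (y ^ 2)
  -- the product over the primes in `(y, y²)` is at most `2/3`
  have h3 : R ≤ 2 / 3 := by
    have e1 : Real.log ((y ^ 2 : ℕ) : ℝ) = 2 * Real.log y := by
      push_cast
      rw [Real.log_pow]
      push_cast
      ring
    have e2 : Real.log ((y + 1 : ℕ) : ℝ) = Real.log ((y : ℝ) + 1) := by push_cast; rfl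
    rw [e1, e2] at h1
    obtain ⟨l, hl'⟩ : ∃ l : ℝ, l = Real.log (y : ℝ) := ⟨_, rfl⟩
    obtain ⟨m, hm'⟩ : ∃ m : ℝ, m = Real.log ((y : ℝ) + 1) := ⟨_, rfl⟩
    rw [← hl', ← hm'] at h1 hd
    rw [← hl'] at hl
    have h4 : 0 < V (y ^ 2) * (2 * l) := mul_pos hVz (by linarith)
    have h5 : 9 / 10 ≤ V (y + 1) * m / (V (y ^ 2) * (2 * l)) := by
      have := (abs_le.1 h1).1
      linarith
    rw [le_div_iff₀ h4] at h5
    have h6 : m ≤ 11 / 10 * l := by linarith
    have h7 : V (y + 1) * m ≤ V (y + 1) * (11 / 10 * l) := mul_le_mul_of_nonneg_left h6 hVw.le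
    have h8 : V (y ^ 2) * (9 / 10 * 2) ≤ V (y + 1) * (11 / 10) := by
      have h9 : V (y ^ 2) * (9 / 10 * 2) * l ≤ V (y + 1) * (11 / 10) * l := by linarith
      exact le_of_mul_le_mul_right h9 (by linarith)
    rw [h2] at h8
    have h9 : V (y + 1) * (R * (9 / 10 * 2)) ≤ V (y + 1) * (11 / 10) := by linarith
    have h10 := le_of_mul_le_mul_left h9 hVw
    linarith
  -- so there are at least `y / 4` of them
  have h4 : 1 / (3 : ℝ) ≤ ∑ p ∈ Q, 1 / (p : ℝ) := by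
    have := (w02b_prod Q).1
    rw [← hPi] at this
    linarith
  have hQm : ∀ p ∈ Q, p.Prime ∧ y + 1 ≤ p ∧ p < y ^ 2 := by
    intro p hp
    rw [hQ, Finset.mem_filter, Finset.mem_Ico] at hp
    exact ⟨hp.2, hp.1.1, hp.1.2⟩
  have hsmall : ∀ B ⊆ Q, ∑ p ∈ B, 1 / (p : ℝ) ≤ #B / y := by
    intro B hB
    rw [div_eq_mul_one_div (#B : ℝ), ← nsmul_eq_mul]
    refine Finset.sum_le_card_nsmul _ _ _ fun p hp => ?_
    refine one_div_le_one_div_of_le hy0 ?_
    have := (hQm p (hB hp)).2.1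
    exact_mod_cast (by omega : y ≤ p)
  have h5 : v ≤ #Q := by
    have h6 := h4.trans (hsmall Q (Finset.Subset.refl _))
    rw [le_div_iff₀ hy0] at h6
    have h7 : (v : ℝ) ≤ #Q := by linarith
    exact_mod_cast h7
  obtain ⟨B, hBQ, hBv⟩ := Finset.exists_subset_card_eq h5
  refine ⟨B, hBv, fun p hp => ⟨(hQm p (hBQ hp)).1, (hQm p (hBQ hp)).2.2⟩, ?_⟩
  have h6 := hsmall B hBQ
  rw [hBv] at h6
  have h7 : (v : ℝ) / y ≤ 1 / 4 := by
    rw [div_le_iff₀ hy0]
    linarith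
  have h8 := (w02b_prod B).1
  linarith

open Classical in
/-- PROOF. `card_avoid` for `s = {p < z prime}` gives
`DD z H = #{m < Q : ∀ h ∈ H, ∀ p ∈ s, p ∤ h + m} / Q`. So
`Q * ∑_j (-1)^j ∑_{#H = j} DD z H = ∑_{m < Q} ∑_j (-1)^j C(N(m), j)`, `N(m) = #{h ∈ [1,y] : p ∤ h+m
for all p ∈ s}` (`count_sub`), and `bonf`: each term is `≥ [N(m) = 0] - C(N(m), k)`. -/
theorem model_bonf (z y k : ℕ) (hk : Odd k)
    (hb : ∀ N : ℕ, (if N = 0 then (1 : ℝ) else 0) - (N.choose k : ℝ) ≤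
        ∑ j ∈ range (k + 1), (-1 : ℝ) ^ j * (N.choose j : ℝ))
    (hc : ∀ (I : Finset ℕ) (P : ℕ → Prop) (j : ℕ),
      #{H ∈ I.powersetCard j | ∀ h ∈ H, P h} = (#{h ∈ I | P h}).choose j) :
    (#{m ∈ range (∏ p ∈ (range z).filter Nat.Prime, p) |
        ∀ h ∈ Icc 1 y, ∃ p : ℕ, p.Prime ∧ p < z ∧ p ∣ h + m} : ℝ) /
      (∏ p ∈ (range z).filter Nat.Prime, (p : ℝ)) - ∑ H ∈ (Icc 1 y).powersetCard k, DD z H ≤
        ∑ j ∈ range (k + 1), (-1 : ℝ) ^ j * ∑ H ∈ (Icc 1 y).powersetCard j, DD z H := by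
  set Ps : Finset ℕ := (range z).filter Nat.Prime with hPs
  set Q : ℝ := ∏ p ∈ Ps, (p : ℝ) with hQ
  have hQ0 : 0 < Q := by
    rw [hQ]
    apply Finset.prod_pos
    intro p hp
    have : 0 < p := (Finset.mem_filter.1 hp).2.pos
    exact_mod_cast this
  let Nm : ℕ → ℕ := fun m => #{h ∈ Icc 1 y | ∀ p ∈ Ps, ¬ p ∣ h + m}
  have hS : ∀ j : ℕ, Q * ∑ H ∈ (Icc 1 y).powersetCard j, DD z H =
      ∑ m ∈ range (∏ p ∈ Ps, p), ((Nm m).choose j : ℝ) := by
    intro j
    rw [Finset.mul_sum]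
    have h1 : ∀ H ∈ (Icc 1 y).powersetCard j, Q * DD z H =
        ∑ m ∈ range (∏ p ∈ Ps, p), (if ∀ h ∈ H, ∀ p ∈ Ps, ¬ p ∣ h + m then (1 : ℝ) else 0) := by
      intro H _
      rw [hQ, hPs, uw02c_DD z H, Finset.card_filter]
      push_cast
      apply Finset.sum_congr rfl
      intro m _
      apply if_congr _ rfl rfl
      constructor
      · intro h n hn p hp
        exact h p hp n hn
      · intro h p hp n hn
        exact h n hn p hp
    rw [Finset.sum_congr rfl h1, Finset.sum_comm]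
    apply Finset.sum_congr rfl
    intro m _
    have h2 := hc (Icc 1 y) (fun h => ∀ p ∈ Ps, ¬ p ∣ h + m) j
    rw [Finset.card_filter] at h2
    have h3 : (Nm m).choose j = ∑ H ∈ powersetCard j (Icc 1 y),
        (if ∀ h ∈ H, ∀ p ∈ Ps, ¬ p ∣ h + m then 1 else 0) := by
      refine Eq.trans ?_ (h2.symm.trans ?_)
      · simp only [Nm]
        congr
      · apply Finset.sum_congr rfl
        intro H _
        congr
    rw [h3]
    push_cast
    rfl
  have hZ : (#{m ∈ range (∏ p ∈ Ps, p) |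
        ∀ h ∈ Icc 1 y, ∃ p : ℕ, p.Prime ∧ p < z ∧ p ∣ h + m} : ℝ) =
      ∑ m ∈ range (∏ p ∈ Ps, p), (if Nm m = 0 then (1 : ℝ) else 0) := by
    rw [Finset.card_filter]
    push_cast
    apply Finset.sum_congr rfl
    intro m _
    apply if_congr _ rfl rfl
    have h4 : Nm m = 0 ↔ ∀ h ∈ Icc 1 y, ¬ ∀ p ∈ Ps, ¬ p ∣ h + m := by
      show #{h ∈ Icc 1 y | ∀ p ∈ Ps, ¬ p ∣ h + m} = 0 ↔ _
      rw [Finset.card_eq_zero, Finset.filter_eq_empty_iff]
    rw [h4]
    constructor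
    · intro h x hx hcon
      obtain ⟨p, h5, h6, h7⟩ := h x hx
      exact hcon p (Finset.mem_filter.2 ⟨Finset.mem_range.2 h6, h5⟩) h7
    · intro h x hx
      have h5 := h x hx
      push Not at h5
      obtain ⟨p, h6, h7⟩ := h5
      rw [hPs, Finset.mem_filter, Finset.mem_range] at h6
      exact ⟨p, h6.2, h6.1, h7⟩
  rw [hZ]
  have hfin : Q * ((∑ m ∈ range (∏ p ∈ Ps, p), (if Nm m = 0 then (1 : ℝ) else 0)) / Q -
      ∑ H ∈ (Icc 1 y).powersetCard k, DD z H) ≤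
      Q * ∑ j ∈ range (k + 1), (-1 : ℝ) ^ j * ∑ H ∈ (Icc 1 y).powersetCard j, DD z H := by
    rw [mul_sub, hS k, mul_div_cancel₀ _ hQ0.ne', Finset.mul_sum]
    have h6 : ∀ j ∈ range (k + 1), Q * ((-1 : ℝ) ^ j * ∑ H ∈ (Icc 1 y).powersetCard j, DD z H) =
        ∑ m ∈ range (∏ p ∈ Ps, p), (-1 : ℝ) ^ j * ((Nm m).choose j : ℝ) := by
      intro j _
      rw [mul_left_comm, hS j, Finset.mul_sum]
    rw [Finset.sum_congr rfl h6, Finset.sum_comm, ← Finset.sum_sub_distrib]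
    apply Finset.sum_le_sum
    intro m _
    exact hb (Nm m)
  exact le_of_mul_le_mul_left hfin hQ0

private theorem UW02d_split (w z : ℕ) (h : w ≤ z) (f : ℕ → ℝ) :
    ∏ p ∈ (range z).filter Nat.Prime, f p =
      (∏ p ∈ (range w).filter Nat.Prime, f p) * ∏ p ∈ (Ico w z).filter Nat.Prime, f p := by
  rw [Finset.prod_filter, Finset.prod_filter, Finset.prod_filter,
    Finset.prod_range_mul_prod_Ico _ h]

private theorem UW02d_occ_le (H : Finset ℕ) (p : ℕ) (hp : 0 < p) : occ H p ≤ p := by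
  unfold Pool.Agent.LibCI99.occ
  have h1 : H.image (fun h => h % p) ⊆ range p := by
    intro x hx
    rw [mem_image] at hx
    obtain ⟨h, _, rfl⟩ := hx
    exact mem_range.2 (Nat.mod_lt _ hp)
  have h2 := Finset.card_le_card h1
  rwa [card_range] at h2

private theorem UW02d_occ_eq (H : Finset ℕ) (p : ℕ) (h : ∀ h ∈ H, h < p) : occ H p = #H := by
  unfold Pool.Agent.LibCI99.occ
  congr 1
  have h1 : H.image (fun h => h % p) = H.image id := by
    refine Finset.image_congr fun x hx => ?_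
    exact Nat.mod_eq_of_lt (h x hx)
  rw [h1, image_id]

/-- the bound of one probability -/
private theorem UW02d_one (z y k : ℕ) (hy : y + 1 ≤ z) (H : Finset ℕ)
    (hH : ∀ h ∈ H, h ≤ y) (hk : #H = k) : DD z H ≤ (V z / V (y + 1)) ^ k := by
  have hV := Pool.Agent.LibLin93.V_pos (y + 1)
  have hf : ∀ p : ℕ, p.Prime → 0 ≤ 1 - (occ H p : ℝ) / p ∧ 1 - (occ H p : ℝ) / p ≤ 1 := by
    intro p hp
    have hp0 : (0 : ℝ) < p := by exact_mod_cast hp.pos
    have h1 : (occ H p : ℝ) ≤ p := by exact_mod_cast UW02d_occ_le H p hp.pos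
    constructor
    · rw [sub_nonneg, div_le_one hp0]
      exact h1
    · have : (0 : ℝ) ≤ (occ H p : ℝ) / p := by positivity
      linarith
  have hVz : V z / V (y + 1) = ∏ p ∈ (Ico (y + 1) z).filter Nat.Prime, (1 - 1 / (p : ℝ)) := by
    rw [div_eq_iff hV.ne']
    unfold Pool.Agent.LibLin93.V
    rw [UW02d_split (y + 1) z hy, mul_comm]
  unfold DD
  rw [hVz, UW02d_split (y + 1) z hy, ← Finset.prod_pow]
  have h1 : ∏ p ∈ (range (y + 1)).filter Nat.Prime, (1 - (occ H p : ℝ) / p) ≤ 1 :=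
    Finset.prod_le_one (fun p hp => (hf p (mem_filter.1 hp).2).1)
      fun p hp => (hf p (mem_filter.1 hp).2).2
  have h2 : 0 ≤ ∏ p ∈ (Ico (y + 1) z).filter Nat.Prime, (1 - (occ H p : ℝ) / p) :=
    Finset.prod_nonneg fun p hp => (hf p (mem_filter.1 hp).2).1
  refine (mul_le_of_le_one_left h2 h1).trans ?_
  refine Finset.prod_le_prod (fun p hp => (hf p (mem_filter.1 hp).2).1) fun p hp => ?_
  rw [mem_filter, mem_Ico] at hp
  rw [UW02d_occ_eq H p (fun h hh => lt_of_le_of_lt (hH h hh) (by omega)), hk]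
  have hp2 : (2 : ℝ) ≤ p := by exact_mod_cast hp.2.two_le
  have hinv : 1 / (p : ℝ) ≤ 1 / 2 := one_div_le_one_div_of_le (by norm_num) hp2
  have h3 := one_add_mul_le_pow (a := -(1 / (p : ℝ))) (by linarith) k
  have e : 1 + (k : ℝ) * -(1 / (p : ℝ)) = 1 - (k : ℝ) / p := by ring
  rw [e] at h3
  exact h3

/-- the number of the sets -/
private theorem UW02d_choose (y k : ℕ) (hk : 1 ≤ k) :
    (y.choose k : ℝ) ≤ (Real.exp 1 * y / k) ^ k := by
  have hk0 : (0 : ℝ) < k := by exact_mod_cast hk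
  have h1 : (y.choose k : ℝ) ≤ (y : ℝ) ^ k / (k.factorial : ℝ) := Nat.choose_le_pow_div k y
  have hfac : (0 : ℝ) < (k.factorial : ℝ) := by exact_mod_cast k.factorial_pos
  have h2 : (k : ℝ) ^ k / (k.factorial : ℝ) ≤ Real.exp k :=
    Real.pow_div_factorial_le_exp (k : ℝ) hk0.le k
  have h3 : Real.exp (k : ℝ) = Real.exp 1 ^ k := by
    rw [← Real.exp_nat_mul, mul_one]
  have hkk : (0 : ℝ) < (k : ℝ) ^ k := pow_pos hk0 k
  rw [h3, div_le_iff₀ hfac] at h2
  refine h1.trans ?_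
  rw [div_pow, mul_pow, div_le_div_iff₀ hfac hkk]
  have h4 : (y : ℝ) ^ k * (k : ℝ) ^ k ≤ (y : ℝ) ^ k * (Real.exp 1 ^ k * (k.factorial : ℝ)) :=
    mul_le_mul_of_nonneg_left h2 (by positivity)
  linarith

/-- PROOF. For `p > y` the elements of `H ⊆ [1, y]` are different mod `p`: `occ H p = k`, and
`0 ≤ 1 - k/p ≤ (1 - 1/p)^k` (Bernoulli); for `p ≤ y` the factor is in `[0,1]`. So
`DD z H ≤ (V z / V (y+1))^k`. The number of the `H` is `C(y,k) ≤ y^k/k! ≤ (e y/k)^k`. -/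
theorem sum_DD (z y k : ℕ) (hk : 1 ≤ k) (hky : k ≤ y) (hy : y + 1 ≤ z) :
    ∑ H ∈ (Icc 1 y).powersetCard k, DD z H ≤
      (Real.exp 1 * y * V z / (k * V (y + 1))) ^ k := by
  have hV := Pool.Agent.LibLin93.V_pos (y + 1)
  have hVz := Pool.Agent.LibLin93.V_pos z
  have h1 : ∑ H ∈ (Icc 1 y).powersetCard k, DD z H ≤
      #((Icc 1 y).powersetCard k) • (V z / V (y + 1)) ^ k := by
    refine Finset.sum_le_card_nsmul _ _ _ fun H hH => ?_
    rw [mem_powersetCard] at hH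
    exact UW02d_one z y k hy H (fun h hh => (mem_Icc.1 (hH.1 hh)).2) hH.2
  rw [card_powersetCard, Nat.card_Icc, Nat.add_sub_cancel, nsmul_eq_mul] at h1
  refine h1.trans ?_
  have h2 : 0 ≤ (V z / V (y + 1)) ^ k := by positivity
  refine (mul_le_mul_of_nonneg_right (UW02d_choose y k hk) h2).trans ?_
  rw [← mul_pow, div_mul_div_comm]

end Pool.Agent.LibUHL
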