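import Pool.Agent.LibUHL.U01
import Pool.Agent.LibUHL.U09
import Pool.Agent.LibUHL.W01
import Pool.Agent.LibUHL.W02

/-! Row UW 03: the main terms and the sieve model. -/

set_option autoImplicit false

namespace Pool.Agent.LibUHL

open Finset Filter Topology MeasureTheory

open Pool.Agent.LibLin93 (V)

open Pool.Agent.LibCI99 (cnt hlConst dlt vee prim occ goodT)

/-- PROOF. Exactly as `block_const` (U09): for `t ≥ z`,
`dlt 1 0 H t = DD z H * ∏_{z ≤ p ≤ t} (1 - #H/p)`, `vee t = V z ∏_{z ≤ p ≤ t} (1 - 1/p)`, the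
quotient of the tails is in `[1 - 2 (#H)²/z, 1]`, let `t → ∞` (`tendsto_dlt`). -/
theorem const_z (z : ℕ) (hz : 1 ≤ z) (H : Finset ℕ) (hH : ∀ h ∈ H, h < z) :
    hlConst 1 0 H * V z ^ #H ≤ DD z H ∧
      DD z H * (1 - 2 * (#H : ℝ) ^ 2 / z) ≤ hlConst 1 0 H * V z ^ #H := by
  classical
  set k := #H with hk
  have hkz : k ≤ z := by
    have h1 : H ⊆ range z := fun h hh => mem_range.2 (hH h hh)
    have h2 := Finset.card_le_card h1
    rwa [card_range] at h2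
  have hzR : (1 : ℝ) ≤ z := by exact_mod_cast hz
  have hVpos : 0 < V z := by
    rw [V_eq_vee z hz]
    exact Pool.Agent.LibCI99.vee_pos _
  have hVk : 0 < V z ^ k := pow_pos hVpos k
  have hD0 : 0 ≤ DD z H := by
    unfold DD
    refine Finset.prod_nonneg fun p hp => ?_
    have hpp := (mem_filter.1 hp).2
    have hp0 : (0 : ℝ) < p := by exact_mod_cast hpp.pos
    have h1 : (occ H p : ℝ) ≤ p := by exact_mod_cast Pool.Agent.LibCI99.occ_le H hpp.pos
    rw [sub_nonneg, div_le_one hp0]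
    exact h1
  -- the value at `t ≥ z`
  have key : ∀ t, z ≤ t →
      DD z H * (1 - 2 * (k : ℝ) ^ 2 / z) / V z ^ k ≤ dlt 1 0 H t / vee t ^ k ∧
      dlt 1 0 H t / vee t ^ k ≤ DD z H / V z ^ k := by
    intro t ht
    have hd : dlt 1 0 H t = DD z H *
        ∏ p ∈ (Icc z t).filter Nat.Prime, (1 - (k : ℝ) / (p : ℝ)) := by
      unfold Pool.Agent.LibCI99.dlt DD
      rw [uh09a_split2 z t ht]
      have e1 : ∏ p ∈ (range z).filter Nat.Prime,
          (if p ∣ 1 then (if ∀ h ∈ H, ¬ p ∣ 0 + h then (1 : ℝ) else 0)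
            else 1 - (occ H p : ℝ) / p) =
          ∏ p ∈ (range z).filter Nat.Prime, (1 - (occ H p : ℝ) / p) := by
        refine Finset.prod_congr rfl fun p hp => ?_
        rw [mem_filter] at hp
        rw [if_neg]
        exact hp.2.one_lt.ne' ∘ Nat.dvd_one.1
      have e2 : ∏ p ∈ (Icc z t).filter Nat.Prime,
          (if p ∣ 1 then (if ∀ h ∈ H, ¬ p ∣ 0 + h then (1 : ℝ) else 0)
            else 1 - (occ H p : ℝ) / p) =
          ∏ p ∈ (Icc z t).filter Nat.Prime, (1 - (k : ℝ) / p) := by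
        refine Finset.prod_congr rfl fun p hp => ?_
        rw [mem_filter, mem_Icc] at hp
        rw [if_neg, Pool.Agent.LibCI99.occ_of_gt H p (fun h hh => (hH h hh).trans_le hp.1.1)]
        exact hp.2.one_lt.ne' ∘ Nat.dvd_one.1
      rw [e1, e2]
      push_cast
      ring
    have hv : vee t = V z * ∏ p ∈ (Icc z t).filter Nat.Prime, (1 - 1 / (p : ℝ)) := by
      unfold Pool.Agent.LibCI99.vee Pool.Agent.LibLin93.V
      exact uh09a_split2 z t ht _
    obtain ⟨hWpos, hRle, hRge⟩ := uh09a_ratio z t k hz ht hkz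
    generalize hR : ∏ p ∈ (Icc z t).filter Nat.Prime, (1 - (k : ℝ) / (p : ℝ)) = R at *
    generalize hW : ∏ p ∈ (Icc z t).filter Nat.Prime, (1 - 1 / (p : ℝ)) = W at *
    have hWk : 0 < W ^ k := pow_pos hWpos k
    rw [hd, hv, mul_pow]
    constructor
    · rw [div_le_div_iff₀ hVk (mul_pos hVk hWk)]
      have h1 : DD z H * (W ^ k * (1 - 2 * (k : ℝ) ^ 2 / z)) ≤
          DD z H * R := mul_le_mul_of_nonneg_left hRge hD0
      have h2 := mul_le_mul_of_nonneg_right h1 hVk.le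
      linarith
    · rw [div_le_div_iff₀ (mul_pos hVk hWk) hVk]
      have h1 : DD z H * R ≤ DD z H * W ^ k :=
        mul_le_mul_of_nonneg_left hRle hD0
      have h2 := mul_le_mul_of_nonneg_right h1 hVk.le
      linarith
  have hlim := Pool.Agent.LibCI99.tendsto_dlt 1 0 one_pos H
  rw [← hk] at hlim
  constructor
  · have h1 : hlConst 1 0 H ≤ DD z H / V z ^ k := by
      refine le_of_tendsto hlim ?_
      filter_upwards [eventually_ge_atTop z] with t ht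
      exact (key t ht).2
    rwa [le_div_iff₀ hVk] at h1
  · have h1 : DD z H * (1 - 2 * (k : ℝ) ^ 2 / z) / V z ^ k ≤ hlConst 1 0 H := by
      refine ge_of_tendsto hlim ?_
      filter_upwards [eventually_ge_atTop z] with t ht
      exact (key t ht).1
    rwa [div_le_iff₀ hVk] at h1

theorem uw03b_DD_nonneg (z : ℕ) (H : Finset ℕ) : 0 ≤ DD z H := by
  unfold DD
  refine Finset.prod_nonneg fun p hp => ?_
  have hpp : p.Prime := (mem_filter.1 hp).2
  have hp0 : (0 : ℝ) < p := by exact_mod_cast hpp.pos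
  have h1 : (occ H p : ℝ) ≤ p := by exact_mod_cast Pool.Agent.LibCI99.occ_le H hpp.pos
  rw [sub_nonneg, div_le_one hp0]
  exact h1

theorem uw03b_DD_le (z : ℕ) (H : Finset ℕ) : DD z H ≤ 1 := by
  unfold DD
  refine Finset.prod_le_one (fun p hp => ?_) fun p _ => ?_
  · have hpp : p.Prime := (mem_filter.1 hp).2
    have hp0 : (0 : ℝ) < p := by exact_mod_cast hpp.pos
    have h1 : (occ H p : ℝ) ≤ p := by exact_mod_cast Pool.Agent.LibCI99.occ_le H hpp.pos
    rw [sub_nonneg, div_le_one hp0]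
    exact h1
  · have : (0 : ℝ) ≤ (occ H p : ℝ) / p := by positivity
    linarith

theorem uw03b_V_le_one (z : ℕ) : V z ≤ 1 := by
  have h1 : V 0 = 1 := by
    unfold Pool.Agent.LibLin93.V
    simp
  rw [← h1]
  exact Pool.Agent.LibLin93.V_anti (Nat.zero_le z)

theorem uw03b_inv_pow {θ : ℝ} (hθ : 0 ≤ θ) (k : ℕ) : 1 - k * θ ≤ ((1 + θ) ^ k)⁻¹ := by
  have h1 : (1 + θ) ^ k ≤ Real.exp (k * θ) := by
    rw [Real.exp_nat_mul]
    refine pow_le_pow_left₀ (by linarith) ?_ k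
    have := Real.add_one_le_exp θ
    linarith
  have h2 : 1 - k * θ ≤ Real.exp (-(k * θ)) := by
    have := Real.add_one_le_exp (-(k * θ))
    linarith
  have h3 : Real.exp (-(k * θ)) ≤ ((1 + θ) ^ k)⁻¹ := by
    rw [Real.exp_neg]
    exact inv_anti₀ (by positivity) h1
  exact h2.trans h3

theorem uw03b_log_sub {n : ℕ} (hn : 1 ≤ n) {t : ℝ} (h1 : (n : ℝ) ≤ t) (h2 : t ≤ n + 1) :
    0 ≤ Real.log t - Real.log n ∧ Real.log t - Real.log n ≤ 1 / n := by
  have hn0 : (0 : ℝ) < n := by exact_mod_cast hn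
  have ht0 : 0 < t := hn0.trans_le h1
  constructor
  · rw [sub_nonneg]
    exact Real.log_le_log hn0 h1
  · rw [← Real.log_div ht0.ne' hn0.ne']
    refine (Real.log_le_sub_one_of_pos (by positivity)).trans ?_
    rw [div_sub_one hn0.ne']
    exact div_le_div_of_nonneg_right (by linarith) hn0.le

/-- PROOF. Let `n = ⌊t⌋`, `z = zz n ≥ √n`, `k = #H`. By `zz_spec`
`V z log t = V z log n * (log t / log n) = 1 + θ`, `0 ≤ θ ≤ 4/√x` for large `x`
(`log t - log n ≤ 1/n`). `hlConst / log t ^ k = hlConst V z ^ k (1+θ)^(-k)`,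
`1 - k θ ≤ (1+θ)^(-k) ≤ 1`, `const_z` and `0 ≤ DD ≤ 1`: the difference is between `-(2k²/z + 4k/√x)`
and `0`; `z ≥ √n ≥ √x`. (`h < z` because `h ≤ x^(1/4) < √x`.) -/
theorem const_t : ∀ᶠ x : ℕ in atTop, ∀ t : ℝ, (x : ℝ) ≤ t → t ≤ 2 * x → ∀ H : Finset ℕ,
    (∀ h ∈ H, (h : ℝ) ≤ (x : ℝ) ^ (1 / 4 : ℝ)) →
      |hlConst 1 0 H / Real.log t ^ #H - DD (zz ⌊t⌋₊) H| ≤ 8 * ((#H : ℝ) + 1) ^ 2 / √(x : ℝ) := by
  obtain ⟨X, hX⟩ := eventually_atTop.1 zz_spec
  filter_upwards [eventually_ge_atTop X, eventually_ge_atTop 2] with x hxX hx2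
  intro t ht1 ht2 H hH
  have hx2' : (2 : ℝ) ≤ x := by exact_mod_cast hx2
  have hx0 : (0 : ℝ) < x := by linarith
  have ht0 : 0 ≤ t := by linarith
  set n : ℕ := ⌊t⌋₊ with hn
  have hnx : x ≤ n := Nat.le_floor ht1
  have hnx' : (x : ℝ) ≤ n := by exact_mod_cast hnx
  have hnt : (n : ℝ) ≤ t := Nat.floor_le ht0
  have hnt2 : t ≤ n + 1 := (Nat.lt_floor_add_one t).le
  obtain ⟨z1, z2, z3, z4⟩ := hX n (hxX.trans hnx)
  set z : ℕ := zz n with hz
  have hn1 : 1 ≤ n := by omega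
  have hn0 : (0 : ℝ) < n := by linarith
  have hsx : √(x : ℝ) ≤ √(n : ℝ) := Real.sqrt_le_sqrt hnx'
  have hsx1 : 1 < √(x : ℝ) := by
    rw [Real.lt_sqrt (by norm_num)]
    linarith
  have hsx0 : 0 < √(x : ℝ) := by linarith
  have hzx : √(x : ℝ) ≤ z := hsx.trans z1
  have hz0 : (0 : ℝ) < z := by linarith
  have hz1 : 1 ≤ z := by
    have : (1 : ℝ) ≤ z := by linarith
    exact_mod_cast this
  -- `h < z`
  have hHz : ∀ h ∈ H, h < z := by
    intro h hh
    have h1 : (x : ℝ) ^ (1 / 4 : ℝ) < √(x : ℝ) := by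
      rw [Real.sqrt_eq_rpow]
      exact Real.rpow_lt_rpow_of_exponent_lt (by linarith) (by norm_num)
    have h2 : (h : ℝ) < z := (hH h hh).trans_lt (h1.trans_le hzx)
    exact_mod_cast h2
  obtain ⟨c1, c2⟩ := const_z z hz1 H hHz
  set k : ℕ := #H with hk
  set C : ℝ := hlConst 1 0 H * V z ^ k with hC
  set D : ℝ := DD z H with hD
  have hD0 : 0 ≤ D := uw03b_DD_nonneg z H
  have hD1 : D ≤ 1 := uw03b_DD_le z H
  have hVpos := Pool.Agent.LibLin93.V_pos z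
  have hV1 := uw03b_V_le_one z
  have hC0 : 0 ≤ C := mul_nonneg (hlConst_nonneg 1 0 one_pos H) (pow_nonneg hVpos.le k)
  obtain ⟨l1, l2⟩ := uw03b_log_sub hn1 hnt hnt2
  set θ : ℝ := V z * Real.log t - 1 with hθ
  have hθ0 : 0 ≤ θ := by
    have h1 : V z * Real.log n ≤ V z * Real.log t := mul_le_mul_of_nonneg_left (by linarith) hVpos.le
    linarith
  have hθ1 : θ ≤ 3 / √(x : ℝ) := by
    have h1 : V z * Real.log t = V z * Real.log n + V z * (Real.log t - Real.log n) := by ring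
    have h2 : V z * (Real.log t - Real.log n) ≤ 1 * (1 / n) := mul_le_mul hV1 l2 l1 zero_le_one
    have h3 : 2 / √(n : ℝ) ≤ 2 / √(x : ℝ) := div_le_div_of_nonneg_left (by norm_num) hsx0 hsx
    have h4 : 1 / (n : ℝ) ≤ 1 / √(x : ℝ) := by
      apply one_div_le_one_div_of_le hsx0
      refine le_trans ?_ hnx'
      have := Real.mul_self_sqrt hx0.le
      nlinarith
    have h5 : 3 / √(x : ℝ) = 2 / √(x : ℝ) + 1 / √(x : ℝ) := by ring
    linarith
  have hlog : 0 < Real.log t := Real.log_pos (by linarith)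
  have e1 : hlConst 1 0 H / Real.log t ^ k = C * ((1 + θ) ^ k)⁻¹ := by
    have h1 : 1 + θ = V z * Real.log t := by rw [hθ]; ring
    rw [h1, hC, mul_pow]
    have hV' : V z ^ k ≠ 0 := (pow_pos hVpos k).ne'
    have hl' : Real.log t ^ k ≠ 0 := (pow_pos hlog k).ne'
    field_simp
  rw [e1]
  have g1 : ((1 + θ) ^ k)⁻¹ ≤ 1 := inv_le_one_of_one_le₀ (one_le_pow₀ (by linarith))
  have g2 := uw03b_inv_pow hθ0 k
  have hk0 : (0 : ℝ) ≤ k := Nat.cast_nonneg k
  have hCD : C ≤ D := c1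
  have hbound : 0 ≤ 8 * ((k : ℝ) + 1) ^ 2 / √(x : ℝ) := by positivity
  rw [abs_le]
  constructor
  · have h1 : C * (1 - k * θ) ≤ C * ((1 + θ) ^ k)⁻¹ := mul_le_mul_of_nonneg_left g2 hC0
    have h2 : C * (k * θ) ≤ k * θ := by
      have : 0 ≤ (k : ℝ) * θ := mul_nonneg hk0 hθ0
      nlinarith
    have h3 : D * (2 * (k : ℝ) ^ 2 / z) ≤ 2 * (k : ℝ) ^ 2 / √(x : ℝ) := by
      calc D * (2 * (k : ℝ) ^ 2 / z) ≤ 1 * (2 * (k : ℝ) ^ 2 / √(x : ℝ)) :=
            mul_le_mul hD1 (div_le_div_of_nonneg_left (by positivity) hsx0 hzx) (by positivity) zero_le_one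
        _ = _ := one_mul _
    have h4 : (k : ℝ) * θ ≤ 3 * k / √(x : ℝ) := by
      calc (k : ℝ) * θ ≤ k * (3 / √(x : ℝ)) := mul_le_mul_of_nonneg_left hθ1 hk0
        _ = _ := by ring
    have h5 : 2 * (k : ℝ) ^ 2 / √(x : ℝ) + 3 * k / √(x : ℝ) ≤ 8 * ((k : ℝ) + 1) ^ 2 / √(x : ℝ) := by
      rw [← add_div]
      exact div_le_div_of_nonneg_right (by nlinarith) hsx0.le
    have h6 : D * (1 - 2 * (k : ℝ) ^ 2 / z) = D - D * (2 * (k : ℝ) ^ 2 / z) := by ring
    have h7 : C * (1 - k * θ) = C - C * (k * θ) := by ring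
    linarith
  · have h1 : C * ((1 + θ) ^ k)⁻¹ ≤ C := mul_le_of_le_one_right hC0 g1
    linarith

theorem uw03c_log (ε c : ℝ) (hε : 0 < ε) (hc : 0 < c) : ∀ᶠ L : ℝ in atTop, Real.log L ≤ c * L ^ ε := by
  have h1 := (isLittleO_log_rpow_atTop hε).bound hc
  filter_upwards [h1, eventually_ge_atTop (1 : ℝ)] with L h hL
  rw [Real.norm_of_nonneg (Real.log_nonneg hL), Real.norm_of_nonneg (Real.rpow_nonneg (by linarith) _)] at h
  exact h

theorem uw03c_exp (b : ℝ) (hb : 0 < b) (C : ℝ) : ∀ᶠ L : ℝ in atTop, C * L ^ 2 ≤ Real.exp (b * L) := by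
  have h1 := isLittleO_pow_exp_pos_mul_atTop 2 hb
  have h2 := h1.bound (c := (|C| + 1)⁻¹) (by positivity)
  filter_upwards [h2] with L h
  rw [Real.norm_of_nonneg (Real.exp_pos _).le, norm_pow, Real.norm_eq_abs, sq_abs] at h
  have h3 : 0 < |C| + 1 := by positivity
  have h4 : (|C| + 1) * L ^ 2 ≤ Real.exp (b * L) := by
    calc (|C| + 1) * L ^ 2 ≤ (|C| + 1) * ((|C| + 1)⁻¹ * Real.exp (b * L)) :=
          mul_le_mul_of_nonneg_left h h3.le
      _ = Real.exp (b * L) := by rw [← mul_assoc, mul_inv_cancel₀ h3.ne', one_mul]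
  have h5 : C * L ^ 2 ≤ (|C| + 1) * L ^ 2 :=
    mul_le_mul_of_nonneg_right (by linarith [le_abs_self C]) (sq_nonneg L)
  exact h5.trans h4

/-- the numerical facts -/
structure uw03c_F (d d' c L : ℝ) : Prop where
  big : 37 ≤ L
  f1 : Real.log L ≤ 1 / 80 * L ^ ((d' - d) / 2)
  f2 : Real.log L ≤ c * L ^ (d' - d)
  f3 : Real.log L ≤ 1 / 80 * L ^ (1 - d')
  f4 : 8 ≤ L ^ (1 - d')
  f5 : 4 ≤ L ^ ((d + d') / 2)
  f6 : L ^ 2 ≤ Real.exp (1 / 4 * L)
  f7 : 128 * L ^ 2 ≤ Real.exp (1 / 8 * L)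

theorem uw03c_ev {d d' c : ℝ} (h0 : 0 < d) (h1 : d < d') (h2 : d' < 1) (hc : 0 < c) :
    ∀ᶠ L : ℝ in atTop, uw03c_F d d' c L := by
  filter_upwards [eventually_ge_atTop (37 : ℝ), uw03c_log ((d' - d) / 2) (1 / 80) (by linarith) (by norm_num),
    uw03c_log (d' - d) c (by linarith) hc, uw03c_log (1 - d') (1 / 80) (by linarith) (by norm_num),
    (tendsto_rpow_atTop (y := 1 - d') (by linarith)).eventually_ge_atTop 8,
    (tendsto_rpow_atTop (y := (d + d') / 2) (by linarith)).eventually_ge_atTop 4,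
    uw03c_exp (1 / 4) (by norm_num) 1, uw03c_exp (1 / 8) (by norm_num) 128] with L a1 a2 a3 a4 a5 a6 a7 a8
  exact ⟨a1, a2, a3, a4, a5, a6, by linarith, a8⟩

open Classical in
/-- (1) the probability of an empty interval -/
theorem uw03c_P {d : ℝ} (h0 : 0 < d) (h1 : d < 1) {L : ℝ} (hL : 37 ≤ L) {y z : ℕ} (hy1 : (y : ℝ) ≤ L ^ (1 + d))
    (hy2 : L ^ (1 + d) ≤ y + 1) (hz : y ^ 2 ≤ z) (hV : V z * L ≤ 2)
    (hB : ∀ v : ℕ, (v : ℝ) ≤ y / 4 → ∃ B : Finset ℕ, #B = v ∧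
      (∀ p ∈ B, p.Prime ∧ p < y ^ 2) ∧ 1 / 2 ≤ ∏ p ∈ B, (1 - 1 / (p : ℝ))) :
    Real.exp (-(40 * (L ^ d * Real.log L))) ≤
      (#{m ∈ range (∏ p ∈ (range z).filter Nat.Prime, p) |
        ∀ h ∈ Icc 1 y, ∃ p : ℕ, p.Prime ∧ p < z ∧ p ∣ h + m} : ℝ) /
      (∏ p ∈ (range z).filter Nat.Prime, (p : ℝ)) := by
  have hL0 : 0 < L := by linarith
  have hVpos := Pool.Agent.LibLin93.V_pos z
  have hLd : L ^ (1 + d) = L * L ^ d := by rw [Real.rpow_add hL0, Real.rpow_one]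
  have hLd1 : 1 ≤ L ^ d := Real.one_le_rpow (by linarith) h0.le
  have hlogL : 1 ≤ Real.log L := by
    rw [Real.le_log_iff_exp_le hL0]
    linarith [Real.exp_one_lt_d9]
  set v : ℕ := ⌈4 * y * V z⌉₊ with hv
  have hyV : 4 * y * V z ≤ 8 * L ^ d := by
    have h3 : (y : ℝ) * V z ≤ 2 * L ^ d := by
      calc (y : ℝ) * V z ≤ L ^ (1 + d) * V z := mul_le_mul_of_nonneg_right hy1 hVpos.le
        _ = (V z * L) * L ^ d := by rw [hLd]; ring
        _ ≤ 2 * L ^ d := mul_le_mul_of_nonneg_right hV (by linarith)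
    linarith
  have hv1 : (v : ℝ) ≤ 9 * L ^ d := by
    have h3 : (v : ℝ) < 4 * y * V z + 1 := Nat.ceil_lt_add_one (by positivity)
    linarith
  have hv2 : 4 * y * V z ≤ v := Nat.le_ceil _
  have hvy : (v : ℝ) ≤ y / 4 := by
    have h3 : 37 * L ^ d ≤ L * L ^ d := mul_le_mul_of_nonneg_right hL (by linarith)
    rw [hLd] at hy2
    linarith
  obtain ⟨B, hB1, hB2, hB3⟩ := hB v hvy
  have hk := kill z y B (fun p hp => ⟨(hB2 p hp).1, (hB2 p hp).2.trans_le hz⟩) hB3 (by rw [hB1]; exact hv2)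
  have hQ : (0 : ℝ) < ∏ p ∈ (range z).filter Nat.Prime, (p : ℝ) :=
    Finset.prod_pos fun p hp => by exact_mod_cast (mem_filter.1 hp).2.pos
  have hBp : (0 : ℝ) < ∏ p ∈ B, (p : ℝ) := Finset.prod_pos fun p hp => by exact_mod_cast (hB2 p hp).1.pos
  have hBle : ∏ p ∈ B, (p : ℝ) ≤ Real.exp (36 * (L ^ d * Real.log L)) := by
    have hy4 : ((y : ℝ) ^ 2) ≤ L ^ 4 := by
      have h3 : L ^ (1 + d) ≤ L ^ 2 := by
        rw [← Real.rpow_natCast L 2]
        exact Real.rpow_le_rpow_of_exponent_le (by linarith) (by push_cast; linarith)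
      calc ((y : ℝ) ^ 2) ≤ (L ^ 2) ^ 2 := pow_le_pow_left₀ (Nat.cast_nonneg y) (hy1.trans h3) 2
        _ = L ^ 4 := by ring
    calc ∏ p ∈ B, (p : ℝ) ≤ ∏ _p ∈ B, L ^ 4 := by
          refine Finset.prod_le_prod (fun p _ => Nat.cast_nonneg p) fun p hp => ?_
          have h3 : (p : ℝ) ≤ (y : ℝ) ^ 2 := by exact_mod_cast (hB2 p hp).2.le
          exact h3.trans hy4
      _ = (L ^ 4) ^ v := by rw [Finset.prod_const, hB1]
      _ = Real.exp (v * (4 * Real.log L)) := by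
          rw [Real.exp_nat_mul]
          congr 1
          have h3 : 4 * Real.log L = Real.log (L ^ 4) := by
            rw [Real.log_pow]
            norm_num
          rw [h3, Real.exp_log (by positivity)]
      _ ≤ Real.exp (36 * (L ^ d * Real.log L)) := by
          apply Real.exp_le_exp.2
          calc (v : ℝ) * (4 * Real.log L) ≤ (9 * L ^ d) * (4 * Real.log L) :=
                mul_le_mul_of_nonneg_right hv1 (by linarith)
            _ = 36 * (L ^ d * Real.log L) := by ring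
  rw [le_div_iff₀ hQ]
  refine le_trans ?_ hk
  rw [le_div_iff₀ hBp]
  have h5 : Real.exp (-(40 * (L ^ d * Real.log L))) * ∏ p ∈ B, (p : ℝ) ≤ 1 / 2 := by
    have h6 : 1 ≤ L ^ d * Real.log L := by nlinarith
    calc Real.exp (-(40 * (L ^ d * Real.log L))) * ∏ p ∈ B, (p : ℝ)
        ≤ Real.exp (-(40 * (L ^ d * Real.log L))) * Real.exp (36 * (L ^ d * Real.log L)) :=
          mul_le_mul_of_nonneg_left hBle (Real.exp_pos _).le
      _ = Real.exp (-(4 * (L ^ d * Real.log L))) := by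
          rw [← Real.exp_add]
          congr 1
          ring
      _ ≤ Real.exp (-1) := Real.exp_le_exp.2 (by linarith)
      _ ≤ 1 / 2 := by
          rw [Real.exp_neg, one_div]
          apply inv_anti₀ (by norm_num)
          linarith [Real.exp_one_gt_d9]
  calc Real.exp (-(40 * (L ^ d * Real.log L))) * (∏ p ∈ (range z).filter Nat.Prime, (p : ℝ)) * ∏ p ∈ B, (p : ℝ)
      = (Real.exp (-(40 * (L ^ d * Real.log L))) * ∏ p ∈ B, (p : ℝ)) *
          ∏ p ∈ (range z).filter Nat.Prime, (p : ℝ) := by ring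
    _ ≤ 1 / 2 * ∏ p ∈ (range z).filter Nat.Prime, (p : ℝ) := mul_le_mul_of_nonneg_right h5 hQ.le

/-- (2) the last term -/
theorem uw03c_S {d d' c0 : ℝ} (hc0 : 0 < c0) {L : ℝ} (hL : 37 ≤ L)
    (f2 : Real.log L ≤ c0 / (6 * Real.exp 1 ^ 2) * L ^ (d' - d)) {y z k : ℕ} (hy : 1 ≤ y) (hy1 : (y : ℝ) ≤ L ^ (1 + d))
    (hy3 : Real.log ((y : ℝ) + 1) ≤ 3 * Real.log L)
    (hV : V z * L ≤ 2) (hVy : c0 ≤ V (y + 1) * Real.log ((y + 1 : ℕ) : ℝ))
    (hk1 : L ^ d' ≤ k) (hk : 1 ≤ k) (hky : k ≤ y) (hyz : y + 1 ≤ z) :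
    ∑ H ∈ (Icc 1 y).powersetCard k, DD z H ≤ Real.exp (-(L ^ d')) := by
  have hL0 : 0 < L := by linarith
  have hVpos := Pool.Agent.LibLin93.V_pos z
  have hVy0 := Pool.Agent.LibLin93.V_pos (y + 1)
  refine (sum_DD z y k hk hky hyz).trans ?_
  have hLd : L ^ (1 + d) = L * L ^ d := by rw [Real.rpow_add hL0, Real.rpow_one]
  have hLdp : 0 < L ^ d := Real.rpow_pos_of_pos hL0 d
  have hLdp' : 0 < L ^ d' := Real.rpow_pos_of_pos hL0 d'
  have hk0 : (0 : ℝ) < k := by exact_mod_cast hk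
  have hyVz : (y : ℝ) * V z ≤ 2 * L ^ d := by
    calc (y : ℝ) * V z ≤ L ^ (1 + d) * V z := mul_le_mul_of_nonneg_right hy1 hVpos.le
      _ = (V z * L) * L ^ d := by rw [hLd]; ring
      _ ≤ 2 * L ^ d := mul_le_mul_of_nonneg_right hV hLdp.le
  have e0 : 0 < Real.exp 1 := Real.exp_pos 1
  have hratio : Real.exp 1 * y * V z / (k * V (y + 1)) ≤ Real.exp (-1) := by
    rw [div_le_iff₀ (by positivity), Real.exp_neg]
    -- `e y V ≤ e^{-1} k V(y+1)`
    have h3 : c0 ≤ V (y + 1) * (3 * Real.log L) := by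
      refine hVy.trans ?_
      push_cast
      exact mul_le_mul_of_nonneg_left hy3 hVy0.le
    have h4 : L ^ (d' - d) * L ^ d = L ^ d' := by
      rw [← Real.rpow_add hL0]
      congr 1
      ring
    have h5 : c0 * (6 * Real.exp 1 ^ 2) ≤ V (y + 1) * 3 * (c0 * L ^ (d' - d)) := by
      have h6 : Real.log L * (6 * Real.exp 1 ^ 2) ≤ c0 * L ^ (d' - d) := by
        calc Real.log L * (6 * Real.exp 1 ^ 2)
            ≤ (c0 / (6 * Real.exp 1 ^ 2) * L ^ (d' - d)) * (6 * Real.exp 1 ^ 2) :=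
              mul_le_mul_of_nonneg_right f2 (by positivity)
          _ = c0 * L ^ (d' - d) := by field_simp
      calc c0 * (6 * Real.exp 1 ^ 2) ≤ V (y + 1) * (3 * Real.log L) * (6 * Real.exp 1 ^ 2) :=
            mul_le_mul_of_nonneg_right h3 (by positivity)
        _ = V (y + 1) * 3 * (Real.log L * (6 * Real.exp 1 ^ 2)) := by ring
        _ ≤ V (y + 1) * 3 * (c0 * L ^ (d' - d)) := mul_le_mul_of_nonneg_left h6 (by positivity)
    have h7 : 2 * Real.exp 1 ^ 2 ≤ V (y + 1) * L ^ (d' - d) := by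
      have h8 : c0 * (6 * Real.exp 1 ^ 2) ≤ c0 * (3 * (V (y + 1) * L ^ (d' - d))) := by
        calc c0 * (6 * Real.exp 1 ^ 2) ≤ V (y + 1) * 3 * (c0 * L ^ (d' - d)) := h5
          _ = c0 * (3 * (V (y + 1) * L ^ (d' - d))) := by ring
      have h9 := le_of_mul_le_mul_left h8 hc0
      linarith
    have h10 : 2 * Real.exp 1 ^ 2 * L ^ d ≤ V (y + 1) * L ^ d' := by
      calc 2 * Real.exp 1 ^ 2 * L ^ d ≤ (V (y + 1) * L ^ (d' - d)) * L ^ d :=
            mul_le_mul_of_nonneg_right h7 hLdp.le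
        _ = V (y + 1) * L ^ d' := by rw [mul_assoc, h4]
    have h11 : V (y + 1) * L ^ d' ≤ V (y + 1) * k := mul_le_mul_of_nonneg_left hk1 hVy0.le
    have h12 : Real.exp 1 * (Real.exp 1 * y * V z) ≤ k * V (y + 1) := by
      calc Real.exp 1 * (Real.exp 1 * y * V z) = Real.exp 1 ^ 2 * ((y : ℝ) * V z) := by ring
        _ ≤ Real.exp 1 ^ 2 * (2 * L ^ d) := mul_le_mul_of_nonneg_left hyVz (by positivity)
        _ = 2 * Real.exp 1 ^ 2 * L ^ d := by ring
        _ ≤ V (y + 1) * L ^ d' := h10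
        _ ≤ V (y + 1) * k := h11
        _ = k * V (y + 1) := mul_comm _ _
    calc Real.exp 1 * y * V z = (Real.exp 1)⁻¹ * (Real.exp 1 * (Real.exp 1 * y * V z)) := by
          rw [← mul_assoc, inv_mul_cancel₀ e0.ne', one_mul]
      _ ≤ (Real.exp 1)⁻¹ * (k * V (y + 1)) := mul_le_mul_of_nonneg_left h12 (by positivity)
  calc (Real.exp 1 * y * V z / (k * V (y + 1))) ^ k ≤ (Real.exp (-1)) ^ k :=
        pow_le_pow_left₀ (by positivity) hratio k
    _ = Real.exp (-(k : ℝ)) := by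
        rw [← Real.exp_nat_mul]
        congr 1
        ring
    _ ≤ Real.exp (-(L ^ d')) := Real.exp_le_exp.2 (by linarith)

/-- comparison of the two sums -/
theorem uw03c_cmp {y k : ℕ} {ε : ℝ} (f g : Finset ℕ → ℝ)
    (h : ∀ H ∈ (Icc 1 y).powerset, #H ≤ k → |f H - g H| ≤ ε) (hε : 0 ≤ ε) :
    ∑ j ∈ range (k + 1), (-1 : ℝ) ^ j * ∑ H ∈ (Icc 1 y).powersetCard j, g H - (y + 1 : ℝ) ^ k * ε ≤
      ∑ j ∈ range (k + 1), (-1 : ℝ) ^ j * ∑ H ∈ (Icc 1 y).powersetCard j, f H := by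
  have h1 : ∑ j ∈ range (k + 1), (-1 : ℝ) ^ j * ∑ H ∈ (Icc 1 y).powersetCard j, g H -
      ∑ j ∈ range (k + 1), (-1 : ℝ) ^ j * ∑ H ∈ (Icc 1 y).powersetCard j, f H =
      ∑ j ∈ range (k + 1), (-1 : ℝ) ^ j * ∑ H ∈ (Icc 1 y).powersetCard j, (g H - f H) := by
    rw [← Finset.sum_sub_distrib]
    refine Finset.sum_congr rfl fun j _ => ?_
    rw [← mul_sub, Finset.sum_sub_distrib]
  have h2 : ∑ j ∈ range (k + 1), (-1 : ℝ) ^ j * ∑ H ∈ (Icc 1 y).powersetCard j, (g H - f H) ≤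
      ∑ j ∈ range (k + 1), (#((Icc 1 y).powersetCard j) : ℝ) * ε := by
    refine Finset.sum_le_sum fun j hj => ?_
    refine (le_abs_self _).trans ?_
    rw [abs_mul, abs_pow, abs_neg, abs_one, one_pow, one_mul]
    refine (Finset.abs_sum_le_sum_abs _ _).trans ?_
    rw [← nsmul_eq_mul]
    refine Finset.sum_le_card_nsmul _ _ _ fun H hH => ?_
    obtain ⟨h3, h4⟩ := Finset.mem_powersetCard.1 hH
    rw [abs_sub_comm]
    exact h H (Finset.mem_powerset.2 h3) (by rw [h4]; exact Nat.lt_succ_iff.1 (mem_range.1 hj))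
  rw [← Finset.sum_mul] at h2
  have h3 := mul_le_mul_of_nonneg_right (num_sets y k) hε
  linarith

/-- PROOF. `L = log x`, `y = ⌊L^(1+d)⌋`, `k = 2 ⌊L^d'⌋ + 1` (odd), `n = ⌊t⌋`, `z = zz n`,
`√x ≤ z`, `V z ≤ 2/log n ≤ 2/L`. By `const_t`, `num_sets` and `model_bonf` (with `bonf`,
`count_sub`) the right side is at least `P₀ - ∑_{#H = k} DD z H - (y+1)^k 8 (k+1)²/√x`, where
`P₀ = #{m : no survivor}/Q`. (1) `v = ⌈4 y V z⌉ ≤ 9 L^d ≤ y/4`; `exists_B` gives `B`, `y² ≤ z`, and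
`kill`: `P₀ ≥ (1/2)/∏_B p ≥ (1/2) y^(-2v) ≥ exp (-40 L^d log L)` for large `x`
(`log y ≤ 2 log L`). (2) `sum_DD`: `e y V z/(k V (y+1)) ≤ C L^(1+d) (1/L) log y / L^d' ≤
L^(-(d'-d)/2) ≤ 1/e`, so the sum is `≤ exp (-k) ≤ exp (-L^d')`. (3) `(y+1)^k (k+1)²/√x ≤
exp (6 L^d' log L + ... - L/2) ≤ exp (-L^d')` for large `x`, as `d' < 1`. As `d < (d+d')/2 < d'`:
the right side is `≥ exp (-40 L^d log L) - 9 exp (-L^d') ≥ exp (-L^((d+d')/2))`. -/
theorem main_lower (d d' : ℝ) (h0 : 0 < d) (h1 : d < d') (h2 : d' < 1) : ∀ᶠ x : ℕ in atTop,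
    ∀ t : ℝ, (x : ℝ) ≤ t → t ≤ 2 * x →
      Real.exp (-(Real.log x ^ ((d + d') / 2))) ≤
        ∑ j ∈ range (2 * ⌊Real.log x ^ d'⌋₊ + 1 + 1), (-1 : ℝ) ^ j *
          ∑ H ∈ (Icc 1 ⌊Real.log x ^ (1 + d)⌋₊).powersetCard j, hlConst 1 0 H / Real.log t ^ j := by
  obtain ⟨c0, C0, hc0, -, hVb⟩ := Pool.Agent.LibLin93.V_bounds
  obtain ⟨X, hX⟩ := eventually_atTop.1 zz_spec
  have hlogx : Tendsto (fun x : ℕ => Real.log (x : ℝ)) atTop atTop :=
    Real.tendsto_log_atTop.comp tendsto_natCast_atTop_atTop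
  have hyt : Tendsto (fun x : ℕ => ⌊Real.log (x : ℝ) ^ (1 + d)⌋₊) atTop atTop :=
    tendsto_nat_floor_atTop.comp ((tendsto_rpow_atTop (y := 1 + d) (by linarith)).comp hlogx)
  have he0 : 0 < Real.exp 1 := Real.exp_pos 1
  filter_upwards [eventually_ge_atTop X, eventually_ge_atTop 4, const_t,
    hlogx.eventually (uw03c_ev h0 h1 h2 (c := c0 / (6 * Real.exp 1 ^ 2)) (by positivity)),
    hyt.eventually exists_B] with x hxX hx4 hct hF hEB
  intro t ht1 ht2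
  obtain ⟨big, f1, f2, f3, f4, f5, f6, f7⟩ := hF
  set L : ℝ := Real.log x with hL
  set y : ℕ := ⌊L ^ (1 + d)⌋₊ with hy
  set m : ℕ := ⌊L ^ d'⌋₊ with hm
  set k : ℕ := 2 * m + 1 with hk
  have hx4' : (4 : ℝ) ≤ x := by exact_mod_cast hx4
  have hx0 : (0 : ℝ) < x := by linarith
  have ht0 : 0 ≤ t := by linarith
  have hL0 : 0 < L := by linarith
  have hxL : (x : ℝ) = Real.exp L := (Real.exp_log hx0).symm
  have hsx : √(x : ℝ) = Real.exp (1 / 2 * L) := by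
    rw [Real.sqrt_eq_rpow, hxL, ← Real.exp_mul]
    congr 1
    ring
  have hx14 : (x : ℝ) ^ (1 / 4 : ℝ) = Real.exp (1 / 4 * L) := by
    rw [hxL, ← Real.exp_mul]
    congr 1
    ring
  set n : ℕ := ⌊t⌋₊ with hn
  have hnx : x ≤ n := Nat.le_floor ht1
  have hnx' : (x : ℝ) ≤ n := by exact_mod_cast hnx
  obtain ⟨z1, z2, z3, z4⟩ := hX n (hxX.trans hnx)
  set z : ℕ := zz n with hz
  have hVpos := Pool.Agent.LibLin93.V_pos z
  have hsn : √(x : ℝ) ≤ √(n : ℝ) := Real.sqrt_le_sqrt hnx'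
  have hs2 : 2 ≤ √(x : ℝ) := by
    rw [Real.le_sqrt (by norm_num) hx0.le]
    linarith
  have hzx : Real.exp (1 / 2 * L) ≤ z := by
    rw [← hsx]
    exact hsn.trans z1
  have hVL : V z * L ≤ 2 := by
    have h3 : L ≤ Real.log n := Real.log_le_log hx0 hnx'
    have h4 : V z * L ≤ V z * Real.log n := mul_le_mul_of_nonneg_left h3 hVpos.le
    have h5 : 2 / √(n : ℝ) ≤ 1 := by
      rw [div_le_one (by linarith)]
      linarith
    linarith
  -- powers of `L`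
  have hLd1 : 1 ≤ L ^ d := Real.one_le_rpow (by linarith) h0.le
  have hLd1' : 1 ≤ L ^ d' := Real.one_le_rpow (by linarith) (by linarith)
  have hLd : L ^ (1 + d) = L * L ^ d := by rw [Real.rpow_add hL0, Real.rpow_one]
  have hL1d : L ^ (1 - d') * L ^ d' = L := by
    rw [← Real.rpow_add hL0]
    have : 1 - d' + d' = 1 := by ring
    rw [this, Real.rpow_one]
  have h8 : 8 * L ^ d' ≤ L := by
    calc 8 * L ^ d' ≤ L ^ (1 - d') * L ^ d' := mul_le_mul_of_nonneg_right f4 (by linarith)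
      _ = L := hL1d
  have hL2 : L ^ (1 + d) ≤ L ^ 2 := by
    rw [← Real.rpow_natCast L 2]
    exact Real.rpow_le_rpow_of_exponent_le (by linarith) (by push_cast; linarith)
  have hL1 : L ≤ L ^ (1 + d) := by
    rw [hLd]
    nlinarith
  have hlogL : 1 ≤ Real.log L := by
    rw [Real.le_log_iff_exp_le hL0]
    linarith [Real.exp_one_lt_d9]
  -- `y` and `k`
  have hy1 : (y : ℝ) ≤ L ^ (1 + d) := Nat.floor_le (by positivity)
  have hy2 : L ^ (1 + d) ≤ y + 1 := (Nat.lt_floor_add_one _).le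
  have hm1 : (m : ℝ) ≤ L ^ d' := Nat.floor_le (by positivity)
  have hm2 : L ^ d' ≤ m + 1 := (Nat.lt_floor_add_one _).le
  have hkc : (k : ℝ) = 2 * m + 1 := by rw [hk]; push_cast; ring
  have hm0 : (0 : ℝ) ≤ m := Nat.cast_nonneg m
  have hk1 : L ^ d' ≤ k := by rw [hkc]; linarith
  have hk3 : (k : ℝ) ≤ 3 * L ^ d' := by rw [hkc]; linarith
  have hky : k ≤ y := by
    have h3 : (k : ℝ) ≤ y := by linarith
    exact_mod_cast h3
  have hk0 : 1 ≤ k := by omega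
  have hy0 : 1 ≤ y := hk0.trans hky
  have hodd : Odd k := ⟨m, hk⟩
  have hyL2 : (y : ℝ) ≤ L ^ 2 := hy1.trans hL2
  have hyq : (y : ℝ) ≤ Real.exp (1 / 4 * L) := hyL2.trans f6
  have hee : Real.exp (1 / 4 * L) * Real.exp (1 / 4 * L) = Real.exp (1 / 2 * L) := by
    rw [← Real.exp_add]
    congr 1
    ring
  have hyz2 : y ^ 2 ≤ z := by
    have h3 : ((y ^ 2 : ℕ) : ℝ) ≤ z := by
      push_cast
      calc (y : ℝ) ^ 2 = y * y := by ring
        _ ≤ Real.exp (1 / 4 * L) * Real.exp (1 / 4 * L) :=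
            mul_le_mul hyq hyq (Nat.cast_nonneg y) (Real.exp_pos _).le
        _ = Real.exp (1 / 2 * L) := hee
        _ ≤ z := hzx
    exact_mod_cast h3
  have hy37 : (36 : ℝ) ≤ y := by linarith
  have hyz : y + 1 ≤ z := by
    have h3 : 36 ≤ y := by exact_mod_cast hy37
    nlinarith
  have hylog : Real.log ((y : ℝ) + 1) ≤ 3 * Real.log L := by
    have h3 : 3 * Real.log L = Real.log (L ^ 3) := by
      rw [Real.log_pow]
      norm_num
    rw [h3]
    apply Real.log_le_log (by positivity)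
    nlinarith [hyL2]
  have hVy : c0 ≤ V (y + 1) * Real.log ((y + 1 : ℕ) : ℝ) := (hVb (y + 1) (by omega)).1
  -- the three parts
  have p1 := uw03c_P h0 (h1.trans h2) big hy1 hy2 hyz2 hVL hEB
  have p2 := uw03c_S hc0 big f2 hy0 hy1 hylog hVL hVy hk1 hk0 hky hyz
  have p3 := model_bonf z y k hodd (fun N => (bonf N k hodd).1) (fun I P j => count_sub I P j)
  have hε : 0 ≤ 8 * ((k : ℝ) + 1) ^ 2 / √(x : ℝ) := by positivity
  have p4 := uw03c_cmp (y := y) (k := k) (ε := 8 * ((k : ℝ) + 1) ^ 2 / √(x : ℝ))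
    (fun H => hlConst 1 0 H / Real.log t ^ #H) (fun H => DD z H) (fun H hH hHk => by
      have h3 := hct t ht1 ht2 H (fun h hh => by
        have h4 : h ≤ y := (mem_Icc.1 (Finset.mem_powerset.1 hH hh)).2
        have h5 : (h : ℝ) ≤ y := by exact_mod_cast h4
        rw [hx14]
        exact h5.trans hyq)
      refine h3.trans ?_
      have h6 : (#H : ℝ) ≤ k := by exact_mod_cast hHk
      have h7 : (0 : ℝ) ≤ #H := Nat.cast_nonneg _
      have h8' : ((#H : ℝ) + 1) ^ 2 ≤ ((k : ℝ) + 1) ^ 2 := pow_le_pow_left₀ (by linarith) (by linarith) 2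
      exact div_le_div_of_nonneg_right (by linarith) (Real.sqrt_nonneg _)) hε
  have e4 : ∑ j ∈ range (k + 1), (-1 : ℝ) ^ j * ∑ H ∈ (Icc 1 y).powersetCard j, hlConst 1 0 H / Real.log t ^ #H =
      ∑ j ∈ range (k + 1), (-1 : ℝ) ^ j * ∑ H ∈ (Icc 1 y).powersetCard j, hlConst 1 0 H / Real.log t ^ j := by
    refine Finset.sum_congr rfl fun j _ => ?_
    congr 1
    refine Finset.sum_congr rfl fun H hH => ?_
    rw [(Finset.mem_powersetCard.1 hH).2]
  rw [e4] at p4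
  have p5 : (y + 1 : ℝ) ^ k * (8 * ((k : ℝ) + 1) ^ 2 / √(x : ℝ)) ≤ Real.exp (-(L ^ d')) := by
    have h3 : (y + 1 : ℝ) ^ k ≤ Real.exp (9 / 80 * L) := by
      have h4 : (y + 1 : ℝ) = Real.exp (Real.log ((y : ℝ) + 1)) := (Real.exp_log (by positivity)).symm
      rw [h4, ← Real.exp_nat_mul]
      apply Real.exp_le_exp.2
      have h5 : L ^ d' * Real.log L ≤ 1 / 80 * L := by
        calc L ^ d' * Real.log L ≤ L ^ d' * (1 / 80 * L ^ (1 - d')) :=
              mul_le_mul_of_nonneg_left f3 (by linarith)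
          _ = 1 / 80 * (L ^ (1 - d') * L ^ d') := by ring
          _ = 1 / 80 * L := by rw [hL1d]
      calc (k : ℝ) * Real.log ((y : ℝ) + 1) ≤ (3 * L ^ d') * (3 * Real.log L) :=
            mul_le_mul hk3 hylog (Real.log_nonneg (by linarith)) (by linarith)
        _ = 9 * (L ^ d' * Real.log L) := by ring
        _ ≤ 9 / 80 * L := by linarith
    have h6 : 8 * ((k : ℝ) + 1) ^ 2 ≤ Real.exp (1 / 8 * L) := by
      have h7 : (k : ℝ) + 1 ≤ 4 * L := by linarith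
      have h8' : ((k : ℝ) + 1) ^ 2 ≤ (4 * L) ^ 2 := pow_le_pow_left₀ (by positivity) h7 2
      calc 8 * ((k : ℝ) + 1) ^ 2 ≤ 8 * (4 * L) ^ 2 := by linarith
        _ = 128 * L ^ 2 := by ring
        _ ≤ Real.exp (1 / 8 * L) := f7
    have h9 : 8 * ((k : ℝ) + 1) ^ 2 / √(x : ℝ) ≤ Real.exp (1 / 8 * L) / Real.exp (1 / 2 * L) := by
      rw [hsx]
      exact div_le_div_of_nonneg_right h6 (Real.exp_pos _).le
    calc (y + 1 : ℝ) ^ k * (8 * ((k : ℝ) + 1) ^ 2 / √(x : ℝ))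
        ≤ Real.exp (9 / 80 * L) * (Real.exp (1 / 8 * L) / Real.exp (1 / 2 * L)) :=
          mul_le_mul h3 h9 hε (Real.exp_pos _).le
      _ = Real.exp (9 / 80 * L + (1 / 8 * L - 1 / 2 * L)) := by
          rw [← Real.exp_sub, ← Real.exp_add]
      _ ≤ Real.exp (-(L ^ d')) := Real.exp_le_exp.2 (by linarith)
  -- the final comparison
  set a : ℝ := L ^ ((d + d') / 2) with ha
  have q1 : 40 * (L ^ d * Real.log L) ≤ a / 2 := by
    have h3 : L ^ d * L ^ ((d' - d) / 2) = a := by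
      rw [ha, ← Real.rpow_add hL0]
      congr 1
      ring
    calc 40 * (L ^ d * Real.log L) ≤ 40 * (L ^ d * (1 / 80 * L ^ ((d' - d) / 2))) := by
          refine mul_le_mul_of_nonneg_left ?_ (by norm_num)
          exact mul_le_mul_of_nonneg_left f1 (by linarith)
      _ = 1 / 2 * (L ^ d * L ^ ((d' - d) / 2)) := by ring
      _ = a / 2 := by rw [h3]; ring
  have q2 : a ≤ L ^ d' := by
    rw [ha]
    exact Real.rpow_le_rpow_of_exponent_le (by linarith) (by linarith)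
  have q3 : Real.exp (-(a / 2)) ≤ Real.exp (-(40 * (L ^ d * Real.log L))) := Real.exp_le_exp.2 (by linarith)
  have q4 : Real.exp (-(L ^ d')) ≤ Real.exp (-a) := Real.exp_le_exp.2 (by linarith)
  have q5 : 3 * Real.exp (-a) ≤ Real.exp (-(a / 2)) := by
    have h3 : Real.exp (-(a / 2)) = Real.exp (a / 2) * Real.exp (-a) := by
      rw [← Real.exp_add]
      congr 1
      ring
    rw [h3]
    refine mul_le_mul_of_nonneg_right ?_ (Real.exp_pos _).le
    have := Real.add_one_le_exp (a / 2)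
    linarith
  linarith

end Pool.Agent.LibUHL
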