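import Pool.Agent.LibUHL.W03

/-! Row UW 04: the law forces gaps of the order `(log x)^(1+d)`. -/

set_option autoImplicit false

namespace Pool.Agent.LibUHL

open Finset Filter Topology MeasureTheory

open Pool.Agent.LibLin93 (V)

open Pool.Agent.LibCI99 (cnt hlConst dlt vee prim occ goodT)

open scoped ENNReal

theorem uw04a_log (ε c : ℝ) (hε : 0 < ε) (hc : 0 < c) : ∀ᶠ L : ℝ in atTop, Real.log L ≤ c * L ^ ε := by
  have h1 := (isLittleO_log_rpow_atTop hε).bound hc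
  filter_upwards [h1, eventually_ge_atTop (1 : ℝ)] with L h hL
  rw [Real.norm_of_nonneg (Real.log_nonneg hL), Real.norm_of_nonneg (Real.rpow_nonneg (by linarith) _)] at h
  exact h

theorem uw04a_exp (s : ℝ) : ∀ᶠ L : ℝ in atTop, L ^ s ≤ Real.exp (1 / 4 * L) := by
  have h1 := (isLittleO_rpow_exp_pos_mul_atTop s (b := 1 / 4) (by norm_num)).bound one_pos
  filter_upwards [h1, eventually_ge_atTop (0 : ℝ)] with L h hL
  rw [Real.norm_of_nonneg (Real.exp_pos _).le, Real.norm_of_nonneg (Real.rpow_nonneg hL _), one_mul] at h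
  exact h

/-- comparison of the two sums -/
theorem uw04a_cmp {y k : ℕ} {ε : ℝ} (f g : Finset ℕ → ℝ)
    (h : ∀ H ∈ (Icc 1 y).powerset, #H ≤ k → |f H - g H| ≤ ε) (hε : 0 ≤ ε) :
    |∑ j ∈ range (k + 1), (-1 : ℝ) ^ j * ∑ H ∈ (Icc 1 y).powersetCard j, f H -
      ∑ j ∈ range (k + 1), (-1 : ℝ) ^ j * ∑ H ∈ (Icc 1 y).powersetCard j, g H| ≤ (y + 1 : ℝ) ^ k * ε := by
  have h1 : ∑ j ∈ range (k + 1), (-1 : ℝ) ^ j * ∑ H ∈ (Icc 1 y).powersetCard j, f H -
      ∑ j ∈ range (k + 1), (-1 : ℝ) ^ j * ∑ H ∈ (Icc 1 y).powersetCard j, g H =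
      ∑ j ∈ range (k + 1), (-1 : ℝ) ^ j * ∑ H ∈ (Icc 1 y).powersetCard j, (f H - g H) := by
    rw [← Finset.sum_sub_distrib]
    refine Finset.sum_congr rfl fun j _ => ?_
    rw [← mul_sub, Finset.sum_sub_distrib]
  have h2 : |∑ j ∈ range (k + 1), (-1 : ℝ) ^ j * ∑ H ∈ (Icc 1 y).powersetCard j, (f H - g H)| ≤
      ∑ j ∈ range (k + 1), (#((Icc 1 y).powersetCard j) : ℝ) * ε := by
    refine (Finset.abs_sum_le_sum_abs _ _).trans (Finset.sum_le_sum fun j hj => ?_)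
    rw [abs_mul, abs_pow, abs_neg, abs_one, one_pow, one_mul]
    refine (Finset.abs_sum_le_sum_abs _ _).trans ?_
    rw [← nsmul_eq_mul]
    refine Finset.sum_le_card_nsmul _ _ _ fun H hH => ?_
    obtain ⟨h3, h4⟩ := Finset.mem_powersetCard.1 hH
    exact h H (Finset.mem_powerset.2 h3) (by rw [h4]; exact Nat.lt_succ_iff.1 (mem_range.1 hj))
  rw [← Finset.sum_mul] at h2
  have h3 := mul_le_mul_of_nonneg_right (num_sets y k) hε
  rw [h1]
  exact h2.trans h3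

theorem uw04a_cont {a b : ℝ} (ha : 2 ≤ a) (hb : 2 ≤ b) (C : ℝ) (j : ℕ) :
    ContinuousOn (fun t : ℝ => C / Real.log t ^ j) (Set.uIcc a b) := by
  have hpos : ∀ t ∈ Set.uIcc a b, 2 ≤ t := by
    intro t ht
    rcases Set.mem_uIcc.1 ht with h | h
    · exact ha.trans h.1
    · exact hb.trans h.1
  refine ContinuousOn.div continuousOn_const ?_ ?_
  · refine ContinuousOn.pow ?_ j
    refine Real.continuousOn_log.mono fun t ht => ?_
    have := hpos t ht
    simp only [Set.mem_compl_iff, Set.mem_singleton_iff]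
    linarith
  · intro t ht
    have := hpos t ht
    exact (pow_pos (Real.log_pos (by linarith)) j).ne'

/-- the numerical facts -/
structure uw04a_F (d d' e L : ℝ) : Prop where
  big : 2 ≤ L
  f1 : Real.log L ≤ 1 / (12 * (2 + d)) * L ^ (e - d')
  f2 : 8 ≤ L ^ (e - d')
  f3 : L ^ (1 + d) ≤ Real.exp (1 / 4 * L)

theorem uw04a_ev {d d' e : ℝ} (h0 : 0 < d) (h1 : d' < e) : ∀ᶠ L : ℝ in atTop, uw04a_F d d' e L := by
  filter_upwards [eventually_ge_atTop (2 : ℝ),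
    uw04a_log (e - d') (1 / (12 * (2 + d))) (by linarith) (by positivity),
    (tendsto_rpow_atTop (y := e - d') (by linarith)).eventually_ge_atTop 8,
    uw04a_exp (1 + d)] with L a1 a2 a3 a4
  exact ⟨a1, a2, a3, a4⟩

/-- PROOF. `L = log x`, `k = 2 ⌊L^d'⌋ + 1`, `y = ⌊L^(1+d)⌋`, `d'' = (d' + c)/2 < c`. The law `UHL d''`
with `q = 1` at `x` and at `2x`: for all `H ⊆ [1, y]`, `#H ≤ k ≤ L^d''` (large `x`),
`y ≤ x^(1/4)`: `|cnt (2x) - cnt x - hlConst 1 0 H ∫_x^{2x} 1/log^#H| ≤ 3 x exp (-L^d'')`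
(`(2x) exp (-(log 2x)^d'') ≤ 2x exp (-L^d'')`). Sum over the at most `(y+1)^k ≤
exp (6 L^d' log L)` sets (`num_sets`); exchange the finite sums with the integral
(`intervalIntegral.integral_finset_sum`, `1/log^j` continuous on `[x, 2x]`). -/
theorem law_sum (c : ℝ) (A : Set ℕ) (h : ∀ d < c, UHL d A) (d d' : ℝ) (h0 : 0 < d) (h1 : d < d')
    (h2 : d' < c) : ∀ᶠ x : ℕ in atTop,
      |∑ j ∈ range (2 * ⌊Real.log x ^ d'⌋₊ + 1 + 1), (-1 : ℝ) ^ j *
          ∑ H ∈ (Icc 1 ⌊Real.log x ^ (1 + d)⌋₊).powersetCard j,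
            (cnt A H 1 0 (2 * x) - cnt A H 1 0 x) -
        ∫ t in (x : ℝ)..(2 * x : ℝ), ∑ j ∈ range (2 * ⌊Real.log x ^ d'⌋₊ + 1 + 1), (-1 : ℝ) ^ j *
          ∑ H ∈ (Icc 1 ⌊Real.log x ^ (1 + d)⌋₊).powersetCard j,
            hlConst 1 0 H / Real.log t ^ j| ≤ x * Real.exp (-(Real.log x ^ d')) := by
  obtain ⟨e, he1, he2⟩ := exists_between h2
  have hU := h e he2 1 one_pos
  obtain ⟨X, hX⟩ := eventually_atTop.1 hU
  have hlogx : Tendsto (fun x : ℕ => Real.log (x : ℝ)) atTop atTop :=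
    Real.tendsto_log_atTop.comp tendsto_natCast_atTop_atTop
  filter_upwards [eventually_ge_atTop X, eventually_ge_atTop 2, hlogx.eventually (uw04a_ev h0 he1)] with x hxX hx2 hF
  obtain ⟨big, f1, f2, f3⟩ := hF
  set L : ℝ := Real.log x with hL
  set y : ℕ := ⌊L ^ (1 + d)⌋₊ with hy
  set m : ℕ := ⌊L ^ d'⌋₊ with hm
  set k : ℕ := 2 * m + 1 with hk
  have hx2' : (2 : ℝ) ≤ x := by exact_mod_cast hx2
  have hx0 : (0 : ℝ) < x := by linarith
  have hL0 : 0 < L := by linarith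
  have hxL : (x : ℝ) = Real.exp L := (Real.exp_log hx0).symm
  have hx14 : (x : ℝ) ^ (1 / 4 : ℝ) = Real.exp (1 / 4 * L) := by
    rw [hxL, ← Real.exp_mul]
    congr 1
    ring
  have he0 : 0 < e := by linarith
  have hLd1 : 1 ≤ L ^ d := Real.one_le_rpow (by linarith) h0.le
  have hLd1' : 1 ≤ L ^ d' := Real.one_le_rpow (by linarith) (by linarith)
  have hLe : L ^ (e - d') * L ^ d' = L ^ e := by
    rw [← Real.rpow_add hL0]
    congr 1
    ring
  have h8 : 8 * L ^ d' ≤ L ^ e := by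
    calc 8 * L ^ d' ≤ L ^ (e - d') * L ^ d' := mul_le_mul_of_nonneg_right f2 (by linarith)
      _ = L ^ e := hLe
  have hm1 : (m : ℝ) ≤ L ^ d' := Nat.floor_le (by positivity)
  have hkc : (k : ℝ) = 2 * m + 1 := by rw [hk]; push_cast; ring
  have hk3 : (k : ℝ) ≤ 3 * L ^ d' := by rw [hkc]; linarith
  have hy1 : (y : ℝ) ≤ L ^ (1 + d) := Nat.floor_le (by positivity)
  have hyq : (y : ℝ) ≤ (x : ℝ) ^ (1 / 4 : ℝ) := by rw [hx14]; exact hy1.trans f3
  have hL1d : 1 ≤ L ^ (1 + d) := Real.one_le_rpow (by linarith) (by linarith)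
  have hlog0 : 0 ≤ Real.log L := Real.log_nonneg (by linarith)
  have hylog : Real.log ((y : ℝ) + 1) ≤ (2 + d) * Real.log L := by
    have h3 : (y : ℝ) + 1 ≤ L * L ^ (1 + d) := by nlinarith
    calc Real.log ((y : ℝ) + 1) ≤ Real.log (L * L ^ (1 + d)) := Real.log_le_log (by positivity) h3
      _ = Real.log L + (1 + d) * Real.log L := by
          rw [Real.log_mul hL0.ne' (by positivity), Real.log_rpow hL0]
      _ = (2 + d) * Real.log L := by ring
  -- the error for one tuple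
  set ε : ℝ := 3 * x * Real.exp (-(L ^ e)) with hε
  have hε0 : 0 ≤ ε := by positivity
  have hone : ∀ H ∈ (Icc 1 y).powerset, #H ≤ k →
      |(cnt A H 1 0 (2 * x) - cnt A H 1 0 x) - ∫ t in (x : ℝ)..(2 * x : ℝ), hlConst 1 0 H / Real.log t ^ #H| ≤ ε := by
    intro H hH hHk
    have h3 : ∀ a ∈ H, (a : ℝ) ≤ (x : ℝ) ^ (1 / 4 : ℝ) := by
      intro a ha
      have h4 : a ≤ y := (mem_Icc.1 (Finset.mem_powerset.1 hH ha)).2
      have h5 : (a : ℝ) ≤ y := by exact_mod_cast h4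
      exact h5.trans hyq
    have h4 : (#H : ℝ) ≤ L ^ e := by
      have h5 : (#H : ℝ) ≤ k := by exact_mod_cast hHk
      linarith
    have h2x : ((2 * x : ℕ) : ℝ) = 2 * x := by push_cast; ring
    have hLL : L ≤ Real.log ((2 * x : ℕ) : ℝ) := by
      rw [h2x]
      exact Real.log_le_log hx0 (by linarith)
    have hLe2 : L ^ e ≤ Real.log ((2 * x : ℕ) : ℝ) ^ e := Real.rpow_le_rpow hL0.le hLL he0.le
    have a1 := hX x hxX 0 H h3 h4
    have a2 := hX (2 * x) (by omega) 0 H (fun a ha => (h3 a ha).trans (by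
      rw [h2x]
      exact Real.rpow_le_rpow hx0.le (by linarith) (by norm_num))) (h4.trans hLe2)
    have i1 : IntervalIntegrable (fun t : ℝ => 1 / Real.log t ^ #H) volume 2 (x : ℝ) :=
      (uw04a_cont le_rfl hx2' 1 _).intervalIntegrable
    have i2 : IntervalIntegrable (fun t : ℝ => 1 / Real.log t ^ #H) volume 2 ((2 * x : ℕ) : ℝ) :=
      (uw04a_cont le_rfl (by rw [h2x]; linarith) 1 _).intervalIntegrable
    have e1 := intervalIntegral.integral_interval_sub_left i2 i1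
    have e2 : ∫ t in (x : ℝ)..(2 * x : ℝ), hlConst 1 0 H / Real.log t ^ #H =
        hlConst 1 0 H * ∫ t in (x : ℝ)..((2 * x : ℕ) : ℝ), 1 / Real.log t ^ #H := by
      rw [← intervalIntegral.integral_const_mul, h2x]
      congr 1
      funext t
      ring
    rw [e2, ← e1, mul_sub]
    have b2 : ((2 * x : ℕ) : ℝ) * Real.exp (-(Real.log ((2 * x : ℕ) : ℝ) ^ e)) ≤ 2 * x * Real.exp (-(L ^ e)) := by
      rw [h2x] at hLe2 ⊢
      exact mul_le_mul_of_nonneg_left (Real.exp_le_exp.2 (by linarith)) (by linarith)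
    have a3 := a2.trans b2
    rw [abs_le] at a1 a3 ⊢
    constructor
    · linarith [a1.1, a1.2, a3.1, a3.2]
    · linarith [a1.1, a1.2, a3.1, a3.2]
  have p1 := uw04a_cmp (y := y) (k := k) (ε := ε) (fun H => cnt A H 1 0 (2 * x) - cnt A H 1 0 x)
    (fun H => ∫ t in (x : ℝ)..(2 * x : ℝ), hlConst 1 0 H / Real.log t ^ #H) hone hε0
  -- the integral of the sum
  have hx2x : (2 : ℝ) ≤ 2 * x := by linarith
  have e3 : ∫ t in (x : ℝ)..(2 * x : ℝ), ∑ j ∈ range (k + 1), (-1 : ℝ) ^ j *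
      ∑ H ∈ (Icc 1 y).powersetCard j, hlConst 1 0 H / Real.log t ^ j =
      ∑ j ∈ range (k + 1), (-1 : ℝ) ^ j * ∑ H ∈ (Icc 1 y).powersetCard j,
        ∫ t in (x : ℝ)..(2 * x : ℝ), hlConst 1 0 H / Real.log t ^ #H := by
    rw [intervalIntegral.integral_finsetSum]
    · refine Finset.sum_congr rfl fun j _ => ?_
      rw [intervalIntegral.integral_const_mul, intervalIntegral.integral_finsetSum]
      · congr 1
        refine Finset.sum_congr rfl fun H hH => ?_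
        rw [(Finset.mem_powersetCard.1 hH).2]
      · intro H _
        exact (uw04a_cont hx2' hx2x _ _).intervalIntegrable
    · intro j _
      refine IntervalIntegrable.const_mul ?_ _
      refine ContinuousOn.intervalIntegrable ?_
      exact continuousOn_finsetSum _ fun H _ => uw04a_cont hx2' hx2x _ _
  rw [e3]
  refine p1.trans ?_
  -- numerics
  have h3 : (y + 1 : ℝ) ^ k ≤ Real.exp (1 / 4 * L ^ e) := by
    have h4 : (y + 1 : ℝ) = Real.exp (Real.log ((y : ℝ) + 1)) := (Real.exp_log (by positivity)).symm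
    rw [h4, ← Real.exp_nat_mul]
    apply Real.exp_le_exp.2
    have hd2 : 0 < 2 + d := by linarith
    calc (k : ℝ) * Real.log ((y : ℝ) + 1) ≤ (3 * L ^ d') * ((2 + d) * Real.log L) :=
          mul_le_mul hk3 hylog (Real.log_nonneg (by linarith [Nat.cast_nonneg (α := ℝ) y])) (by linarith)
      _ ≤ (3 * L ^ d') * ((2 + d) * (1 / (12 * (2 + d)) * L ^ (e - d'))) := by
          refine mul_le_mul_of_nonneg_left ?_ (by linarith)
          exact mul_le_mul_of_nonneg_left f1 hd2.le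
      _ = 1 / 4 * (L ^ (e - d') * L ^ d') := by
          field_simp
          ring
      _ = 1 / 4 * L ^ e := by rw [hLe]
  have h5 : (3 : ℝ) ≤ Real.exp (1 / 4 * L ^ e) := by
    have := Real.add_one_le_exp (1 / 4 * L ^ e)
    linarith
  calc (y + 1 : ℝ) ^ k * ε ≤ Real.exp (1 / 4 * L ^ e) * ε := mul_le_mul_of_nonneg_right h3 hε0
    _ = x * (Real.exp (1 / 4 * L ^ e) * Real.exp (-(L ^ e)) * 3) := by rw [hε]; ring
    _ ≤ x * (Real.exp (1 / 4 * L ^ e) * Real.exp (-(L ^ e)) * Real.exp (1 / 4 * L ^ e)) := by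
        refine mul_le_mul_of_nonneg_left ?_ hx0.le
        exact mul_le_mul_of_nonneg_left h5 (by positivity)
    _ = x * Real.exp (1 / 4 * L ^ e + -(L ^ e) + 1 / 4 * L ^ e) := by
        rw [← Real.exp_add, ← Real.exp_add]
    _ ≤ x * Real.exp (-(L ^ d')) := by
        refine mul_le_mul_of_nonneg_left ?_ hx0.le
        exact Real.exp_le_exp.2 (by linarith)

open Classical in
private theorem UW04b_cnt (A : Set ℕ) (H : Finset ℕ) (x : ℕ) :
    cnt A H 1 0 (2 * x) - cnt A H 1 0 x =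
      ∑ n ∈ Ioc x (2 * x), if ∀ h ∈ H, n + h ∈ A then (1 : ℝ) else 0 := by
  have e : ∀ y : ℕ, cnt A H 1 0 y = ∑ n ∈ Ioc 0 y, if ∀ h ∈ H, n + h ∈ A then (1 : ℝ) else 0 := by
    intro y
    rw [Finset.sum_boole]
    unfold cnt
    congr 2
    ext n
    simp only [Finset.mem_filter, Finset.mem_Icc, Finset.mem_Ioc]
    constructor
    · rintro ⟨⟨h1, h2⟩, -, h3⟩
      exact ⟨⟨by omega, h2⟩, h3⟩
    · rintro ⟨⟨h1, h2⟩, h3⟩
      exact ⟨⟨by omega, h2⟩, Nat.modEq_one, h3⟩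
  rw [e, e, ← Finset.sum_Ioc_consecutive _ (Nat.zero_le x) (show x ≤ 2 * x by omega)]
  ring

open Classical in
private theorem UW04b_sum (A : Set ℕ) (x y k : ℕ) (hk : Odd k)
    (hno : ∀ n ∈ Ioc x (2 * x), ∃ h ∈ Icc 1 y, n + h ∈ A) :
    ∑ j ∈ range (k + 1), (-1 : ℝ) ^ j *
      ∑ H ∈ (Icc 1 y).powersetCard j, (cnt A H 1 0 (2 * x) - cnt A H 1 0 x) ≤ 0 := by
  have e : ∀ j : ℕ, ∑ H ∈ (Icc 1 y).powersetCard j, (cnt A H 1 0 (2 * x) - cnt A H 1 0 x) =
      ∑ n ∈ Ioc x (2 * x), ((#{h ∈ Icc 1 y | n + h ∈ A}).choose j : ℝ) := by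
    intro j
    rw [Finset.sum_congr rfl fun H _ => UW04b_cnt A H x, Finset.sum_comm]
    refine Finset.sum_congr rfl fun n _ => ?_
    rw [Finset.sum_boole]
    have h1 := count_sub (Icc 1 y) (fun h => n + h ∈ A) j
    exact_mod_cast h1
  have e2 : ∑ j ∈ range (k + 1), (-1 : ℝ) ^ j *
      ∑ H ∈ (Icc 1 y).powersetCard j, (cnt A H 1 0 (2 * x) - cnt A H 1 0 x) =
      ∑ n ∈ Ioc x (2 * x), ∑ j ∈ range (k + 1), (-1 : ℝ) ^ j *
        ((#{h ∈ Icc 1 y | n + h ∈ A}).choose j : ℝ) := by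
    rw [Finset.sum_comm]
    refine Finset.sum_congr rfl fun j _ => ?_
    rw [e j, Finset.mul_sum]
  rw [e2]
  refine Finset.sum_nonpos fun n hn => ?_
  refine (bonf _ k hk).2.trans ?_
  rw [if_neg]
  obtain ⟨h, hh, hA⟩ := hno n hn
  exact Finset.card_ne_zero_of_mem (Finset.mem_filter.2 ⟨hh, hA⟩)

private theorem UW04b_int (K y x : ℕ) (hx : 2 ≤ x) (m : ℝ)
    (hm : ∀ t : ℝ, (x : ℝ) ≤ t → t ≤ 2 * x → m ≤ ∑ j ∈ range K, (-1 : ℝ) ^ j *
          ∑ H ∈ (Icc 1 y).powersetCard j, hlConst 1 0 H / Real.log t ^ j) :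
    (x : ℝ) * m ≤ ∫ t in (x : ℝ)..(2 * x : ℝ), ∑ j ∈ range K, (-1 : ℝ) ^ j *
          ∑ H ∈ (Icc 1 y).powersetCard j, hlConst 1 0 H / Real.log t ^ j := by
  have hxr : (2 : ℝ) ≤ x := by exact_mod_cast hx
  have hle : (x : ℝ) ≤ 2 * x := by linarith
  have hcont : ContinuousOn (fun t : ℝ => ∑ j ∈ range K, (-1 : ℝ) ^ j *
          ∑ H ∈ (Icc 1 y).powersetCard j, hlConst 1 0 H / Real.log t ^ j)
          (Set.uIcc (x : ℝ) (2 * x : ℝ)) := by
    rw [Set.uIcc_of_le hle]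
    refine continuousOn_finsetSum _ fun j _ => ContinuousOn.mul continuousOn_const ?_
    refine continuousOn_finsetSum _ fun H _ => ContinuousOn.div continuousOn_const ?_ ?_
    · refine ContinuousOn.pow (Real.continuousOn_log.mono fun t ht => ?_) _
      have : (2 : ℝ) ≤ t := hxr.trans ht.1
      simp only [Set.mem_compl_iff, Set.mem_singleton_iff]
      linarith
    · intro t ht
      have : (2 : ℝ) ≤ t := hxr.trans ht.1
      exact pow_ne_zero _ (Real.log_pos (by linarith)).ne'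
  have h1 := intervalIntegral.integral_mono_on hle
    (intervalIntegrable_const (c := m) (μ := volume)) hcont.intervalIntegrable
    (fun t ht => hm t ht.1 ht.2)
  rw [intervalIntegral.integral_const, smul_eq_mul] at h1
  linarith

/-- PROOF. Suppose that for some large `x` every `n ∈ (x, 2x]` has an element of `A` in
`(n, n+y]`, `y = ⌊L^(1+d)⌋`; let `N(n) = #{h ∈ [1,y] : n + h ∈ A} ≥ 1`. With `d' = (d+c)/2` and `k`
as above, exchanging the sums, `∑_j (-1)^j ∑_H (cnt (2x) - cnt x) =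
∑_{n ∈ (x,2x]} ∑_{j ≤ k} (-1)^j C(N(n), j) ≤ 0` by `count_sub` and `bonf`. But by `law_sum` and
`main_lower` it is `≥ x exp (-L^((d+d')/2)) - x exp (-L^d') > 0` (the integrand is continuous;
`intervalIntegral` monotonicity). -/
theorem exists_gap (c : ℝ) (hc1 : c ≤ 1) (A : Set ℕ) (h : ∀ d < c, UHL d A) (d : ℝ) (h0 : 0 < d)
    (h1 : d < c) : ∀ᶠ x : ℕ in atTop, ∃ n : ℕ, x < n ∧ n ≤ 2 * x ∧
      ∀ a ∈ A, n < a → n + ⌊Real.log x ^ (1 + d)⌋₊ < a := by
  obtain ⟨d', hd1, hd2⟩ : ∃ d' : ℝ, d < d' ∧ d' < c := ⟨(d + c) / 2, by linarith, by linarith⟩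
  filter_upwards [law_sum c A h d d' h0 hd1 hd2, main_lower d d' h0 hd1 (by linarith),
    eventually_ge_atTop 3] with x hx1 hx2 hx3
  have hxr : (3 : ℝ) ≤ x := by exact_mod_cast hx3
  have hL : 1 < Real.log x := by
    rw [Real.lt_log_iff_exp_lt (by linarith)]
    linarith [Real.exp_one_lt_d9]
  by_contra hno
  push Not at hno
  have hno' : ∀ n ∈ Ioc x (2 * x), ∃ h ∈ Icc 1 ⌊Real.log x ^ (1 + d)⌋₊, n + h ∈ A := by
    intro n hn
    rw [Finset.mem_Ioc] at hn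
    obtain ⟨a, ha, h3, h4⟩ := hno n hn.1 hn.2
    refine ⟨a - n, ?_, ?_⟩
    · rw [Finset.mem_Icc]
      omega
    · rw [Nat.add_sub_cancel' h3.le]
      exact ha
  have hS := UW04b_sum A x ⌊Real.log x ^ (1 + d)⌋₊ (2 * ⌊Real.log x ^ d'⌋₊ + 1) ⟨_, rfl⟩ hno'
  have hI := UW04b_int (2 * ⌊Real.log x ^ d'⌋₊ + 1 + 1) ⌊Real.log x ^ (1 + d)⌋₊ x (by omega) _ hx2
  have h5 := (abs_le.1 hx1).1
  have h6 : (x : ℝ) * Real.exp (-(Real.log x ^ ((d + d') / 2))) ≤ x * Real.exp (-(Real.log x ^ d')) := by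
    linarith
  have h7 : Real.exp (-(Real.log x ^ ((d + d') / 2))) ≤ Real.exp (-(Real.log x ^ d')) :=
    le_of_mul_le_mul_left h6 (by linarith)
  rw [Real.exp_le_exp, neg_le_neg_iff] at h7
  have h8 := Real.rpow_lt_rpow_of_exponent_lt hL (show (d + d') / 2 < d' by linarith)
  linarith

end Pool.Agent.LibUHL
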