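import Pool.Agent.LibUHL.W04

/-! Row UW 05: sharpness. -/

set_option autoImplicit false

namespace Pool.Agent.LibUHL

open Finset Filter Topology MeasureTheory

open Pool.Agent.LibLin93 (V)

open Pool.Agent.LibCI99 (cnt hlConst dlt vee prim occ goodT)

open scoped ENNReal

/-- the singular series of a single point is `1` -/
lemma uw05_const : hlConst 1 0 {0} = 1 := by
  unfold hlConst
  have h : ∀ p : Nat.Primes, Pool.Agent.LibCI99.loc 1 0 {0} p = 1 := by
    intro p
    have hp : (p : ℕ).Prime := p.2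
    have h2 : (2 : ℝ) ≤ ((p : ℕ) : ℝ) := by exact_mod_cast hp.two_le
    unfold Pool.Agent.LibCI99.loc occ
    rw [if_neg (fun h => hp.one_lt.ne' (Nat.dvd_one.1 h))]
    have h3 : (1 : ℝ) - 1 / ((p : ℕ) : ℝ) ≠ 0 := by
      have : 1 / ((p : ℕ) : ℝ) ≤ 1 / 2 := by
        apply one_div_le_one_div_of_le <;> linarith
      linarith
    simp only [Finset.image_singleton, Finset.card_singleton, pow_one, Nat.cast_one]
    exact div_self h3
  simp [h]

/-- the integral of `1/log` -/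
lemma uw05_int {a b : ℝ} (ha : 2 ≤ a) (hb : 2 ≤ b) :
    IntervalIntegrable (fun t : ℝ => 1 / Real.log t) volume a b := by
  apply ContinuousOn.intervalIntegrable
  intro t ht
  have h2 : 2 ≤ t := (le_min ha hb).trans (Set.mem_uIcc.1 ht |>.elim (fun h => (min_le_left _ _).trans h.1)
    (fun h => (min_le_right _ _).trans h.1))
  have h3 : 0 < Real.log t := Real.log_pos (by linarith)
  apply ContinuousAt.continuousWithinAt
  apply ContinuousAt.div continuousAt_const
  · exact Real.continuousAt_log (by linarith)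
  · exact h3.ne'

/-- the law for a single point -/
lemma uw05_law (A : Set ℕ) (d' : ℝ) (h0 : 0 < d') (h : UHL d' A) : ∀ᶠ x : ℕ in atTop,
    |cnt A {0} 1 0 x - ∫ t in (2 : ℝ)..x, 1 / Real.log t| ≤ x * Real.exp (-(Real.log x ^ d')) := by
  have hL : ∀ᶠ x : ℕ in atTop, (1 : ℝ) ≤ Real.log x :=
    (Real.tendsto_log_atTop.comp tendsto_natCast_atTop_atTop).eventually_ge_atTop 1
  filter_upwards [h 1 one_pos, hL] with x hx hx1
  have h1 := hx 0 {0} (by
    intro h hh
    rw [Finset.mem_singleton] at hh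
    subst hh
    rw [Nat.cast_zero]
    positivity) (by
    rw [Finset.card_singleton, Nat.cast_one]
    exact Real.one_le_rpow hx1 h0.le)
  rw [uw05_const, one_mul] at h1
  simpa only [Finset.card_singleton, pow_one] using h1

lemma uw05_core (c : ℝ) (hc : 0 < c) (A : Set ℕ) (h : ∀ d < c, UHL d A) (d : ℝ) (h1 : d < c)
    (h2 : d < 1) :
    ∀ᶠ n : ℕ in atTop, ∃ a ∈ A, n < a ∧ (a : ℝ) ≤ n + n * Real.exp (-(Real.log n ^ d)) := by
  obtain ⟨b, hb⟩ : ∃ b, b = max d 0 := ⟨_, rfl⟩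
  obtain ⟨m, hm⟩ : ∃ m, m = min c 1 := ⟨_, rfl⟩
  have hb0 : 0 ≤ b := hb ▸ le_max_right _ _
  have hbd : d ≤ b := hb ▸ le_max_left _ _
  have hbm : b < m := by
    rw [hb, hm]
    exact max_lt (lt_min h1 h2) (lt_min hc one_pos)
  have hmc : m ≤ c := hm ▸ min_le_left _ _
  have hm1 : m ≤ 1 := hm ▸ min_le_right _ _
  obtain ⟨d', hd'⟩ : ∃ d', d' = (b + m) / 2 := ⟨_, rfl⟩
  have hbd' : b < d' := by linarith
  have hd'm : d' < m := by linarith
  have hd'0 : 0 < d' := by linarith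
  obtain ⟨X0, hX0⟩ := Filter.eventually_atTop.1 (uw05_law A d' hd'0 (h d' (by linarith)))
  have hlog : Tendsto (fun n : ℕ => Real.log n) atTop atTop :=
    Real.tendsto_log_atTop.comp tendsto_natCast_atTop_atTop
  -- eventual inequalities in `L`
  have E1 : ∀ᶠ L : ℝ in atTop, 2 ≤ L ^ (d' - b) :=
    (tendsto_rpow_atTop (by linarith)).eventually_ge_atTop 2
  have E2 : ∀ᶠ L : ℝ in atTop, 2 ≤ L ^ (1 - b) :=
    (tendsto_rpow_atTop (by linarith)).eventually_ge_atTop 2
  have E3 : ∀ᶠ L : ℝ in atTop, 16 ≤ L ^ d' :=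
    (tendsto_rpow_atTop hd'0).eventually_ge_atTop 16
  have E4 : ∀ᶠ L : ℝ in atTop, ‖Real.log L‖ ≤ 1 / 8 * ‖L ^ d'‖ :=
    (isLittleO_log_rpow_atTop hd'0).bound (by norm_num)
  have E5 : ∀ᶠ L : ℝ in atTop, 2 ≤ L := eventually_ge_atTop 2
  filter_upwards [eventually_ge_atTop X0, eventually_ge_atTop 2, hlog.eventually E1,
    hlog.eventually E2, hlog.eventually E3, hlog.eventually E4, hlog.eventually E5] with
    n hnX hn2 e1 e2 e3 e4 e5
  obtain ⟨L, hL⟩ : ∃ L, L = Real.log n := ⟨_, rfl⟩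
  rw [← hL] at e1 e2 e3 e4 e5 ⊢
  have hL0 : 0 < L := by linarith
  have hn0 : (0 : ℝ) < n := by exact_mod_cast (by omega : 0 < n)
  have hnL : Real.exp L = n := by rw [hL]; exact Real.exp_log hn0
  have hn2' : (2 : ℝ) ≤ n := by exact_mod_cast hn2
  have p0 : L ^ b * 2 ≤ L ^ d' := by
    have : L ^ d' = L ^ b * L ^ (d' - b) := by
      rw [← Real.rpow_add hL0]
      congr 1
      ring
    rw [this]
    exact mul_le_mul_of_nonneg_left e1 (Real.rpow_nonneg hL0.le _)
  have p1 : L ^ b * 2 ≤ L := by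
    have : L = L ^ b * L ^ (1 - b) := by
      rw [← Real.rpow_add hL0]
      rw [show b + (1 - b) = 1 by ring, Real.rpow_one]
    calc L ^ b * 2 ≤ L ^ b * L ^ (1 - b) :=
          mul_le_mul_of_nonneg_left e2 (Real.rpow_nonneg hL0.le _)
      _ = L := this.symm
  have p2 : Real.log L ≤ 1 / 8 * L ^ d' := by
    have h3 := (le_abs_self _).trans e4
    rwa [Real.norm_of_nonneg (Real.rpow_nonneg hL0.le _)] at h3
  have p3 : L ^ d ≤ L ^ b := Real.rpow_le_rpow_of_exponent_le (by linarith) hbd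
  have p4 : 0 ≤ L ^ d := Real.rpow_nonneg hL0.le _
  obtain ⟨g, hg⟩ : ∃ g, g = (n : ℝ) * Real.exp (-(L ^ d)) := ⟨_, rfl⟩
  have hg1 : (n : ℝ) * Real.exp (-(L ^ b)) ≤ g := by
    rw [hg]
    apply mul_le_mul_of_nonneg_left _ hn0.le
    exact Real.exp_le_exp.2 (by linarith)
  have hg2 : 2 ≤ g := by
    refine le_trans ?_ hg1
    rw [← hnL, ← Real.exp_add]
    have h3 : (1 : ℝ) ≤ L + -(L ^ b) := by linarith
    have h4 := Real.add_one_le_exp (L + -(L ^ b))
    linarith
  have hgn : g ≤ n := by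
    rw [hg]
    have : Real.exp (-(L ^ d)) ≤ 1 := Real.exp_le_one_iff.2 (by linarith)
    nlinarith
  have hlogL : 6 * (L + 1) < Real.exp (L ^ d' - L ^ b) := by
    have h3 : 6 * (L + 1) ≤ Real.exp (3 + Real.log L) := by
      rw [Real.exp_add, Real.exp_log hL0]
      have h4 : (12 : ℝ) ≤ Real.exp 3 := by
        have h5 : Real.exp 3 = Real.exp 1 ^ 3 := by
          rw [← Real.exp_nat_mul]
          norm_num
        have h6 := Real.exp_one_gt_d9
        rw [h5]
        have h7 : (2.7 : ℝ) ^ 3 ≤ Real.exp 1 ^ 3 := by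
          apply pow_le_pow_left₀ (by norm_num)
          linarith
        norm_num at h7
        linarith
      nlinarith
    refine h3.trans_lt (Real.exp_lt_exp.2 ?_)
    linarith
  have hmain : 3 * n * Real.exp (-(L ^ d')) * (L + 1) < g / 2 := by
    have h3 : Real.exp (-(L ^ b)) = Real.exp (-(L ^ d')) * Real.exp (L ^ d' - L ^ b) := by
      rw [← Real.exp_add]
      congr 1
      ring
    have h4 : 3 * n * Real.exp (-(L ^ d')) * (L + 1) < n * Real.exp (-(L ^ b)) / 2 := by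
      rw [h3]
      have h5 : 0 < n * Real.exp (-(L ^ d')) := mul_pos hn0 (Real.exp_pos _)
      nlinarith [mul_lt_mul_of_pos_left hlogL h5]
    linarith
  by_contra hcon
  push Not at hcon
  obtain ⟨n', hn'⟩ : ∃ n', n' = n + ⌊g⌋₊ := ⟨_, rfl⟩
  have hfl : g - 1 < (⌊g⌋₊ : ℝ) := Nat.sub_one_lt_floor g
  have hfl2 : (⌊g⌋₊ : ℝ) ≤ g := Nat.floor_le (by linarith)
  have hn'c : (n' : ℝ) = n + (⌊g⌋₊ : ℝ) := by rw [hn']; push_cast; ring
  have hcnt : cnt A {0} 1 0 n' ≤ cnt A {0} 1 0 n := by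
    classical
    unfold cnt
    refine Nat.cast_le.2 (Finset.card_le_card ?_)
    intro k hk
    rw [Finset.mem_filter, Finset.mem_Icc] at hk ⊢
    refine ⟨⟨hk.1.1, ?_⟩, hk.2⟩
    by_contra hlt
    push Not at hlt
    have hkA : k ∈ A := by
      have := hk.2.2 0 (Finset.mem_singleton_self 0)
      simpa using this
    have h3 := hcon k hkA hlt
    rw [← hg] at h3
    have h4 : (k : ℝ) ≤ n' := by exact_mod_cast hk.1.2
    linarith
  have hnn' : n ≤ n' := by omega
  have b1 := hX0 n hnX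
  have b2 := hX0 n' (hnX.trans hnn')
  rw [← hL] at b1
  have hnn'r : (n : ℝ) ≤ n' := by exact_mod_cast hnn'
  have hn'2 : (n' : ℝ) ≤ 2 * n := by linarith
  have hlog' : Real.log n' ≤ L + 1 := by
    calc Real.log n' ≤ Real.log (2 * n) := Real.log_le_log (by linarith) hn'2
      _ = Real.log 2 + L := by rw [Real.log_mul (by norm_num) hn0.ne', hL]
      _ ≤ L + 1 := by linarith [Real.log_two_lt_d9]
  have b3 : (n' : ℝ) * Real.exp (-(Real.log n' ^ d')) ≤ 2 * n * Real.exp (-(L ^ d')) := by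
    apply mul_le_mul hn'2 _ (Real.exp_pos _).le (by linarith)
    apply Real.exp_le_exp.2
    have : L ^ d' ≤ Real.log n' ^ d' := by
      apply Real.rpow_le_rpow hL0.le _ hd'0.le
      rw [hL]
      exact Real.log_le_log hn0 hnn'r
    linarith
  have b4 : (∫ t in (2 : ℝ)..n', 1 / Real.log t) - ∫ t in (2 : ℝ)..n, 1 / Real.log t =
      ∫ t in (n : ℝ)..n', 1 / Real.log t := by
    rw [intervalIntegral.integral_interval_sub_left]
    · exact uw05_int le_rfl (by linarith)
    · exact uw05_int le_rfl hn2'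
  have b5 : ((n' : ℝ) - n) * (1 / (L + 1)) ≤ ∫ t in (n : ℝ)..n', 1 / Real.log t := by
    have h3 : ∫ _t in (n : ℝ)..n', (1 / (L + 1) : ℝ) = ((n' : ℝ) - n) * (1 / (L + 1)) := by
      rw [intervalIntegral.integral_const, smul_eq_mul]
    rw [← h3]
    apply intervalIntegral.integral_mono_on hnn'r
    · exact intervalIntegrable_const
    · exact uw05_int hn2' (by linarith)
    · intro t ht
      have h4 : 0 < Real.log t := Real.log_pos (by linarith [ht.1])
      apply one_div_le_one_div_of_le h4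
      exact (Real.log_le_log (by linarith [ht.1]) ht.2).trans hlog'
  have b6 : (g / 2) / (L + 1) ≤ ((n' : ℝ) - n) * (1 / (L + 1)) := by
    rw [mul_one_div]
    apply div_le_div_of_nonneg_right _ (by linarith)
    linarith
  have b7 : 3 * n * Real.exp (-(L ^ d')) < (g / 2) / (L + 1) := by
    rw [lt_div_iff₀ (by linarith)]
    exact hmain
  have b8 := (abs_le.1 b1).2
  have b9 := (abs_le.1 b2).1
  linarith

lemma uw05_inf (c : ℝ) (hc : 0 < c) (A : Set ℕ) (h : ∀ d < c, UHL d A) : A.Infinite := by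
  rw [Set.infinite_iff_exists_gt]
  intro N
  obtain ⟨n, hn, hnN⟩ := ((uw05_core c hc A h 0 hc one_pos).and (eventually_ge_atTop N)).exists
  obtain ⟨a, ha, hna, _⟩ := hn
  exact ⟨a, ha, hnN.trans_lt hna⟩

lemma uw05_le_one (c : ℝ) (hc : 0 < c) (A : Set ℕ) (h : ∀ d < c, UHL d A) : c ≤ 1 := by
  by_contra hc1
  push Not at hc1
  obtain ⟨d', hd'⟩ : ∃ d', d' = (1 + c) / 2 := ⟨_, rfl⟩
  have hd'1 : 1 < d' := by linarith
  have hlog : Tendsto (fun n : ℕ => Real.log n) atTop atTop :=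
    Real.tendsto_log_atTop.comp tendsto_natCast_atTop_atTop
  have E1 : ∀ᶠ L : ℝ in atTop, 4 ≤ L ^ (d' - 1) :=
    (tendsto_rpow_atTop (by linarith)).eventually_ge_atTop 4
  have E : ∀ᶠ x : ℕ in atTop, 2 ≤ x ∧ 2 ≤ Real.log x ∧
      |cnt A {0} 1 0 x - ∫ t in (2 : ℝ)..x, 1 / Real.log t| ≤ 1 / 8 := by
    filter_upwards [uw05_law A d' (by linarith) (h d' (by linarith)), hlog.eventually E1,
      hlog.eventually (eventually_ge_atTop 2), eventually_ge_atTop 2] with x hx e1 e2 hx2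
    refine ⟨hx2, e2, hx.trans ?_⟩
    have hx0 : (0 : ℝ) < x := by exact_mod_cast (by omega : 0 < x)
    obtain ⟨L, hL⟩ : ∃ L, L = Real.log x := ⟨_, rfl⟩
    have hxL : Real.exp L = x := by rw [hL]; exact Real.exp_log hx0
    rw [← hL] at e1 e2 ⊢
    have hL0 : 0 < L := by linarith
    have h3 : 4 * L ≤ L ^ d' := by
      have : L ^ d' = L ^ (d' - 1) * L := by
        rw [← Real.rpow_add_one hL0.ne']
        congr 1
        ring
      rw [this]
      exact mul_le_mul_of_nonneg_right e1 hL0.le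
    rw [← hxL, ← Real.exp_add]
    have h4 : Real.exp (L + -(L ^ d')) ≤ Real.exp (-6) := Real.exp_le_exp.2 (by linarith)
    refine h4.trans ?_
    rw [Real.exp_neg, one_div]
    apply inv_anti₀ (by norm_num)
    have h5 := Real.add_one_le_exp (3 : ℝ)
    have h6 : Real.exp 6 = Real.exp 3 * Real.exp 3 := by rw [← Real.exp_add]; norm_num
    rw [h6]
    nlinarith
  obtain ⟨X, hX⟩ := Filter.eventually_atTop.1 E
  obtain ⟨a, haA, haX⟩ := (Set.infinite_iff_exists_gt.1 (uw05_inf c hc A h)) (X + 1)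
  obtain ⟨m, rfl⟩ : ∃ m, a = m + 1 := ⟨a - 1, by omega⟩
  obtain ⟨m2, m3, m4⟩ := hX m (by omega)
  obtain ⟨_, _, m5⟩ := hX (m + 1) (by omega)
  have hcnt : cnt A {0} 1 0 (m + 1) = cnt A {0} 1 0 m + 1 := by
    classical
    unfold cnt
    have h3 : (Finset.Icc 1 (m + 1)).filter (fun n => n ≡ 0 [MOD 1] ∧
        ∀ h ∈ ({0} : Finset ℕ), n + h ∈ A) = insert (m + 1) ((Finset.Icc 1 m).filter
        (fun n => n ≡ 0 [MOD 1] ∧ ∀ h ∈ ({0} : Finset ℕ), n + h ∈ A)) := by
      ext n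
      simp only [Finset.mem_filter, Finset.mem_Icc, Finset.mem_insert, Finset.mem_singleton,
        forall_eq, add_zero, Nat.modEq_one, true_and]
      constructor
      · rintro ⟨⟨h1, h2⟩, h3⟩
        rcases Nat.lt_or_ge n (m + 1) with h4 | h4
        · right
          exact ⟨⟨h1, by omega⟩, h3⟩
        · left
          omega
      · rintro (h1 | ⟨⟨h1, h2⟩, h3⟩)
        · subst h1
          exact ⟨⟨by omega, le_rfl⟩, haA⟩
        · exact ⟨⟨h1, by omega⟩, h3⟩
    rw [h3, Finset.card_insert_of_notMem]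
    · push_cast
      ring
    · intro h4
      rw [Finset.mem_filter, Finset.mem_Icc] at h4
      omega
  have hm2 : (2 : ℝ) ≤ m := by exact_mod_cast m2
  have b4 : (∫ t in (2 : ℝ)..((m + 1 : ℕ) : ℝ), 1 / Real.log t) -
      ∫ t in (2 : ℝ)..m, 1 / Real.log t = ∫ t in (m : ℝ)..((m + 1 : ℕ) : ℝ), 1 / Real.log t := by
    rw [intervalIntegral.integral_interval_sub_left]
    · exact uw05_int le_rfl (by push_cast; linarith)
    · exact uw05_int le_rfl hm2
  have b5 : ∫ t in (m : ℝ)..((m + 1 : ℕ) : ℝ), 1 / Real.log t ≤ 1 / 2 := by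
    have h3 : ∫ _t in (m : ℝ)..((m + 1 : ℕ) : ℝ), (1 / 2 : ℝ) = 1 / 2 := by
      rw [intervalIntegral.integral_const, smul_eq_mul]
      push_cast
      ring
    rw [← h3]
    apply intervalIntegral.integral_mono_on (by push_cast; linarith)
    · exact uw05_int hm2 (by push_cast; linarith)
    · exact intervalIntegrable_const
    · intro t ht
      apply one_div_le_one_div_of_le (by norm_num)
      exact m3.trans (Real.log_le_log (by linarith) ht.1)
  have b8 := (abs_le.1 m4).1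
  have b9 := (abs_le.1 m5).2
  rw [hcnt] at b9
  have b10 := (abs_le.1 m4).2
  linarith

/-- PROOF. Let `max d 0 < d' < c`. The law `UHL d'` for `H = {0}`, `q = 1`, `a = 0`
(`hlConst 1 0 {0} = 1`: `LibCI99.hlConst_one` and the factors `(1 - 1/p)/(1 - 1/p) = 1`, compare
`hlConst_one` in LibTHL/Cram.lean; or `const_z`: `V z ≤ ... ` for all `z`) at `n` and
`n' = n + ⌊g⌋`, `g = n exp (-(log n)^d) ≤ n`: `#(A ∩ (n, n']) ≥ ∫_n^{n'} 1/log -
3 n exp (-(log n)^d') ≥ (g - 1)/log (2n) - 3 n exp (-(log n)^d') > 0` for large `n`. -/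
theorem next_elt (c : ℝ) (hc : 0 < c) (A : Set ℕ) (h : ∀ d < c, UHL d A) (d : ℝ) (h1 : d < c) :
    ∀ᶠ n : ℕ in atTop, ∃ a ∈ A, n < a ∧ (a : ℝ) ≤ n + n * Real.exp (-(Real.log n ^ d)) :=
  uw05_core c hc A h d h1 (h1.trans_le (uw05_le_one c hc A h))

/-- PROOF. From `next_elt`. -/
theorem law_infinite (c : ℝ) (hc : 0 < c) (A : Set ℕ) (h : ∀ d < c, UHL d A) : A.Infinite :=
  uw05_inf c hc A h

/-- a power with a larger exponent wins -/
lemma uw05_pow (d e : ℝ) (hde : d < e) (he : 0 < e) :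
    Tendsto (fun L : ℝ => L ^ d - L ^ e) atTop atBot := by
  have h1 : Tendsto (fun L : ℝ => L ^ e * (L ^ (-(e - d)) - 1)) atTop atBot := by
    have h2 : Tendsto (fun L : ℝ => L ^ (-(e - d)) - 1) atTop (𝓝 (0 - 1)) :=
      (tendsto_rpow_neg_atTop (by linarith)).sub_const 1
    exact (tendsto_rpow_atTop he).atTop_mul_neg (by norm_num) h2
  refine h1.congr' ?_
  filter_upwards [eventually_gt_atTop 0] with L hL
  rw [mul_sub, mul_one, ← Real.rpow_add hL]
  congr 2
  ring

/-- PROOF. `next_elt` for `d' ∈ (d, c)` at the elements `n = a_k`: the gap divided by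
`a_k exp (-(log a_k)^d)` is at most `exp ((log a_k)^d - (log a_k)^d') → 0` if `d' > 0` (take
`d' > max d 0`; then `(log)^d' - (log)^d → ∞`). -/
theorem gapLim_zero (c : ℝ) (hc : 0 < c) (A : Set ℕ) (h : ∀ d < c, UHL d A) (d : ℝ) (h1 : d < c) :
    gapLim (fun n => n * Real.exp (-(Real.log n ^ d))) A = 0 := by
  have hinf : (Set.ofPred (· ∈ A)).Infinite := law_infinite c hc A h
  obtain ⟨b, hb⟩ : ∃ b, b = max d 0 := ⟨_, rfl⟩
  have hb0 : 0 ≤ b := hb ▸ le_max_right _ _
  have hbd : d ≤ b := hb ▸ le_max_left _ _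
  have hbc : b < c := by
    rw [hb]
    exact max_lt h1 hc
  obtain ⟨d', hd'⟩ : ∃ d', d' = (b + c) / 2 := ⟨_, rfl⟩
  have hmono : StrictMono (Nat.nth (· ∈ A)) := Nat.nth_strictMono hinf
  have hnth : Tendsto (fun k : ℕ => Nat.nth (· ∈ A) k) atTop atTop := hmono.tendsto_atTop
  have hlog : Tendsto (fun k : ℕ => Real.log (Nat.nth (· ∈ A) k : ℝ)) atTop atTop :=
    Real.tendsto_log_atTop.comp (tendsto_natCast_atTop_atTop.comp hnth)
  have hpow := (uw05_pow d d' (by linarith) (by linarith)).comp hlog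
  have hexp := Real.tendsto_exp_atBot.comp hpow
  have hreal : Tendsto (fun k : ℕ => ((Nat.nth (· ∈ A) (k + 1) : ℝ) - (Nat.nth (· ∈ A) k : ℝ)) /
      ((Nat.nth (· ∈ A) k : ℝ) * Real.exp (-(Real.log (Nat.nth (· ∈ A) k : ℝ) ^ d)))) atTop
      (𝓝 0) := by
    refine tendsto_of_tendsto_of_tendsto_of_le_of_le' tendsto_const_nhds hexp ?_ ?_
    · filter_upwards with k
      apply div_nonneg
      · have := (hmono (Nat.lt_succ_self k)).le
        have h3 : ((Nat.nth (· ∈ A) k : ℕ) : ℝ) ≤ (Nat.nth (· ∈ A) (k + 1) : ℕ) := by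
          exact_mod_cast this
        linarith
      · positivity
    · filter_upwards [hnth.eventually (next_elt c hc A h d' (by linarith)),
        hnth.eventually (eventually_ge_atTop 1)] with k hk hk1
      obtain ⟨a, haA, hka, hak⟩ := hk
      simp only [Function.comp_apply]
      obtain ⟨n, hn⟩ : ∃ n, n = Nat.nth (· ∈ A) k := ⟨_, rfl⟩
      rw [← hn] at hka hak hk1 ⊢
      have hn0 : (0 : ℝ) < n := by exact_mod_cast hk1
      have h3 : Nat.nth (· ∈ A) (k + 1) ≤ a := by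
        by_contra hlt
        push Not at hlt
        have h5 := Nat.le_nth_of_lt_nth_succ hlt haA
        rw [← hn] at h5
        omega
      have h4 : (Nat.nth (· ∈ A) (k + 1) : ℝ) - n ≤ n * Real.exp (-(Real.log n ^ d')) := by
        have : ((Nat.nth (· ∈ A) (k + 1) : ℕ) : ℝ) ≤ a := by exact_mod_cast h3
        linarith
      rw [div_le_iff₀ (by positivity)]
      refine h4.trans (le_of_eq ?_)
      rw [mul_left_comm, ← Real.exp_add]
      congr 2
      ring
  unfold gapLim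
  have h5 := ENNReal.tendsto_ofReal hreal
  rw [ENNReal.ofReal_zero] at h5
  exact h5.limsup_eq

/-- PROOF. Let `max d 0 < d' < c`. For all large `x`, `exists_gap` gives `n ∈ (x, 2x]` such that
no element of `A` is in `(n, n + y]`, `y = ⌊(log x)^(1+d')⌋`. Let `a_k` be the largest element of
`A` which is `≤ n` (`A` is infinite, `n` large); `a_{k+1} > n + y`, so
`a_{k+1} - a_k ≥ y ≥ (log x)^(1+d')/2`, and `a_k ≥ x/2` by `next_elt` (applied at `⌊x/2⌋`), so
`(log a_k)^(1+d) ≤ 2 (log x)^(1 + max d 0)`-ish: the quotient tends to infinity with `x`, and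
`k → ∞`. So for every `K` the quotient is `≥ K` for infinitely many `k`. -/
theorem gapLim_top (c : ℝ) (hc : 0 < c) (hc1 : c ≤ 1) (A : Set ℕ) (h : ∀ d < c, UHL d A) (d : ℝ)
    (h1 : d < c) : gapLim (fun n => Real.log n ^ (1 + d)) A = ⊤ := by
  classical
  have hinf : (Set.ofPred (· ∈ A)).Infinite := law_infinite c hc A h
  obtain ⟨e, he⟩ : ∃ e, e = max d 0 := ⟨_, rfl⟩
  have he0 : 0 ≤ e := he ▸ le_max_right _ _
  have hed : d ≤ e := he ▸ le_max_left _ _
  have hec : e < c := by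
    rw [he]
    exact max_lt h1 hc
  obtain ⟨d', hd'⟩ : ∃ d', d' = (e + c) / 2 := ⟨_, rfl⟩
  have hmono : StrictMono (Nat.nth (· ∈ A)) := Nat.nth_strictMono hinf
  have hlog : Tendsto (fun n : ℕ => Real.log n) atTop atTop :=
    Real.tendsto_log_atTop.comp tendsto_natCast_atTop_atTop
  unfold gapLim
  apply ENNReal.eq_top_of_forall_nnreal_le
  intro K
  refine le_limsup_of_frequently_le ?_ (by isBoundedDefault)
  · rw [Filter.frequently_atTop]
    intro k0
    have E1 : ∀ᶠ L : ℝ in atTop, (K : ℝ) * 2 ^ (1 + e) ≤ L ^ (d' - e) :=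
      (tendsto_rpow_atTop (by linarith)).eventually_ge_atTop _
    obtain ⟨x, ⟨n, hxn, hn2, hgap⟩, e1, e2, hx2, hxk⟩ := ((exists_gap c hc1 A h d' (by linarith)
      (by linarith)).and ((hlog.eventually E1).and ((hlog.eventually (eventually_ge_atTop 1)).and
      ((eventually_ge_atTop 2).and (eventually_ge_atTop (Nat.nth (· ∈ A) (k0 + 4))))))).exists
    have hx0 : (0 : ℝ) < x := by exact_mod_cast (by omega : 0 < x)
    obtain ⟨k', hk'⟩ : ∃ k', k' = Nat.count (· ∈ A) (n + 1) := ⟨_, rfl⟩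
    have hk'1 : k0 + 4 < k' := by
      rw [hk']
      by_contra hlt
      push Not at hlt
      have h3 := hmono.monotone hlt
      have h4 := Nat.le_nth_count hinf (n + 1)
      omega
    obtain ⟨k, rfl⟩ : ∃ k, k' = k + 1 := ⟨k' - 1, by omega⟩
    refine ⟨k, by omega, ?_⟩
    have hk1 : Nat.nth (· ∈ A) k < n + 1 := Nat.nth_lt_of_lt_count (by omega)
    have hk2 : n + 1 ≤ Nat.nth (· ∈ A) (k + 1) := by
      rw [hk']
      exact Nat.le_nth_count hinf (n + 1)
    have hk3 := hgap _ (Nat.nth_mem_of_infinite hinf (k + 1)) (by omega)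
    have hk4 : 3 ≤ Nat.nth (· ∈ A) k := by
      have := hmono.id_le k
      simp only [id] at this
      omega
    obtain ⟨L, hL⟩ : ∃ L, L = Real.log x := ⟨_, rfl⟩
    rw [← hL] at e1 e2 hk3
    obtain ⟨a, ha⟩ : ∃ a, a = Nat.nth (· ∈ A) k := ⟨_, rfl⟩
    obtain ⟨a', ha'⟩ : ∃ a', a' = Nat.nth (· ∈ A) (k + 1) := ⟨_, rfl⟩
    rw [← ha] at hk1 hk4
    rw [← ha'] at hk3
    simp only [← ha, ← ha']
    have ha3 : (3 : ℝ) ≤ a := by exact_mod_cast hk4
    have hla1 : 1 ≤ Real.log a := by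
      rw [Real.le_log_iff_exp_le (by linarith)]
      linarith [Real.exp_one_lt_d9]
    have hla2 : Real.log a ≤ 2 * L := by
      have h3 : (a : ℝ) ≤ 2 * x := by exact_mod_cast (by omega : a ≤ 2 * x)
      calc Real.log a ≤ Real.log (2 * x) := Real.log_le_log (by linarith) h3
        _ = Real.log 2 + L := by rw [Real.log_mul (by norm_num) hx0.ne', hL]
        _ ≤ 2 * L := by linarith [Real.log_two_lt_d9]
    have hden : Real.log a ^ (1 + d) ≤ 2 ^ (1 + e) * L ^ (1 + e) := by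
      calc Real.log a ^ (1 + d) ≤ Real.log a ^ (1 + e) :=
            Real.rpow_le_rpow_of_exponent_le hla1 (by linarith)
        _ ≤ (2 * L) ^ (1 + e) := Real.rpow_le_rpow (by linarith) hla2 (by linarith)
        _ = _ := Real.mul_rpow (by norm_num) (by linarith)
    have hden0 : 0 < Real.log a ^ (1 + d) := Real.rpow_pos_of_pos (by linarith) _
    have hnum : L ^ (1 + d') ≤ (a' : ℝ) - a := by
      have h3 := Nat.lt_floor_add_one (L ^ (1 + d'))
      have h4 : n + ⌊L ^ (1 + d')⌋₊ + 1 ≤ a' := hk3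
      have h5 : ((n + ⌊L ^ (1 + d')⌋₊ + 1 : ℕ) : ℝ) ≤ a' := by exact_mod_cast h4
      have h6 : (a : ℝ) ≤ n := by exact_mod_cast (by omega : a ≤ n)
      push_cast at h5
      linarith
    rw [ENNReal.le_ofReal_iff_toReal_le ENNReal.coe_ne_top]
    · rw [ENNReal.coe_toReal, le_div_iff₀ hden0]
      calc (K : ℝ) * Real.log a ^ (1 + d) ≤ K * (2 ^ (1 + e) * L ^ (1 + e)) :=
            mul_le_mul_of_nonneg_left hden K.2
        _ = (K * 2 ^ (1 + e)) * L ^ (1 + e) := by ring
        _ ≤ L ^ (d' - e) * L ^ (1 + e) :=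
            mul_le_mul_of_nonneg_right e1 (Real.rpow_nonneg (by linarith) _)
        _ = L ^ (1 + d') := by
            rw [← Real.rpow_add (by linarith)]
            congr 1
            ring
        _ ≤ (a' : ℝ) - a := hnum
    · apply div_nonneg _ hden0.le
      exact (Real.rpow_nonneg (by linarith) _).trans hnum

end Pool.Agent.LibUHL
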